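import Pool.Agent.HGP.Stmts

/-!
# The dimensions form an automatic sequence
-/

namespace HGP

open Pool.Agent.Lib_helper74.Hit (hits qd up cf Sq)

theorem AUT.arith (a w c M : ℤ) (ha : 0 < a) (hc : |c| < a) (h0 : 0 ≤ 2 * a * w - c)
    (h1 : 2 * a * w - c < 2 * a * M) : 0 ≤ a * w - c ∧ a * w - c < a * M := by
  have hc' := abs_lt.1 hc
  have hw : 0 ≤ w := by
    by_contra h
    have h2 : w + 1 ≤ 0 := by omega
    have h3 : a * (w + 1) ≤ 0 := mul_nonpos_of_nonneg_of_nonpos ha.le h2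
    nlinarith
  constructor
  · rcases hw.eq_or_lt with h | h
    · subst h
      linarith
    · have h2 : a * 1 ≤ a * w := mul_le_mul_of_nonneg_left h ha.le
      linarith
  · rcases lt_trichotomy w M with h | h | h
    · have h2 : a * (w + 1) ≤ a * M := mul_le_mul_of_nonneg_left h ha.le
      linarith
    · subst h
      linarith
    · have h2 : a * (M + 1) ≤ a * w := mul_le_mul_of_nonneg_left h ha.le
      linarith

theorem AUT.qz_natCast (d m : ℕ) : qz d (m : ℤ) = qd (Fin d) m := by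
  simp [qz]

theorem AUT.key (hG : P_GSP) (hA : P_GAP) (hV : P_VNI) (d : ℕ) : ∃ K : ℕ, ∀ e j : ℕ, j < 2 ^ e →
    (∀ n, qd (Fin d) (2 ^ e * n + j) = 0) ∨ ∃ e' j' : ℕ, e' ≤ K ∧ j' < 2 ^ e' ∧
      ∀ n, qd (Fin d) (2 ^ e * n + j) = qd (Fin d) (2 ^ e' * n + j') := by
  choose T₀ hT₀ using fun c => hG d c
  obtain ⟨K, hK⟩ := hA d (d + 2 ^ (d + 1)) (fun c => T₀ c + c.natAbs)
  refine ⟨K, fun e => ?_⟩
  induction e with
  | zero =>
    intro j hj
    exact Or.inr ⟨0, j, Nat.zero_le _, hj, fun n => rfl⟩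
  | succ e ih =>
    intro j hj
    by_cases heK : e + 1 ≤ K
    · exact Or.inr ⟨e + 1, j, heK, hj, fun _ => rfl⟩
    by_cases h0 : ∀ n, qd (Fin d) (2 ^ (e + 1) * n + j) = 0
    · exact Or.inl h0
    obtain ⟨n₀, hn₀⟩ := not_forall.1 h0
    obtain ⟨r, N, hr, hrN, hN⟩ := hV d _ hn₀
    obtain ⟨c, t, hcK, hTt, htK, hdvd⟩ := hK ((2 ^ (e + 1) * n₀ + j : ℕ) : ℤ)
      ⟨r, N, by push_cast; exact hr, hrN, hN⟩
    obtain ⟨s, rfl⟩ : ∃ s, t = s + 1 := ⟨t - 1, by omega⟩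
    obtain ⟨u, rfl⟩ : ∃ u, e = s + u := ⟨e - s, by omega⟩
    have hpow : (2 : ℤ) ^ (s + u + 1) = 2 ^ (s + 1) * 2 ^ u := by ring
    have hpow' : (2 : ℤ) ^ (s + u) = 2 ^ s * 2 ^ u := by ring
    have hdvd2 : (2 ^ (s + 1) : ℤ) ∣ (j : ℤ) + c := by
      have h1 : ((2 ^ (s + u + 1) * n₀ + j : ℕ) : ℤ) + c =
          2 ^ (s + 1) * (2 ^ u * n₀) + ((j : ℤ) + c) := by
        push_cast
        rw [hpow]
        ring
      rw [h1] at hdvd
      exact (Int.dvd_add_right (Dvd.intro _ rfl)).1 hdvd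
    obtain ⟨w, hw⟩ := hdvd2
    have hTs : T₀ c + c.natAbs ≤ s := by
      have h1 : T₀ c + c.natAbs < s + 1 := hTt
      omega
    have hc : |c| < 2 ^ s := by
      have h1 : c.natAbs < 2 ^ s :=
        lt_of_le_of_lt (le_trans (Nat.le_add_left _ _) hTs) Nat.lt_two_pow_self
      rw [Int.abs_eq_natAbs]
      exact_mod_cast h1
    have hj' : (j : ℤ) < 2 ^ (s + u + 1) := by exact_mod_cast hj
    have hj2 : (j : ℤ) = 2 * 2 ^ s * w - c := by
      have h1 : (2 : ℤ) ^ (s + 1) = 2 * 2 ^ s := by ring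
      rw [h1] at hw
      linarith
    have hpos : (0 : ℤ) < 2 ^ s := by positivity
    obtain ⟨h1, h2⟩ := AUT.arith (2 ^ s) w c (2 ^ u) hpos hc (by rw [← hj2]; positivity) (by
      rw [← hj2]
      calc (j : ℤ) < 2 ^ (s + u + 1) := hj'
        _ = 2 * 2 ^ s * 2 ^ u := by ring)
    obtain ⟨j', hj'⟩ := Int.eq_ofNat_of_zero_le h1
    have hjlt : j' < 2 ^ (s + u) := by
      have h3 : (j' : ℤ) < 2 ^ (s + u) := by
        rw [← hj', hpow']
        exact h2
      exact_mod_cast h3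
    have hall : ∀ n, qd (Fin d) (2 ^ (s + u + 1) * n + j) = qd (Fin d) (2 ^ (s + u) * n + j') := by
      intro n
      rw [← AUT.qz_natCast, ← AUT.qz_natCast]
      have e1 : ((2 ^ (s + u + 1) * n + j : ℕ) : ℤ) = 2 ^ (s + 1) * (2 ^ u * (n : ℤ) + w) - c := by
        push_cast
        rw [hpow, hj2]
        ring
      have e2 : ((2 ^ (s + u) * n + j' : ℕ) : ℤ) = 2 ^ s * (2 ^ u * (n : ℤ) + w) - c := by
        push_cast
        rw [← hj', hpow']
        ring
      rw [e1, e2, hT₀ c (s + 1) (T₀ c) (by omega) le_rfl, hT₀ c s (T₀ c) (by omega) le_rfl]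
    rcases ih j' hjlt with h | ⟨e', j'', he', hj'', h⟩
    · exact absurd ((hall n₀).trans (h n₀)) hn₀
    · exact Or.inr ⟨e', j'', he', hj'', fun n => (hall n).trans (h n)⟩

theorem t_AUT : Stmt_AUT := by
  intro hG hA hV d
  obtain ⟨K, hK⟩ := AUT.key hG hA hV d
  refine Set.Finite.subset (s := {0} ∪ ⋃ e' ∈ Set.Iic K, (fun j' : ℕ => fun n =>
    qd (Fin d) (2 ^ e' * n + j')) '' Set.Iio (2 ^ e')) ?_ ?_
  · refine (Set.finite_singleton _).union ?_
    exact (Set.finite_Iic K).biUnion fun e' _ => (Set.finite_Iio _).image _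
  · rintro g ⟨e, j, hj, rfl⟩
    rcases hK e j hj with h | ⟨e', j', he', hj', h⟩
    · left
      rw [Set.mem_singleton_iff]
      funext n
      exact h n
    · right
      refine Set.mem_biUnion (x := e') he' ⟨j', hj', ?_⟩
      funext n
      exact (h n).symm

end HGP
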