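import Pool.Agent.HGP.MAI

/-!
# Gap splitting for the hit problem: the assembly, with the modules as hypotheses
-/

namespace HGP

theorem asm (tOPB : Stmt_OPB) (tSBB : Stmt_SBB) (tNNB : Stmt_NNB) (tCMC : Stmt_CMC)
    (tCCA : Stmt_CCA) (tCCB : Stmt_CCB) (tCO1 : Stmt_CO1) (tCO2 : Stmt_CO2) (tGEN : Stmt_GEN)
    (tHTS : Stmt_HTS) (tNRM : Stmt_NRM) (tEXB : Stmt_EXB) (tEXE : Stmt_EXE) (tEXO : Stmt_EXO)
    (tCTB : Stmt_CTB) (tLIN : Stmt_LIN) (tPJB : Stmt_PJB) (tPJE : Stmt_PJE) (tUNI : Stmt_UNI)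
    (tFKS : Stmt_FKS) (tLO1 : Stmt_LO1) (tCFX : Stmt_CFX) (tLO2 : Stmt_LO2) (tNUL : Stmt_NUL)
    (tRES : Stmt_RES) (tKR1 : Stmt_KR1) (tKR2 : Stmt_KR2) (tTRN : Stmt_TRN) (tCK1 : Stmt_CK1)
    (tCK2 : Stmt_CK2) (tCK3 : Stmt_CK3) (tQZR : Stmt_QZR) (tDUB : Stmt_DUB) (tLFG : Stmt_LFG)
    (tDET : Stmt_DET) (tFST : Stmt_FST) (tCNT : Stmt_CNT) (tGSP : Stmt_GSP) (tGAP : Stmt_GAP)
    (tVNI : Stmt_VNI) (tAUT : Stmt_AUT) (tFIN : Stmt_FIN) : P_GSP ∧ P_AUT ∧ P_FIN := by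
  have hOPB : P_OPB := tOPB
  have hSBB : P_SBB := tSBB
  have hNNB : P_NNB := tNNB hOPB
  have hCMC : P_CMC := tCMC hOPB
  have hCCA : P_CCA := tCCA
  have hCCB : P_CCB := tCCB
  have hCO1 : P_CO1 := tCO1 hOPB hCMC hCCA hCCB
  have hCO2 : P_CO2 := tCO2 hOPB hCMC hCCA hCCB
  have hGEN : P_GEN := tGEN hOPB hNNB hCO1 hCO2
  have hHTS : P_HTS := tHTS hOPB hNNB hGEN
  have hNRM : P_NRM := tNRM hOPB hNNB hGEN
  have hEXB : P_EXB := tEXB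
  have hEXE : P_EXE := tEXE hSBB hEXB
  have hEXO : P_EXO := tEXO hOPB hEXB
  have hCTB : P_CTB := tCTB hOPB hHTS
  have hLIN : P_LIN := tLIN
  have hPJB : P_PJB := tPJB hOPB hNNB hSBB hLIN hEXB hEXO hCTB
  have hPJE : P_PJE := tPJE hEXB hCTB
  have hUNI : P_UNI := tUNI hSBB hEXB hEXE hCTB
  have hFKS : P_FKS := tFKS
  have hLO1 : P_LO1 := tLO1 hOPB hNNB hFKS
  have hCFX : P_CFX := tCFX hOPB hEXO
  have hLO2 : P_LO2 := tLO2 hOPB hNNB hLO1 hCFX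
  have hNUL : P_NUL := tNUL
  have hRES : P_RES := tRES hSBB hLIN
  have hKR1 : P_KR1 := tKR1 hNNB hSBB hLIN hPJE hCFX hLO2 hRES
  have hKR2 : P_KR2 := tKR2 hNNB hNUL
  have hTRN : P_TRN := tTRN hNNB hSBB hEXE hCTB
  have hCK1 : P_CK1 := tCK1 hOPB hNNB hSBB hLIN hPJB hPJE hUNI hLO1 hLO2 hRES hTRN
  have hCK2 : P_CK2 := tCK2 hSBB hLIN hRES hTRN hCK1
  have hCK3 : P_CK3 := tCK3 hLIN hRES hTRN hNUL
  have hQZR : P_QZR := tQZR hNNB hSBB hHTS hEXB hCTB hLIN hPJB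
  have hDUB : P_DUB := tDUB
  have hLFG : P_LFG := tLFG hNNB hNRM hPJB hTRN
  have hDET : P_DET := tDET hNNB hSBB hLIN hPJB hUNI hDUB hLFG
  have hFST : P_FST := tFST hOPB hNNB hGEN hPJB hQZR hDET
  have hMAI : P_MAI := t_MAI hKR1 hKR2 hCK2 hCK3 hQZR hFST
  have hCNT : P_CNT := tCNT hOPB hNNB hSBB hHTS hLIN hPJB hUNI hDUB hDET
  have hGSP : P_GSP := tGSP hMAI hCNT
  have hGAP : P_GAP := tGAP
  have hVNI : P_VNI := tVNI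
  have hAUT : P_AUT := tAUT hGSP hGAP hVNI
  have hFIN : P_FIN := tFIN hGSP hGAP hVNI
  exact ⟨hGSP, hAUT, hFIN⟩

end HGP
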