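import Pool.Agent.Lib_helper74.Hit.Defs

/-!
# Gap splitting for the hit problem: the numbers in the formula
-/

namespace HGP

/-- The number of the subspaces of dimension `m` of the space of dimension `d` over the field with
two elements. -/
noncomputable def nsub (d m : ℕ) : ℕ :=
  Nat.card {L : Submodule (ZMod 2) (Fin d → ZMod 2) // Module.finrank (ZMod 2) L = m}

/-- The dimension of `(Q P_d)_z` for an integer `z`; it is zero for `z < 0`. -/
noncomputable def qz (d : ℕ) (z : ℤ) : ℕ :=
  if 0 ≤ z then Pool.Agent.Lib_helper74.Hit.qd (Fin d) z.toNat else 0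

end HGP
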