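import Pool.Agent.HB.Base
import Pool.Agent.Lib_helper74.Hit.Op
import Pool.Agent.HGP.Dims

/-!
# Gap splitting for the hit problem: definitions

`PS σ` is the polynomial algebra over the field with two elements in the variables `σ`, `WS σ` the
space of the coefficient vectors of linear forms.
-/

namespace HGP

open MvPolynomial

/-- Polynomials over the field with two elements. -/
abbrev PS (σ : Type) : Type := MvPolynomial σ (ZMod 2)

/-- The coefficient vectors of linear forms. -/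
abbrev WS (σ : Type) : Type := σ → ZMod 2

variable {σ τ : Type}

/-- The linear form with the coefficients `w`. -/
noncomputable def lf [Fintype σ] (w : WS σ) : PS σ := ∑ i, C (w i) * X i

/-- The homogeneous polynomials of degree `n`. -/
noncomputable def Hg (σ : Type) (n : ℕ) : Submodule (ZMod 2) (PS σ) :=
  homogeneousSubmodule σ (ZMod 2) n

/-! ### operations -/

/-- The total operation with `m` parameters: the variable `x` goes to
`x + ∑ j < m, x ^ 2 ^ (j + 1) * X j`. -/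
noncomputable def ph (σ : Type) (m : ℕ) : PS σ →ₐ[ZMod 2] MvPolynomial ℕ (PS σ) :=
  aeval fun i => C (X i) + ∑ j ∈ Finset.range m, C (X i ^ 2 ^ (j + 1)) * X j

/-- The operation of the exponent `α`: a coefficient of the total operation. -/
noncomputable def Mp (m : ℕ) (α : ℕ →₀ ℕ) : PS σ →ₗ[ZMod 2] PS σ :=
  ((lcoeff (PS σ) α).restrictScalars (ZMod 2)).comp (ph σ m).toLinearMap

/-- The total operation with the only parameter number `j`. -/
noncomputable def es (σ : Type) (j : ℕ) : PS σ →ₐ[ZMod 2] Polynomial (PS σ) :=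
  aeval fun i => Polynomial.C (X i) + Polynomial.C (X i ^ 2 ^ (j + 1)) * Polynomial.X

/-- The operation of the exponent `κ` at the place `j`. -/
noncomputable def Os (j κ : ℕ) : PS σ →ₗ[ZMod 2] PS σ :=
  ((Polynomial.lcoeff (PS σ) κ).restrictScalars (ZMod 2)).comp (es σ j).toLinearMap

/-- The degree of the operation `Mp m α`. -/
noncomputable def wt (α : ℕ →₀ ℕ) : ℕ := α.sum fun j a => a * (2 ^ (j + 1) - 1)

/-- The values of the operations with exponents smaller than `2 ^ t`. -/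
noncomputable def NN (σ : Type) (t : ℕ) : Submodule (ZMod 2) (PS σ) :=
  Submodule.span (ZMod 2)
    {g | ∃ (m : ℕ) (α : ℕ →₀ ℕ) (f : PS σ), α ≠ 0 ∧ (∀ j, α j < 2 ^ t) ∧ g = Mp m α f}

/-- The degree `n` part of `NN σ t`. -/
noncomputable def NG (σ : Type) (t n : ℕ) : Submodule (ZMod 2) (PS σ) :=
  Submodule.span (ZMod 2) {g | ∃ (m : ℕ) (α : ℕ →₀ ℕ) (n' : ℕ) (f : PS σ), f ∈ Hg σ n' ∧ α ≠ 0 ∧
    (∀ j, α j < 2 ^ t) ∧ n' + wt α = n ∧ g = Mp m α f}

/-- The values of degree `n` of the operations `Os j κ` with `J j κ`. -/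
noncomputable def OG (σ : Type) (J : ℕ → ℕ → Prop) (n : ℕ) : Submodule (ZMod 2) (PS σ) :=
  Submodule.span (ZMod 2) {g | ∃ (j κ n' : ℕ) (f : PS σ), f ∈ Hg σ n' ∧ J j κ ∧
    n' + κ * (2 ^ (j + 1) - 1) = n ∧ g = Os j κ f}

/-- The generators. -/
def JG (t : ℕ) (j κ : ℕ) : Prop := (j = 0 ∧ ∃ i, i < t ∧ κ = 2 ^ i) ∨ κ = 2 ^ (t - 1)

/-- The generators from `s` on. -/
def JA (s t : ℕ) (j κ : ℕ) : Prop := (j = 0 ∧ ∃ i, s ≤ i ∧ i < t ∧ κ = 2 ^ i) ∨ κ = 2 ^ (t - 1)

/-- The squares of exponent `2 ^ i` with `s ≤ i`. -/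
def JS (s : ℕ) (j κ : ℕ) : Prop := j = 0 ∧ ∃ i, s ≤ i ∧ κ = 2 ^ i

/-- The values of degree `D` more of the operations whose exponent is small and not divisible by
`2 ^ e`. -/
noncomputable def ND (t e D : ℕ) (f : PS σ) : Submodule (ZMod 2) (PS σ) :=
  Submodule.span (ZMod 2) {g | ∃ (m : ℕ) (ρ : ℕ →₀ ℕ), wt ρ = D ∧ (∀ i, ρ i < 2 ^ t) ∧
    (∃ i, ¬ 2 ^ e ∣ ρ i) ∧ g = Mp m ρ f}

/-! ### substitutions -/

/-- The substitution given by a linear map. -/
noncomputable def sb [DecidableEq σ] [Fintype τ] (A : WS σ →ₗ[ZMod 2] WS τ) : PS σ →ₐ[ZMod 2] PS τ :=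
  aeval fun i => lf (A (Pi.single i 1))

/-- The variables of the second kind become zero. -/
noncomputable def kl (σ τ : Type) : PS (σ ⊕ τ) →ₐ[ZMod 2] PS σ := aeval (Sum.elim X fun _ => 0)

/-- Apply a linear form to the part in the variables of the second kind. -/
noncomputable def ct (μ : PS τ →ₗ[ZMod 2] ZMod 2) : PS (σ ⊕ τ) →ₗ[ZMod 2] PS σ :=
  (basisMonomials (σ ⊕ τ) (ZMod 2)).constr (ZMod 2) fun s =>
    monomial (s.comapDomain Sum.inl Sum.inl_injective.injOn)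
      (μ (monomial (s.comapDomain Sum.inr Sum.inr_injective.injOn) 1))

open Classical in
/-- The extraction: the monomials whose exponents are all `2 ^ t * a + 2 ^ t - 1`. -/
noncomputable def ex (σ : Type) (t : ℕ) : PS σ →ₗ[ZMod 2] PS σ :=
  (basisMonomials σ (ZMod 2)).constr (ZMod 2) fun s =>
    if ∀ i, s i % 2 ^ t = 2 ^ t - 1 then
      monomial (s.mapRange (fun a => a / 2 ^ t) (Nat.zero_div _)) 1 else 0

/-- The vectors whose coordinates of the first kind are zero. -/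
def An {d k m : ℕ} (g : WS (Fin d) ≃ₗ[ZMod 2] WS (Fin k ⊕ Fin m)) :
    Submodule (ZMod 2) (WS (Fin d)) where
  carrier := {w | ∀ i, g w (Sum.inl i) = 0}
  add_mem' := by
    intro a b ha hb i
    rw [map_add, Pi.add_apply, ha i, hb i, add_zero]
  zero_mem' := by
    intro i
    rw [map_zero, Pi.zero_apply]
  smul_mem' := by
    intro c a ha i
    rw [map_smul, Pi.smul_apply, ha i, smul_zero]

/-- The projection. -/
noncomputable def pj (t : ℕ) {d k m : ℕ} (g : WS (Fin d) ≃ₗ[ZMod 2] WS (Fin k ⊕ Fin m))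
    (μ : PS (Fin m) →ₗ[ZMod 2] ZMod 2) : PS (Fin d) →ₗ[ZMod 2] PS (Fin k) :=
  (ex (Fin k) t).comp ((ct μ).comp (sb g.toLinearMap).toLinearMap)

/-- One more variable, at the beginning. -/
def ee {d k m : ℕ} (g : WS (Fin d) ≃ₗ[ZMod 2] WS (Fin k ⊕ Fin m)) :
    WS (Fin (d + 1)) ≃ₗ[ZMod 2] WS (Fin (k + 1) ⊕ Fin m) where
  toFun w := Sum.elim (Fin.cons (w 0) fun i => g (Fin.tail w) (Sum.inl i))
    fun j => g (Fin.tail w) (Sum.inr j)
  invFun u := Fin.cons (u (Sum.inl 0)) (g.symm (Sum.elim (fun i => u (Sum.inl i.succ))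
    fun j => u (Sum.inr j)))
  map_add' a b := by
    have h : Fin.tail (a + b) = Fin.tail a + Fin.tail b := rfl
    funext x
    rcases x with i | j
    · refine Fin.cases ?_ (fun i => ?_) i
      · rfl
      · simp [h, map_add]
    · simp [h, map_add]
  map_smul' c a := by
    have h : Fin.tail (c • a) = c • Fin.tail a := rfl
    funext x
    rcases x with i | j
    · refine Fin.cases ?_ (fun i => ?_) i
      · rfl
      · simp only [h, map_smul, Sum.elim_inl, Fin.cons_succ, Pi.smul_apply, RingHom.id_apply]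
    · simp only [h, map_smul, Sum.elim_inr, Pi.smul_apply, RingHom.id_apply]
  left_inv w := by
    have h : (Sum.elim (fun i => g (Fin.tail w) (Sum.inl i)) fun j => g (Fin.tail w) (Sum.inr j)) =
        g (Fin.tail w) := by
      funext x
      rcases x with i | j <;> rfl
    simp only [Sum.elim_inl, Fin.cons_zero, Fin.cons_succ, Sum.elim_inr, h,
      LinearEquiv.symm_apply_apply]
    exact Fin.cons_self_tail w
  right_inv u := by
    funext x
    rcases x with i | j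
    · refine Fin.cases ?_ (fun i => ?_) i
      · rfl
      · simp
    · simp

/-- A substitution of the variables of the first kind. -/
def bl {k m : ℕ} (B : WS (Fin k) ≃ₗ[ZMod 2] WS (Fin k)) :
    WS (Fin k ⊕ Fin m) ≃ₗ[ZMod 2] WS (Fin k ⊕ Fin m) where
  toFun u := Sum.elim (B (u ∘ Sum.inl)) (u ∘ Sum.inr)
  invFun u := Sum.elim (B.symm (u ∘ Sum.inl)) (u ∘ Sum.inr)
  map_add' a b := by
    have h : (a + b) ∘ (Sum.inl : Fin k → Fin k ⊕ Fin m) = a ∘ Sum.inl + b ∘ Sum.inl := rfl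
    funext x
    rcases x with i | j
    · simp only [Sum.elim_inl, h, map_add, Pi.add_apply]
    · rfl
  map_smul' c a := by
    have h : (c • a) ∘ (Sum.inl : Fin k → Fin k ⊕ Fin m) = c • (a ∘ Sum.inl) := rfl
    funext x
    rcases x with i | j
    · simp only [Sum.elim_inl, h, map_smul, Pi.smul_apply, RingHom.id_apply]
    · rfl
  left_inv u := by
    have h : (Sum.elim (B (u ∘ Sum.inl)) (u ∘ Sum.inr) : WS (Fin k ⊕ Fin m)) ∘ Sum.inl =
        B (u ∘ Sum.inl) := rfl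
    funext x
    rcases x with i | j
    · simp only [Sum.elim_inl, h, LinearEquiv.symm_apply_apply, Function.comp_apply]
    · rfl
  right_inv u := by
    have h : (Sum.elim (B.symm (u ∘ Sum.inl)) (u ∘ Sum.inr) : WS (Fin k ⊕ Fin m)) ∘ Sum.inl =
        B.symm (u ∘ Sum.inl) := rfl
    funext x
    rcases x with i | j
    · simp only [Sum.elim_inl, h, LinearEquiv.apply_symm_apply, Function.comp_apply]
    · rfl

/-- The product of the forms `w` with `v w = 1`. -/
noncomputable def Sv {d : ℕ} (v : WS (Fin d) →ₗ[ZMod 2] ZMod 2) : PS (Fin d) :=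
  ∏ w ∈ Finset.univ.filter (fun w => v w = 1), lf w

/-- The product of the forms `w` with `w 0 = 1`. -/
noncomputable def SL (d : ℕ) : PS (Fin (d + 1)) := Sv (LinearMap.proj 0)

/-! ### the statements of the induction -/

/-- The linear form `μ` vanishes on the hits and on all degrees other than `k - c`. -/
def Ad (c : ℤ) (k m : ℕ) (μ : PS (Fin m) →ₗ[ZMod 2] ZMod 2) : Prop :=
  (∀ f ∈ Pool.Agent.Lib_helper74.Hit.hits (Fin m), μ f = 0) ∧
    ∀ r : ℕ, (r : ℤ) ≠ k - c → ∀ f ∈ Hg (Fin m) r, μ f = 0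

/-- All projections of `f` are zero modulo `NN`. -/
def KK {d : ℕ} (c : ℤ) (t C : ℕ) (f : PS (Fin d)) : Prop :=
  ∀ (k m : ℕ) (g : WS (Fin d) ≃ₗ[ZMod 2] WS (Fin k ⊕ Fin m)) (μ : PS (Fin m) →ₗ[ZMod 2] ZMod 2),
    Ad c k m μ → pj t g μ f ∈ NN (Fin k) C

/-- Injectivity in the degree `2 ^ (C + t) * q - c`. -/
def Inj (d : ℕ) (c : ℤ) (t C : ℕ) (q : ℤ) : Prop :=
  ∀ n : ℕ, (n : ℤ) = 2 ^ (C + t) * q - c → ∀ f ∈ Hg (Fin d) n, KK c t C f → f ∈ NN (Fin d) (C + t)

/-- `f`, homogeneous of degree `n`, is a lift of `u ⊗ ν` at the place `g`. -/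
def Lft (c : ℤ) (t C n : ℕ) {d k m : ℕ} (g : WS (Fin d) ≃ₗ[ZMod 2] WS (Fin k ⊕ Fin m))
    (u : PS (Fin k)) (ν : PS (Fin m)) (f : PS (Fin d)) : Prop :=
  f ∈ Hg (Fin d) n ∧
    (∀ μ : PS (Fin m) →ₗ[ZMod 2] ZMod 2, Ad c k m μ → pj t g μ f - μ ν • u ∈ NN (Fin k) C) ∧
    ∀ (k' m' : ℕ) (g' : WS (Fin d) ≃ₗ[ZMod 2] WS (Fin k' ⊕ Fin m'))
      (μ' : PS (Fin m') →ₗ[ZMod 2] ZMod 2), Ad c k' m' μ' → An g' ≠ An g →
        pj t g' μ' f ∈ NN (Fin k') C

/-- Surjectivity in the degree `2 ^ (C + t) * q - c`. -/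
def Sur (d : ℕ) (c : ℤ) (t C : ℕ) (q : ℤ) : Prop :=
  ∀ (n k m n' r : ℕ) (g : WS (Fin d) ≃ₗ[ZMod 2] WS (Fin k ⊕ Fin m)),
    (n : ℤ) = 2 ^ (C + t) * q - c → (n' : ℤ) = 2 ^ C * q - k → (r : ℤ) = k - c →
    ∀ u ∈ Hg (Fin k) n', ∀ ν ∈ Hg (Fin m) r, ∃ f, Lft c t C n g u ν f

end HGP
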