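import Pool.Agent.HGP.Stmts

/-!
# CCA: degrees and sizes of the exponents in a composite
-/

namespace HGP

open MvPolynomial

namespace CCA

/-- Polynomials in the parameters and in `T`. -/
abbrev AA : Type := MvPolynomial ℕ (Polynomial (ZMod 2))

/-- Every term of `F` has the weight `n`. -/
def Wh (j n : ℕ) (F : AA) : Prop :=
  ∀ (γ : ℕ →₀ ℕ) (κ : ℕ), (coeff γ F).coeff κ ≠ 0 → n = wt γ + κ * (2 ^ (j + 1) - 1)

/-- Every term of `F` has an exponent of size at least `s`. -/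
def Lg (s : ℕ) (F : AA) : Prop :=
  ∀ (γ : ℕ →₀ ℕ) (κ : ℕ), (coeff γ F).coeff κ ≠ 0 → s ≤ κ ∨ ∃ l, s ≤ γ l

theorem exists_of_mul {F G : AA} {γ : ℕ →₀ ℕ} {κ : ℕ}
    (h : (coeff γ (F * G)).coeff κ ≠ 0) : ∃ (p q : ℕ →₀ ℕ) (a b : ℕ), p + q = γ ∧ a + b = κ ∧
      (coeff p F).coeff a ≠ 0 ∧ (coeff q G).coeff b ≠ 0 := by
  classical
  rw [coeff_mul, Polynomial.finsetSum_coeff] at h
  obtain ⟨x, hx, h1⟩ := Finset.exists_ne_zero_of_sum_ne_zero h
  rw [Polynomial.coeff_mul] at h1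
  obtain ⟨y, hy, h2⟩ := Finset.exists_ne_zero_of_sum_ne_zero h1
  exact ⟨x.1, x.2, y.1, y.2, Finset.HasAntidiagonal.mem_antidiagonal.1 hx,
    Finset.HasAntidiagonal.mem_antidiagonal.1 hy,
    left_ne_zero_of_mul h2, right_ne_zero_of_mul h2⟩

theorem wt_add (p q : ℕ →₀ ℕ) : wt (p + q) = wt p + wt q :=
  Finsupp.sum_add_index' (fun _ => Nat.zero_mul _) fun _ _ _ => Nat.add_mul _ _ _

theorem wt_single (i a : ℕ) : wt (Finsupp.single i a) = a * (2 ^ (i + 1) - 1) :=
  Finsupp.sum_single_index (Nat.zero_mul _)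

theorem wt_zero : wt 0 = 0 := Finsupp.sum_zero_index

section Wh

variable {j n n' : ℕ} {F G : AA}

theorem Wh.zero (j n : ℕ) : Wh j n 0 := fun γ κ h => by simp at h

theorem Wh.mul (hF : Wh j n F) (hG : Wh j n' G) : Wh j (n + n') (F * G) := by
  intro γ κ h
  obtain ⟨p, q, a, b, rfl, rfl, h1, h2⟩ := exists_of_mul h
  rw [hF p a h1, hG q b h2, wt_add, Nat.add_mul]
  omega

theorem Wh.add (hF : Wh j n F) (hG : Wh j n G) : Wh j n (F + G) := by
  intro γ κ h
  rw [coeff_add, Polynomial.coeff_add] at h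
  by_cases h1 : (coeff γ F).coeff κ = 0
  · exact hG γ κ fun h2 => h (by rw [h1, h2, add_zero])
  · exact hF γ κ h1

theorem Wh.C (j k : ℕ) : Wh j (k * (2 ^ (j + 1) - 1)) (C (Polynomial.X ^ k)) := by
  intro γ κ h
  rw [coeff_C] at h
  split_ifs at h with h1
  · rw [Polynomial.coeff_X_pow] at h
    split_ifs at h with h2
    · rw [← h1, h2, wt_zero, zero_add]
    · exact absurd rfl h
  · exact absurd (Polynomial.coeff_zero _) h

theorem Wh.one (j : ℕ) : Wh j 0 1 := by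
  have h := Wh.C j 0
  rwa [pow_zero, map_one, zero_mul] at h

theorem Wh.X (j i : ℕ) : Wh j (2 ^ (i + 1) - 1) (X i) := by
  classical
  intro γ κ h
  rw [coeff_X] at h
  split_ifs at h with h1
  · rw [Polynomial.coeff_one] at h
    split_ifs at h with h2
    · rw [← h1, h2, wt_single, zero_mul, one_mul, add_zero]
    · exact absurd rfl h
  · exact absurd (Polynomial.coeff_zero _) h

theorem Wh.pow (hF : Wh j n F) (a : ℕ) : Wh j (a * n) (F ^ a) := by
  induction a with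
  | zero =>
    rw [pow_zero, Nat.zero_mul]
    exact Wh.one j
  | succ a ih =>
    rw [pow_succ, Nat.add_mul, Nat.one_mul]
    exact ih.mul hF

theorem Wh.zz (j m i : ℕ) : Wh j (2 ^ (i + 1) - 1) (zz j m i) := by
  unfold HGP.zz
  refine ((?_ : Wh j _ _).add ?_).add ?_
  · split_ifs
    · exact Wh.X j i
    · exact Wh.zero _ _
  · split_ifs with h
    · have h1 := Wh.C j 1
      rw [pow_one, one_mul] at h1
      rw [h]
      exact h1
    · exact Wh.zero _ _
  · split_ifs with h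
    · obtain ⟨l, hl⟩ := Nat.exists_eq_add_of_le h.1
      have h1 := (Wh.C j (2 ^ (i - j))).mul (Wh.X j (i - (j + 1)))
      have h2 : 2 ^ (i - j) * (2 ^ (j + 1) - 1) + (2 ^ (i - (j + 1) + 1) - 1) =
          2 ^ (i + 1) - 1 := by
        have e1 : i - j = l + 1 := by omega
        have e2 : i - (j + 1) + 1 = l + 1 := by omega
        have e3 : i + 1 = (l + 1) + (j + 1) := by omega
        rw [e1, e2, e3, pow_add 2 (l + 1) (j + 1), Nat.mul_sub, Nat.mul_one]
        have e4 : 2 ^ (l + 1) ≤ 2 ^ (l + 1) * 2 ^ (j + 1) :=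
          Nat.le_mul_of_pos_right _ (Nat.two_pow_pos _)
        have e5 : 0 < 2 ^ (l + 1) := Nat.two_pow_pos _
        omega
      rw [h2] at h1
      exact h1
    · exact Wh.zero _ _

theorem Wh.prod (j m : ℕ) (ρ : ℕ →₀ ℕ) : Wh j (wt ρ) (ρ.prod fun i a => HGP.zz j m i ^ a) := by
  unfold Finsupp.prod HGP.wt Finsupp.sum
  have h : ∀ s : Finset ℕ, Wh j (∑ i ∈ s, ρ i * (2 ^ (i + 1) - 1))
      (∏ i ∈ s, HGP.zz j m i ^ ρ i) := by
    intro s
    classical
    induction s using Finset.induction_on with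
    | empty => exact Wh.one j
    | insert a s ha ih =>
      rw [Finset.sum_insert ha, Finset.prod_insert ha]
      exact ((Wh.zz j m a).pow (ρ a)).mul ih
  exact h _

end Wh

section Lg

variable {s : ℕ} {F G : AA}

theorem Lg.zero (s : ℕ) : Lg s 0 := fun γ κ h => by simp at h

theorem Lg.add (hF : Lg s F) (hG : Lg s G) : Lg s (F + G) := by
  intro γ κ h
  rw [coeff_add, Polynomial.coeff_add] at h
  by_cases h1 : (coeff γ F).coeff κ = 0
  · exact hG γ κ fun h2 => h (by rw [h1, h2, add_zero])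
  · exact hF γ κ h1

theorem Lg.mul (hF : Lg s F) (G : AA) : Lg s (F * G) := by
  intro γ κ h
  obtain ⟨p, q, a, b, rfl, rfl, h1, -⟩ := exists_of_mul h
  rcases hF p a h1 with h3 | ⟨l, h3⟩
  · exact Or.inl (by omega)
  · refine Or.inr ⟨l, ?_⟩
    rw [Finsupp.add_apply]
    omega

theorem Lg.C (s : ℕ) : Lg s (C (Polynomial.X ^ s)) := by
  intro γ κ h
  rw [coeff_C] at h
  split_ifs at h with h1
  · rw [Polynomial.coeff_X_pow] at h
    split_ifs at h with h2
    · exact Or.inl h2.ge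
    · exact absurd rfl h
  · exact absurd (Polynomial.coeff_zero _) h

theorem Lg.X (s i : ℕ) : Lg s (X i ^ s) := by
  classical
  intro γ κ h
  rw [coeff_X_pow] at h
  split_ifs at h with h1
  · exact Or.inr ⟨i, by rw [← h1, Finsupp.single_eq_same]⟩
  · exact absurd (Polynomial.coeff_zero _) h

theorem Lg.zz (j m i t : ℕ) : Lg (2 ^ t) (HGP.zz j m i ^ 2 ^ t) := by
  unfold HGP.zz
  have h0 : (0 : AA) ^ 2 ^ t = 0 := zero_pow (Nat.two_pow_pos t).ne'
  rw [add_pow_char_pow _ _ 2, add_pow_char_pow _ _ 2]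
  refine ((?_ : Lg _ _).add ?_).add ?_
  · split_ifs
    · exact Lg.X _ i
    · rw [h0]
      exact Lg.zero _
  · split_ifs with h
    · rw [← map_pow]
      exact Lg.C _
    · rw [h0]
      exact Lg.zero _
  · split_ifs with h
    · rw [mul_pow, mul_comm]
      exact (Lg.X _ _).mul _
    · rw [h0]
      exact Lg.zero _

theorem Lg.prod (j m t : ℕ) (ρ : ℕ →₀ ℕ) (i : ℕ) (hi : 2 ^ t ≤ ρ i) :
    Lg (2 ^ t) (ρ.prod fun i a => HGP.zz j m i ^ a) := by
  have hmem : i ∈ ρ.support := by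
    rw [Finsupp.mem_support_iff]
    have := Nat.two_pow_pos t
    omega
  unfold Finsupp.prod
  rw [← Finset.mul_prod_erase _ _ hmem]
  obtain ⟨k, hk⟩ := Nat.exists_eq_add_of_le hi
  simp only [hk, pow_add, mul_assoc]
  exact (Lg.zz j m i t).mul _

end Lg

end CCA

theorem t_CCA : Stmt_CCA := by
  intro j m κ γ ρ h
  refine ⟨CCA.Wh.prod j m ρ γ κ h, fun t hκ hγ i => ?_⟩
  by_contra hi
  rcases CCA.Lg.prod j m t ρ i (by omega) γ κ h with h1 | ⟨l, h1⟩
  · omega
  · exact absurd (hγ l) (by omega)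

end HGP
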