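import Pool.Agent.HGP.Stmts

/-!
# CCB: some structure constants
-/

namespace HGP

open MvPolynomial

namespace CCB

/-- The product of the parameters. -/
noncomputable def FF (j m : ℕ) (ρ : ℕ →₀ ℕ) : MvPolynomial ℕ (Polynomial (ZMod 2)) :=
  ρ.prod fun i a => zz j m i ^ a

theorem cc_eq (j m κ : ℕ) (γ ρ : ℕ →₀ ℕ) : cc j m κ γ ρ = (coeff γ (FF j m ρ)).coeff κ := rfl

theorem FF_add (j m : ℕ) (ρ σ : ℕ →₀ ℕ) : FF j m (ρ + σ) = FF j m ρ * FF j m σ :=
  Finsupp.prod_add_index' (fun _ => pow_zero _) (fun _ _ _ => pow_add _ _ _)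

theorem FF_zero (j m : ℕ) : FF j m 0 = 1 := Finsupp.prod_zero_index

theorem FF_single (j m i : ℕ) : FF j m (Finsupp.single i 1) = zz j m i :=
  (Finsupp.prod_single_index (h := fun i a => zz j m i ^ a) (pow_zero _)).trans (pow_one _)

theorem FF_smul (j m n : ℕ) (ρ : ℕ →₀ ℕ) : FF j m (n • ρ) = FF j m ρ ^ n := by
  induction n with
  | zero => rw [zero_smul, FF_zero, pow_zero]
  | succ n ih => rw [succ_nsmul, FF_add, ih, pow_succ]

theorem part1 (j m κ e : ℕ) (γ ρ : ℕ →₀ ℕ) :
    cc j m (2 ^ e * κ) (2 ^ e • γ) (2 ^ e • ρ) = cc j m κ γ ρ := by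
  have h2 : 2 ^ e ≠ 0 := by positivity
  rw [cc_eq, cc_eq, FF_smul, ← MvPolynomial.map_iterateFrobenius_expand 2, coeff_map,
    coeff_expand_smul _ h2, iterateFrobenius_def, ← Polynomial.map_iterateFrobenius_expand 2,
    Polynomial.coeff_map, Polynomial.coeff_expand_mul' (by positivity), iterateFrobenius_def,
    ZMod.pow_card_pow]

theorem ind {C : (ℕ →₀ ℕ) → Prop} (h0 : C 0) (h1 : ∀ ρ i, C ρ → C (ρ + Finsupp.single i 1))
    (ρ : ℕ →₀ ℕ) : C ρ := by
  induction ρ using Finsupp.induction with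
  | zero => exact h0
  | single_add i a f _ _ ih =>
    have h : ∀ a : ℕ, C (Finsupp.single i a + f) := by
      intro a
      induction a with
      | zero => rwa [Finsupp.single_zero, zero_add]
      | succ a ih' =>
        have e : Finsupp.single i (a + 1) + f = Finsupp.single i a + f + Finsupp.single i 1 := by
          rw [Finsupp.single_add]
          abel
        rw [e]
        exact h1 _ _ ih'
    exact h a

/-- The product of the parameters for `T = 0`. -/
noncomputable def MM (m : ℕ) (ρ : ℕ →₀ ℕ) : MvPolynomial ℕ (ZMod 2) :=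
  ρ.prod fun i a => (if i < m then X i else 0) ^ a

theorem MM_add (m : ℕ) (ρ σ : ℕ →₀ ℕ) : MM m (ρ + σ) = MM m ρ * MM m σ :=
  Finsupp.prod_add_index' (fun _ => pow_zero _) (fun _ _ _ => pow_add _ _ _)

theorem MM_single (m i : ℕ) : MM m (Finsupp.single i 1) = if i < m then X i else 0 :=
  (Finsupp.prod_single_index (h := fun i a => (if i < m then X i else 0) ^ a)
    (pow_zero _)).trans (pow_one _)

theorem MM_eq (m : ℕ) (ρ : ℕ →₀ ℕ) (h : ∀ i, ρ i ≠ 0 → i < m) : MM m ρ = monomial ρ 1 := by
  rw [MM, Finsupp.prod, ← prod_X_pow_eq_monomial]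
  refine Finset.prod_congr rfl fun i hi => ?_
  rw [if_pos (h i (Finsupp.mem_support_iff.1 hi))]

theorem MM_ne (m : ℕ) (ρ γ : ℕ →₀ ℕ) (h : ρ ≠ γ) : coeff γ (MM m ρ) = 0 := by
  by_cases h1 : ∀ i, ρ i ≠ 0 → i < m
  · rw [MM_eq m ρ h1, coeff_monomial, if_neg h]
  · push Not at h1
    obtain ⟨i, hi, hm⟩ := h1
    have h2 : MM m ρ = 0 := by
      rw [MM, Finsupp.prod]
      refine Finset.prod_eq_zero (Finsupp.mem_support_iff.2 hi) ?_
      rw [if_neg (by omega), zero_pow hi]
    rw [h2, coeff_zero]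

theorem third (j i : ℕ) (h : j + 1 ≤ i) (κ : ℕ) (hκ : κ ≤ 1) (p : Polynomial (ZMod 2)) :
    (p * Polynomial.X ^ 2 ^ (i - j)).coeff κ = 0 := by
  rw [Polynomial.coeff_mul_X_pow', if_neg]
  have h1 : 2 ^ 1 ≤ 2 ^ (i - j) := Nat.pow_le_pow_right (by norm_num) (by omega)
  omega

theorem coeff_step (j m i κ : ℕ) (hκ : κ ≤ 1) (γ : ℕ →₀ ℕ)
    (G : MvPolynomial ℕ (Polynomial (ZMod 2))) :
    (coeff γ (G * zz j m i)).coeff κ =
      (if i < m then (if i ∈ γ.support then (coeff (γ - Finsupp.single i 1) G).coeff κ else 0)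
        else 0) + (if i = j then (coeff γ G * Polynomial.X).coeff κ else 0) := by
  have h3 : (coeff γ (G * (if j + 1 ≤ i ∧ i - (j + 1) < m then
      C (Polynomial.X ^ 2 ^ (i - j)) * X (i - (j + 1)) else 0))).coeff κ = 0 := by
    by_cases h : j + 1 ≤ i ∧ i - (j + 1) < m
    · rw [if_pos h, ← mul_assoc, coeff_mul_X']
      split_ifs
      · rw [mul_comm G, coeff_C_mul, mul_comm]
        exact third j i h.1 κ hκ _
      · rfl
    · rw [if_neg h, mul_zero, coeff_zero, Polynomial.coeff_zero]
  rw [zz, mul_add, mul_add, coeff_add, coeff_add, Polynomial.coeff_add, Polynomial.coeff_add, h3,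
    add_zero]
  congr 1
  · by_cases h : i < m
    · rw [if_pos h, if_pos h, coeff_mul_X']
      split_ifs <;> simp
    · rw [if_neg h, if_neg h, mul_zero, coeff_zero, Polynomial.coeff_zero]
  · by_cases h : i = j
    · rw [if_pos h, if_pos h, mul_comm G, coeff_C_mul, mul_comm]
    · rw [if_neg h, if_neg h, mul_zero, coeff_zero, Polynomial.coeff_zero]

theorem coeff_MM (m i : ℕ) (γ ρ : ℕ →₀ ℕ) : coeff γ (MM m (ρ + Finsupp.single i 1)) =
    if i < m then (if i ∈ γ.support then coeff (γ - Finsupp.single i 1) (MM m ρ) else 0)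
      else 0 := by
  rw [MM_add, MM_single]
  by_cases h : i < m
  · rw [if_pos h, if_pos h, coeff_mul_X']
  · rw [if_neg h, if_neg h, mul_zero, coeff_zero]

theorem coeff0 (j m : ℕ) (ρ : ℕ →₀ ℕ) : ∀ γ, (coeff γ (FF j m ρ)).coeff 0 = coeff γ (MM m ρ) := by
  induction ρ using ind with
  | h0 =>
    intro γ
    rw [FF_zero, MM, Finsupp.prod_zero_index, coeff_one, coeff_one]
    split_ifs <;> simp
  | h1 ρ i ih =>
    intro γ
    rw [FF_add, FF_single, coeff_step j m i 0 (by norm_num), coeff_MM, ih,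
      Polynomial.coeff_mul_X_zero, ite_self, add_zero]

theorem coeff1 (j m : ℕ) (ρ : ℕ →₀ ℕ) : ∀ γ, (coeff γ (FF j m ρ)).coeff 1 =
    (ρ j : ZMod 2) * coeff γ (MM m (ρ - Finsupp.single j 1)) := by
  induction ρ using ind with
  | h0 =>
    intro γ
    rw [FF_zero, coeff_one, Finsupp.coe_zero, Pi.zero_apply, Nat.cast_zero, zero_mul]
    split_ifs <;> simp [Polynomial.coeff_one]
  | h1 ρ i ih =>
    intro γ
    rw [FF_add, FF_single, coeff_step j m i 1 le_rfl, ih]
    have h1 : (coeff γ (FF j m ρ) * Polynomial.X).coeff 1 = coeff γ (MM m ρ) := by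
      rw [show (1 : ℕ) = 0 + 1 from rfl, Polynomial.coeff_mul_X, coeff0]
    rw [h1]
    have h2 : (if i < m then (if i ∈ γ.support then (ρ j : ZMod 2) *
        coeff (γ - Finsupp.single i 1) (MM m (ρ - Finsupp.single j 1)) else 0) else 0) =
        (ρ j : ZMod 2) * coeff γ (MM m (ρ - Finsupp.single j 1 + Finsupp.single i 1)) := by
      rw [coeff_MM]
      split_ifs <;> simp
    rw [h2]
    by_cases hj : ρ j = 0
    · rw [hj, Nat.cast_zero, zero_mul, zero_add]
      by_cases hij : i = j
      · subst hij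
        rw [if_pos rfl, Finsupp.add_apply, hj, Finsupp.single_eq_same, zero_add, Nat.cast_one,
          one_mul, add_tsub_cancel_right]
      · rw [if_neg hij, Finsupp.add_apply, hj, Finsupp.single_eq_of_ne (Ne.symm hij), add_zero,
          Nat.cast_zero, zero_mul]
    · by_cases hij : i = j
      · subst hij
        have e1 : ρ - Finsupp.single i 1 + Finsupp.single i 1 = ρ := by
          ext l
          rw [Finsupp.add_apply, Finsupp.tsub_apply]
          by_cases hl : l = i
          · subst hl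
            rw [Finsupp.single_eq_same]
            omega
          · rw [Finsupp.single_eq_of_ne hl]
            omega
        rw [if_pos rfl, e1, add_tsub_cancel_right, Finsupp.add_apply, Finsupp.single_eq_same]
        push_cast
        ring
      · have e1 : ρ - Finsupp.single j 1 + Finsupp.single i 1 =
            ρ + Finsupp.single i 1 - Finsupp.single j 1 := by
          ext l
          rw [Finsupp.add_apply, Finsupp.tsub_apply, Finsupp.tsub_apply, Finsupp.add_apply]
          by_cases hl : l = j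
          · subst hl
            rw [Finsupp.single_eq_same, Finsupp.single_eq_of_ne (Ne.symm hij)]
            omega
          · rw [Finsupp.single_eq_of_ne hl]
            omega
        rw [if_neg hij, add_zero, e1, Finsupp.add_apply, Finsupp.single_eq_of_ne (Ne.symm hij),
          add_zero]

theorem part2 (j m : ℕ) (γ ρ : ℕ →₀ ℕ) (hγ : ∀ i, γ i ≠ 0 → i < m) : cc j m 1 γ ρ =
    if ρ = γ + Finsupp.single j 1 then (ρ j : ZMod 2) else 0 := by
  rw [cc_eq, coeff1]
  by_cases h : ρ = γ + Finsupp.single j 1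
  · rw [if_pos h, h, add_tsub_cancel_right, MM_eq m γ hγ, coeff_monomial, if_pos rfl, mul_one]
  · rw [if_neg h]
    by_cases hj : ρ j = 0
    · rw [hj, Nat.cast_zero, zero_mul]
    · rw [MM_ne, mul_zero]
      intro h1
      apply h
      rw [← h1]
      ext l
      rw [Finsupp.add_apply, Finsupp.tsub_apply]
      by_cases hl : l = j
      · subst hl
        rw [Finsupp.single_eq_same]
        omega
      · rw [Finsupp.single_eq_of_ne hl]
        omega

theorem zz_zero (j i : ℕ) (h0 : i ≠ 0) (h1 : i ≠ j) (h2 : i ≠ j + 1) : zz j 1 i = 0 := by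
  rw [zz, if_neg (by omega), if_neg h1, if_neg (by omega), add_zero, add_zero]

theorem FF_out (j : ℕ) (ρ : ℕ →₀ ℕ) (i : ℕ) (h0 : i ≠ 0) (h1 : i ≠ j) (h2 : i ≠ j + 1)
    (hi : ρ i ≠ 0) : FF j 1 ρ = 0 := by
  rw [FF, Finsupp.prod]
  refine Finset.prod_eq_zero (Finsupp.mem_support_iff.2 hi) ?_
  rw [zz_zero j i h0 h1 h2, zero_pow hi]

theorem FF_three (j : ℕ) (hj : 1 ≤ j) (a b c : ℕ) :
    FF j 1 (a • Finsupp.single 0 1 + b • Finsupp.single j 1 + c • Finsupp.single (j + 1) 1) =
      monomial (Finsupp.single 0 (a + c)) (Polynomial.X ^ (b + 2 * c)) := by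
  have z0 : zz j 1 0 = X 0 := by
    rw [zz, if_pos (by omega), if_neg (by omega), if_neg (by omega), add_zero, add_zero]
  have z1 : zz j 1 j = C Polynomial.X := by
    rw [zz, if_neg (by omega), if_pos rfl, if_neg (by omega), add_zero, zero_add]
  have z2 : zz j 1 (j + 1) = C (Polynomial.X ^ 2) * X 0 := by
    rw [zz, if_neg (by omega), if_neg (by omega), if_pos ⟨le_rfl, by omega⟩, zero_add, zero_add]
    simp
  rw [FF_add, FF_add, FF_smul, FF_smul, FF_smul, FF_single, FF_single, FF_single, z0, z1, z2,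
    mul_pow, ← C_pow, ← C_pow, ← pow_mul]
  have e : (X 0 ^ a * C (Polynomial.X ^ b) * (C (Polynomial.X ^ (2 * c)) * X 0 ^ c) :
      MvPolynomial ℕ (Polynomial (ZMod 2))) =
      C (Polynomial.X ^ b * Polynomial.X ^ (2 * c)) * X 0 ^ (a + c) := by
    rw [C_mul, pow_add]
    ring
  rw [e, ← pow_add, X_pow_eq_monomial, C_mul_monomial, mul_one]

theorem FF_two (a c : ℕ) : FF 0 1 (a • Finsupp.single 0 1 + c • Finsupp.single 1 1) =
    ∑ k ∈ Finset.range (a + 1), monomial (Finsupp.single 0 (k + c))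
      (Polynomial.X ^ (a - k + 2 * c) * (a.choose k : Polynomial (ZMod 2))) := by
  have z0 : zz 0 1 0 = X 0 + C Polynomial.X := by
    rw [zz, if_pos (by omega), if_pos rfl, if_neg (by omega), add_zero]
  have z1 : zz 0 1 1 = C (Polynomial.X ^ 2) * X 0 := by
    rw [zz, if_neg (by omega), if_neg (by omega), if_pos ⟨le_rfl, by omega⟩, zero_add, zero_add]
    simp
  rw [FF_add, FF_smul, FF_smul, FF_single, FF_single, z0, z1, mul_pow, ← C_pow, ← pow_mul, add_pow,
    Finset.sum_mul]
  refine Finset.sum_congr rfl fun k _ => ?_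
  have e : (X 0 ^ k * C Polynomial.X ^ (a - k) * (a.choose k : MvPolynomial ℕ
      (Polynomial (ZMod 2))) * (C (Polynomial.X ^ (2 * c)) * X 0 ^ c) :
      MvPolynomial ℕ (Polynomial (ZMod 2))) =
      C (Polynomial.X ^ (a - k) * Polynomial.X ^ (2 * c) * (a.choose k : Polynomial (ZMod 2))) *
        X 0 ^ (k + c) := by
    simp only [C_mul, C_pow, map_natCast]
    ring
  rw [e, ← pow_add, X_pow_eq_monomial, C_mul_monomial, mul_one]

theorem part3a (j : ℕ) (hj : 1 ≤ j) (ρ : ℕ →₀ ℕ) : cc j 1 2 (Finsupp.single 0 1) ρ =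
    if ρ = Finsupp.single (j + 1) 1 ∨ ρ = Finsupp.single j 2 + Finsupp.single 0 1 then 1
      else 0 := by
  have hj0 : j ≠ 0 := by omega
  rw [cc_eq]
  by_cases hs : ∀ i, i ≠ 0 → i ≠ j → i ≠ j + 1 → ρ i = 0
  · have hρ : ρ = ρ 0 • Finsupp.single 0 1 + ρ j • Finsupp.single j 1 +
        ρ (j + 1) • Finsupp.single (j + 1) 1 := by
      ext l
      simp only [Finsupp.add_apply, Finsupp.smul_apply, Finsupp.single_apply, smul_eq_mul]
      by_cases h0 : l = 0
      · subst h0
        rw [if_pos rfl, if_neg (by omega), if_neg (by omega)]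
        omega
      · by_cases h1 : l = j
        · subst h1
          rw [if_neg (by omega), if_pos rfl, if_neg (by omega)]
          omega
        · by_cases h2 : l = j + 1
          · subst h2
            rw [if_neg (by omega), if_neg (by omega), if_pos rfl]
            omega
          · rw [hs l h0 h1 h2, if_neg (by omega), if_neg (by omega), if_neg (by omega)]
            omega
    have hF : FF j 1 ρ = monomial (Finsupp.single 0 (ρ 0 + ρ (j + 1)))
        (Polynomial.X ^ (ρ j + 2 * ρ (j + 1))) := by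
      conv_lhs => rw [hρ]
      exact FF_three j hj _ _ _
    rw [hF, coeff_monomial]
    have hiff : (ρ = Finsupp.single (j + 1) 1 ∨ ρ = Finsupp.single j 2 + Finsupp.single 0 1) ↔
        (ρ 0 + ρ (j + 1) = 1 ∧ 2 = ρ j + 2 * ρ (j + 1)) := by
      constructor
      · rintro (h | h)
        · rw [h]
          rw [Finsupp.single_eq_same, Finsupp.single_eq_of_ne (show (0 : ℕ) ≠ j + 1 by omega),
            Finsupp.single_eq_of_ne (show j ≠ j + 1 by omega)]
          omega
        · rw [h]
          rw [Finsupp.add_apply, Finsupp.add_apply, Finsupp.add_apply, Finsupp.single_eq_same,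
            Finsupp.single_eq_same, Finsupp.single_eq_of_ne (show (0 : ℕ) ≠ j by omega),
            Finsupp.single_eq_of_ne (show j ≠ 0 by omega),
            Finsupp.single_eq_of_ne (show j + 1 ≠ j by omega),
            Finsupp.single_eq_of_ne (show j + 1 ≠ 0 by omega)]
          omega
      · rintro ⟨h1, h2⟩
        by_cases hc : ρ (j + 1) = 0
        · right
          rw [hc] at h1 h2
          rw [hρ, hc, show ρ 0 = 1 by omega, show ρ j = 2 by omega]
          ext l
          simp only [Finsupp.add_apply, Finsupp.smul_apply, Finsupp.single_apply, smul_eq_mul]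
          split_ifs <;> omega
        · left
          rw [hρ, show ρ (j + 1) = 1 by omega, show ρ 0 = 0 by omega, show ρ j = 0 by omega]
          ext l
          simp only [Finsupp.add_apply, Finsupp.smul_apply, Finsupp.single_apply, smul_eq_mul]
          split_ifs <;> omega
    by_cases h : ρ = Finsupp.single (j + 1) 1 ∨ ρ = Finsupp.single j 2 + Finsupp.single 0 1
    · obtain ⟨h1, h2⟩ := hiff.1 h
      rw [if_pos h, h1, if_pos rfl, Polynomial.coeff_X_pow, if_pos h2]
    · rw [if_neg h]
      split_ifs with h1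
      · rw [Polynomial.coeff_X_pow, if_neg]
        intro h2
        refine h (hiff.2 ⟨?_, h2⟩)
        have h3 := DFunLike.congr_fun h1 0
        rwa [Finsupp.single_eq_same, Finsupp.single_eq_same] at h3
      · rfl
  · push Not at hs
    obtain ⟨i, h0, h1, h2, hi⟩ := hs
    rw [FF_out j ρ i h0 h1 h2 hi, coeff_zero, Polynomial.coeff_zero, if_neg]
    rintro (h | h)
    · rw [h, Finsupp.single_eq_of_ne h2] at hi
      exact hi rfl
    · rw [h, Finsupp.add_apply, Finsupp.single_eq_of_ne h1, Finsupp.single_eq_of_ne h0] at hi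
      exact hi rfl

theorem part3b (ρ : ℕ →₀ ℕ) : cc 0 1 2 (Finsupp.single 0 1) ρ =
    if ρ = Finsupp.single (0 + 1) 1 ∨ ρ = Finsupp.single 0 2 + Finsupp.single 0 1 then 1
      else 0 := by
  rw [cc_eq]
  by_cases hs : ∀ i, i ≠ 0 → i ≠ 1 → ρ i = 0
  · have hρ : ρ = ρ 0 • Finsupp.single 0 1 + ρ 1 • Finsupp.single 1 1 := by
      ext l
      simp only [Finsupp.add_apply, Finsupp.smul_apply, Finsupp.single_apply, smul_eq_mul]
      by_cases h0 : l = 0
      · subst h0
        rw [if_pos rfl, if_neg (by omega)]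
        omega
      · by_cases h1 : l = 1
        · subst h1
          rw [if_neg (by omega), if_pos rfl]
          omega
        · rw [hs l h0 h1, if_neg (by omega), if_neg (by omega)]
          omega
    have hF : FF 0 1 ρ = ∑ k ∈ Finset.range (ρ 0 + 1), monomial (Finsupp.single 0 (k + ρ 1))
        (Polynomial.X ^ (ρ 0 - k + 2 * ρ 1) * ((ρ 0).choose k : Polynomial (ZMod 2))) := by
      conv_lhs => rw [hρ]
      exact FF_two _ _
    have hiff : (ρ = Finsupp.single (0 + 1) 1 ∨ ρ = Finsupp.single 0 2 + Finsupp.single 0 1) ↔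
        ((ρ 0 = 0 ∧ ρ 1 = 1) ∨ (ρ 0 = 3 ∧ ρ 1 = 0)) := by
      constructor
      · rintro (h | h)
        · left
          rw [h]
          simp [Finsupp.single_apply]
        · right
          rw [h]
          simp [Finsupp.single_apply]
      · rintro (⟨h1, h2⟩ | ⟨h1, h2⟩)
        · left
          rw [hρ, h1, h2]
          simp
        · right
          rw [hρ, h1, h2, ← Finsupp.single_add]
          simp
    have hterm : ∀ k, (coeff (Finsupp.single 0 1) (monomial (Finsupp.single 0 (k + ρ 1))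
        (Polynomial.X ^ (ρ 0 - k + 2 * ρ 1) * ((ρ 0).choose k : Polynomial (ZMod 2))))).coeff 2 =
        if k + ρ 1 = 1 ∧ ρ 0 - k + 2 * ρ 1 = 2 then ((ρ 0).choose k : ZMod 2) else 0 := by
      intro k
      rw [coeff_monomial]
      by_cases h1 : k + ρ 1 = 1
      · rw [h1, if_pos rfl, ← Polynomial.C_eq_natCast, Polynomial.coeff_mul_C,
          Polynomial.coeff_X_pow]
        by_cases h2 : ρ 0 - k + 2 * ρ 1 = 2
        · rw [if_pos h2.symm, if_pos ⟨rfl, h2⟩, one_mul]
        · rw [if_neg (Ne.symm h2), if_neg (fun h => h2 h.2), zero_mul]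
      · rw [if_neg, Polynomial.coeff_zero, if_neg (fun h => h1 h.1)]
        intro h
        have h3 := DFunLike.congr_fun h 0
        rw [Finsupp.single_eq_same, Finsupp.single_eq_same] at h3
        exact h1 h3
    rw [hF, coeff_sum, Polynomial.finset_sum_coeff, Finset.sum_congr rfl fun k _ => hterm k]
    by_cases h : ρ = Finsupp.single (0 + 1) 1 ∨ ρ = Finsupp.single 0 2 + Finsupp.single 0 1
    · rw [if_pos h]
      rcases hiff.1 h with ⟨h1, h2⟩ | ⟨h1, h2⟩
      · rw [h1, h2]
        simp
      · rw [h1, h2]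
        decide
    · rw [if_neg h]
      refine Finset.sum_eq_zero fun k hk => ?_
      rw [Finset.mem_range] at hk
      rw [if_neg]
      rintro ⟨h1, h2⟩
      refine h (hiff.2 ?_)
      omega
  · push Not at hs
    obtain ⟨i, h0, h1, hi⟩ := hs
    rw [FF_out 0 ρ i h0 h0 h1 hi, coeff_zero, Polynomial.coeff_zero, if_neg]
    rintro (h | h)
    · rw [h, Finsupp.single_eq_of_ne h1] at hi
      exact hi rfl
    · rw [h, Finsupp.add_apply, Finsupp.single_eq_of_ne h0, Finsupp.single_eq_of_ne h0] at hi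
      exact hi rfl

end CCB

theorem t_CCB : Stmt_CCB := by
  refine ⟨CCB.part1, CCB.part2, fun j ρ => ?_⟩
  rcases Nat.eq_zero_or_pos j with h | h
  · subst h
    exact CCB.part3b ρ
  · exact CCB.part3a j h ρ

end HGP
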