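import Pool.Agent.HGP.Stmts

/-!
# CFX: the coefficients of the powers of the variable `0`
-/

namespace HGP

open MvPolynomial
open Pool.Agent.Lib_helper74.Hit (hits qd up cf Sq cf_up sum_cf)

namespace CFX

/-- A homogeneous polynomial in one variable is a monomial. -/
theorem homog_one (n : ℕ) (f : PS (Fin 1)) (hf : f ∈ Hg (Fin 1) n) :
    ∃ a : ZMod 2, f = C a * X 0 ^ n := by
  classical
  have hf' : f.IsHomogeneous n := hf
  refine ⟨coeff (Finsupp.single 0 n) f, ?_⟩
  ext s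
  rw [coeff_C_mul, coeff_X_pow]
  by_cases h : Finsupp.single 0 n = s
  · rw [if_pos h, mul_one, h]
  · rw [if_neg h, mul_zero]
    by_contra h0
    have h1 : s.degree = n := by
      have := hf'.degree_eq_sum_deg_support (mem_support_iff.2 h0)
      simpa [Finsupp.degree] using this.symm
    apply h
    refine Finsupp.ext fun i => ?_
    have hi : i = 0 := Subsingleton.elim _ _
    subst hi
    rw [Finsupp.single_eq_same, ← h1, Finsupp.degree_eq_sum]
    simp

theorem ex_X_pow (t n : ℕ) (h : n % 2 ^ t = 2 ^ t - 1) :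
    ex (Fin 1) t (X 0 ^ n) = X 0 ^ (n / 2 ^ t) := by
  classical
  have h1 : (X 0 ^ n : PS (Fin 1)) = basisMonomials (Fin 1) (ZMod 2) (Finsupp.single 0 n) := by
    rw [coe_basisMonomials]
    exact X_pow_eq_monomial
  rw [h1, ex, Module.Basis.constr_basis, if_pos, X_pow_eq_monomial]
  · rw [Finsupp.mapRange_single]
  · intro i
    have hi : i = 0 := Subsingleton.elim _ _
    subst hi
    rw [Finsupp.single_eq_same]
    exact h

theorem Mp_X_pow (hOPB : P_OPB) (hEXO : P_EXO) (d t m : ℕ) (α : ℕ →₀ ℕ) (M : ℕ) (hα : α ≠ 0)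
    (hα2 : ∀ j, α j < 2 ^ t) : ∃ a : ZMod 2,
      Mp m α (X 0 ^ M : PS (Fin (d + 1))) = C a * X 0 ^ (M + wt α) ∧
        ((M + wt α) % 2 ^ t = 2 ^ t - 1 → a = 0) := by
  obtain ⟨-, -, h3, -, -, -, -, -, -, h10, -, -⟩ := hOPB
  have hX : (X 0 ^ M : PS (Fin 1)) ∈ Hg (Fin 1) M := by
    have := (isHomogeneous_X (ZMod 2) (0 : Fin 1)).pow M
    rw [one_mul] at this
    exact this
  obtain ⟨a, ha⟩ := homog_one _ _ (h3 (Fin 1) m α M _ hX)
  refine ⟨a, ?_, ?_⟩
  · have e := h10 (Fin 1) (Fin (d + 1)) (fun _ => 0) m α (X 0 ^ M)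
    have e0 : rename (fun _ => (0 : Fin (d + 1))) (X 0 ^ M : PS (Fin 1)) = X 0 ^ M := by
      rw [map_pow, rename_X]
    have e1 : rename (fun _ => (0 : Fin (d + 1))) (X 0 ^ (M + wt α) : PS (Fin 1)) =
        X 0 ^ (M + wt α) := by
      rw [map_pow, rename_X]
    rw [e0, ha, map_mul, rename_C, e1] at e
    exact e
  · intro hM
    have hex : ex (Fin 1) t (Mp m α (X 0 ^ M)) = 0 := by
      refine hEXO.1 (Fin 1) t m α _ ?_
      by_contra hc
      push Not at hc
      apply hα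
      ext j
      have h1 := hc j
      have h2 := hα2 j
      exact Nat.eq_zero_of_dvd_of_lt h1 h2
    rw [ha, ← smul_eq_C_mul, map_smul, ex_X_pow t _ hM] at hex
    rcases smul_eq_zero.1 hex with h | h
    · exact h
    · exact absurd h (pow_ne_zero _ (X_ne_zero _))

theorem part1 (hOPB : P_OPB) (hEXO : P_EXO) (d t m : ℕ) (α : ℕ →₀ ℕ) (M M' : ℕ)
    (g : PS (Fin d)) (hα : α ≠ 0) (hα2 : ∀ j, α j < 2 ^ t) (hM' : M' % 2 ^ t = 2 ^ t - 1) :
    cf M' (Mp m α (X 0 ^ M : PS (Fin (d + 1))) * up d g) = 0 := by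
  obtain ⟨a, ha, ha0⟩ := Mp_X_pow hOPB hEXO d t m α M hα hα2
  have e : (C a * X 0 ^ (M + wt α) * up d g : PS (Fin (d + 1))) =
      a • (up d g * X 0 ^ (M + wt α)) := by
    rw [smul_eq_C_mul]
    ring
  rw [ha, e, map_smul, cf_up]
  by_cases h : M' = M + wt α
  · rw [ha0 (h ▸ hM'), zero_smul]
  · rw [if_neg h, smul_zero]

theorem part2 (hOPB : P_OPB) (hEXO : P_EXO) (d t M : ℕ) (F : PS (Fin (d + 1)))
    (hM : M % 2 ^ t = 2 ^ t - 1) (hF : F ∈ NN (Fin (d + 1)) t) : cf M F ∈ NN (Fin d) t := by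
  induction hF using Submodule.span_induction with
  | zero => rw [map_zero]; exact Submodule.zero_mem _
  | add x y _ _ hx hy => rw [map_add]; exact Submodule.add_mem _ hx hy
  | smul c x _ hx => rw [map_smul]; exact Submodule.smul_mem _ _ hx
  | mem x hx =>
    obtain ⟨m, α, f, hα, hα2, rfl⟩ := hx
    obtain ⟨K, hK⟩ := sum_cf f
    rw [hK, map_sum, map_sum]
    refine Submodule.sum_mem _ fun N _ => ?_
    have h1 := hOPB.1
    have h2 := hOPB.2.1
    have h10 := hOPB.2.2.2.2.2.2.2.2.2.1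
    rw [h2, map_sum]
    refine Submodule.sum_mem _ ?_
    rintro ⟨p, q⟩ hpq
    rw [Finset.HasAntidiagonal.mem_antidiagonal] at hpq
    change p + q = α at hpq
    change cf M (Mp m p (rename Fin.succ (cf N f)) * Mp m q (X 0 ^ N)) ∈ _
    rw [h10]
    by_cases hq : q = 0
    · subst hq
      rw [add_zero] at hpq
      subst hpq
      rw [h1]
      change cf M (up d (Mp m p (cf N f)) * X 0 ^ N) ∈ _
      rw [cf_up]
      split_ifs
      · exact Submodule.subset_span ⟨m, p, _, hα, hα2, rfl⟩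
      · exact Submodule.zero_mem _
    · have h3 := part1 hOPB hEXO d t m q N M
        (Mp m p (cf N f)) hq (fun j => by
          have h4 := DFunLike.congr_fun hpq j
          rw [Finsupp.add_apply] at h4
          have := hα2 j
          omega) hM
      rw [mul_comm] at h3
      change cf M (up d (Mp m p (cf N f)) * Mp m q (X 0 ^ N)) ∈ _
      rw [h3]
      exact Submodule.zero_mem _

end CFX

theorem t_CFX : Stmt_CFX := fun hOPB hEXO =>
  ⟨fun d t m α M M' g hα hα2 hM' => CFX.part1 hOPB hEXO d t m α M M' g hα hα2 hM',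
    fun d t M F hM hF => CFX.part2 hOPB hEXO d t M F hM hF⟩

end HGP
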