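import Pool.Agent.HGP.Stmts

/-!
# Gap splitting for the hit problem: lifts of multiples of `SL` (module CK1)
-/

namespace HGP

open MvPolynomial
open Pool.Agent.Lib_helper74.Hit (hits qd up cf Sq cf_apply cf_up sum_cf)

namespace CK1

theorem cf_homog {j n : ℕ} {F : PS (Fin (j + 1))} (hF : F ∈ Hg (Fin (j + 1)) n) (b : ℕ) :
    (b ≤ n → cf b F ∈ Hg (Fin j) (n - b)) ∧ (n < b → cf b F = 0) := by
  classical
  have hF' : F.IsHomogeneous n := hF
  have key : ∀ m, coeff m (cf b F) ≠ 0 → b + m.degree = n := by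
    intro m hm
    rw [cf_apply, finSuccEquiv_coeff_coeff] at hm
    have h1 := hF'.degree_eq_sum_deg_support (mem_support_iff.2 hm)
    have h2 : (m.cons b).degree = n := by
      rw [Finsupp.degree_apply]
      exact h1.symm
    rw [Finsupp.degree_eq_sum, Fin.sum_univ_succ, Finsupp.cons_zero] at h2
    simp only [Finsupp.cons_succ] at h2
    rw [Finsupp.degree_eq_sum]
    exact h2
  constructor
  · intro hb
    have h0 : (cf b F).IsHomogeneous (n - b) := by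
      rw [(cf b F).as_sum]
      apply IsHomogeneous.sum
      intro m hm
      apply isHomogeneous_monomial
      have := key m (mem_support_iff.1 hm)
      omega
    exact h0
  · intro hb
    ext m
    rw [coeff_zero]
    by_contra hm
    have := key m hm
    omega

theorem exists_bit {C M : ℕ} (h : M % 2 ^ C ≠ 2 ^ C - 1) : ∃ r, r < C ∧ M.testBit r = false := by
  by_contra hno
  apply h
  apply Nat.eq_of_testBit_eq
  intro i
  rw [Nat.testBit_mod_two_pow, Nat.testBit_two_pow_sub_one]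
  by_cases hi : i < C
  · have h1 : M.testBit i = true := by
      by_contra hb
      exact hno ⟨i, hi, by simpa using hb⟩
    rw [h1, Bool.and_true]
  · simp [hi]

theorem An_ee {d k m : ℕ} (g : WS (Fin d) ≃ₗ[ZMod 2] WS (Fin k ⊕ Fin m)) (w : WS (Fin (d + 1))) :
    w ∈ An (ee g) ↔ w 0 = 0 ∧ Fin.tail w ∈ An g := by
  constructor
  · intro h
    exact ⟨h 0, fun i => h i.succ⟩
  · rintro ⟨h0, h1⟩ i
    refine Fin.cases ?_ (fun i => ?_) i
    · exact h0
    · exact h1 i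

theorem Hg_mul {σ : Type} {a b : ℕ} {f g : PS σ} (hf : f ∈ Hg σ a) (hg : g ∈ Hg σ b) :
    f * g ∈ Hg σ (a + b) :=
  IsHomogeneous.mul (show f.IsHomogeneous a from hf) (show g.IsHomogeneous b from hg)

theorem Hg_pow {σ : Type} {a : ℕ} {f : PS σ} (hf : f ∈ Hg σ a) (e : ℕ) : f ^ e ∈ Hg σ (a * e) :=
  IsHomogeneous.pow (show f.IsHomogeneous a from hf) e

theorem Hg_X {σ : Type} (i : σ) : (X i : PS σ) ∈ Hg σ 1 := isHomogeneous_X (ZMod 2) i

theorem Hg_up {d a : ℕ} {f : PS (Fin d)} (hf : f ∈ Hg (Fin d) a) : up d f ∈ Hg (Fin (d + 1)) a :=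
  IsHomogeneous.rename_isHomogeneous (f := Fin.succ) (show f.IsHomogeneous a from hf)

theorem proj_ne (d : ℕ) : (LinearMap.proj 0 : WS (Fin (d + 1)) →ₗ[ZMod 2] ZMod 2) ≠ 0 := by
  intro h
  have h1 := LinearMap.congr_fun h (fun _ => 1)
  have h2 : (1 : ZMod 2) = 0 := h1
  exact absurd h2 (by decide)

theorem pw {R : Type} [CommSemiring R] (S F : R) {a b e c : ℕ} (h : a = b * e + c) :
    S ^ a * F = (S ^ b) ^ e * (S ^ c * F) := by
  rw [h, pow_add, pow_mul, mul_assoc]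

/-- Multiples of `SL` by small elements. -/
theorem small (hN : P_NNB) (hL2 : P_LO2) {k C : ℕ} (hC : 1 ≤ C) (m M : ℕ) {z : PS (Fin k)}
    (hz : z ∈ NN (Fin k) C) :
    SL k ^ 2 ^ (m + 2 * C) * (up k z * X 0 ^ M) ∈ NN (Fin (k + 1)) C := by
  have h1 : SL k ^ (2 ^ C * 2 ^ C) * (up k z * X 0 ^ M) ∈ NN (Fin (k + 1)) C := by
    apply hL2 k C _ hC
    intro M' _
    rw [cf_up]
    split_ifs
    · exact hz
    · exact Submodule.zero_mem _
  have h2 := hN.1 _ C (SL k ^ ((2 ^ m - 1) * 2 ^ C)) _ h1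
  have e0 : 2 ^ (m + 2 * C) = (2 ^ m - 1) * 2 ^ C * 2 ^ C + 2 ^ C * 2 ^ C := by
    have h3 : 1 ≤ 2 ^ m := Nat.one_le_two_pow
    obtain ⟨a, ha⟩ := Nat.exists_eq_add_of_le h3
    rw [pow_add, two_mul, pow_add, ha, Nat.add_sub_cancel_left]
    ring
  rw [pw (SL k) (up k z * X 0 ^ M) e0]
  exact h2

/-- Monomials with a missing bit. -/
theorem bitlo (hN : P_NNB) (hL1 : P_LO1) {k C : ℕ} (m M : ℕ) (h : M % 2 ^ C ≠ 2 ^ C - 1)
    (z : PS (Fin k)) :
    SL k ^ 2 ^ (m + 2 * C) * (up k z * X 0 ^ M) ∈ NN (Fin (k + 1)) C := by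
  obtain ⟨r, hr, hb⟩ := exists_bit h
  have h1 := hL1 k C r M z hr hb
  have h2 := hN.1 _ C (SL k ^ (2 ^ (m + C) - 2 ^ r)) _ h1
  have e0 : 2 ^ (m + 2 * C) = (2 ^ (m + C) - 2 ^ r) * 2 ^ C + 2 ^ C * 2 ^ r := by
    have h3 : 2 ^ r ≤ 2 ^ (m + C) := Nat.pow_le_pow_right (by norm_num) (by omega)
    obtain ⟨a, ha⟩ := Nat.exists_eq_add_of_le h3
    have h4 : 2 ^ (m + 2 * C) = 2 ^ (m + C) * 2 ^ C := by
      rw [← pow_add]
      congr 1
      omega
    rw [h4, ha, Nat.add_sub_cancel_left]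
    ring
  rw [pw (SL k) (up k z * X 0 ^ M) e0]
  exact h2

theorem Ad_shift {c : ℤ} {k m : ℕ} {μ : PS (Fin m) →ₗ[ZMod 2] ZMod 2} (h : Ad c (k + 1) m μ) :
    Ad (c - 1) k m μ := by
  refine ⟨h.1, ?_⟩
  intro r hr
  apply h.2 r
  intro h1
  apply hr
  push_cast at h1
  linarith

/-- The projection of the lift. -/
theorem pj_lift (hPB : P_PJB) (hPE : P_PJE) (hR : P_RES) {d : ℕ} {c : ℤ} {t C : ℕ}
    (hb : ((d + 1 : ℕ) : ℤ) - c < 2 ^ t) {j : ℕ} (hj : 1 ≤ j) (f' : PS (Fin d)) {k m : ℕ}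
    (g : WS (Fin d) ≃ₗ[ZMod 2] WS (Fin k ⊕ Fin m)) (μ : PS (Fin m) →ₗ[ZMod 2] ZMod 2)
    (hμ : Ad c (k + 1) m μ) :
    pj t (ee g) μ (SL d ^ (2 ^ (C + t) * 2 ^ C) * (up d f' * X 0 ^ (2 ^ (C + t) * j - 1))) =
      SL k ^ 2 ^ (m + 2 * C) * (up k (pj t g μ f') * X 0 ^ (2 ^ C * j - 1)) := by
  have h1 : SL d ^ (2 ^ (C + t) * 2 ^ C) = (SL d ^ 2 ^ C) ^ 2 ^ (C + t) := by
    rw [← pow_mul, mul_comm]
  rw [h1, hPB.1 (d + 1) c t C (k + 1) m (ee g) μ hμ hb, hPE]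
  have hC1 : 1 ≤ 2 ^ C := Nat.one_le_two_pow
  have ht1 : 1 ≤ 2 ^ t := Nat.one_le_two_pow
  have hCj : 1 ≤ 2 ^ C * j := Nat.one_le_iff_ne_zero.2 (by positivity)
  have h2 : 2 ^ (C + t) * j - 1 = 2 ^ t * (2 ^ C * j - 1) + (2 ^ t - 1) := by
    obtain ⟨a, ha⟩ := Nat.exists_eq_add_of_le hCj
    obtain ⟨b, hb'⟩ := Nat.exists_eq_add_of_le ht1
    rw [pow_add, mul_comm (2 ^ C) (2 ^ t), mul_assoc, ha, Nat.add_sub_cancel_left, hb',
      Nat.add_sub_cancel_left, Nat.mul_add, mul_one]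
    omega
  have h3 : (2 ^ (C + t) * j - 1) % 2 ^ t = 2 ^ t - 1 := by
    rw [h2, Nat.mul_add_mod]
    exact Nat.mod_eq_of_lt (by omega)
  have h4 : (2 ^ (C + t) * j - 1) / 2 ^ t = 2 ^ C * j - 1 := by
    rw [h2, Nat.mul_add_div (by omega), Nat.div_eq_of_lt (by omega), add_zero]
  rw [if_pos h3, h4]
  congr 1
  rw [map_pow, map_pow, hR.1, ← pow_mul, ← pow_mul]
  congr 1
  rw [pow_add, two_mul, pow_add]

end CK1

open CK1 in
/-- CK1 -/
theorem t_CK1 : Stmt_CK1 := by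
  intro hO hN hS hLI hPB hPE hU hL1 hL2 hR hT d c t C hC hb hSur q n k m n' r g hn hn' hr u hu ν hν
  have hdk : k + m = d := (hLI.2.2.1 d k m g).1
  -- one term
  have term : ∀ M : ℕ, ∃ f, Lft c t C n (ee g) (SL k ^ 2 ^ (m + 2 * C) * (up k (cf M u) * X 0 ^ M))
      ν f := by
    intro M
    by_cases hM : M % 2 ^ C = 2 ^ C - 1
    swap
    · have h1 := bitlo hN hL1 m M hM (cf M u)
      have h2 := hT.2.2.1 (d + 1) c t C n (k + 1) m (ee g) 0 0 _ ν 0 0 h1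
        (hT.2.2.2 _ _ _ _ _ _ _ _ _) (hT.2.2.2 _ _ _ _ _ _ _ _ _)
      refine ⟨0 + 0, ?_⟩
      rw [zero_add, zero_add] at h2
      rw [zero_add]
      rw [add_zero] at h2
      exact h2
    by_cases hMn : n' < M
    · refine ⟨0, ?_⟩
      rw [(cf_homog hu M).2 hMn, map_zero, zero_mul, mul_zero]
      exact hT.2.2.2 _ _ _ _ _ _ _ _ _
    rw [not_lt] at hMn
    have hC1 : 1 ≤ 2 ^ C := Nat.one_le_two_pow
    have ht1 : 1 ≤ 2 ^ t := Nat.one_le_two_pow
    obtain ⟨j, hj1, hj⟩ : ∃ j, 1 ≤ j ∧ M = 2 ^ C * j - 1 := by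
      refine ⟨M / 2 ^ C + 1, Nat.le_add_left 1 _, ?_⟩
      have h1 := Nat.div_add_mod M (2 ^ C)
      rw [hM] at h1
      rw [Nat.mul_add, mul_one]
      omega
    have hCj : 1 ≤ 2 ^ C * j := Nat.one_le_iff_ne_zero.2 (by positivity)
    have hMz : (M : ℤ) = 2 ^ C * j - 1 := by
      rw [hj]
      push_cast [Nat.cast_sub hCj]
      ring
    have hcu := (cf_homog hu M).1 hMn
    have e1 : ((n' - M : ℕ) : ℤ) = 2 ^ C * (q - j) - k := by
      rw [Nat.cast_sub hMn, hn', hMz]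
      push_cast
      ring
    have e2 : ((2 ^ t * (n' - M) + (2 ^ t - 1) * k + r : ℕ) : ℤ) =
        2 ^ (C + t) * (q - j) - (c - 1) := by
      push_cast [Nat.cast_sub ht1]
      rw [e1, hr, pow_add]
      push_cast
      ring
    have e3 : (r : ℤ) = k - (c - 1) := by
      rw [hr]
      push_cast
      ring
    obtain ⟨f', hf'⟩ := hSur (q - j) _ k m (n' - M) r g e2 e1 e3 _ hcu ν hν
    refine ⟨SL d ^ (2 ^ (C + t) * 2 ^ C) * (up d f' * X 0 ^ (2 ^ (C + t) * j - 1)), ?_, ?_, ?_⟩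
    · have hSL : SL d ∈ Hg (Fin (d + 1)) (2 ^ d) := hR.2.2.2 d _ (proj_ne d)
      have h1 := Hg_mul (Hg_pow hSL (2 ^ (C + t) * 2 ^ C)) (Hg_mul (Hg_up hf'.1)
        (Hg_pow (Hg_X (0 : Fin (d + 1))) (2 ^ (C + t) * j - 1)))
      have hCtj : 1 ≤ 2 ^ (C + t) * j := Nat.one_le_iff_ne_zero.2 (by positivity)
      have e4 : 2 ^ d * (2 ^ (C + t) * 2 ^ C) + (2 ^ t * (n' - M) + (2 ^ t - 1) * k + r +
          1 * (2 ^ (C + t) * j - 1)) = n := by
        have e5 : ((2 ^ d * (2 ^ (C + t) * 2 ^ C) + (2 ^ t * (n' - M) + (2 ^ t - 1) * k + r +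
          1 * (2 ^ (C + t) * j - 1)) : ℕ) : ℤ) = n := by
          rw [Nat.cast_add, Nat.cast_add (2 ^ t * (n' - M) + (2 ^ t - 1) * k + r), e2, hn, one_mul,
            Nat.cast_sub hCtj, pow_add 2 d C]
          push_cast
          ring
        exact_mod_cast e5
      rw [e4] at h1
      exact h1
    · intro μ hμ
      rw [pj_lift hPB hPE hR hb hj1 f' g μ hμ]
      have h1 := hf'.2.1 μ (Ad_shift hμ)
      have h2 := small hN hL2 hC m (2 ^ C * j - 1) h1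
      have e4 : SL k ^ 2 ^ (m + 2 * C) * (up k (pj t g μ f') * X 0 ^ (2 ^ C * j - 1)) -
          μ ν • (SL k ^ 2 ^ (m + 2 * C) * (up k (cf M u) * X 0 ^ M)) =
          SL k ^ 2 ^ (m + 2 * C) * (up k (pj t g μ f' - μ ν • cf M u) * X 0 ^ (2 ^ C * j - 1)) := by
        rw [hj, map_sub, map_smul, sub_mul, smul_mul_assoc, mul_sub, mul_smul_comm]
      rw [e4]
      exact h2
    · intro k' m' g' μ' hμ' hne
      by_cases hw : ∀ w ∈ An g', w 0 = 0
      · obtain ⟨k'', rfl⟩ : ∃ k'', k' = k'' + 1 := by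
          rcases k' with _ | k''
          · exfalso
            have h1 : (fun _ => 1 : WS (Fin (d + 1))) ∈ An g' := fun i => Fin.elim0 i
            have h2 : (1 : ZMod 2) = 0 := hw _ h1
            exact absurd h2 (by decide)
          · exact ⟨k'', rfl⟩
        obtain ⟨g₁, hg₁⟩ := hLI.2.2.2.1 d k'' m' g' hw
        obtain ⟨A, D, hAD⟩ := hU (d + 1) t (k'' + 1) m' g' (ee g₁) hg₁.symm
        have hkd := (hLI.2.2.1 (d + 1) (k'' + 1) m' g').1
        rw [hAD μ' (fun s hs b hbb => hμ'.2 s (by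
          intro h1
          have h2 : ((2 ^ t : ℕ) : ℤ) ≤ s := by exact_mod_cast hs
          push_cast at h1 h2 hb
          have h3 : ((k'' : ℤ) + 1) ≤ d + 1 := by
            have h4 : k'' + 1 ≤ d + 1 := by omega
            exact_mod_cast h4
          linarith) b hbb)]
        apply hN.2.2.1
        have hμ'' := hS.2.2.2.2.2.1 c (k'' + 1) m' μ' D hμ'
        rw [pj_lift hPB hPE hR hb hj1 f' g₁ _ hμ'']
        apply small hN hL2 hC
        apply hf'.2.2 k'' m' g₁ _ (Ad_shift hμ'')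
        intro h1
        apply hne
        rw [← hg₁]
        ext w
        rw [An_ee, An_ee, h1]
      · rw [not_forall] at hw
        obtain ⟨w, hw⟩ := hw
        rw [Classical.not_imp] at hw
        have h1 : SL d ^ (2 ^ (C + t) * 2 ^ C) = (SL d ^ 2 ^ C) ^ 2 ^ (C + t) := by
          rw [← pow_mul, mul_comm]
        rw [h1, hPB.1 (d + 1) c t C k' m' g' μ' hμ' hb, map_pow, map_pow,
          hR.2.1 d k' m' g' w hw.1 hw.2, zero_pow (by positivity), zero_pow (by positivity),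
          zero_mul]
        exact Submodule.zero_mem _
  obtain ⟨N, hN'⟩ := sum_cf u
  have key : ∀ N' : ℕ, ∃ f, Lft c t C n (ee g) (SL k ^ 2 ^ (m + 2 * C) *
      (∑ M ∈ Finset.range N', up k (cf M u) * X 0 ^ M)) ν f := by
    intro N'
    induction N' with
    | zero =>
      refine ⟨0, ?_⟩
      rw [Finset.sum_range_zero, mul_zero]
      exact hT.2.2.2 _ _ _ _ _ _ _ _ _
    | succ N' ih =>
      obtain ⟨f₁, hf₁⟩ := ih
      obtain ⟨f₂, hf₂⟩ := term N'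
      refine ⟨f₁ + f₂, ?_⟩
      have h1 := hT.2.2.1 (d + 1) c t C n (k + 1) m (ee g) _ _ 0 ν f₁ f₂ (Submodule.zero_mem _)
        hf₁ hf₂
      rw [add_zero, ← mul_add, ← Finset.sum_range_succ] at h1
      exact h1
  obtain ⟨f, hf⟩ := key N
  rw [← hN'] at hf
  exact ⟨f, hf⟩

end HGP
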