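import Pool.Agent.HGP.Stmts

/-!
# CK2: lifts of the multiples by a power of `Sv v`
-/

namespace HGP

open MvPolynomial

theorem t_CK2 : Stmt_CK2 := by
  intro hSBB hLIN hRES hTRN hCK1 d c t C hC hd hSur q n k m n' r g v hv hn hn' hr u hu ν hν
  obtain ⟨k, rfl⟩ : ∃ k₁, k = k₁ + 1 := by
    rcases k with _ | k
    · exfalso
      apply hv
      ext i
      exact i.elim0
    · exact ⟨k, rfl⟩
  have hkm : k + m = d := by
    have h1 := (hLIN.2.2.1 (d + 1) (k + 1) m g).1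
    omega
  subst hkm
  obtain ⟨B, hB⟩ := hLIN.2.1 k v hv
  let g₂ : WS (Fin (k + m)) ≃ₗ[ZMod 2] WS (Fin k ⊕ Fin m) :=
    LinearEquiv.funCongrLeft (ZMod 2) (ZMod 2) finSumFinEquiv
  let g₁ : WS (Fin (k + m + 1)) ≃ₗ[ZMod 2] WS (Fin (k + 1) ⊕ Fin m) := g.trans (bl B)
  let E : WS (Fin (k + m + 1)) ≃ₗ[ZMod 2] WS (Fin (k + m + 1)) := g₁.trans (ee g₂).symm
  have hE : E.symm.trans g₁ = ee g₂ := by
    ext1 x
    simp [E]
  have huB : sb B.toLinearMap u ∈ Hg (Fin (k + 1)) n' := hSBB.2.2.2.1 _ _ B.toLinearMap n' u hu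
  obtain ⟨f₀, hf₀⟩ := hCK1 (k + m) c t C hC hd hSur q n k m n' r g₂ hn hn' hr _ huB ν hν
  rw [← hE] at hf₀
  have h1 := hTRN.2.1 _ _ _ _ _ _ _ _ _ _ _ _ hf₀
  have h2 := hTRN.1 _ _ _ _ _ _ _ _ _ _ _ _ h1
  have h3 : sb B.symm.toLinearMap (SL k) = Sv v := by
    rw [← hRES.2.2.1 k v B hB, hSBB.2.1]
    have e : B.symm.toLinearMap.comp B.toLinearMap = LinearMap.id := by
      ext1 x
      simp
    rw [e]
    exact hSBB.2.2.1 _ _
  have h4 : sb B.symm.toLinearMap (sb B.toLinearMap u) = u := by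
    rw [hSBB.2.1]
    have e : B.symm.toLinearMap.comp B.toLinearMap = LinearMap.id := by
      ext1 x
      simp
    rw [e]
    exact hSBB.2.2.1 _ _
  rw [map_mul, map_pow, h3, h4] at h2
  exact ⟨_, h2⟩

end HGP
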