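import Pool.Agent.HGP.Stmts

/-!
# CK3: surjectivity in large degrees
-/

namespace HGP

open MvPolynomial

namespace CK3

/-- The component of a product with a homogeneous polynomial. -/
theorem comp_mul {σ : Type} {D n e : ℕ} (h : e + D = n) {s : PS σ} (hs : s ∈ Hg σ D) (a : PS σ) :
    homogeneousComponent n (a * s) = s * homogeneousComponent e a := by
  have h1 : a * s = ∑ i ∈ Finset.range (a.totalDegree + 1), homogeneousComponent i a * s := by
    rw [← Finset.sum_mul, sum_homogeneousComponent]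
  rw [h1, map_sum]
  have h2 : ∀ i, homogeneousComponent n (homogeneousComponent i a * s) =
      if i = e then homogeneousComponent i a * s else 0 := by
    intro i
    have h3 : homogeneousComponent i a * s ∈ homogeneousSubmodule σ (ZMod 2) (i + D) :=
      IsHomogeneous.mul (homogeneousComponent_isHomogeneous i a) hs
    rw [homogeneousComponent_of_mem h3]
    by_cases h4 : i = e
    · rw [if_pos h4, if_pos (by omega)]
    · rw [if_neg h4, if_neg (by omega)]
  rw [Finset.sum_congr rfl fun i _ => h2 i, Finset.sum_ite_eq']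
  split_ifs with h5
  · rw [mul_comm]
  · rw [Finset.mem_range, not_lt] at h5
    rw [homogeneousComponent_eq_zero _ _ (by omega), mul_zero]

theorem le_sum (d : ℕ) (F : ℕ → ℕ → ℕ) {k m : ℕ} (hk : k ≤ d) (hm : m ≤ d) :
    F k m ≤ ∑ k ∈ Finset.range (d + 1), ∑ m ∈ Finset.range (d + 1), F k m := by
  calc F k m ≤ ∑ m ∈ Finset.range (d + 1), F k m :=
        Finset.single_le_sum (f := fun m => F k m) (fun _ _ => Nat.zero_le _)
          (Finset.mem_range.2 (by omega))
    _ ≤ _ := Finset.single_le_sum (f := fun k => ∑ m ∈ Finset.range (d + 1), F k m)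
          (fun _ _ => Nat.zero_le _) (Finset.mem_range.2 (by omega))

end CK3

theorem t_CK3 : Stmt_CK3 := by
  intro hLIN hRES hTRN hNUL d c t C hCok
  choose BN hBN using fun k m : ℕ => hNUL k (2 ^ (m + 2 * C))
  refine ⟨((∑ k ∈ Finset.range (d + 1 + 1), ∑ m ∈ Finset.range (d + 1 + 1), BN k m : ℕ) : ℤ) +
    (d + 1) + 2 ^ (d + C), ?_⟩
  intro q hq n k m n' r g hn hn' hr u hu ν hν
  obtain ⟨hkm, -⟩ := hLIN.2.2.1 (d + 1) k m g
  have hle := CK3.le_sum (d + 1) BN (k := k) (m := m) (by omega) (by omega)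
  have hpos : (0 : ℤ) < 2 ^ (d + C) := by positivity
  have h2C : (1 : ℤ) ≤ 2 ^ C := one_le_pow₀ (by norm_num)
  set x : ℤ := q - 2 ^ (d + C) with hx
  have hx0 : (d : ℤ) + 1 + BN k m < x := by
    have : ((BN k m : ℕ) : ℤ) ≤
      ((∑ k ∈ Finset.range (d + 1 + 1), ∑ m ∈ Finset.range (d + 1 + 1), BN k m : ℕ) : ℤ) := by
      exact_mod_cast hle
    linarith
  have hxC : x ≤ 2 ^ C * x := by nlinarith
  have hqC : 2 ^ C * q = 2 ^ C * x + 2 ^ (d + 2 * C) := by
    have h3 : (2 : ℤ) ^ (d + 2 * C) = 2 ^ C * 2 ^ (d + C) := by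
      rw [← pow_add]
      congr 1
      ring
    rw [h3, hx]
    ring
  have hp2 : (0 : ℤ) < 2 ^ (d + 2 * C) := by positivity
  have hkm' : (k : ℤ) + m = d + 1 := by exact_mod_cast hkm
  have hnat : ((d : ℤ) + 1) - k = m := by linarith
  -- the smaller degree
  obtain ⟨n₂, hn₂⟩ : ∃ n₂ : ℕ, (n₂ : ℤ) = 2 ^ C * x - k := by
    refine ⟨(2 ^ C * x - k).toNat, ?_⟩
    rw [Int.toNat_of_nonneg]
    have : (0 : ℤ) ≤ m := by positivity
    have : (0 : ℤ) ≤ BN k m := by positivity
    linarith
  have hn₂' : n₂ + 2 ^ (d + 2 * C) = n' := by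
    have : ((n₂ + 2 ^ (d + 2 * C) : ℕ) : ℤ) = (n' : ℤ) := by
      push_cast
      rw [hn₂, hn', hqC]
      ring
    exact_mod_cast this
  have hBn : BN k m ≤ n' := by
    have h4 : ((BN k m : ℕ) : ℤ) ≤ (n' : ℤ) := by
      rw [hn', hqC]
      have : (0 : ℤ) ≤ m := by positivity
      linarith
    exact_mod_cast h4
  have hspan := hBN k m n' hBn u hu
  have key : ∀ a : PS (Fin k), ∃ f, Lft c t C n g (homogeneousComponent n' (a * u)) ν f := by
    clear hu
    induction hspan using Submodule.span_induction with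
    | mem y hy =>
      obtain ⟨v, hv, rfl⟩ := hy
      intro a
      rcases k with _ | k
      · exfalso
        apply hv
        ext i
        exact Fin.elim0 i
      · have h5 : Sv v ^ 2 ^ (m + 2 * C) ∈ Hg (Fin (k + 1)) (2 ^ (d + 2 * C)) := by
          have h6 : Sv v ∈ Hg (Fin (k + 1)) (2 ^ k) := hRES.2.2.2 k v hv
          have h7 : (Sv v ^ 2 ^ (m + 2 * C)).IsHomogeneous (2 ^ k * 2 ^ (m + 2 * C)) :=
            IsHomogeneous.pow h6 _
          have h8 : 2 ^ k * 2 ^ (m + 2 * C) = 2 ^ (d + 2 * C) := by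
            rw [← pow_add]
            congr 1
            omega
          rw [h8] at h7
          exact h7
        rw [CK3.comp_mul hn₂' h5]
        refine hCok x n (k + 1) m n₂ r g v hv ?_ hn₂ hr _ (homogeneousComponent_isHomogeneous _ _)
          ν hν
        rw [hn, hx]
        ring
    | zero =>
      intro a
      rw [mul_zero, map_zero]
      exact ⟨0, hTRN.2.2.2 (d + 1) c t C n k m g ν⟩
    | add y z _ _ hy hz =>
      intro a
      obtain ⟨f, hf⟩ := hy a
      obtain ⟨f', hf'⟩ := hz a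
      refine ⟨f + f', ?_⟩
      rw [mul_add, map_add]
      have := hTRN.2.2.1 (d + 1) c t C n k m g _ _ 0 ν f f' (Submodule.zero_mem _) hf hf'
      rwa [add_zero] at this
    | smul b y _ hy =>
      intro a
      rw [smul_eq_mul, ← mul_assoc]
      exact hy (a * b)
  obtain ⟨f, hf⟩ := key 1
  rw [one_mul, homogeneousComponent_of_mem hu, if_pos rfl] at hf
  exact ⟨f, hf⟩

end HGP
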