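import Pool.Agent.HGP.Stmts

/-!
# CMC: the composite of two operations
-/

namespace HGP

open MvPolynomial

namespace CMC

variable (σ : Type)

/-- The coefficients in `ZMod 2` as coefficients in `PS σ`. -/
noncomputable def bb : MvPolynomial ℕ (Polynomial (ZMod 2)) →+*
    MvPolynomial ℕ (Polynomial (PS σ)) :=
  MvPolynomial.map (Polynomial.mapRingHom (C : ZMod 2 →+* PS σ))

/-- The left side. -/
noncomputable def lhs (j m : ℕ) : PS σ →+* MvPolynomial ℕ (Polynomial (PS σ)) :=
  (MvPolynomial.map ((es σ j : PS σ →ₐ[ZMod 2] Polynomial (PS σ)) :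
    PS σ →+* Polynomial (PS σ))).comp
    ((ph σ m : PS σ →ₐ[ZMod 2] MvPolynomial ℕ (PS σ)) : PS σ →+* MvPolynomial ℕ (PS σ))

/-- The right side. -/
noncomputable def rhs (j m : ℕ) : PS σ →+* MvPolynomial ℕ (Polynomial (PS σ)) :=
  (MvPolynomial.eval₂Hom ((C : Polynomial (PS σ) →+* MvPolynomial ℕ (Polynomial (PS σ))).comp
    (Polynomial.C : PS σ →+* Polynomial (PS σ))) fun i => bb σ (zz j m i)).comp
    ((ph σ (m + j + 1) : PS σ →ₐ[ZMod 2] MvPolynomial ℕ (PS σ)) :
      PS σ →+* MvPolynomial ℕ (PS σ))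

theorem ph_X (m : ℕ) (s : σ) : ph σ m (X s) =
    C (X s) + ∑ j ∈ Finset.range m, C (X s ^ 2 ^ (j + 1)) * X j := by
  rw [ph, aeval_X]

theorem es_X (j : ℕ) (s : σ) : es σ j (X s) =
    Polynomial.C (X s) + Polynomial.C (X s ^ 2 ^ (j + 1)) * Polynomial.X := by
  rw [es, aeval_X]

theorem es_X_pow (j l : ℕ) (s : σ) : es σ j (X s) ^ 2 ^ l =
    Polynomial.C (X s ^ 2 ^ l) +
      Polynomial.C (X s ^ 2 ^ (j + 1 + l)) * Polynomial.X ^ 2 ^ l := by
  have : Fact (Nat.Prime 2) := ⟨Nat.prime_two⟩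
  rw [es_X, add_pow_char_pow (R := Polynomial (PS σ)) (p := 2), mul_pow, ← Polynomial.C_pow,
    ← Polynomial.C_pow, ← pow_mul, pow_add 2 (j + 1) l]

theorem bb_zz (j m i : ℕ) : bb σ (zz j m i) =
    (if i < m then X i else 0) + (if i = j then C Polynomial.X else 0) +
    (if j + 1 ≤ i ∧ i - (j + 1) < m then
      C (Polynomial.X ^ 2 ^ (i - j)) * X (i - (j + 1)) else 0) := by
  rw [bb, zz, map_add, map_add]
  congr 1
  · congr 1
    · split_ifs
      · rw [map_X]
      · rw [map_zero]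
    · split_ifs
      · rw [map_C, Polynomial.coe_mapRingHom, Polynomial.map_X]
      · rw [map_zero]
  · split_ifs
    · rw [map_mul, map_X, map_C, Polynomial.coe_mapRingHom, Polynomial.map_pow, Polynomial.map_X]
    · rw [map_zero]

theorem lhs_eq_rhs (j m : ℕ) : lhs σ j m = rhs σ j m := by
  refine MvPolynomial.ringHom_ext' (Subsingleton.elim _ _) fun s => ?_
  have hl : lhs σ j m (X s) = C (es σ j (X s)) +
      ∑ l ∈ Finset.range m, C (es σ j (X s) ^ 2 ^ (l + 1)) * X l := by
    rw [lhs, RingHom.comp_apply]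
    change MvPolynomial.map _ (ph σ m (X s)) = _
    rw [ph_X, map_add, map_C, map_sum]
    congr 1
    refine Finset.sum_congr rfl fun l _ => ?_
    rw [map_mul, map_C, map_X]
    congr 2
    exact map_pow (es σ j) (X s) _
  have hr : rhs σ j m (X s) = C (Polynomial.C (X s)) +
      ∑ i ∈ Finset.range (m + j + 1), C (Polynomial.C (X s ^ 2 ^ (i + 1))) * bb σ (zz j m i) := by
    rw [rhs, RingHom.comp_apply]
    change MvPolynomial.eval₂Hom _ _ (ph σ (m + j + 1) (X s)) = _
    rw [ph_X, map_add, map_sum]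
    congr 1
    · rw [coe_eval₂Hom, eval₂_C]
      rfl
    · refine Finset.sum_congr rfl fun l _ => ?_
      rw [map_mul, coe_eval₂Hom, eval₂_C, eval₂_X]
      rfl
  rw [hl, hr]
  have h1 : ∀ i ∈ Finset.range (m + j + 1),
      C (Polynomial.C (X s ^ 2 ^ (i + 1) : PS σ)) * bb σ (zz j m i) =
      (if i < m then C (Polynomial.C (X s ^ 2 ^ (i + 1))) * X i else 0) +
      (if i = j then C (Polynomial.C (X s ^ 2 ^ (j + 1))) * C Polynomial.X else 0) +
      (if j + 1 ≤ i ∧ i - (j + 1) < m then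
        C (Polynomial.C (X s ^ 2 ^ (i + 1)) * Polynomial.X ^ 2 ^ (i - j)) * X (i - (j + 1))
        else 0) := by
    intro i _
    rw [bb_zz, mul_add, mul_add]
    congr 1
    · congr 1
      · split_ifs
        · rfl
        · rw [mul_zero]
      · split_ifs with h
        · rw [h]
        · rw [mul_zero]
    · split_ifs
      · rw [← mul_assoc, C_mul]
      · rw [mul_zero]
  rw [Finset.sum_congr rfl h1, Finset.sum_add_distrib, Finset.sum_add_distrib]
  have h2 : ∑ i ∈ Finset.range (m + j + 1), (if i < m then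
      C (Polynomial.C (X s ^ 2 ^ (i + 1) : PS σ)) * X i else 0) =
      ∑ i ∈ Finset.range m, C (Polynomial.C (X s ^ 2 ^ (i + 1) : PS σ)) * X i := by
    rw [← Finset.sum_filter]
    refine Finset.sum_congr ?_ fun _ _ => rfl
    ext i
    simp only [Finset.mem_filter, Finset.mem_range]
    omega
  have h3 : ∑ i ∈ Finset.range (m + j + 1), (if i = j then
      C (Polynomial.C (X s ^ 2 ^ (j + 1) : PS σ)) * C Polynomial.X else 0) =
      (C (Polynomial.C (X s ^ 2 ^ (j + 1) : PS σ)) * C Polynomial.X :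
        MvPolynomial ℕ (Polynomial (PS σ))) := by
    rw [Finset.sum_ite_eq', if_pos (Finset.mem_range.2 (by omega))]
  have h4 : ∑ i ∈ Finset.range (m + j + 1), (if j + 1 ≤ i ∧ i - (j + 1) < m then
        C (Polynomial.C (X s ^ 2 ^ (i + 1) : PS σ) * Polynomial.X ^ 2 ^ (i - j)) *
          X (i - (j + 1)) else 0) =
      ∑ l ∈ Finset.range m, C (Polynomial.C (X s ^ 2 ^ (j + 1 + (l + 1)) : PS σ) *
        Polynomial.X ^ 2 ^ (l + 1)) * X l := by
    rw [← Finset.sum_filter]
    refine Finset.sum_nbij' (fun i => i - (j + 1)) (fun l => l + (j + 1)) ?_ ?_ ?_ ?_ ?_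
    · intro i hi
      simp only [Finset.mem_filter, Finset.mem_range] at hi ⊢
      omega
    · intro l hl
      simp only [Finset.mem_filter, Finset.mem_range] at hl ⊢
      omega
    · intro i hi
      simp only [Finset.mem_filter, Finset.mem_range] at hi
      omega
    · intro l _
      omega
    · intro i hi
      simp only [Finset.mem_filter, Finset.mem_range] at hi
      have e1 : j + 1 + (i - (j + 1) + 1) = i + 1 := by omega
      have e2 : i - (j + 1) + 1 = i - j := by omega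
      rw [e1, e2]
  rw [h2, h3, h4]
  have h5 : ∀ l ∈ Finset.range m, (C (es σ j (X s) ^ 2 ^ (l + 1)) * X l :
      MvPolynomial ℕ (Polynomial (PS σ))) = C (Polynomial.C (X s ^ 2 ^ (l + 1))) * X l +
        C (Polynomial.C (X s ^ 2 ^ (j + 1 + (l + 1)) : PS σ) *
        Polynomial.X ^ 2 ^ (l + 1)) * X l := by
    intro l _
    rw [es_X_pow, C_add, add_mul]
  rw [Finset.sum_congr rfl h5, Finset.sum_add_distrib, es_X, C_add, C_mul]
  ring

end CMC

theorem t_CMC : Stmt_CMC := by
  intro _ σ j m κ γ f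
  have h := congrArg (fun F => (coeff γ F).coeff κ) (DFunLike.congr_fun (CMC.lhs_eq_rhs σ j m) f)
  have hl : (coeff γ (CMC.lhs σ j m f)).coeff κ = Os j κ (Mp m γ f) := by
    rw [CMC.lhs, RingHom.comp_apply, coeff_map]
    rfl
  have hr : (coeff γ (CMC.rhs σ j m f)).coeff κ =
      ∑ ρ ∈ (ph σ (m + j + 1) f).support, cc j m κ γ ρ • Mp (m + j + 1) ρ f := by
    have e : CMC.rhs σ j m f = ∑ ρ ∈ (ph σ (m + j + 1) f).support,
        C (Polynomial.C (coeff ρ (ph σ (m + j + 1) f))) *
          CMC.bb σ (ρ.prod fun i a => zz j m i ^ a) := by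
      rw [CMC.rhs, RingHom.comp_apply, coe_eval₂Hom, eval₂_eq]
      refine Finset.sum_congr rfl fun ρ _ => ?_
      congr 1
      rw [Finsupp.prod, map_prod]
      refine Finset.prod_congr rfl fun i _ => ?_
      rw [map_pow]
    rw [e, coeff_sum, Polynomial.finsetSum_coeff]
    refine Finset.sum_congr rfl fun ρ _ => ?_
    rw [coeff_C_mul, Polynomial.coeff_C_mul, CMC.bb, coeff_map, Polynomial.coe_mapRingHom,
      Polynomial.coeff_map, mul_comm, ← smul_eq_C_mul]
    rfl
  exact hl.symm.trans (h.trans hr)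

end HGP
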