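import Pool.Agent.HGP.Stmts
import Pool.Agent.Lib_helper74.Hit.Dim

/-! # CNT: the count -/

namespace HGP

open MvPolynomial
open Pool.Agent.Lib_helper74.Hit (hits qd up cf Sq)

namespace CNT

theorem NN_le_hits (hH : P_HTS) (σ : Type) (t : ℕ) : NN σ t ≤ hits σ := by
  rw [NN, Submodule.span_le]
  rintro g ⟨m, α, f, hα, -, rfl⟩
  exact hH.1 σ m α f hα

theorem Os_mem_hits (hO : P_OPB) (σ : Type) (κ : ℕ) (hκ : 1 ≤ κ) (f : PS σ) :
    Os 0 κ f ∈ hits σ := by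
  rw [hO.2.2.2.2.2.2.2.1 σ κ f]
  exact Submodule.subset_span ⟨κ, f, hκ, rfl⟩

/-- The data at a subspace. -/
structure Dat (d : ℕ) (c : ℤ) (L : Submodule (ZMod 2) (WS (Fin d))) where
  k : ℕ
  m : ℕ
  N : ℕ
  g : WS (Fin d) ≃ₗ[ZMod 2] WS (Fin k ⊕ Fin m)
  ν : Fin N → PS (Fin m)
  μ : Fin N → (PS (Fin m) →ₗ[ZMod 2] ZMod 2)
  hg : An g = L
  hN : N = qz m ((k : ℤ) - c)
  hμ : ∀ i, Ad c k m (μ i)
  hν : ∀ i, ∃ r : ℕ, (r : ℤ) = k - c ∧ ν i ∈ Hg (Fin m) r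
  hd : ∀ i j, μ i (ν j) = if i = j then 1 else 0
  hs : ∀ μ' : PS (Fin m) →ₗ[ZMod 2] ZMod 2, Ad c k m μ' → μ' = ∑ i, μ' (ν i) • μ i

theorem eq_zero_of_homog {m : ℕ} (μ : PS (Fin m) →ₗ[ZMod 2] ZMod 2)
    (h : ∀ s, ∀ f ∈ Hg (Fin m) s, μ f = 0) : μ = 0 := by
  refine LinearMap.ext fun f => ?_
  rw [← sum_homogeneousComponent f, map_sum, LinearMap.zero_apply]
  exact Finset.sum_eq_zero fun i _ => h i _ (homogeneousComponent_mem i f)

theorem exists_dat (hL : P_LIN) (hD : P_DUB) (d : ℕ) (c : ℤ)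
    (L : Submodule (ZMod 2) (WS (Fin d))) : Nonempty (Dat d c L) := by
  obtain ⟨k, g, hg⟩ := hL.1 d L
  by_cases hr : 0 ≤ (k : ℤ) - c
  · obtain ⟨ν, μ, h1, h2, h3, h4⟩ := hD (Module.finrank (ZMod 2) L) ((k : ℤ) - c).toNat
    have hr' : ((((k : ℤ) - c).toNat : ℕ) : ℤ) = (k : ℤ) - c := Int.toNat_of_nonneg hr
    refine ⟨⟨k, Module.finrank (ZMod 2) L, _, g, ν, μ, hg, ?_, ?_, ?_, h3, ?_⟩⟩
    · rw [qz, if_pos hr]
    · intro i
      refine ⟨(h2 i).1, fun s hs f hf => (h2 i).2 s ?_ f hf⟩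
      intro h
      apply hs
      rw [h, hr']
    · intro i
      exact ⟨_, hr', h1 i⟩
    · intro μ' hμ'
      apply h4 μ' hμ'.1
      intro s hs f hf
      apply hμ'.2 s ?_ f hf
      intro h
      apply hs
      omega
  · refine ⟨⟨k, Module.finrank (ZMod 2) L, 0, g, Fin.elim0, Fin.elim0, hg, ?_, ?_, ?_, ?_, ?_⟩⟩
    · rw [qz, if_neg hr]
    · intro i; exact i.elim0
    · intro i; exact i.elim0
    · intro i; exact i.elim0
    · intro μ' hμ'
      rw [Finset.univ_eq_empty, Finset.sum_empty]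
      apply eq_zero_of_homog
      intro s f hf
      exact hμ'.2 s (by omega) f hf

theorem ct_sum {σ τ ι : Type} (s : Finset ι) (a : ι → ZMod 2) (μ : ι → (PS τ →ₗ[ZMod 2] ZMod 2))
    (F : PS (σ ⊕ τ)) : ct (∑ i ∈ s, a i • μ i) F = ∑ i ∈ s, a i • ct (μ i) F := by
  have h : (ct (∑ i ∈ s, a i • μ i) : PS (σ ⊕ τ) →ₗ[ZMod 2] PS σ) = ∑ i ∈ s, a i • ct (μ i) := by
    refine (basisMonomials (σ ⊕ τ) (ZMod 2)).ext fun x => ?_
    rw [LinearMap.sum_apply]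
    simp only [LinearMap.smul_apply, ct, Module.Basis.constr_basis, LinearMap.sum_apply,
      smul_monomial, smul_eq_mul]
    rw [← map_sum]
  rw [h, LinearMap.sum_apply]
  rfl

theorem pj_sum {d k m t : ℕ} (g : WS (Fin d) ≃ₗ[ZMod 2] WS (Fin k ⊕ Fin m)) {ι : Type}
    (s : Finset ι) (a : ι → ZMod 2) (μ : ι → (PS (Fin m) →ₗ[ZMod 2] ZMod 2)) (f : PS (Fin d)) :
    pj t g (∑ i ∈ s, a i • μ i) f = ∑ i ∈ s, a i • pj t g (μ i) f := by
  simp only [pj, LinearMap.comp_apply, ct_sum, map_sum, map_smul]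

theorem mem_hits_of_dat (hL : P_LIN) (hU : P_UNI) (hB : P_SBB) {d t : ℕ} {c : ℤ}
    (hdc : (d : ℤ) - c < 2 ^ t) {k m : ℕ} (g : WS (Fin d) ≃ₗ[ZMod 2] WS (Fin k ⊕ Fin m))
    (μ : PS (Fin m) →ₗ[ZMod 2] ZMod 2) (hμ : Ad c k m μ) (D : Dat d c (An g)) (f : PS (Fin d))
    (hf : ∀ i, pj t D.g (D.μ i) f ∈ hits (Fin D.k)) : pj t g μ f ∈ hits (Fin k) := by
  obtain ⟨k0, m0, N, g0, ν, μ0, hg, hN, hμ0, hν, hd, hs⟩ := D
  have h1 := hL.2.2.1 d k m g
  have h2 := hL.2.2.1 d k0 m0 g0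
  have h3 : m0 = m := by rw [← h1.2, ← h2.2, hg]
  have h4 : k0 = k := by omega
  subst h3 h4
  obtain ⟨A, E, hAE⟩ := hU d t k0 m0 g g0 hg.symm
  have h5 : ∀ s, 2 ^ t ≤ s → ∀ b ∈ Hg (Fin m0) s, μ b = 0 := by
    intro s hs' b hb
    apply hμ.2 s ?_ b hb
    intro h
    have : ((2 ^ t : ℕ) : ℤ) ≤ s := by exact_mod_cast hs'
    push_cast at this
    omega
  rw [hAE μ h5 f]
  have h6 := hB.2.2.2.2.2.1 c k0 m0 μ E hμ
  rw [hs _ h6, pj_sum]
  apply hB.2.2.2.2.1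
  exact Submodule.sum_mem _ fun i _ => Submodule.smul_mem _ _ (hf i)

/-- The space of the values. -/
noncomputable def TT (k : ℕ) (z : ℤ) : Submodule (ZMod 2) (PS (Fin k) ⧸ hits (Fin k)) :=
  if 0 ≤ z then (Hg (Fin k) z.toNat).map (hits (Fin k)).mkQ else ⊥

theorem TT_pos {k : ℕ} {z : ℤ} (h : 0 ≤ z) :
    TT k z = (Hg (Fin k) z.toNat).map (hits (Fin k)).mkQ := if_pos h

theorem TT_neg {k : ℕ} {z : ℤ} (h : ¬ 0 ≤ z) : TT k z = ⊥ := if_neg h

theorem finrank_TT (k : ℕ) (z : ℤ) : Module.finrank (ZMod 2) (TT k z) = qz k z := by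
  by_cases h : 0 ≤ z
  · rw [TT_pos h, qz, if_pos h]
    rfl
  · rw [TT_neg h, qz, if_neg h]
    exact finrank_bot _ _

theorem finite_TT (k : ℕ) (z : ℤ) : Module.Finite (ZMod 2) (TT k z) := by
  by_cases h : 0 ≤ z
  · rw [TT_pos h]
    have h1 : Module.Finite (ZMod 2) (Hg (Fin k) z.toNat) :=
      Pool.Agent.Lib_helper74.Hit.homog_fd z.toNat
    infer_instance
  · rw [TT_neg h]
    infer_instance

section main

variable {d : ℕ} {c : ℤ} (D : ∀ L : Submodule (ZMod 2) (WS (Fin d)), Dat d c L)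

/-- The index set. -/
abbrev XX : Type := Σ L : Submodule (ZMod 2) (WS (Fin d)), Fin (D L).N

/-- One value. -/
noncomputable def ph1 (t : ℕ) (x : XX D) :
    PS (Fin d) →ₗ[ZMod 2] (PS (Fin (D x.1).k) ⧸ hits (Fin (D x.1).k)) :=
  (hits (Fin (D x.1).k)).mkQ.comp (pj t (D x.1).g ((D x.1).μ x.2))

theorem ph1_eq_zero_iff (t : ℕ) (x : XX D) (f : PS (Fin d)) :
    ph1 D t x f = 0 ↔ pj t (D x.1).g ((D x.1).μ x.2) f ∈ hits (Fin (D x.1).k) := by
  rw [ph1, LinearMap.comp_apply, Submodule.mkQ_apply, Submodule.Quotient.mk_eq_zero]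

theorem ph1_mem (hJ : P_PJB) {t C n : ℕ} {q : ℤ} (hn : (n : ℤ) = 2 ^ (C + t) * q - c)
    (x : XX D) (f : PS (Fin d)) (hf : f ∈ Hg (Fin d) n) :
    ph1 D t x f ∈ TT (D x.1).k (2 ^ C * q - ((D x.1).k : ℤ)) := by
  obtain ⟨r, hr, -⟩ := (D x.1).hν x.2
  by_cases h : 0 ≤ 2 ^ C * q - ((D x.1).k : ℤ)
  · rw [TT_pos h]
    refine ⟨_, ?_, rfl⟩
    have h1 : (((2 ^ C * q - ((D x.1).k : ℤ)).toNat : ℕ) : ℤ) = 2 ^ C * q - ((D x.1).k : ℤ) :=
      Int.toNat_of_nonneg h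
    apply hJ.2.2.2.1 d c t (D x.1).k (D x.1).m n _ r (D x.1).g _ ((D x.1).hμ x.2) f hf hr
    zify
    rw [h1, hn, hr, pow_add]
    ring
  · have h1 : pj t (D x.1).g ((D x.1).μ x.2) f = 0 := by
      apply hJ.2.2.2.2 d c t (D x.1).k (D x.1).m n (D x.1).g _ ((D x.1).hμ x.2) f hf
      intro n' r' hr' he
      zify at he
      rw [hn, hr', pow_add] at he
      have h2 : (2 : ℤ) ^ t * (2 ^ C * q) = 2 ^ t * (n' + (D x.1).k) := by linarith
      have h3 : (2 : ℤ) ^ C * q = n' + (D x.1).k :=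
        mul_left_cancel₀ (pow_ne_zero t two_ne_zero) h2
      omega
    rw [ph1, LinearMap.comp_apply, h1, map_zero]
    exact Submodule.zero_mem _

/-- All values. -/
noncomputable def Ps (hJ : P_PJB) {t C n : ℕ} {q : ℤ} (hn : (n : ℤ) = 2 ^ (C + t) * q - c) :
    Hg (Fin d) n →ₗ[ZMod 2] (∀ x : XX D, TT (D x.1).k (2 ^ C * q - ((D x.1).k : ℤ))) :=
  LinearMap.pi fun x => LinearMap.codRestrict _ ((ph1 D t x).comp (Hg (Fin d) n).subtype)
    fun f => ph1_mem D hJ hn x f f.2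

theorem Ps_apply (hJ : P_PJB) {t C n : ℕ} {q : ℤ} (hn : (n : ℤ) = 2 ^ (C + t) * q - c)
    (f : Hg (Fin d) n) (x : XX D) : (Ps D hJ hn f x : PS (Fin (D x.1).k) ⧸ hits (Fin (D x.1).k)) =
      ph1 D t x f := rfl

theorem Ps_eq_zero_iff (hJ : P_PJB) {t C n : ℕ} {q : ℤ} (hn : (n : ℤ) = 2 ^ (C + t) * q - c)
    (f : Hg (Fin d) n) : Ps D hJ hn f = 0 ↔
      ∀ x : XX D, pj t (D x.1).g ((D x.1).μ x.2) f ∈ hits (Fin (D x.1).k) := by
  rw [funext_iff]
  refine forall_congr' fun x => ?_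
  rw [← ph1_eq_zero_iff, ← Ps_apply D hJ hn, Pi.zero_apply]
  exact Iff.symm (Submodule.coe_eq_zero)

open Classical in
theorem Ps_single (hH : P_HTS) (hJ : P_PJB) {t C n : ℕ} {q : ℤ}
    (hn : (n : ℤ) = 2 ^ (C + t) * q - c) (hS : Sur d c t C q) (x : XX D)
    (y : TT (D x.1).k (2 ^ C * q - ((D x.1).k : ℤ))) :
    ∃ f : Hg (Fin d) n, Ps D hJ hn f = Pi.single x y := by
  obtain ⟨r, hr, hν⟩ := (D x.1).hν x.2
  obtain ⟨y, hy⟩ := y
  have hy2 := hy
  by_cases h : 0 ≤ 2 ^ C * q - ((D x.1).k : ℤ)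
  · rw [TT_pos h] at hy2
    obtain ⟨u, hu, huy⟩ := hy2
    have h1 : (((2 ^ C * q - ((D x.1).k : ℤ)).toNat : ℕ) : ℤ) = 2 ^ C * q - ((D x.1).k : ℤ) :=
      Int.toNat_of_nonneg h
    obtain ⟨f, hf, hf1, hf2⟩ := hS n (D x.1).k (D x.1).m _ r (D x.1).g hn h1 hr u hu
      ((D x.1).ν x.2) hν
    refine ⟨⟨f, hf⟩, ?_⟩
    funext x'
    apply Subtype.ext
    rw [Ps_apply]
    by_cases hxx : x' = x
    · subst hxx
      rw [Pi.single_eq_same]
      change ph1 D t x' f = y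
      rw [← huy]
      have h2 := NN_le_hits hH _ _ (hf1 ((D x'.1).μ x'.2) ((D x'.1).hμ x'.2))
      rw [(D x'.1).hd, if_pos rfl, one_smul] at h2
      rw [ph1, LinearMap.comp_apply, Submodule.mkQ_apply, Submodule.mkQ_apply,
          Submodule.Quotient.eq]
      exact h2
    · rw [Pi.single_eq_of_ne hxx]
      change ph1 D t x' f = 0
      rw [ph1_eq_zero_iff]
      by_cases hL : x'.1 = x.1
      · obtain ⟨L, i⟩ := x'
        obtain ⟨Lx, ix⟩ := x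
        dsimp only at hL
        subst hL
        have hi : i ≠ ix := by
          intro he
          exact hxx (by rw [he])
        have h2 := NN_le_hits hH _ _ (hf1 ((D L).μ i) ((D L).hμ i))
        dsimp only at h2
        rw [(D L).hd, if_neg hi, zero_smul, sub_zero] at h2
        exact h2
      · apply NN_le_hits hH _ C
        apply hf2 _ _ (D x'.1).g ((D x'.1).μ x'.2) ((D x'.1).hμ x'.2)
        rw [(D x'.1).hg, (D x.1).hg]
        exact hL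
  · rw [TT_neg h, Submodule.mem_bot] at hy2
    subst hy2
    refine ⟨0, ?_⟩
    rw [map_zero]
    have h3 : (⟨0, hy⟩ : TT (D x.1).k (2 ^ C * q - ((D x.1).k : ℤ))) = 0 := rfl
    rw [h3, Pi.single_zero]

theorem Ps_surjective (hH : P_HTS) (hJ : P_PJB) {t C n : ℕ} {q : ℤ}
    (hn : (n : ℤ) = 2 ^ (C + t) * q - c) (hS : Sur d c t C q) :
    Function.Surjective (Ps D hJ hn) := by
  classical
  intro y
  have : Finite (Submodule (ZMod 2) (WS (Fin d))) := inferInstance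
  have : Fintype (Submodule (ZMod 2) (WS (Fin d))) := Fintype.ofFinite _
  choose f hf using fun x : XX D => Ps_single D hH hJ hn hS x (y x)
  refine ⟨∑ x, f x, ?_⟩
  rw [map_sum]
  simp only [hf]
  exact Finset.univ_sum_single y

theorem mem_hits_of_Ps (hO : P_OPB) (hB : P_SBB) (hH : P_HTS) (hL : P_LIN) (hJ : P_PJB)
    (hU : P_UNI) (hDET : P_DET) {t C n : ℕ} {q : ℤ} (hdc : (d : ℤ) - c < 2 ^ t)
    (hn : (n : ℤ) = 2 ^ (C + t) * q - c) (hI : Inj d c t C q) (hS : ∀ q, Sur d c t C q)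
    (f : PS (Fin d)) (hf : f ∈ Hg (Fin d) n)
    (h0 : ∀ x : XX D, pj t (D x.1).g ((D x.1).μ x.2) f ∈ hits (Fin (D x.1).k)) :
    f ∈ hits (Fin d) := by
  have h1 : Shf d c t C q (JS C) := by
    rintro j κ ⟨rfl, i, hi, rfl⟩
    refine ⟨2 ^ (i - C), ?_, hS _⟩
    obtain ⟨e, rfl⟩ := Nat.exists_eq_add_of_le hi
    rw [Nat.add_sub_cancel_left]
    push_cast
    rw [pow_add]
    ring
  have h2 := hDET d c t C q (JS C) hdc hI h1 n f hn hf ?_
  · have h3 : NN (Fin d) (C + t) ⊔ OH (Fin d) (JS C) t ≤ hits (Fin d) := by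
      apply sup_le (NN_le_hits hH _ _)
      rw [OH, Submodule.span_le]
      rintro g ⟨j, κ, h, ⟨rfl, i, hi, rfl⟩, rfl⟩
      apply Os_mem_hits hO
      have := Nat.pos_of_ne_zero (pow_ne_zero t (two_ne_zero : (2 : ℕ) ≠ 0))
      have := Nat.pos_of_ne_zero (pow_ne_zero i (two_ne_zero : (2 : ℕ) ≠ 0))
      nlinarith
    exact h3 h2
  · intro k m n' g μ hμ hn'
    have h4 : pj t g μ f ∈ hits (Fin k) :=
      mem_hits_of_dat hL hU hB hdc g μ hμ (D (An g)) f fun i => h0 ⟨An g, i⟩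
    by_cases hr : 0 ≤ (k : ℤ) - c
    · have h5 : pj t g μ f ∈ Hg (Fin k) n' := by
        apply hJ.2.2.2.1 d c t k m n n' ((k : ℤ) - c).toNat g μ hμ f hf (Int.toNat_of_nonneg hr)
        zify
        rw [Int.toNat_of_nonneg hr, hn, hn', pow_add]
        ring
      exact hH.2.1 (Fin k) C n' _ h5 h4
    · have h5 : pj t g μ f = 0 := by
        apply hJ.2.2.2.2 d c t k m n g μ hμ f hf
        intro n'' r hr'
        exfalso
        omega
      rw [h5]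
      exact Submodule.zero_mem _

omit D in
theorem pj_mem_hits (hO : P_OPB) (hH : P_HTS) (hJ : P_PJB) {t C n : ℕ} {k m : ℕ}
    (g : WS (Fin d) ≃ₗ[ZMod 2] WS (Fin k ⊕ Fin m))
    (μ : PS (Fin m) →ₗ[ZMod 2] ZMod 2) (hμ : Ad c k m μ)
    (f : PS (Fin d)) (hf : f ∈ Hg (Fin d) n) (hh : f ∈ hits (Fin d)) :
    pj t g μ f ∈ hits (Fin k) := by
  have h1 := hH.2.1 (Fin d) (C + t) n f hf hh
  have h2 : NN (Fin d) (C + t) ⊔ OG (Fin d) (JS (C + t)) n ≤ (hits (Fin k)).comap (pj t g μ) := by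
    apply sup_le
    · intro x hx
      exact NN_le_hits hH _ _ (hJ.2.1 d c t C k m g μ hμ x hx)
    · rw [OG, Submodule.span_le]
      rintro x ⟨j, κ, n', h, hh', ⟨rfl, i, hi, rfl⟩, -, rfl⟩
      change pj t g μ _ ∈ hits (Fin k)
      obtain ⟨e, rfl⟩ := Nat.exists_eq_add_of_le hi
      have h3 : 2 ^ (C + t + e) = 2 ^ t * 2 ^ (C + e) := by
        rw [← pow_add]
        congr 1
        omega
      rw [h3, hJ.2.2.1 d c t k m 0 (2 ^ (C + e)) g μ hμ h]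
      exact Os_mem_hits hO _ _ (Nat.one_le_two_pow) _
  exact h2 h1

omit D in
theorem finrank_range_eq {A B E : Type} [AddCommGroup A] [AddCommGroup B] [AddCommGroup E]
    [Module (ZMod 2) A] [Module (ZMod 2) B] [Module (ZMod 2) E] (φ : A →ₗ[ZMod 2] B)
    (ψ : A →ₗ[ZMod 2] E) (h : LinearMap.ker φ = LinearMap.ker ψ) (hs : Function.Surjective φ) :
    Module.finrank (ZMod 2) (LinearMap.range ψ) = Module.finrank (ZMod 2) B := by
  have h4 := (LinearMap.quotKerEquivRange φ).finrank_eq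
  have h5 := (LinearMap.quotKerEquivRange ψ).finrank_eq
  rw [LinearMap.range_eq_top.2 hs, finrank_top] at h4
  rw [← h5, ← h4, h]

theorem qd_eq (hO : P_OPB) (hB : P_SBB) (hH : P_HTS) (hL : P_LIN) (hJ : P_PJB)
    (hU : P_UNI) (hDET : P_DET) {t C n : ℕ} {q : ℤ} (hdc : (d : ℤ) - c < 2 ^ t)
    (hn : (n : ℤ) = 2 ^ (C + t) * q - c) (hI : Inj d c t C q) (hS : ∀ q, Sur d c t C q) :
    qd (Fin d) n = Module.finrank (ZMod 2)
      (∀ x : XX D, TT (D x.1).k (2 ^ C * q - ((D x.1).k : ℤ))) := by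
  have h1 : LinearMap.ker (Ps D hJ hn) =
      LinearMap.ker ((hits (Fin d)).mkQ.domRestrict (Hg (Fin d) n)) := by
    ext f
    rw [LinearMap.mem_ker, LinearMap.mem_ker, LinearMap.domRestrict_apply, Submodule.mkQ_apply,
      Submodule.Quotient.mk_eq_zero]
    constructor
    · intro h
      exact mem_hits_of_Ps D hO hB hH hL hJ hU hDET hdc hn hI hS f f.2
        ((Ps_eq_zero_iff D hJ hn f).1 h)
    · intro h
      refine (Ps_eq_zero_iff D hJ hn f).2 fun x => ?_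
      exact pj_mem_hits (C := C) (c := c) (n := n) hO hH hJ (D x.1).g ((D x.1).μ x.2)
        ((D x.1).hμ x.2) f.1 f.2 h
  have h3 : qd (Fin d) n = Module.finrank (ZMod 2)
      (LinearMap.range ((hits (Fin d)).mkQ.domRestrict (Hg (Fin d) n))) := by
    rw [qd, LinearMap.range_domRestrict]
    rfl
  rw [h3]
  exact finrank_range_eq (A := Hg (Fin d) n)
    (B := ∀ x : XX D, TT (D x.1).k (2 ^ C * q - ((D x.1).k : ℤ)))
    (E := PS (Fin d) ⧸ hits (Fin d)) (Ps D hJ hn) _ h1 (Ps_surjective D hH hJ hn (hS q))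

end main

end CNT

theorem t_CNT : Stmt_CNT := by
  intro hO hN hB hH hL hJ hU hD hDET d c t C hdc hIS q n hn
  classical
  have D : ∀ L : Submodule (ZMod 2) (WS (Fin d)), CNT.Dat d c L := fun L =>
    Classical.choice (CNT.exists_dat hL hD d c L)
  have : Finite (Submodule (ZMod 2) (WS (Fin d))) := inferInstance
  have : Fintype (Submodule (ZMod 2) (WS (Fin d))) := Fintype.ofFinite _
  rw [CNT.qd_eq D hO hB hH hL hJ hU hDET hdc hn (hIS q).1 fun q => (hIS q).2]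
  have : ∀ x : CNT.XX D, Module.Finite (ZMod 2)
      (CNT.TT (D x.1).k (2 ^ C * q - ((D x.1).k : ℤ))) := fun x => CNT.finite_TT _ _
  rw [@Module.finrank_pi_fintype (ZMod 2) _ _ (CNT.XX D) _ _ _ _ (fun x => inferInstance) this]
  simp only [CNT.finrank_TT]
  rw [Fintype.sum_sigma]
  simp only [Finset.sum_const, Finset.card_univ, Fintype.card_fin, smul_eq_mul]
  have h1 : ∀ L : Submodule (ZMod 2) (WS (Fin d)),
      (D L).m = Module.finrank (ZMod 2) L ∧ (D L).k = d - Module.finrank (ZMod 2) L ∧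
        Module.finrank (ZMod 2) L ≤ d := by
    intro L
    have h := hL.2.2.1 d (D L).k (D L).m (D L).g
    rw [(D L).hg] at h
    omega
  rw [RH, ← Finset.sum_fiberwise_of_maps_to (s := Finset.univ) (t := Finset.range (d + 1))
    (g := fun L : Submodule (ZMod 2) (WS (Fin d)) => Module.finrank (ZMod 2) L)
    (fun L _ => Finset.mem_range.2 (Nat.lt_succ_of_le (h1 L).2.2))]
  apply Finset.sum_congr rfl
  intro m hm
  rw [Finset.sum_congr rfl (g := fun _ => qz (d - m) (2 ^ C * q - ((d - m : ℕ) : ℤ)) *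
    qz m (((d - m : ℕ) : ℤ) - c)), Finset.sum_const, smul_eq_mul]
  · congr 1
    rw [nsub, Nat.card_eq_fintype_card, Fintype.card_subtype]
  · intro L hLm
    rw [Finset.mem_filter] at hLm
    have h2 := h1 L
    rw [hLm.2] at h2
    rw [(D L).hN, h2.1, h2.2.1, mul_comm]

end HGP
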