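import Pool.Agent.HGP.CO2

/-!
# Gap splitting for the hit problem: an operation as a composite (module CO1)
-/

namespace HGP

open MvPolynomial

namespace CO1

theorem wt_add (α β : ℕ →₀ ℕ) : wt (α + β) = wt α + wt β := by
  unfold wt
  rw [Finsupp.sum_add_index']
  · intro i
    simp
  · intro i a b
    ring

end CO1

open CO1 CO2 in
/-- CO1 -/
theorem t_CO1 : Stmt_CO1 := by
  intro hOPB hCMC hCCA hCCB σ t e m j δ f hodd hsupp hlt
  obtain ⟨-, -, -, -, h5, -, -, -, -, -, -, -⟩ := hOPB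
  obtain ⟨b1, b2, -⟩ := hCCB
  have hpos : 0 < 2 ^ e := by positivity
  have hj0 : δ j ≠ 0 := by
    intro h
    rw [h] at hodd
    exact hodd (dvd_zero 2)
  obtain ⟨γ, hγ⟩ : ∃ γ : ℕ →₀ ℕ, δ = γ + Finsupp.single j 1 := by
    refine ⟨δ - Finsupp.single j 1, ?_⟩
    ext i
    rw [Finsupp.add_apply, Finsupp.tsub_apply, Finsupp.single_apply]
    split_ifs with h
    · subst h
      omega
    · omega
  have e0 : 2 ^ e • δ - Finsupp.single j (2 ^ e) = 2 ^ e • γ := by
    rw [hγ, smul_add, Finsupp.smul_single, smul_eq_mul, mul_one, add_tsub_cancel_right]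
  have hγs : ∀ i, γ i ≠ 0 → i < m := by
    intro i hi
    apply hsupp
    rw [hγ, Finsupp.add_apply]
    omega
  have hδM : Mp m (2 ^ e • δ) f = Mp (m + j + 1) (2 ^ e • δ) f := by
    apply h5
    · intro i hi
      apply hsupp
      intro h
      apply hi
      rw [Finsupp.smul_apply, h, smul_zero]
    · intro i hi
      have : i < m := by
        apply hsupp
        intro h
        apply hi
        rw [Finsupp.smul_apply, h, smul_zero]
      omega
  have hinj : ∀ α β : ℕ →₀ ℕ, 2 ^ e • α = 2 ^ e • β ↔ α = β := by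
    intro α β
    constructor
    · intro h
      ext i
      have h1 := DFunLike.congr_fun h i
      rw [Finsupp.smul_apply, Finsupp.smul_apply, smul_eq_mul, smul_eq_mul] at h1
      exact Nat.eq_of_mul_eq_mul_left hpos h1
    · intro h
      rw [h]
  have hte : 2 ^ e < 2 ^ t := by
    have h1 := hlt j
    rw [Finsupp.smul_apply, smul_eq_mul] at h1
    have h2 : 2 ^ e * 1 ≤ 2 ^ e * δ j := Nat.mul_le_mul_left _ (by omega)
    omega
  rw [e0, hCMC σ j m (2 ^ e) (2 ^ e • γ) f, hδM, ← sum_supp (m + j + 1) (2 ^ e • δ) f,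
    ← Finset.sum_sub_distrib]
  refine Submodule.sum_mem _ fun ρ hρ => ?_
  by_cases hd : ∀ i, 2 ^ e ∣ ρ i
  · obtain ⟨ρ', rfl⟩ := div_exists hd
    have hc : cc j m (2 ^ e) (2 ^ e • γ) (2 ^ e • ρ') =
        if ρ' = γ + Finsupp.single j 1 then (ρ' j : ZMod 2) else 0 := by
      have h1 := b1 j m 1 e γ ρ'
      rw [mul_one] at h1
      rw [h1, b2 j m γ ρ' hγs]
    rw [hc]
    by_cases c1 : ρ' = δ
    · subst c1
      have hcast : ((ρ' j : ℕ) : ZMod 2) = 1 := by
        have h1 : ρ' j % 2 = 1 := by omega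
        have h2 : ((ρ' j : ℕ) : ZMod 2) = ((ρ' j % 2 : ℕ) : ZMod 2) :=
          (ZMod.natCast_mod (ρ' j) 2).symm
        rw [h2, h1, Nat.cast_one]
      rw [if_pos hγ, if_pos rfl, hcast, one_smul, sub_self]
      exact Submodule.zero_mem _
    · rw [if_neg (fun h => c1 (h.trans hγ.symm)), if_neg (fun h => c1 ((hinj _ _).1 h)),
        zero_smul, sub_zero]
      exact Submodule.zero_mem _
  · have n1 : ρ ≠ 2 ^ e • δ := by
      rintro rfl
      exact hd fun i => ⟨_, rfl⟩
    rw [if_neg n1, sub_zero]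
    by_cases hc : cc j m (2 ^ e) (2 ^ e • γ) ρ = 0
    · rw [hc, zero_smul]
      exact Submodule.zero_mem _
    · obtain ⟨hw, hs⟩ := hCCA j m (2 ^ e) (2 ^ e • γ) ρ hc
      push Not at hd
      refine Submodule.smul_mem _ _ (Submodule.subset_span ⟨m + j + 1, ρ, ?_, ?_, hd, rfl⟩)
      · rw [hw, hγ, smul_add, wt_add, Finsupp.smul_single, smul_eq_mul, mul_one, wt_single]
      · refine hs t hte fun i => ?_
        have h1 := hlt i
        rw [hγ, smul_add, Finsupp.add_apply] at h1
        omega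

end HGP
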