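import Pool.Agent.HGP.Stmts

/-!
# The operation of an exponent with one entry as a composite
-/

namespace HGP

open MvPolynomial
open Pool.Agent.Lib_helper74.Hit (hits qd up cf Sq)

namespace CO2

variable {σ : Type}

theorem Mp_apply (m : ℕ) (α : ℕ →₀ ℕ) (f : PS σ) : Mp m α f = coeff α (ph σ m f) := rfl

theorem Mp_eq_zero {m : ℕ} {α : ℕ →₀ ℕ} {f : PS σ} (h : α ∉ (ph σ m f).support) :
    Mp m α f = 0 := by
  rw [Mp_apply]
  exact notMem_support_iff.1 h

theorem sum_supp (m : ℕ) (α : ℕ →₀ ℕ) (f : PS σ) :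
    ∑ ρ ∈ (ph σ m f).support, (if ρ = α then Mp m α f else 0) = Mp m α f := by
  rw [Finset.sum_ite_eq']
  split_ifs with h
  · rfl
  · exact (Mp_eq_zero h).symm

theorem div_exists {e : ℕ} {ρ : ℕ →₀ ℕ} (h : ∀ i, 2 ^ e ∣ ρ i) :
    ∃ ρ' : ℕ →₀ ℕ, ρ = 2 ^ e • ρ' := by
  refine ⟨ρ.mapRange (fun a => a / 2 ^ e) (Nat.zero_div _), ?_⟩
  ext i
  rw [Finsupp.smul_apply, Finsupp.mapRange_apply, smul_eq_mul, Nat.mul_div_cancel' (h i)]

theorem wt_single (j a : ℕ) : wt (Finsupp.single j a) = a * (2 ^ (j + 1) - 1) := by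
  unfold wt
  rw [Finsupp.sum_single_index]
  simp

end CO2

open CO2 in
theorem t_CO2 : Stmt_CO2 := by
  intro hOPB hCMC hCCA hCCB σ t e j f he
  obtain ⟨-, -, -, -, -, -, h7, -, -, -, -, -⟩ := hOPB
  obtain ⟨b1, -, b3⟩ := hCCB
  have hpos : 0 < 2 ^ e := by positivity
  have e1 : Os 0 (2 ^ e) f = Mp 1 (Finsupp.single 0 (2 ^ e)) f :=
    (h7 σ 1 0 (2 ^ e) f (by norm_num)).symm
  have hA : (2 ^ e • Finsupp.single (j + 1) 1 : ℕ →₀ ℕ) = Finsupp.single (j + 1) (2 ^ e) := by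
    rw [Finsupp.smul_single, smul_eq_mul, mul_one]
  have e2 : Os (j + 1) (2 ^ e) f = Mp (1 + j + 1) (2 ^ e • Finsupp.single (j + 1) 1) f := by
    rw [hA]
    exact (h7 σ (1 + j + 1) (j + 1) (2 ^ e) f (by omega)).symm
  have e3 : j + 2 = 1 + j + 1 := by omega
  have hAB : (2 ^ e • Finsupp.single (j + 1) 1 : ℕ →₀ ℕ) ≠
      2 ^ e • (Finsupp.single j 2 + Finsupp.single 0 1) := by
    intro h
    have h1 := DFunLike.congr_fun h (j + 1)
    rw [Finsupp.smul_apply, Finsupp.smul_apply, Finsupp.add_apply, Finsupp.single_eq_same,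
      Finsupp.single_eq_of_ne (by omega), Finsupp.single_eq_of_ne (by omega)] at h1
    simp at h1
  rw [e1, hCMC σ j 1 (2 ^ (e + 1)) (Finsupp.single 0 (2 ^ e)) f, e2, e3]
  rw [← sum_supp (1 + j + 1) (2 ^ e • Finsupp.single (j + 1) 1) f,
    ← sum_supp (1 + j + 1) (2 ^ e • (Finsupp.single j 2 + Finsupp.single 0 1)) f,
    ← Finset.sum_sub_distrib, ← Finset.sum_sub_distrib]
  refine Submodule.sum_mem _ fun ρ hρ => ?_
  by_cases hd : ∀ i, 2 ^ e ∣ ρ i
  · obtain ⟨ρ', rfl⟩ := div_exists hd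
    have h0 : (Finsupp.single 0 (2 ^ e) : ℕ →₀ ℕ) = 2 ^ e • Finsupp.single 0 1 := by
      rw [Finsupp.smul_single, smul_eq_mul, mul_one]
    have hc : cc j 1 (2 ^ (e + 1)) (Finsupp.single 0 (2 ^ e)) (2 ^ e • ρ') =
        if ρ' = Finsupp.single (j + 1) 1 ∨ ρ' = Finsupp.single j 2 + Finsupp.single 0 1 then 1
          else 0 := by
      rw [h0, pow_succ, b1, b3]
    have hinj : ∀ α β : ℕ →₀ ℕ, 2 ^ e • α = 2 ^ e • β ↔ α = β := by
      intro α β
      constructor
      · intro h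
        ext i
        have h1 := DFunLike.congr_fun h i
        rw [Finsupp.smul_apply, Finsupp.smul_apply, smul_eq_mul, smul_eq_mul] at h1
        exact Nat.eq_of_mul_eq_mul_left hpos h1
      · intro h
        rw [h]
    rw [hc]
    by_cases c1 : ρ' = Finsupp.single (j + 1) 1
    · subst c1
      rw [if_pos (Or.inl rfl), if_pos rfl, if_neg hAB, one_smul, sub_self, sub_zero]
      exact Submodule.zero_mem _
    · by_cases c2 : ρ' = Finsupp.single j 2 + Finsupp.single 0 1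
      · rw [if_pos (Or.inr c2), if_neg (fun h => c1 ((hinj _ _).1 h)), c2, if_pos rfl, one_smul,
          sub_zero, sub_self]
        exact Submodule.zero_mem _
      · rw [if_neg (fun h => h.elim c1 c2), if_neg (fun h => c1 ((hinj _ _).1 h)),
          if_neg (fun h => c2 ((hinj _ _).1 h)), zero_smul, sub_zero, sub_zero]
        exact Submodule.zero_mem _
  · have n1 : ρ ≠ 2 ^ e • Finsupp.single (j + 1) 1 := by
      rintro rfl
      exact hd fun i => ⟨_, rfl⟩
    have n2 : ρ ≠ 2 ^ e • (Finsupp.single j 2 + Finsupp.single 0 1) := by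
      rintro rfl
      exact hd fun i => ⟨_, rfl⟩
    rw [if_neg n1, if_neg n2, sub_zero, sub_zero]
    by_cases hc : cc j 1 (2 ^ (e + 1)) (Finsupp.single 0 (2 ^ e)) ρ = 0
    · rw [hc, zero_smul]
      exact Submodule.zero_mem _
    · obtain ⟨hw, hs⟩ := hCCA j 1 (2 ^ (e + 1)) (Finsupp.single 0 (2 ^ e)) ρ hc
      push Not at hd
      have hlt : 2 ^ (e + 1) < 2 ^ t := Nat.pow_lt_pow_right (by norm_num) (by omega)
      have hle : 2 ^ e < 2 ^ t := Nat.pow_lt_pow_right (by norm_num) (by omega)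
      refine Submodule.smul_mem _ _ (Submodule.subset_span ⟨1 + j + 1, ρ, ?_, ?_, hd, rfl⟩)
      · rw [hw, wt_single]
        obtain ⟨y, hy⟩ : ∃ y, 2 ^ (j + 1) = y + 1 :=
          ⟨2 ^ (j + 1) - 1, by have : (1 : ℕ) ≤ 2 ^ (j + 1) := Nat.one_le_two_pow; omega⟩
        have h2 : 2 ^ (1 + j + 1) - 1 = 2 * y + 1 := by
          have h3 : 2 ^ (1 + j + 1) = 2 * 2 ^ (j + 1) := by ring
          rw [h3, hy]
          omega
        have h4 : y + 1 - 1 = y := rfl
        rw [h2, hy, h4, pow_succ]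
        ring
      · refine hs t hlt fun i => ?_
        rw [Finsupp.single_apply]
        split_ifs
        · exact hle
        · positivity

end HGP
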