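import Pool.Agent.HGP.Stmts

/-!
# CTB: the contraction
-/

set_option autoImplicit false

namespace HGP

open MvPolynomial
open Pool.Agent.Lib_helper74.Hit (hits qd up cf Sq)

namespace CTB

variable {σ τ : Type}

theorem ct_monomial (μ : PS τ →ₗ[ZMod 2] ZMod 2) (s : σ ⊕ τ →₀ ℕ) (c : ZMod 2) :
    ct μ (monomial s c : PS (σ ⊕ τ)) =
      monomial (s.comapDomain Sum.inl Sum.inl_injective.injOn)
        (c * μ (monomial (s.comapDomain Sum.inr Sum.inr_injective.injOn) 1)) := by
  have h1 : (monomial s c : PS (σ ⊕ τ)) = c • basisMonomials (σ ⊕ τ) (ZMod 2) s := by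
    rw [coe_basisMonomials, smul_monomial, smul_eq_mul, mul_one]
  rw [h1, map_smul, ct, Module.Basis.constr_basis, smul_monomial, smul_eq_mul]

theorem split_eq (s : σ ⊕ τ →₀ ℕ) :
    (s.comapDomain Sum.inl Sum.inl_injective.injOn).mapDomain Sum.inl +
      (s.comapDomain Sum.inr Sum.inr_injective.injOn).mapDomain Sum.inr = s := by
  ext x
  rcases x with i | j
  · rw [Finsupp.add_apply, Finsupp.mapDomain_apply Sum.inl_injective,
      Finsupp.mapDomain_of_notMem_range _ _ (by simp), add_zero, Finsupp.comapDomain_apply]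
  · rw [Finsupp.add_apply, Finsupp.mapDomain_apply Sum.inr_injective,
      Finsupp.mapDomain_of_notMem_range _ _ (by simp), zero_add, Finsupp.comapDomain_apply]

theorem comap_inl (u : σ →₀ ℕ) (w : τ →₀ ℕ) :
    (u.mapDomain Sum.inl + w.mapDomain Sum.inr : σ ⊕ τ →₀ ℕ).comapDomain Sum.inl
      Sum.inl_injective.injOn = u := by
  ext i
  rw [Finsupp.comapDomain_apply, Finsupp.add_apply, Finsupp.mapDomain_apply Sum.inl_injective,
    Finsupp.mapDomain_of_notMem_range _ _ (by simp), add_zero]

theorem comap_inr (u : σ →₀ ℕ) (w : τ →₀ ℕ) :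
    (u.mapDomain Sum.inl + w.mapDomain Sum.inr : σ ⊕ τ →₀ ℕ).comapDomain Sum.inr
      Sum.inr_injective.injOn = w := by
  ext i
  rw [Finsupp.comapDomain_apply, Finsupp.add_apply, Finsupp.mapDomain_apply Sum.inr_injective,
    Finsupp.mapDomain_of_notMem_range _ _ (by simp), zero_add]

theorem ct_mul (μ : PS τ →ₗ[ZMod 2] ZMod 2) (a : PS σ) (b : PS τ) :
    ct μ (rename Sum.inl a * rename Sum.inr b) = μ b • a := by
  induction a using MvPolynomial.induction_on' with
  | monomial u c =>
    induction b using MvPolynomial.induction_on' with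
    | monomial w e =>
      rw [rename_monomial, rename_monomial, monomial_mul, ct_monomial, comap_inl, comap_inr,
        smul_monomial, smul_eq_mul]
      congr 1
      have h : (monomial w e : PS τ) = e • monomial w 1 := by
        rw [smul_monomial, smul_eq_mul, mul_one]
      rw [h, map_smul, smul_eq_mul]
      ring
    | add p q hp hq => rw [map_add, mul_add, map_add, hp, hq, map_add, add_smul]
  | add p q hp hq => rw [map_add, add_mul, map_add, hp, hq, smul_add]

/-- The decomposable elements. -/
def DD (σ τ : Type) : Set (PS (σ ⊕ τ)) :=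
  {x : PS (σ ⊕ τ) | ∃ (a : PS σ) (b : PS τ), x = rename Sum.inl a * rename Sum.inr b}

theorem monomial_split (s : σ ⊕ τ →₀ ℕ) (c : ZMod 2) :
    (monomial s c : PS (σ ⊕ τ)) =
      rename Sum.inl (monomial (s.comapDomain Sum.inl Sum.inl_injective.injOn) c) *
        rename Sum.inr (monomial (s.comapDomain Sum.inr Sum.inr_injective.injOn) 1) := by
  rw [rename_monomial, rename_monomial, monomial_mul, split_eq, mul_one]

theorem mem_span (F : PS (σ ⊕ τ)) : F ∈ Submodule.span (ZMod 2) (DD σ τ) := by
  induction F using MvPolynomial.induction_on' with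
  | monomial s c => exact Submodule.subset_span ⟨_, _, monomial_split s c⟩
  | add p q hp hq => exact Submodule.add_mem _ hp hq

theorem lin_ext {M : Type} [AddCommMonoid M] [Module (ZMod 2) M]
    {L L' : PS (σ ⊕ τ) →ₗ[ZMod 2] M}
    (h : ∀ (a : PS σ) (b : PS τ), L (rename Sum.inl a * rename Sum.inr b) =
      L' (rename Sum.inl a * rename Sum.inr b)) (f : PS (σ ⊕ τ)) : L f = L' f := by
  refine LinearMap.eqOn_span (s := DD σ τ) ?_ (mem_span f)
  rintro _ ⟨a, b, rfl⟩
  exact h a b

theorem kl_inl (a : PS σ) : kl σ τ (rename Sum.inl a) = a := by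
  rw [kl, aeval_rename]
  exact aeval_X_left_apply a

theorem kl_inr (b : PS τ) : kl σ τ (rename Sum.inr b) = C (coeff 0 b) := by
  rw [kl, aeval_rename]
  have h : (Sum.elim X (fun _ => 0) ∘ Sum.inr : τ → PS σ) = fun _ => 0 := rfl
  rw [h]
  rw [MvPolynomial.aeval_zero' b]
  rfl

theorem mu_zero (μ : PS τ →ₗ[ZMod 2] ZMod 2) (N : ℕ)
    (hμ : ∀ s, N ≤ s → ∀ b ∈ Hg τ s, μ b = 0) (k : ℕ) (hk : N ≤ k) (p b : PS τ) (hp : p ∈ Hg τ k) :
    μ (p * b) = 0 := by
  rw [← sum_homogeneousComponent b, Finset.mul_sum, map_sum]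
  refine Finset.sum_eq_zero fun i _ => hμ (k + i) (by omega) _ ?_
  exact IsHomogeneous.mul hp (homogeneousComponent_isHomogeneous i b)

theorem ct_pow (μ : PS τ →ₗ[ZMod 2] ZMod 2) (t : ℕ) (r f : PS (σ ⊕ τ))
    (hμ : ∀ s, 2 ^ t ≤ s → ∀ b ∈ Hg τ s, μ b = 0) :
    ct μ (r ^ 2 ^ t * f) = kl σ τ r ^ 2 ^ t * ct μ f := by
  classical
  induction r using MvPolynomial.induction_on' with
  | monomial v c =>
    have h := lin_ext (L := (ct μ).comp (LinearMap.mulLeft (ZMod 2) (monomial v c ^ 2 ^ t)))
      (L' := (LinearMap.mulLeft (ZMod 2) (kl σ τ (monomial v c) ^ 2 ^ t)).comp (ct μ))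
      (fun a b => ?_) f
    · exact h
    · simp only [LinearMap.comp_apply, LinearMap.mulLeft_apply]
      rw [ct_mul, monomial_split v c]
      set w := v.comapDomain Sum.inr Sum.inr_injective.injOn with hw
      set r1 : PS σ := monomial (v.comapDomain Sum.inl Sum.inl_injective.injOn) c with hr1
      have e1 : (rename Sum.inl r1 * rename Sum.inr (monomial w 1 : PS τ)) ^ 2 ^ t *
          (rename Sum.inl a * rename Sum.inr b) =
          rename Sum.inl (r1 ^ 2 ^ t * a) *
            rename Sum.inr ((monomial w 1 : PS τ) ^ 2 ^ t * b) := by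
        simp only [map_mul, map_pow]
        ring
      rw [e1, ct_mul, map_mul (kl σ τ), kl_inl, kl_inr]
      by_cases h0 : w = 0
      · rw [h0, monomial_zero', C_1, one_pow, one_mul, coeff_one, if_pos rfl, C_1, mul_one,
          mul_smul_comm]
      · rw [coeff_monomial, if_neg h0, C_0, mul_zero, zero_pow (by positivity), zero_mul,
          monomial_pow]
        have h1 : μ (monomial (2 ^ t • w) (1 ^ 2 ^ t) * b) = 0 := by
          refine mu_zero μ (2 ^ t) hμ (2 ^ t * w.degree) ?_ _ _ ?_
          · have : 0 < w.degree := by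
              rw [Nat.pos_iff_ne_zero]
              intro h
              exact h0 ((Finsupp.degree_eq_zero_iff w).1 h)
            exact Nat.le_mul_of_pos_right _ this
          · refine isHomogeneous_monomial _ ?_
            rw [map_nsmul, smul_eq_mul]
        rw [h1, zero_smul]
  | add p q hp hq =>
    rw [add_pow_expChar_pow, add_mul, map_add, hp, hq, map_add, add_pow_expChar_pow, add_mul]

theorem degree_split (s : σ ⊕ τ →₀ ℕ) :
    (s.comapDomain Sum.inl Sum.inl_injective.injOn).degree +
      (s.comapDomain Sum.inr Sum.inr_injective.injOn).degree = s.degree := by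
  conv_rhs => rw [← split_eq s]
  rw [map_add, Finsupp.degree_mapDomain, Finsupp.degree_mapDomain]

end CTB

open CTB in
theorem t_CTB : Stmt_CTB := by
  intro h1 h2
  refine ⟨fun σ τ μ a b => ct_mul μ a b, fun σ τ F => mem_span F,
    fun σ τ μ t r f hμ => ct_pow μ t r f hμ, fun σ τ μ r n f hμ hf => ?_,
    fun σ τ μ m α f hμ => ?_⟩
  · have hs : ∀ s ∈ f.support, s.degree = n := by
      intro s hs
      have h := hf (mem_support_iff.1 hs)
      rw [← h]
      exact DFunLike.congr_fun Finsupp.degree_eq_weight_one s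
    have hz : ∀ s ∈ f.support, (s.comapDomain Sum.inr Sum.inr_injective.injOn).degree ≠ r →
        ct μ (monomial s (coeff s f)) = 0 := by
      intro s _ hr
      rw [ct_monomial, hμ _ hr _ (isHomogeneous_monomial _ rfl), mul_zero, monomial_zero]
    have hsum : ct μ f = ∑ s ∈ f.support, ct μ (monomial s (coeff s f)) := by
      conv_lhs => rw [← support_sum_monomial_coeff f]
      rw [map_sum]
    refine ⟨fun n' hn => ?_, fun hn => ?_⟩
    · rw [hsum]
      refine Submodule.sum_mem _ fun s hsf => ?_
      by_cases hr : (s.comapDomain Sum.inr Sum.inr_injective.injOn).degree = r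
      · rw [ct_monomial]
        refine isHomogeneous_monomial _ ?_
        have h3 := degree_split s
        have h4 := hs s hsf
        omega
      · rw [hz s hsf hr]
        exact Submodule.zero_mem _
    · rw [hsum]
      refine Finset.sum_eq_zero fun s hsf => hz s hsf ?_
      have h3 := degree_split s
      have h4 := hs s hsf
      omega
  · obtain ⟨o1, o2, -, -, -, -, -, -, -, o10, -, -⟩ := h1
    refine lin_ext (L := (ct μ).comp (Mp m α)) (L' := (Mp m α).comp (ct μ)) (fun a b => ?_) f
    simp only [LinearMap.comp_apply]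
    rw [ct_mul, o2, map_sum, map_smul]
    have e : ∀ p ∈ Finset.HasAntidiagonal.antidiagonal α,
        ct μ (Mp m p.1 (rename Sum.inl a) * Mp m p.2 (rename Sum.inr b)) =
          if p = (α, 0) then μ b • Mp m α a else 0 := by
      intro p hp
      rw [Finset.HasAntidiagonal.mem_antidiagonal] at hp
      rw [o10, o10, ct_mul]
      split_ifs with h
      · rw [h]
        simp only [o1]
      · have hq : p.2 ≠ 0 := by
          intro hq
          apply h
          rw [hq, add_zero] at hp
          exact Prod.ext hp hq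
        rw [hμ _ (h2.1 τ m p.2 b hq), zero_smul]
    rw [Finset.sum_congr rfl e, Finset.sum_ite_eq', if_pos]
    rw [Finset.HasAntidiagonal.mem_antidiagonal, add_zero]

end HGP
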