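import Pool.Agent.HGP.Stmts

/-!
# DET: an element all of whose projections are values of operations of `J`
-/

namespace HGP

open MvPolynomial
open Pool.Agent.Lib_helper74.Hit (hits qd up cf Sq)

namespace DET

variable {σ τ : Type}

theorem ct_add (μ μ' : PS τ →ₗ[ZMod 2] ZMod 2) :
    (ct (μ + μ') : PS (σ ⊕ τ) →ₗ[ZMod 2] PS σ) = ct μ + ct μ' := by
  refine (basisMonomials (σ ⊕ τ) (ZMod 2)).ext fun s => ?_
  rw [LinearMap.add_apply, ct, ct, ct, Module.Basis.constr_basis, Module.Basis.constr_basis,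
    Module.Basis.constr_basis, LinearMap.add_apply, ← map_add]

theorem ct_smul (a : ZMod 2) (μ : PS τ →ₗ[ZMod 2] ZMod 2) :
    (ct (a • μ) : PS (σ ⊕ τ) →ₗ[ZMod 2] PS σ) = a • ct μ := by
  refine (basisMonomials (σ ⊕ τ) (ZMod 2)).ext fun s => ?_
  rw [LinearMap.smul_apply, ct, ct, Module.Basis.constr_basis, Module.Basis.constr_basis,
    LinearMap.smul_apply]
  exact map_smul _ _ _

theorem ct_zero : (ct (0 : PS τ →ₗ[ZMod 2] ZMod 2) : PS (σ ⊕ τ) →ₗ[ZMod 2] PS σ) = 0 := by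
  have h := ct_smul (σ := σ) (0 : ZMod 2) (0 : PS τ →ₗ[ZMod 2] ZMod 2)
  rwa [zero_smul, zero_smul] at h

theorem pj_add {d k m t : ℕ} (g : WS (Fin d) ≃ₗ[ZMod 2] WS (Fin k ⊕ Fin m))
    (μ μ' : PS (Fin m) →ₗ[ZMod 2] ZMod 2) (f : PS (Fin d)) :
    pj t g (μ + μ') f = pj t g μ f + pj t g μ' f := by
  change ex (Fin k) t (ct (μ + μ') (sb g.toLinearMap f)) =
    ex (Fin k) t (ct μ (sb g.toLinearMap f)) + ex (Fin k) t (ct μ' (sb g.toLinearMap f))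
  rw [ct_add, LinearMap.add_apply, map_add]

theorem pj_smul {d k m t : ℕ} (g : WS (Fin d) ≃ₗ[ZMod 2] WS (Fin k ⊕ Fin m)) (a : ZMod 2)
    (μ : PS (Fin m) →ₗ[ZMod 2] ZMod 2) (f : PS (Fin d)) :
    pj t g (a • μ) f = a • pj t g μ f := by
  change ex (Fin k) t (ct (a • μ) (sb g.toLinearMap f)) =
    a • ex (Fin k) t (ct μ (sb g.toLinearMap f))
  rw [ct_smul, LinearMap.smul_apply, map_smul]

theorem pj_zero {d k m t : ℕ} (g : WS (Fin d) ≃ₗ[ZMod 2] WS (Fin k ⊕ Fin m)) (f : PS (Fin d)) :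
    pj t g (0 : PS (Fin m) →ₗ[ZMod 2] ZMod 2) f = 0 := by
  have h := pj_smul (t := t) g 0 (0 : PS (Fin m) →ₗ[ZMod 2] ZMod 2) f
  rwa [zero_smul, zero_smul] at h

/-- `pj` is linear in the linear form. -/
theorem pj_sum {d k m t b : ℕ} (g : WS (Fin d) ≃ₗ[ZMod 2] WS (Fin k ⊕ Fin m))
    (a : Fin b → ZMod 2) (μ : Fin b → (PS (Fin m) →ₗ[ZMod 2] ZMod 2)) (f : PS (Fin d)) :
    pj t g (∑ i, a i • μ i) f = ∑ i, a i • pj t g (μ i) f := by
  classical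
  induction (Finset.univ : Finset (Fin b)) using Finset.induction_on with
  | empty => rw [Finset.sum_empty, Finset.sum_empty, pj_zero]
  | insert i s hi ih => rw [Finset.sum_insert hi, Finset.sum_insert hi, pj_add, pj_smul, ih]

/-- An admissible form for `k < c` is zero. -/
theorem ad_zero {c : ℤ} {k m : ℕ} {μ : PS (Fin m) →ₗ[ZMod 2] ZMod 2} (h : Ad c k m μ)
    (hk : (k : ℤ) < c) : μ = 0 := by
  refine LinearMap.ext fun f => ?_
  rw [LinearMap.zero_apply, ← sum_homogeneousComponent f, map_sum]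
  refine Finset.sum_eq_zero fun r _ => ?_
  exact h.2 r (by omega) _ (homogeneousComponent_mem r f)

/-- One subspace. -/
theorem one (hNNB : P_NNB) (hSBB : P_SBB) (hLIN : P_LIN) (hPJB : P_PJB) (hUNI : P_UNI)
    (hDUB : P_DUB) (hLFG : P_LFG) (d : ℕ) (c : ℤ) (t C : ℕ) (q : ℤ) (J : ℕ → ℕ → Prop)
    (hdc : (d : ℤ) - c < 2 ^ t) (hS : Shf d c t C q J)
    (n : ℕ) (f : PS (Fin d)) (hn : (n : ℤ) = 2 ^ (C + t) * q - c) (hf : f ∈ Hg (Fin d) n)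
    (hp : ∀ (k m n' : ℕ) (g : WS (Fin d) ≃ₗ[ZMod 2] WS (Fin k ⊕ Fin m))
        (μ : PS (Fin m) →ₗ[ZMod 2] ZMod 2), Ad c k m μ → (n' : ℤ) = 2 ^ C * q - k →
          pj t g μ f ∈ NN (Fin k) C ⊔ OG (Fin k) J n')
    (Λ : Submodule (ZMod 2) (WS (Fin d))) :
    ∃ h : PS (Fin d), h ∈ OH (Fin d) J t ∧ h ∈ Hg (Fin d) n ∧
      (∀ (k m : ℕ) (g : WS (Fin d) ≃ₗ[ZMod 2] WS (Fin k ⊕ Fin m))
        (μ : PS (Fin m) →ₗ[ZMod 2] ZMod 2), Ad c k m μ → An g = Λ →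
          pj t g μ (f - h) ∈ NN (Fin k) C) ∧
      ∀ (k m : ℕ) (g : WS (Fin d) ≃ₗ[ZMod 2] WS (Fin k ⊕ Fin m))
        (μ : PS (Fin m) →ₗ[ZMod 2] ZMod 2), Ad c k m μ → An g ≠ Λ →
          pj t g μ h ∈ NN (Fin k) C := by
  obtain ⟨k₀, m₀, g₀, hg₀⟩ : ∃ (k₀ m₀ : ℕ)
      (g₀ : WS (Fin d) ≃ₗ[ZMod 2] WS (Fin k₀ ⊕ Fin m₀)), An g₀ = Λ := by
    obtain ⟨k₀, g₀, h⟩ := hLIN.1 d Λ
    exact ⟨k₀, _, g₀, h⟩
  have hdim₀ := hLIN.2.2.1 d k₀ m₀ g₀
  have hsame : ∀ (k m : ℕ) (g : WS (Fin d) ≃ₗ[ZMod 2] WS (Fin k ⊕ Fin m)), An g = Λ →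
      k = k₀ ∧ m = m₀ := by
    intro k m g hg
    have hdim := hLIN.2.2.1 d k m g
    rw [hg] at hdim
    rw [hg₀] at hdim₀
    have h1 : m = m₀ := hdim.2.symm.trans hdim₀.2
    have h2 := hdim.1
    have h3 := hdim₀.1
    exact ⟨by omega, h1⟩
  by_cases hk : (k₀ : ℤ) < c
  · refine ⟨0, zero_mem _, zero_mem _, fun k m g μ hμ hg => ?_, fun k m g μ hμ hg => ?_⟩
    · obtain ⟨rfl, rfl⟩ := hsame k m g hg
      rw [ad_zero hμ hk, pj_zero]
      exact zero_mem _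
    · rw [map_zero]
      exact zero_mem _
  by_cases hq : 2 ^ C * q < (k₀ : ℤ)
  · refine ⟨0, zero_mem _, zero_mem _, fun k m g μ hμ hg => ?_, fun k m g μ hμ hg => ?_⟩
    · obtain ⟨rfl, rfl⟩ := hsame k m g hg
      rw [sub_zero]
      have h1 : pj t g μ f = 0 := by
        refine hPJB.2.2.2.2 d c t k m n g μ hμ f hf fun n' r hr h => ?_
        have h2 : (2 : ℤ) ^ t * (2 ^ C * q) = 2 ^ t * (n' + k) := by
          have h3 : ((n + k : ℕ) : ℤ) = ((2 ^ t * (n' + k) + r : ℕ) : ℤ) := by rw [h]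
          push_cast at h3
          rw [hr, hn, pow_add] at h3
          linarith
        have h4 := mul_left_cancel₀ (by positivity : (2 : ℤ) ^ t ≠ 0) h2
        omega
      rw [h1]
      exact zero_mem _
    · rw [map_zero]
      exact zero_mem _
  obtain ⟨r, hr⟩ : ∃ r : ℕ, (r : ℤ) = k₀ - c := ⟨(k₀ - c).toNat, by omega⟩
  obtain ⟨n', hn'⟩ : ∃ n' : ℕ, (n' : ℤ) = 2 ^ C * q - k₀ := ⟨(2 ^ C * q - k₀).toNat, by omega⟩
  obtain ⟨ν, μs, hν, hμs, -, hspan⟩ := hDUB m₀ r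
  have hAd : ∀ i, Ad c k₀ m₀ (μs i) := fun i =>
    ⟨(hμs i).1, fun s hs b hb => (hμs i).2 s (by omega) b hb⟩
  have hex : ∀ i, ∃ x ∈ OG (Fin k₀) J n', pj t g₀ (μs i) f - x ∈ NN (Fin k₀) C := by
    intro i
    obtain ⟨z, hz, x, hx, hzx⟩ := Submodule.mem_sup.1 (hp k₀ m₀ n' g₀ (μs i) (hAd i) hn')
    refine ⟨x, hx, ?_⟩
    rw [← hzx, add_sub_cancel_right]
    exact hz
  choose x hx hxz using hex
  have hlift : ∀ i, ∃ h ∈ OH (Fin d) J t, Lft c t C n g₀ (x i) (ν i) h := fun i =>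
    hLFG d c t C q J hS n k₀ m₀ n' r g₀ hn hn' hr (x i) (hx i) (ν i) (hν i)
  choose h hh hL using hlift
  have key : ∀ μ : PS (Fin m₀) →ₗ[ZMod 2] ZMod 2, Ad c k₀ m₀ μ →
      pj t g₀ μ (f - ∑ i, h i) ∈ NN (Fin k₀) C := by
    intro μ hμ
    have h1 : μ = ∑ i, μ (ν i) • μs i := hspan μ hμ.1 fun s hs b hb =>
      hμ.2 s (by omega) b hb
    have h2 : pj t g₀ μ f = ∑ i, μ (ν i) • pj t g₀ (μs i) f := by
      nth_rewrite 1 [h1]
      exact pj_sum _ _ _ _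
    have h3 : pj t g₀ μ (f - ∑ i, h i) =
        ∑ i, (μ (ν i) • (pj t g₀ (μs i) f - x i) - (pj t g₀ μ (h i) - μ (ν i) • x i)) := by
      rw [map_sub, map_sum, h2, ← Finset.sum_sub_distrib]
      refine Finset.sum_congr rfl fun i _ => ?_
      rw [smul_sub]
      abel
    rw [h3]
    exact sum_mem fun i _ => sub_mem (Submodule.smul_mem _ _ (hxz i)) ((hL i).2.1 μ hμ)
  refine ⟨∑ i, h i, sum_mem fun i _ => hh i, sum_mem fun i _ => (hL i).1,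
    fun k m g μ hμ hg => ?_, fun k m g μ hμ hg => ?_⟩
  · obtain ⟨rfl, rfl⟩ := hsame k m g hg
    obtain ⟨A, D, hAD⟩ := hUNI d t k m g g₀ (hg.trans hg₀.symm)
    rw [hAD μ fun s hs b hb => hμ.2 s (by
      have h1 : ((2 ^ t : ℕ) : ℤ) ≤ s := by exact_mod_cast hs
      push_cast at h1
      have h2 : (k : ℤ) ≤ d := by
        have := hdim₀.1
        omega
      omega) b hb]
    exact hNNB.2.2.1 _ _ _ C _ (key _ (hSBB.2.2.2.2.2.1 c k m μ D hμ))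
  · rw [map_sum]
    exact sum_mem fun i _ => (hL i).2.2 k m g μ hμ (by rw [hg₀]; exact hg)

end DET

open DET in
/-- DET -/
theorem t_DET : Stmt_DET := by
  intro hNNB hSBB hLIN hPJB hUNI hDUB hLFG d c t C q J hdc hInj hS n f hn hf hp
  have hone := one hNNB hSBB hLIN hPJB hUNI hDUB hLFG d c t C q J hdc hS n f hn hf hp
  choose h hh hhn ha hb using hone
  have : Fintype (Submodule (ZMod 2) (WS (Fin d))) := Fintype.ofFinite _
  classical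
  have hK : f - ∑ Λ, h Λ ∈ NN (Fin d) (C + t) := by
    refine hInj n hn _ (sub_mem hf (sum_mem fun Λ _ => hhn Λ)) ?_
    intro k m g μ hμ
    have h1 : f - ∑ Λ, h Λ = (f - h (An g)) - ∑ Λ ∈ Finset.univ.erase (An g), h Λ := by
      rw [← Finset.add_sum_erase Finset.univ h (Finset.mem_univ (An g))]
      abel
    rw [h1, map_sub, map_sum]
    refine sub_mem (ha _ k m g μ hμ rfl) (sum_mem fun Λ hΛ => ?_)
    exact hb Λ k m g μ hμ (Finset.ne_of_mem_erase hΛ).symm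
  have h2 : f = (f - ∑ Λ, h Λ) + ∑ Λ, h Λ := by abel
  rw [h2]
  exact add_mem (Submodule.mem_sup_left hK)
    (Submodule.mem_sup_right (sum_mem fun Λ _ => hh Λ))

end HGP
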