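import Pool.Agent.HGP.Stmts

/-!
# Gap splitting for the hit problem: module DUB, dual bases
-/

namespace HGP

open MvPolynomial
open Pool.Agent.Lib_helper74.Hit (hits qd Sq)

namespace DUB

/-- The component of degree `r` of a hit is a hit. -/
theorem comp_hits (σ : Type) (r : ℕ) (f : PS σ) (hf : f ∈ hits σ) :
    homogeneousComponent r f ∈ hits σ := by
  refine Submodule.span_induction (p := fun g _ => homogeneousComponent r g ∈ hits σ)
    ?_ ?_ ?_ ?_ hf
  · rintro x ⟨k, f, hk, rfl⟩
    rw [Pool.Agent.Lib_helper74.Hit.homogeneousComponent_Sq]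
    split_ifs with h
    · exact Submodule.subset_span ⟨k, _, hk, rfl⟩
    · exact Submodule.zero_mem _
  · rw [map_zero]; exact Submodule.zero_mem _
  · intro x y _ _ hx hy
    rw [map_add]; exact Submodule.add_mem _ hx hy
  · intro c x _ hx
    rw [map_smul]; exact Submodule.smul_mem _ _ hx

/-- The image of the homogeneous polynomials. -/
noncomputable def V (m r : ℕ) : Submodule (ZMod 2) (PS (Fin m) ⧸ hits (Fin m)) :=
  (Hg (Fin m) r).map (hits (Fin m)).mkQ

theorem fin_V (m r : ℕ) : FiniteDimensional (ZMod 2) (V m r) := by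
  have h : FiniteDimensional (ZMod 2) (Hg (Fin m) r) :=
    Module.Finite.iff_fg.2 (homogeneousSubmodule_fg (Fin m) (ZMod 2) r)
  exact Module.Finite.iff_fg.2 ((Module.Finite.iff_fg.1 h).map _)

theorem mem_V (m r : ℕ) (f : PS (Fin m)) :
    ((hits (Fin m)).mkQ.comp (homogeneousComponent r)) f ∈ V m r :=
  Submodule.mem_map_of_mem (homogeneousComponent_isHomogeneous r f)

/-- The component of degree `r` modulo the hits. -/
noncomputable def L (m r : ℕ) : PS (Fin m) →ₗ[ZMod 2] V m r :=
  LinearMap.codRestrict (V m r) ((hits (Fin m)).mkQ.comp (homogeneousComponent r)) (mem_V m r)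

theorem L_coe (m r : ℕ) (f : PS (Fin m)) :
    ((L m r f : V m r) : PS (Fin m) ⧸ hits (Fin m)) =
      (hits (Fin m)).mkQ (homogeneousComponent r f) := rfl

theorem L_of_mem (m r : ℕ) (f : PS (Fin m)) (hf : f ∈ Hg (Fin m) r) :
    ((L m r f : V m r) : PS (Fin m) ⧸ hits (Fin m)) = (hits (Fin m)).mkQ f := by
  rw [L_coe, homogeneousComponent_eq_self hf]

theorem L_hits (m r : ℕ) (f : PS (Fin m)) (hf : f ∈ hits (Fin m)) : L m r f = 0 := by
  apply Subtype.ext
  rw [L_coe, Submodule.coe_zero, Submodule.mkQ_apply, Submodule.Quotient.mk_eq_zero]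
  exact comp_hits _ r f hf

theorem L_deg (m r s : ℕ) (hs : s ≠ r) (f : PS (Fin m)) (hf : f ∈ Hg (Fin m) s) :
    L m r f = 0 := by
  apply Subtype.ext
  rw [L_coe, homogeneousComponent_of_mem hf, if_neg hs.symm, map_zero, Submodule.coe_zero]

theorem main (m r : ℕ) :
    ∃ (ν : Fin (Module.finrank (ZMod 2) (V m r)) → PS (Fin m))
    (μ : Fin (Module.finrank (ZMod 2) (V m r)) → (PS (Fin m) →ₗ[ZMod 2] ZMod 2)),
    (∀ i, ν i ∈ Hg (Fin m) r) ∧
    (∀ i, (∀ f ∈ hits (Fin m), μ i f = 0) ∧ ∀ s, s ≠ r → ∀ f ∈ Hg (Fin m) s, μ i f = 0) ∧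
    (∀ i j, μ i (ν j) = if i = j then 1 else 0) ∧
    ∀ μ' : PS (Fin m) →ₗ[ZMod 2] ZMod 2, (∀ f ∈ hits (Fin m), μ' f = 0) →
      (∀ s, s ≠ r → ∀ f ∈ Hg (Fin m) s, μ' f = 0) → μ' = ∑ i, μ' (ν i) • μ i := by
  have hfin := DUB.fin_V m r
  let e : Module.Basis (Fin (Module.finrank (ZMod 2) (DUB.V m r))) (ZMod 2) (DUB.V m r) :=
    Module.finBasis (ZMod 2) (DUB.V m r)
  have hex : ∀ i : Fin (Module.finrank (ZMod 2) (DUB.V m r)), ∃ f ∈ Hg (Fin m) r,
      (hits (Fin m)).mkQ f = (e i : PS (Fin m) ⧸ hits (Fin m)) :=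
    fun i => Submodule.mem_map.1 (e i).2
  choose ν hν1 hν2 using hex
  have hL : ∀ i, DUB.L m r (ν i) = e i := fun i => by
    apply Subtype.ext
    rw [DUB.L_of_mem m r _ (hν1 i), hν2]
  refine ⟨ν, fun i => (e.coord i).comp (DUB.L m r), hν1, fun i => ⟨?_, ?_⟩, ?_, ?_⟩
  · intro f hf
    rw [LinearMap.comp_apply, DUB.L_hits m r f hf, map_zero]
  · intro s hs f hf
    rw [LinearMap.comp_apply, DUB.L_deg m r s hs f hf, map_zero]
  · intro i j
    rw [LinearMap.comp_apply, hL, Module.Basis.coord_apply, Module.Basis.repr_self,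
      Finsupp.single_apply]
    by_cases h : i = j
    · rw [if_pos h, if_pos h.symm]
    · rw [if_neg h, if_neg (Ne.symm h)]
  · intro μ' h1 h2
    apply LinearMap.ext
    intro f
    have e1 : μ' f = μ' (homogeneousComponent r f) := by
      conv_lhs => rw [← sum_homogeneousComponent f]
      rw [map_sum]
      by_cases hr : r ∈ Finset.range (f.totalDegree + 1)
      · rw [Finset.sum_eq_single_of_mem r hr]
        intro s _ hs
        exact h2 s hs _ (homogeneousComponent_isHomogeneous s f)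
      · rw [homogeneousComponent_eq_zero _ _ (by rw [Finset.mem_range] at hr; omega), map_zero]
        apply Finset.sum_eq_zero
        intro s hs
        have : s ≠ r := fun h => hr (h ▸ hs)
        exact h2 s this _ (homogeneousComponent_isHomogeneous s f)
    have e2 : homogeneousComponent r f - ∑ i, (e.coord i (DUB.L m r f)) • ν i ∈
        hits (Fin m) := by
      rw [← Submodule.Quotient.mk_eq_zero, ← Submodule.mkQ_apply, map_sub, map_sum]
      have e3 : (hits (Fin m)).mkQ (homogeneousComponent r f) =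
          ((∑ i, (e.coord i (DUB.L m r f)) • e i : DUB.V m r) :
            PS (Fin m) ⧸ hits (Fin m)) := by
        rw [← DUB.L_coe]
        congr 1
        simp only [Module.Basis.coord_apply]
        exact (e.sum_repr (DUB.L m r f)).symm
      rw [e3, Submodule.coe_sum, ← Finset.sum_sub_distrib]
      apply Finset.sum_eq_zero
      intro i _
      rw [map_smul, hν2, Submodule.coe_smul, sub_self]
    have e4 := h1 _ e2
    rw [map_sub, map_sum, sub_eq_zero] at e4
    rw [e1, e4, LinearMap.sum_apply]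
    apply Finset.sum_congr rfl
    intro i _
    rw [map_smul, LinearMap.smul_apply, LinearMap.comp_apply, smul_eq_mul, smul_eq_mul, mul_comm]

end DUB

theorem t_DUB : Stmt_DUB := fun m r => DUB.main m r

end HGP
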