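import Pool.Agent.HGP.Stmts

/-!
# Basic facts on the extraction
-/

namespace HGP

open MvPolynomial

namespace EXB

variable {σ : Type}

open Classical in
theorem ex_monomial (t : ℕ) (s : σ →₀ ℕ) (c : ZMod 2) :
    ex σ t (monomial s c) = if ∀ i, s i % 2 ^ t = 2 ^ t - 1 then
      monomial (s.mapRange (fun a => a / 2 ^ t) (Nat.zero_div _)) c else 0 := by
  have h1 : (monomial s c : PS σ) = c • monomial s 1 := by
    rw [smul_monomial, smul_eq_mul, mul_one]
  have h2 : (monomial s 1 : PS σ) = basisMonomials σ (ZMod 2) s := by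
    rw [coe_basisMonomials]
  rw [h1, map_smul, h2, ex, Module.Basis.constr_basis]
  split_ifs
  · rw [smul_monomial, smul_eq_mul, mul_one]
  · rw [smul_zero]

theorem ex_monomial_pos (t : ℕ) (s : σ →₀ ℕ) (c : ZMod 2) (h : ∀ i, s i % 2 ^ t = 2 ^ t - 1) :
    ex σ t (monomial s c) = monomial (s.mapRange (fun a => a / 2 ^ t) (Nat.zero_div _)) c := by
  rw [ex_monomial, if_pos h]

theorem ex_monomial_neg (t : ℕ) (s : σ →₀ ℕ) (c : ZMod 2)
    (h : ¬ ∀ i, s i % 2 ^ t = 2 ^ t - 1) : ex σ t (monomial s c) = 0 := by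
  rw [ex_monomial, if_neg h]

theorem zpow (c : ZMod 2) (n : ℕ) (hn : n ≠ 0) : c ^ n = c := by
  have h : ∀ c : ZMod 2, c = 0 ∨ c = 1 := by decide
  rcases h c with h | h
  · rw [h, zero_pow hn]
  · rw [h, one_pow]

theorem ex_pow_mul (t : ℕ) (r f : PS σ) : ex σ t (r ^ 2 ^ t * f) = r * ex σ t f := by
  induction r using MvPolynomial.induction_on' with
  | add p q hp hq =>
    rw [add_pow_char_pow, add_mul, map_add, hp, hq, add_mul]
  | monomial a c =>
    induction f using MvPolynomial.induction_on' with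
    | add p q hp hq => rw [mul_add, map_add, map_add, hp, hq, mul_add]
    | monomial s b =>
      rw [monomial_pow, zpow c _ (by positivity), monomial_mul]
      by_cases h : ∀ i, s i % 2 ^ t = 2 ^ t - 1
      · have h' : ∀ i, (2 ^ t • a + s) i % 2 ^ t = 2 ^ t - 1 := by
          intro i
          rw [Finsupp.add_apply, Finsupp.smul_apply, smul_eq_mul, Nat.mul_add_mod, h i]
        rw [ex_monomial_pos _ _ _ h, ex_monomial_pos _ _ _ h', monomial_mul]
        congr 2
        ext i
        rw [Finsupp.mapRange_apply, Finsupp.add_apply, Finsupp.add_apply, Finsupp.smul_apply,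
          smul_eq_mul, Finsupp.mapRange_apply, Nat.mul_add_div (by positivity)]
      · have h' : ¬ ∀ i, (2 ^ t • a + s) i % 2 ^ t = 2 ^ t - 1 := by
          intro h2
          apply h
          intro i
          have := h2 i
          rwa [Finsupp.add_apply, Finsupp.smul_apply, smul_eq_mul, Nat.mul_add_mod] at this
        rw [ex_monomial_neg _ _ _ h, ex_monomial_neg _ _ _ h', mul_zero]

theorem ex_zero (f : PS σ) : ex σ 0 f = f := by
  induction f using MvPolynomial.induction_on' with
  | add p q hp hq => rw [map_add, hp, hq]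
  | monomial s b =>
    rw [ex_monomial_pos 0 s b (by intro i; simp [Nat.mod_one])]
    congr 2
    ext i
    simp

theorem mod_succ (t a : ℕ) :
    a % 2 ^ (t + 1) = 2 ^ (t + 1) - 1 ↔ a % 2 ^ t = 2 ^ t - 1 ∧ a / 2 ^ t % 2 ^ 1 = 2 ^ 1 - 1 := by
  have h1 : a % 2 ^ (t + 1) = a % 2 ^ t + 2 ^ t * (a / 2 ^ t % 2) := by
    rw [pow_succ, Nat.mod_mul]
  have h2 : a % 2 ^ t < 2 ^ t := Nat.mod_lt _ (by positivity)
  have h3 : 2 ^ (t + 1) = 2 * 2 ^ t := by rw [pow_succ]; ring
  rw [h1, h3, pow_one]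
  rcases Nat.mod_two_eq_zero_or_one (a / 2 ^ t) with h4 | h4
  · rw [h4]
    constructor
    · intro h
      omega
    · rintro ⟨_, h⟩
      omega
  · rw [h4]
    constructor
    · intro h
      omega
    · rintro ⟨h, _⟩
      omega

theorem ex_succ (t : ℕ) (f : PS σ) : ex σ (t + 1) f = ex σ 1 (ex σ t f) := by
  induction f using MvPolynomial.induction_on' with
  | add p q hp hq => rw [map_add, map_add, map_add, hp, hq]
  | monomial s b =>
    by_cases h : ∀ i, s i % 2 ^ t = 2 ^ t - 1
    · rw [ex_monomial_pos t s b h]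
      by_cases h' : ∀ i, s i / 2 ^ t % 2 ^ 1 = 2 ^ 1 - 1
      · rw [ex_monomial_pos (t + 1) s b fun i => (mod_succ t _).2 ⟨h i, h' i⟩,
          ex_monomial_pos 1 _ b fun i => by rw [Finsupp.mapRange_apply]; exact h' i]
        congr 2
        ext i
        rw [Finsupp.mapRange_apply, Finsupp.mapRange_apply, Finsupp.mapRange_apply,
          Nat.div_div_eq_div_mul, pow_succ, pow_one]
      · rw [ex_monomial_neg (t + 1) s b fun h2 => h' fun i => ((mod_succ t _).1 (h2 i)).2,
          ex_monomial_neg 1 _ b fun h2 => h' fun i => by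
            have := h2 i
            rwa [Finsupp.mapRange_apply] at this]
    · rw [ex_monomial_neg t s b h, map_zero,
        ex_monomial_neg (t + 1) s b fun h2 => h fun i => ((mod_succ t _).1 (h2 i)).1]

theorem deg_eq [Fintype σ] (t : ℕ) (s : σ →₀ ℕ) (h : ∀ i, s i % 2 ^ t = 2 ^ t - 1) :
    s.degree + Fintype.card σ = 2 ^ t * ((s.mapRange (fun a => a / 2 ^ t)
      (Nat.zero_div _)).degree + Fintype.card σ) := by
  have h1 : ∀ s : σ →₀ ℕ, s.degree + Fintype.card σ = ∑ i, (s i + 1) := by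
    intro s
    rw [Finsupp.degree_eq_sum, Finset.sum_add_distrib, Finset.sum_const, Finset.card_univ,
      smul_eq_mul, mul_one]
  rw [h1, h1, Finset.mul_sum]
  refine Finset.sum_congr rfl fun i _ => ?_
  rw [Finsupp.mapRange_apply]
  have h2 := Nat.div_add_mod (s i) (2 ^ t)
  have h3 : 0 < 2 ^ t := by positivity
  rw [h i] at h2
  rw [mul_add, mul_one]
  omega

/-- A property of `ex σ t f` for homogeneous `f` can be checked on monomials. -/
theorem ex_hom [Fintype σ] (t n : ℕ) (M : Submodule (ZMod 2) (PS σ)) (f : PS σ) (hf : f ∈ Hg σ n)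
    (h : ∀ (s : σ →₀ ℕ) (c : ZMod 2), s.degree = n → ex σ t (monomial s c) ∈ M) :
    ex σ t f ∈ M := by
  rw [f.as_sum, map_sum]
  refine Submodule.sum_mem _ fun s hs => h s _ ?_
  have h1 : f.IsHomogeneous n := (mem_homogeneousSubmodule n f).1 hf
  have h2 := h1 (mem_support_iff.1 hs)
  rw [Finsupp.degree_eq_weight_one]
  exact h2

theorem ex_mem [Fintype σ] (t n n' : ℕ) (f : PS σ) (hf : f ∈ Hg σ n)
    (h : n + Fintype.card σ = 2 ^ t * (n' + Fintype.card σ)) : ex σ t f ∈ Hg σ n' := by
  refine ex_hom t n _ f hf fun s c hs => ?_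
  by_cases h1 : ∀ i, s i % 2 ^ t = 2 ^ t - 1
  · rw [ex_monomial_pos t s c h1]
    refine (mem_homogeneousSubmodule n' _).2 (isHomogeneous_monomial _ ?_)
    have h2 := deg_eq t s h1
    rw [hs, h] at h2
    have h3 := Nat.eq_of_mul_eq_mul_left (by positivity) h2
    omega
  · rw [ex_monomial_neg t s c h1]
    exact Submodule.zero_mem _

theorem ex_eq_zero [Fintype σ] (t n : ℕ) (f : PS σ) (hf : f ∈ Hg σ n)
    (h : ∀ n', n + Fintype.card σ ≠ 2 ^ t * (n' + Fintype.card σ)) : ex σ t f = 0 := by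
  have h0 : ex σ t f ∈ (⊥ : Submodule (ZMod 2) (PS σ)) := by
    refine ex_hom t n _ f hf fun s c hs => ?_
    by_cases h1 : ∀ i, s i % 2 ^ t = 2 ^ t - 1
    · exfalso
      have h2 := deg_eq t s h1
      rw [hs] at h2
      exact h _ h2
    · rw [ex_monomial_neg t s c h1]
      exact Submodule.zero_mem _
  exact (Submodule.mem_bot _).1 h0

theorem prod_X (S : Finset σ) :
    (∏ i ∈ S, X i : PS σ) = monomial (∑ i ∈ S, Finsupp.single i 1) 1 := by
  rw [monomial_sum_one]
  rfl

open Classical in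
theorem sum_single (S : Finset σ) (i : σ) :
    (∑ j ∈ S, Finsupp.single j 1 : σ →₀ ℕ) i = if i ∈ S then 1 else 0 := by
  rw [Finsupp.finsetSum_apply]
  simp only [Finsupp.single_apply]
  rw [Finset.sum_ite_eq']

theorem ex_squares [Fintype σ] (f : PS σ) :
    ∃ G : Finset σ → PS σ, f = ∑ S, (∏ i ∈ S, X i) * G S ^ 2 := by
  classical
  induction f using MvPolynomial.induction_on' with
  | add p q hp hq =>
    obtain ⟨G, hG⟩ := hp
    obtain ⟨G', hG'⟩ := hq
    refine ⟨fun S => G S + G' S, ?_⟩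
    conv_lhs => rw [hG, hG']
    rw [← Finset.sum_add_distrib]
    refine Finset.sum_congr rfl fun S _ => ?_
    rw [← mul_add, add_pow_char]
  | monomial s c =>
    refine ⟨fun S => if S = Finset.univ.filter (fun i => s i % 2 = 1) then
      monomial (s.mapRange (fun a => a / 2) (Nat.zero_div _)) c else 0, ?_⟩
    rw [Finset.sum_eq_single (Finset.univ.filter (fun i => s i % 2 = 1))]
    · beta_reduce
      rw [if_pos rfl, prod_X, monomial_pow, zpow c _ two_ne_zero, monomial_mul, one_mul]
      congr 2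
      ext i
      rw [Finsupp.add_apply, sum_single, Finsupp.smul_apply, Finsupp.mapRange_apply, smul_eq_mul]
      have h2 := Nat.div_add_mod (s i) 2
      rcases Nat.mod_two_eq_zero_or_one (s i) with h | h
      · rw [if_neg (by simp [h])]
        omega
      · rw [if_pos (by simp [h])]
        omega
    · intro S _ hS
      beta_reduce
      rw [if_neg hS, zero_pow two_ne_zero, mul_zero]
    · intro h
      exact absurd (Finset.mem_univ _) h

theorem ex_prod_sq (S : Finset σ) (g : PS σ) :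
    ex σ 1 ((∏ i ∈ S, X i) * g ^ 2) = g * ex σ 1 (∏ i ∈ S, X i) := by
  have h := ex_pow_mul 1 g (∏ i ∈ S, X i : PS σ)
  rw [pow_one] at h
  rw [mul_comm, h]

end EXB

theorem t_EXB : Stmt_EXB := by
  refine ⟨fun σ _ t r f => EXB.ex_pow_mul t r f, fun σ _ f => EXB.ex_zero f,
    fun σ _ t f => EXB.ex_succ t f, fun σ _ t n n' f hf h => EXB.ex_mem t n n' f hf h,
    fun σ _ t n f hf h => EXB.ex_eq_zero t n f hf h, fun σ _ f => EXB.ex_squares f, ?_, ?_⟩
  · intro σ _ g
    rw [EXB.ex_prod_sq, EXB.prod_X, EXB.ex_monomial_pos 1 _ 1 fun i => by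
      rw [EXB.sum_single, if_pos (Finset.mem_univ i)]
      rfl]
    have h : (Finsupp.mapRange (fun a => a / 2 ^ 1) (Nat.zero_div _)
        (∑ i, Finsupp.single i 1 : σ →₀ ℕ)) = 0 := by
      ext i
      rw [Finsupp.mapRange_apply, EXB.sum_single, if_pos (Finset.mem_univ i)]
      rfl
    rw [h]
    exact mul_one g
  · intro σ _ S g hS
    have h : ∃ i, i ∉ S := by
      by_contra h2
      push Not at h2
      exact hS (Finset.eq_univ_of_forall h2)
    obtain ⟨i, hi⟩ := h
    rw [EXB.ex_prod_sq, EXB.prod_X, EXB.ex_monomial_neg 1 _ 1 fun h2 => by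
      have h3 := h2 i
      rw [EXB.sum_single, if_neg hi] at h3
      exact absurd h3 (by decide), mul_zero]

end HGP
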