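import Pool.Agent.HGP.Stmts

/-!
# EXE: the extraction commutes with the invertible substitutions
-/

namespace HGP

open MvPolynomial

namespace EXE

theorem prod_X_mem {k : ℕ} (S : Finset (Fin k)) : (∏ i ∈ S, X i : PS (Fin k)) ∈ Hg (Fin k) S.card := by
  have h : (∏ i ∈ S, X i : PS (Fin k)).IsHomogeneous (∑ _i ∈ S, 1) :=
    IsHomogeneous.prod S (fun i => (X i : PS (Fin k))) (fun _ => 1) fun i _ => isHomogeneous_X _ _
  rw [Finset.sum_const, smul_eq_mul, mul_one] at h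
  exact h

theorem Hg_zero {σ : Type} {f : PS σ} (hf : f ∈ Hg σ 0) : ∃ c : ZMod 2, f = C c := by
  have h : f.IsHomogeneous 0 := hf
  rw [← totalDegree_zero_iff_isHomogeneous] at h
  exact ⟨_, totalDegree_eq_zero_iff_eq_C.1 h⟩

/-- One step, with a constant. -/
theorem step_const (h1 : P_SBB) (h2 : P_EXB) (k : ℕ) (A : WS (Fin k) →ₗ[ZMod 2] WS (Fin k)) :
    ∃ c : ZMod 2, ∀ f : PS (Fin k), ex (Fin k) 1 (sb A f) = c • sb A (ex (Fin k) 1 f) := by
  obtain ⟨e1, -, -, e4, e5, e6, e7, e8⟩ := h2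
  obtain ⟨-, -, -, s4, -, -, -⟩ := h1
  have hdeg : ∀ S : Finset (Fin k), sb A (∏ i ∈ S, X i) ∈ Hg (Fin k) S.card := fun S =>
    s4 (Fin k) (Fin k) A S.card _ (prod_X_mem S)
  have hu : ex (Fin k) 1 (sb A (∏ i, X i)) ∈ Hg (Fin k) 0 := by
    refine e4 (Fin k) 1 _ 0 _ (hdeg Finset.univ) ?_
    rw [Finset.card_univ]
    ring
  obtain ⟨c, hc⟩ := Hg_zero hu
  refine ⟨c, fun f => ?_⟩
  obtain ⟨G, hG⟩ := e6 (Fin k) f
  rw [hG, map_sum, map_sum, map_sum, map_sum, Finset.smul_sum]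
  refine Finset.sum_congr rfl fun S _ => ?_
  have hl : ex (Fin k) 1 (sb A ((∏ i ∈ S, X i) * G S ^ 2)) =
      sb A (G S) * ex (Fin k) 1 (sb A (∏ i ∈ S, X i)) := by
    rw [map_mul, map_pow, mul_comm]
    exact e1 (Fin k) 1 (sb A (G S)) _
  rw [hl]
  by_cases hS : S = Finset.univ
  · subst hS
    rw [hc, e7, smul_eq_C_mul, mul_comm]
  · rw [e8 (Fin k) S (G S) hS, map_zero, smul_zero]
    rw [e5 (Fin k) 1 S.card _ (hdeg S), mul_zero]
    intro n' hn'
    have h3 : S.card < Fintype.card (Fin k) := by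
      rw [Finset.card_lt_iff_ne_univ]
      exact hS
    rw [pow_one] at hn'
    omega

theorem step (h1 : P_SBB) (h2 : P_EXB) (k : ℕ) (A : WS (Fin k) ≃ₗ[ZMod 2] WS (Fin k))
    (f : PS (Fin k)) : ex (Fin k) 1 (sb A.toLinearMap f) = sb A.toLinearMap (ex (Fin k) 1 f) := by
  obtain ⟨c, hc⟩ := step_const h1 h2 k A.toLinearMap
  have hc0 : c ≠ 0 := by
    intro h0
    have h3 := hc (sb A.symm.toLinearMap (∏ i, X i))
    rw [h0, zero_smul] at h3
    have h4 := h1.2.1 (Fin k) (Fin k) (Fin k) A.symm.toLinearMap A.toLinearMap (∏ i, X i)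
    have h5 : A.toLinearMap.comp A.symm.toLinearMap = LinearMap.id := by
      ext1 x
      simp
    rw [h5, h1.2.2.1 (Fin k)] at h4
    rw [h4] at h3
    have h6 := h2.2.2.2.2.2.2.1 (Fin k) (1 : PS (Fin k))
    rw [one_pow, mul_one] at h6
    rw [h6] at h3
    exact one_ne_zero h3
  have hc1 : c = 1 := by
    revert hc0
    clear hc
    revert c
    decide
  rw [hc, hc1, one_smul]

end EXE

theorem t_EXE : Stmt_EXE := by
  intro h1 h2 k t A
  induction t with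
  | zero =>
    intro f
    rw [h2.2.1 (Fin k), h2.2.1 (Fin k)]
  | succ t ih =>
    intro f
    rw [h2.2.2.1 (Fin k) t, h2.2.2.1 (Fin k) t, ih, EXE.step h1 h2]

end HGP
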