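import Pool.Agent.HGP.Stmts

/-!
# Module EXO: the extraction of the value of an operation
-/

set_option autoImplicit false

namespace HGP

open MvPolynomial

namespace EXO

variable {σ : Type}

theorem ex_one_monomial (s : σ →₀ ℕ) (c : ZMod 2) (h : ∃ i, s i % 2 = 0) :
    ex σ 1 (monomial s c) = 0 := by
  classical
  have h1 : (monomial s c : PS σ) = c • basisMonomials σ (ZMod 2) s := by
    rw [coe_basisMonomials, smul_monomial, smul_eq_mul, mul_one]
  rw [h1, map_smul, ex, Module.Basis.constr_basis, if_neg, smul_zero]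
  obtain ⟨i, hi⟩ := h
  intro h2
  have h3 := h2 i
  rw [pow_one] at h3
  omega

theorem ex_one_eq_zero (F : PS σ) (h : ∀ s ∈ F.support, ∃ i, s i % 2 = 0) : ex σ 1 F = 0 := by
  rw [← support_sum_monomial_coeff F, map_sum]
  exact Finset.sum_eq_zero fun s hs => ex_one_monomial s _ (h s hs)

/-- The operations on a variable. -/
theorem supp_X (m : ℕ) (p : ℕ →₀ ℕ) (a : σ) (s : σ →₀ ℕ)
    (hs : s ∈ (Mp m p (X a : PS σ)).support) :
    ∃ e, s = Finsupp.single a e ∧ (p ≠ 0 → e % 2 = 0) := by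
  classical
  have h1 : Mp m p (X a : PS σ) = coeff p (C (X a : PS σ) +
      ∑ j ∈ Finset.range m, C ((X a : PS σ) ^ 2 ^ (j + 1)) * X j) := by
    change coeff p (ph σ m (X a)) = _
    rw [ph, aeval_X]
  rw [h1, coeff_add, coeff_C, coeff_sum] at hs
  by_cases hp : p = 0
  · subst hp
    have h2 : ∑ j ∈ Finset.range m, coeff 0 (C ((X a : PS σ) ^ 2 ^ (j + 1)) *
        (X j : MvPolynomial ℕ (PS σ))) = 0 := by
      refine Finset.sum_eq_zero fun j _ => ?_
      rw [coeff_C_mul, coeff_zero_X, mul_zero]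
    rw [h2, if_pos rfl, add_zero] at hs
    refine ⟨1, ?_, fun h => absurd rfl h⟩
    rw [mem_support_iff, coeff_X] at hs
    by_contra hne
    rw [if_neg (fun h => hne h.symm)] at hs
    exact hs rfl
  · rw [if_neg (fun h => hp h.symm), zero_add] at hs
    obtain ⟨j, -, hj⟩ := Finset.mem_biUnion.1 (support_sum hs)
    rw [coeff_C_mul, coeff_X] at hj
    by_cases hj2 : Finsupp.single j 1 = p
    · rw [if_pos hj2, mul_one, mem_support_iff, coeff_X_pow] at hj
      refine ⟨2 ^ (j + 1), ?_, fun _ => ?_⟩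
      · by_contra hne
        rw [if_neg (fun h => hne h.symm)] at hj
        exact hj rfl
      · rw [pow_succ]
        omega
    · rw [if_neg hj2, mul_zero] at hj
      simp at hj

/-- The operations on a product of different variables. -/
theorem supp_prod (hOPB : P_OPB) (m : ℕ) (S : Finset σ) : ∀ (p : ℕ →₀ ℕ) (s : σ →₀ ℕ),
    s ∈ (Mp m p (∏ i ∈ S, X i : PS σ)).support →
      (∀ i, i ∉ S → s i = 0) ∧ (p ≠ 0 → ∃ i ∈ S, s i % 2 = 0) := by
  classical
  induction S using Finset.induction_on with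
  | empty =>
    intro p s hs
    have h1 : Mp m p (∏ i ∈ (∅ : Finset σ), X i : PS σ) = if 0 = p then 1 else 0 := by
      change coeff p (ph σ m (∏ i ∈ (∅ : Finset σ), X i : PS σ)) = _
      rw [Finset.prod_empty, map_one, coeff_one]
    rw [h1] at hs
    by_cases hp : p = 0
    · rw [if_pos hp.symm, mem_support_iff, coeff_one] at hs
      have hs0 : s = 0 := by
        by_contra hne
        rw [if_neg (fun h => hne h.symm)] at hs
        exact hs rfl
      subst hs0
      exact ⟨fun i _ => rfl, fun h => absurd hp h⟩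
    · rw [if_neg (fun h => hp h.symm)] at hs
      simp at hs
  | insert a S ha ih =>
    intro p s hs
    rw [Finset.prod_insert ha, hOPB.2.1] at hs
    obtain ⟨⟨p1, p2⟩, hp, hs⟩ := Finset.mem_biUnion.1 (support_sum hs)
    rw [Finset.HasAntidiagonal.mem_antidiagonal] at hp
    obtain ⟨s1, h1, s2, h2, hs12⟩ := Finset.mem_add.1 (support_mul _ _ hs)
    obtain ⟨e, rfl, he⟩ := supp_X m p1 a s1 h1
    obtain ⟨i1, i2⟩ := ih p2 s2 h2
    subst hs12
    dsimp only at hp h1 h2
    refine ⟨?_, ?_⟩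
    · intro i hi
      rw [Finset.mem_insert, not_or] at hi
      rw [Finsupp.add_apply, i1 i hi.2, Finsupp.single_apply, if_neg (fun h => hi.1 h.symm)]
    · intro hp0
      by_cases h : p1 = 0
      · have h3 : p2 ≠ 0 := by
          intro h4
          apply hp0
          rw [← hp, h, h4, add_zero]
        obtain ⟨i, hi, hi2⟩ := i2 h3
        refine ⟨i, Finset.mem_insert_of_mem hi, ?_⟩
        have h4 : a ≠ i := by
          rintro rfl
          exact ha hi
        rw [Finsupp.add_apply, Finsupp.single_apply, if_neg h4, zero_add, hi2]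
      · refine ⟨a, Finset.mem_insert_self a S, ?_⟩
        rw [Finsupp.add_apply, i1 a ha, Finsupp.single_eq_same, add_zero, he h]

theorem half (β : ℕ →₀ ℕ) (n : ℕ) (h : ∀ j, n ∣ β j) : ∃ γ : ℕ →₀ ℕ, β = n • γ := by
  refine ⟨β.mapRange (fun a => a / n) (Nat.zero_div _), ?_⟩
  ext j
  rw [Finsupp.smul_apply, Finsupp.mapRange_apply, smul_eq_mul, Nat.mul_div_cancel' (h j)]

variable [Fintype σ]

theorem step (hOPB : P_OPB) (hEXB : P_EXB) (m : ℕ) (β : ℕ →₀ ℕ) (S : Finset σ) (g : PS σ) :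
    ex σ 1 (Mp m β ((∏ i ∈ S, X i) * g ^ 2)) = ex σ 1 ((∏ i ∈ S, X i) * Mp m β (g ^ 2)) := by
  have hO := hOPB
  obtain ⟨o1, o2, -, -, -, -, -, -, -, -, o11, o12⟩ := hOPB
  rw [o2, map_sum]
  rw [Finset.sum_eq_single (0, β)]
  · dsimp only
    rw [o1]
  · rintro ⟨p, q⟩ hpq hne
    rw [Finset.HasAntidiagonal.mem_antidiagonal] at hpq
    dsimp only at hpq ⊢
    have hp : p ≠ 0 := by
      rintro rfl
      rw [zero_add] at hpq
      exact hne (by rw [hpq])
    by_cases hq : ∃ j, ¬ 2 ∣ q j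
    · rw [o11 σ m q g hq, mul_zero, map_zero]
    · push Not at hq
      obtain ⟨q', rfl⟩ := half q 2 hq
      rw [o12]
      have h1 := hEXB.1 σ 1 (Mp m q' g) (Mp m p (∏ i ∈ S, X i))
      rw [pow_one] at h1
      rw [mul_comm, h1, ex_one_eq_zero, mul_zero]
      intro s hs
      obtain ⟨i, -, hi⟩ := (supp_prod hO m S p s hs).2 hp
      exact ⟨i, hi⟩
  · intro h
    exact absurd (Finset.HasAntidiagonal.mem_antidiagonal.2 (zero_add β)) h

theorem one_a (hOPB : P_OPB) (hEXB : P_EXB) (m : ℕ) (β : ℕ →₀ ℕ) (f : PS σ)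
    (h : ∃ j, ¬ 2 ∣ β j) : ex σ 1 (Mp m β f) = 0 := by
  have hE := hEXB
  obtain ⟨-, -, -, -, -, e6, -, -⟩ := hEXB
  obtain ⟨G, hG⟩ := e6 σ f
  rw [hG, map_sum, map_sum]
  refine Finset.sum_eq_zero fun S _ => ?_
  rw [step hOPB hE, hOPB.2.2.2.2.2.2.2.2.2.2.1 σ m β (G S) h, mul_zero, map_zero]

theorem one_b (hOPB : P_OPB) (hEXB : P_EXB) (m : ℕ) (α : ℕ →₀ ℕ) (f : PS σ) :
    ex σ 1 (Mp m (2 • α) f) = Mp m α (ex σ 1 f) := by
  classical
  have hE := hEXB
  obtain ⟨-, -, -, -, -, e6, e7, e8⟩ := hEXB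
  obtain ⟨G, hG⟩ := e6 σ f
  have h1 : ∀ H : Finset σ → PS σ, ∑ S, ex σ 1 ((∏ i ∈ S, X i) * H S ^ 2) =
      H Finset.univ := by
    intro H
    rw [Finset.sum_eq_single Finset.univ]
    · exact e7 σ _
    · intro S _ hS
      exact e8 σ S _ hS
    · intro h
      exact absurd (Finset.mem_univ _) h
  have h2 : ex σ 1 f = G Finset.univ := by
    conv_lhs => rw [hG]
    rw [map_sum, h1]
  rw [h2]
  conv_lhs => rw [hG]
  rw [map_sum, map_sum, ← h1 fun S => Mp m α (G S)]
  refine Finset.sum_congr rfl fun S _ => ?_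
  rw [step hOPB hE, hOPB.2.2.2.2.2.2.2.2.2.2.2 σ m α (G S)]

end EXO

open EXO in
theorem t_EXO : Stmt_EXO := by
  intro hOPB hEXB
  have key : ∀ (σ : Type) [Fintype σ] (t m : ℕ), (∀ (α : ℕ →₀ ℕ) (f : PS σ),
      (∃ j, ¬ 2 ^ t ∣ α j) → ex σ t (Mp m α f) = 0) ∧
      ∀ (α : ℕ →₀ ℕ) (f : PS σ), ex σ t (Mp m (2 ^ t • α) f) = Mp m α (ex σ t f) := by
    intro σ _ t m
    induction t with
    | zero =>
      refine ⟨?_, ?_⟩
      · rintro α f ⟨j, hj⟩
        rw [pow_zero] at hj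
        exact absurd (one_dvd _) hj
      · intro α f
        rw [pow_zero, one_smul, hEXB.2.1, hEXB.2.1]
    | succ t ih =>
      obtain ⟨ih1, ih2⟩ := ih
      refine ⟨?_, ?_⟩
      · rintro α f ⟨j, hj⟩
        rw [hEXB.2.2.1]
        by_cases h : ∃ j, ¬ 2 ^ t ∣ α j
        · rw [ih1 α f h, map_zero]
        · push Not at h
          obtain ⟨α', rfl⟩ := half α (2 ^ t) h
          rw [ih2]
          apply one_a hOPB hEXB
          refine ⟨j, fun h2 => hj ?_⟩
          rw [Finsupp.smul_apply, smul_eq_mul, pow_succ]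
          exact Nat.mul_dvd_mul_left _ h2
      · intro α f
        rw [hEXB.2.2.1, pow_succ, mul_smul, ih2, one_b hOPB hEXB, ← hEXB.2.2.1 σ t f]
  exact ⟨fun σ _ t m α f h => (key σ t m).1 α f h, fun σ _ t m α f => (key σ t m).2 α f⟩

end HGP
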