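import Pool.Agent.HGP.Stmts

/-!
# FIN: all but finitely many degrees reduce to smaller degrees or to fewer variables
-/

namespace HGP.FIN

open MvPolynomial
open Pool.Agent.Lib_helper74.Hit (hits qd)

/-- There are no homogeneous polynomials of positive degree in no variables. -/
theorem qd_zero_pos {k : ℕ} (hk : 1 ≤ k) : qd (Fin 0) k = 0 := by
  have h : homogeneousSubmodule (Fin 0) (ZMod 2) k = ⊥ := by
    rw [eq_bot_iff]
    intro f hf
    rw [Submodule.mem_bot]
    have hf' : f.IsHomogeneous k := hf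
    obtain ⟨a, rfl⟩ := C_surjective (R := ZMod 2) (Fin 0) f
    by_contra hne
    have h0 := hf'.totalDegree hne
    rw [totalDegree_C] at h0
    omega
  unfold qd
  rw [h, Submodule.map_bot]
  exact finrank_bot _ _

theorem qz_nat (d n : ℕ) : qz d (n : ℤ) = qd (Fin d) n := by
  unfold qz
  rw [if_pos (Int.natCast_nonneg n), Int.toNat_natCast]

theorem qz_zero {z : ℤ} (hz : z ≠ 0) : qz 0 z = 0 := by
  unfold qz
  split_ifs with h
  · apply qd_zero_pos
    omega
  · rfl

theorem RH_eq (d : ℕ) (c : ℤ) (hc : c ≠ d) (C : ℕ) (q : ℤ) : RH d c C q =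
    ∑ m ∈ Finset.Icc 1 d, nsub d m *
      (qz (d - m) (2 ^ C * q - ((d - m : ℕ) : ℤ)) * qz m (((d - m : ℕ) : ℤ) - c)) := by
  unfold RH
  have h1 : Finset.Icc 1 d = (Finset.range (d + 1)).erase 0 := by
    ext m
    rw [Finset.mem_Icc, Finset.mem_erase, Finset.mem_range]
    omega
  rw [h1]
  symm
  apply Finset.sum_erase
  have h2 : (((d - 0 : ℕ) : ℤ) - c) ≠ 0 := by
    rw [Nat.sub_zero]
    intro h
    apply hc
    omega
  rw [qz_zero h2]
  simp

end HGP.FIN

namespace HGP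

open Pool.Agent.Lib_helper74.Hit (hits qd)

theorem t_FIN : Stmt_FIN := by
  intro hG hA hV d
  choose T hT using hG d
  obtain ⟨K, hK⟩ := hA d (d + 2 ^ (d + 1)) T
  refine ⟨K + d + 1, fun n hn => ?_⟩
  by_cases h0 : qd (Fin d) n = 0
  · exact Or.inl h0
  right
  obtain ⟨r, N, hr, hN, hal⟩ := hV d n h0
  obtain ⟨c, t, hc, hTt, htK, q, hq⟩ := hK (n : ℤ) ⟨r, N, by push_cast; exact hr, hN, hal⟩
  have hc' := abs_le.1 hc
  have hnz : (K : ℤ) + d + 1 ≤ n := by exact_mod_cast hn
  have hpos : (0 : ℤ) < 2 ^ t := by positivity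
  have hq1 : 1 ≤ q := by
    by_contra hlt
    have hq0 : q ≤ 0 := by omega
    have : (2 : ℤ) ^ t * q ≤ 0 := mul_nonpos_of_nonneg_of_nonpos hpos.le hq0
    omega
  have hn' : (n : ℤ) = 2 ^ t * q - c := by omega
  have hmain : ∀ C, T c ≤ C → qd (Fin d) n = RH d c C q := by
    intro C hC
    rw [← FIN.qz_nat, hn']
    exact hT c t C hTt.le hC q
  by_cases hcd : c = d
  · left
    obtain ⟨s, rfl⟩ : ∃ s, t = s + 1 := ⟨t - 1, by omega⟩
    have h2 : (2 : ℤ) ^ (s + 1) * q = 2 * (2 ^ s * q) := by ring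
    have hm : (0 : ℤ) ≤ 2 ^ s * q - d := by
      rw [h2] at hn'
      omega
    obtain ⟨m, hm'⟩ := Int.eq_ofNat_of_zero_le hm
    have hm2 : (2 : ℤ) ^ s * q - d = (m : ℤ) := hm'
    refine ⟨m, ?_, ?_, ?_⟩
    · have : (n : ℤ) = 2 * m + d := by
        rw [h2] at hn'
        omega
      have : n = 2 * m + d := by exact_mod_cast this
      omega
    · have : (n : ℤ) = 2 * m + d := by
        rw [h2] at hn'
        omega
      exact_mod_cast this
    · rw [hmain (T c) le_rfl, ← FIN.qz_nat d m, ← hm2, ← hcd]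
      exact (hT c s (T c) (by omega) le_rfl q).symm
  · right
    refine ⟨c, q, t, t, hcd, ?_, ?_, ?_, hq1, hn', ?_⟩
    · push_cast
      omega
    · omega
    · omega
    · rw [← FIN.RH_eq d c hcd]
      exact hmain t hTt.le

end HGP
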