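import Pool.Agent.HGP.Stmts

/-!
# FKS: the product of the forms of a coset is an additive polynomial
-/

namespace HGP

open MvPolynomial

namespace FKS

theorem lf_single {d : ℕ} (i : Fin d) : HB.lf (Pi.single i 1 : WS (Fin d)) = X i := by
  unfold HB.lf
  rw [Finset.sum_eq_single i]
  · rw [Pi.single_eq_same, C_1, one_mul]
  · intro j _ hj
    rw [Pi.single_eq_of_ne hj, C_0, zero_mul]
  · intro h
    exact absurd (Finset.mem_univ i) h

/-- The vector of the subset `T`. -/
theorem vec (d : ℕ) (T : Finset (Fin d)) :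
    (Pi.single 0 1 + ∑ j ∈ T, Pi.single j.succ 1 : WS (Fin (d + 1))) =
      Fin.cons 1 fun j => if j ∈ T then 1 else 0 := by
  funext x
  rw [Pi.add_apply, Finset.sum_apply]
  refine Fin.cases ?_ (fun i => ?_) x
  · rw [Pi.single_eq_same, Fin.cons_zero, Finset.sum_eq_zero, add_zero]
    intro j _
    rw [Pi.single_eq_of_ne (Fin.succ_ne_zero j).symm]
  · rw [Pi.single_eq_of_ne (Fin.succ_ne_zero i), zero_add, Fin.cons_succ]
    have h : ∀ j ∈ T, (Pi.single j.succ 1 : WS (Fin (d + 1))) i.succ = if i = j then 1 else 0 := by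
      intro j _
      rw [Pi.single_apply]
      simp only [Fin.succ_inj]
    rw [Finset.sum_congr rfl h, Finset.sum_ite_eq]

theorem FK_eq (d : ℕ) :
    HB.FK (fun j : Fin d => (Pi.single j.succ 1 : WS (Fin (d + 1)))) Finset.univ
      (Pi.single 0 1) = SL d := by
  unfold HB.FK SL Sv
  refine Finset.prod_nbij' (fun T => Fin.cons 1 fun j => if j ∈ T then 1 else 0)
    (fun w => Finset.univ.filter fun j => w (Fin.succ j) = 1) ?_ ?_ ?_ ?_ ?_
  · intro T _
    simp only [Finset.mem_filter, Finset.mem_univ, true_and, LinearMap.proj_apply, Fin.cons_zero]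
  · intro w _
    simp
  · intro T _
    ext j
    simp
  · intro w hw
    simp only [Finset.mem_filter, Finset.mem_univ, true_and, LinearMap.proj_apply] at hw
    funext x
    refine Fin.cases ?_ (fun i => ?_) x
    · rw [Fin.cons_zero, hw]
    · rw [Fin.cons_succ]
      simp only [Finset.mem_filter, Finset.mem_univ, true_and]
      generalize w i.succ = b
      revert b
      decide
  · intro T _
    rw [vec]
    rfl

end FKS

theorem t_FKS : Stmt_FKS := by
  intro d
  obtain ⟨c, -, h2, h3⟩ := HB.t_FKP (d + 1) d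
    (fun j : Fin d => (Pi.single j.succ 1 : WS (Fin (d + 1)))) Finset.univ
  rw [Finset.card_univ, Fintype.card_fin] at h2
  refine ⟨c, fun i => ?_, ?_⟩
  · have h4 := h3 i (Finset.mem_univ i)
    rw [h2, FKS.lf_single] at h4
    exact h4
  · rw [← FKS.FK_eq, h2, FKS.lf_single]

end HGP
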