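import Pool.Agent.HGP.Stmts

/-!
# Gap splitting for the hit problem: from one level to all larger ones (module FST)
-/

namespace HGP

open MvPolynomial

namespace FST

theorem exists_pow (B : ℤ) : ∃ a : ℕ, B < 2 ^ a := by
  refine ⟨B.toNat, ?_⟩
  have h1 : B ≤ (B.toNat : ℤ) := Int.self_le_toNat B
  have h2 : (B.toNat : ℤ) < 2 ^ B.toNat := by
    exact_mod_cast Nat.lt_two_pow_self
  exact lt_of_le_of_lt h1 h2

theorem pj_zero (hPB : P_PJB) {d : ℕ} {c : ℤ} {t k m n : ℕ}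
    (g : WS (Fin d) ≃ₗ[ZMod 2] WS (Fin k ⊕ Fin m)) (μ : PS (Fin m) →ₗ[ZMod 2] ZMod 2)
    (hμ : Ad c k m μ) {f : PS (Fin d)} (hf : f ∈ Hg (Fin d) n) (h : (k : ℤ) - c < 0) :
    pj t g μ f = 0 := by
  apply hPB.2.2.2.2 d c t k m n g μ hμ f hf
  intro n' r hr
  exfalso
  have h1 : (0 : ℤ) ≤ r := Int.natCast_nonneg r
  linarith

theorem split (hN : P_NNB) {C C' : ℕ} (k n : ℕ) :
    OG (Fin k) (JG C') n ≤ NN (Fin k) C ⊔ OG (Fin k) (JA C C') n := by
  rw [OG, Submodule.span_le]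
  rintro _ ⟨j, κ, n', f, hf, hJ, hn, rfl⟩
  rcases hJ with ⟨hj, i, hi, hκ⟩ | hκ
  · by_cases hiC : i < C
    · apply Submodule.mem_sup_left
      apply hN.2.2.2.2.2.2.2.1
      · rw [hκ]
        exact Nat.one_le_two_pow
      · rw [hκ]
        exact Nat.pow_lt_pow_right (by norm_num) hiC
    · apply Submodule.mem_sup_right
      exact Submodule.subset_span ⟨j, κ, n', f, hf, Or.inl ⟨hj, i, by omega, hi, hκ⟩, hn, rfl⟩
  · apply Submodule.mem_sup_right
    exact Submodule.subset_span ⟨j, κ, n', f, hf, Or.inr hκ, hn, rfl⟩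

theorem up_le (hN : P_NNB) {d C C' t : ℕ} (h : C + 1 ≤ C') :
    NN (Fin d) (C + t) ⊔ OH (Fin d) (JA C C') t ≤ NN (Fin d) (C' + t) := by
  apply sup_le
  · exact hN.2.1 _ _ _ (by omega)
  · rw [OH, Submodule.span_le]
    rintro _ ⟨j, κ, f, hJ, rfl⟩
    have key : ∀ i, i < C' → Os j (2 ^ t * 2 ^ i) f ∈ NN (Fin d) (C' + t) := by
      intro i hi
      rw [← pow_add]
      apply hN.2.2.2.2.2.2.2.1
      · exact Nat.one_le_two_pow
      · exact Nat.pow_lt_pow_right (by norm_num) (by omega)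
    rcases hJ with ⟨hj, i, _, hi, hκ⟩ | hκ
    · rw [hκ]
      exact key i hi
    · rw [hκ]
      exact key _ (by omega)

theorem shf (hQ : P_QZR) {d : ℕ} {c : ℤ} {t C : ℕ} {B : ℤ} (hb : (d : ℤ) - c < 2 ^ t)
    (hS : ∀ q, B < q → Sur d c t C q) {a e : ℕ} (ha : B < 2 ^ a) (he : a + 1 ≤ e) {q : ℤ}
    (hq : 1 ≤ q) : Shf d c t C (2 ^ e * q) (JA C (C + e)) := by
  have hB : B < 2 ^ (e - 1) :=
    lt_of_lt_of_le ha (pow_le_pow_right₀ (by norm_num) (by omega))
  have he2 : (2 : ℤ) ^ e = 2 * 2 ^ (e - 1) := by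
    rw [← pow_succ']
    congr 1
    omega
  have hp : (0 : ℤ) < 2 ^ (e - 1) := by positivity
  intro j κ hJ
  rcases hJ with ⟨hj, i, h1, h2, hκ⟩ | hκ
  · refine ⟨2 ^ (i - C), ?_, ?_⟩
    · rw [hj, hκ]
      push_cast
      rw [← pow_add]
      have h3 : C + (i - C) = i := by omega
      rw [h3]
      ring
    · apply hS
      have h3 : (2 : ℤ) ^ (i - C) ≤ 2 ^ (e - 1) := pow_le_pow_right₀ (by norm_num) (by omega)
      have h4 : (2 : ℤ) ^ e * 1 ≤ 2 ^ e * q := mul_le_mul_of_nonneg_left hq (by positivity)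
      rw [mul_one] at h4
      linarith
  · refine ⟨2 ^ (e - 1) * (2 ^ (j + 1) - 1), ?_, ?_⟩
    · rw [hκ]
      push_cast
      rw [← mul_assoc, ← pow_add]
      have h3 : C + (e - 1) = C + e - 1 := by omega
      rw [h3]
    · have h5 : (2 : ℤ) ^ e * q - 2 ^ (e - 1) * (2 ^ (j + 1) - 1) =
          2 ^ (e - 1) * (2 * (q - 2 ^ j) + 1) := by
        rw [he2, pow_succ 2 j]
        ring
      rw [h5]
      by_cases hw : q - 2 ^ j < 0
      · apply (hQ.1 d c t C _ hb _).2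
        have h6 : 2 * (q - 2 ^ j) + 1 ≤ 0 := by linarith
        exact mul_nonpos_of_nonneg_of_nonpos hp.le h6
      · apply hS
        rw [not_lt] at hw
        have h6 : (2 : ℤ) ^ (e - 1) * 1 ≤ 2 ^ (e - 1) * (2 * (q - 2 ^ j) + 1) :=
          mul_le_mul_of_nonneg_left (by linarith) hp.le
        rw [mul_one] at h6
        linarith

end FST

open FST in
/-- FST -/
theorem t_FST : Stmt_FST := by
  intro hO hN hG hPB hQ hD d c t C B hb hIS
  obtain ⟨a, ha⟩ := exists_pow B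
  refine ⟨C + (a + 1), ?_⟩
  intro C' hC' q
  obtain ⟨e, rfl⟩ := Nat.exists_eq_add_of_le (show C ≤ C' by omega)
  have he : a + 1 ≤ e := by omega
  rcases le_or_gt q 0 with hq | hq
  · exact hQ.1 d c t (C + e) q hb hq
  have hq1 : 1 ≤ q := hq
  have hqB : B < 2 ^ e * q := by
    have h1 : (2 : ℤ) ^ a ≤ 2 ^ e := pow_le_pow_right₀ (by norm_num) (by omega)
    have h4 : (2 : ℤ) ^ e * 1 ≤ 2 ^ e * q := mul_le_mul_of_nonneg_left hq1 (by positivity)
    rw [mul_one] at h4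
    linarith
  have hE1 : ∀ x : ℤ, (2 : ℤ) ^ (C + e + t) * q - x = 2 ^ (C + t) * (2 ^ e * q) - x := by
    intro x
    rw [pow_add, pow_add, pow_add]
    ring
  have hE2 : ∀ x : ℤ, (2 : ℤ) ^ (C + e) * q - x = 2 ^ C * (2 ^ e * q) - x := by
    intro x
    rw [pow_add]
    ring
  constructor
  · intro n hn f hf hKK
    rw [hE1] at hn
    have hShf := shf hQ hb (fun q' hq' => (hIS q' hq').2) ha he hq1
    have h1 := hD d c t C (2 ^ e * q) (JA C (C + e)) hb (hIS _ hqB).1 hShf n f hn hf ?_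
    · exact up_le hN (by omega) h1
    · intro k m n' g μ hμ hn'
      have h2 : pj t g μ f ∈ NN (Fin k) (C + e) := hKK k m g μ hμ
      by_cases hk : (k : ℤ) - c < 0
      · rw [pj_zero hPB g μ hμ hf hk]
        exact Submodule.zero_mem _
      · rw [not_lt] at hk
        obtain ⟨r, hr⟩ := Int.eq_ofNat_of_zero_le hk
        have h3 : n + k = 2 ^ t * (n' + k) + r := by
          have h4 : ((n + k : ℕ) : ℤ) = ((2 ^ t * (n' + k) + r : ℕ) : ℤ) := by
            push_cast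
            rw [hn, hn', pow_add]
            have h5 : (r : ℤ) = k - c := hr.symm
            rw [h5]
            ring
          exact_mod_cast h4
        have h4 : pj t g μ f ∈ Hg (Fin k) n' :=
          hPB.2.2.2.1 d c t k m n n' r g μ hμ f hf hr.symm h3
        exact split hN k n' (hG (Fin k) (C + e) n' _ (by omega) h4 h2)
  · intro n k m n' r g hn hn' hr u hu ν hν
    rw [hE1] at hn
    rw [hE2] at hn'
    obtain ⟨f, h1, h2, h3⟩ := (hIS _ hqB).2 n k m n' r g hn hn' hr u hu ν hν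
    refine ⟨f, h1, ?_, ?_⟩
    · intro μ hμ
      exact hN.2.1 _ _ _ (by omega) (h2 μ hμ)
    · intro k' m' g' μ' hμ' hne
      exact hN.2.1 _ _ _ (by omega) (h3 k' m' g' μ' hμ' hne)

end HGP
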