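import Pool.Agent.HGP.Stmts
import Pool.Agent.HB.ARI

/-!
# Gap splitting for the hit problem: arithmetic of the gaps (module GAP)
-/

namespace HGP

namespace GAP

theorem al_pow_mul (f y : ℕ) : HB.al (2 ^ f * y) = HB.al y := by
  induction f with
  | zero => rw [pow_zero, one_mul]
  | succ f ih => rw [pow_succ', mul_assoc, HB.ARI.al_two_mul, ih]

theorem split (T₀ N : ℕ) (h : ¬ 2 ^ (T₀ + 1) ∣ N) :
    ∃ f N' : ℕ, f ≤ T₀ ∧ N = N' + 2 ^ f ∧ HB.al N = HB.al N' + 1 := by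
  have hN : N ≠ 0 := by
    rintro rfl
    exact h (dvd_zero _)
  obtain ⟨f, m, ⟨y, rfl⟩, rfl⟩ := Nat.exists_eq_two_pow_mul_odd hN
  refine ⟨f, 2 ^ f * (2 * y), ?_, by ring, ?_⟩
  · by_contra hf
    push Not at hf
    exact h (Dvd.dvd.mul_right (pow_dvd_pow 2 hf) _)
  · rw [al_pow_mul, al_pow_mul, HB.ARI.al_two_mul_add_one, HB.ARI.al_two_mul]

end GAP

/-- GAP -/
theorem t_GAP : Stmt_GAP := by
  intro D
  induction D with
  | zero =>
    intro R T
    let T₀ : ℕ := (Finset.Icc (-(R : ℤ)) R).sup T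
    refine ⟨max R (T₀ + 1), ?_⟩
    rintro x ⟨r, N, hr, hx, hN⟩
    have hc : T r ≤ T₀ := Finset.le_sup (Finset.mem_Icc.2 (abs_le.1 hr))
    by_cases hd : 2 ^ (T₀ + 1) ∣ N
    · refine ⟨r, T₀ + 1, hr.trans (by exact_mod_cast le_max_left _ _), by omega,
        le_max_right _ _, ?_⟩
      rw [hx]
      exact_mod_cast hd
    · obtain ⟨f, N', -, -, h⟩ := GAP.split T₀ N hd
      omega
  | succ D ih =>
    intro R T
    let T₀ : ℕ := (Finset.Icc (-(R : ℤ)) R).sup T
    obtain ⟨K, hK⟩ := ih (R + 2 ^ T₀) T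
    refine ⟨max K (max R (T₀ + 1)), ?_⟩
    rintro x ⟨r, N, hr, hx, hN⟩
    have hc : T r ≤ T₀ := Finset.le_sup (Finset.mem_Icc.2 (abs_le.1 hr))
    by_cases hd : 2 ^ (T₀ + 1) ∣ N
    · refine ⟨r, T₀ + 1, hr.trans ?_, by omega, (le_max_right _ _).trans (le_max_right _ _), ?_⟩
      · exact_mod_cast (le_max_left _ _).trans (le_max_right _ _)
      · rw [hx]
        exact_mod_cast hd
    · obtain ⟨f, N', hf, hN', h⟩ := GAP.split T₀ N hd
      obtain ⟨c, t, h1, h2, h3, h4⟩ := hK x ⟨r - 2 ^ f, N', by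
        have h5 : (2 : ℤ) ^ f ≤ 2 ^ T₀ := pow_le_pow_right₀ (by norm_num) hf
        have h6 : (0 : ℤ) < 2 ^ f := by positivity
        have h7 := abs_le.1 hr
        push_cast
        rw [abs_le]
        constructor <;> linarith [h7.1, h7.2], by
        rw [hN'] at hx
        push_cast at hx
        linarith, by omega⟩
      refine ⟨c, t, h1.trans ?_, h2, h3.trans (le_max_left _ _), h4⟩
      exact_mod_cast le_max_left _ _

end HGP
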