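import Pool.Agent.HGP.Stmts

/-!
# Gap splitting for the hit problem: generators
-/

namespace HGP

open MvPolynomial

namespace GEN

theorem wt_add (α β : ℕ →₀ ℕ) : wt (α + β) = wt α + wt β := by
  unfold wt
  refine Finsupp.sum_add_index' (fun i => ?_) (fun i a b => ?_)
  · rw [zero_mul]
  · rw [add_mul]

theorem wt_single (j a : ℕ) : wt (Finsupp.single j a) = a * (2 ^ (j + 1) - 1) := by
  unfold wt
  refine Finsupp.sum_single_index ?_
  rw [zero_mul]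

theorem two_pow_sub_pos (j : ℕ) : 0 < 2 ^ (j + 1) - 1 := by
  have h : 2 ^ 1 ≤ 2 ^ (j + 1) := Nat.pow_le_pow_right (by norm_num) (by omega)
  omega

theorem wt_pos {α : ℕ →₀ ℕ} (h : α ≠ 0) : 0 < wt α := by
  obtain ⟨j, hj⟩ := Finsupp.ne_iff.1 h
  rw [Finsupp.coe_zero, Pi.zero_apply] at hj
  have hle : Finsupp.single j (α j) ≤ α := by
    rw [Finsupp.single_le_iff]
  have e : α = (α - Finsupp.single j (α j)) + Finsupp.single j (α j) :=
    (tsub_add_cancel_of_le hle).symm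
  rw [e, wt_add, wt_single]
  have h1 : 0 < α j * (2 ^ (j + 1) - 1) := Nat.mul_pos (Nat.pos_of_ne_zero hj) (two_pow_sub_pos j)
  omega

/-- The statement for the exponents `α` with the property `P`. -/
def Gd (σ : Type) (t : ℕ) (P : (ℕ →₀ ℕ) → Prop) : Prop :=
  ∀ α, P α → (∀ j, α j < 2 ^ t) → ∀ (n' m : ℕ) (f : PS σ), f ∈ Hg σ n' →
    Mp m α f ∈ OG σ (JG t) (n' + wt α)

section

variable {σ : Type} {t : ℕ}

/-- The elements of `ND`. -/
theorem nd_mem {e D : ℕ} (hP : Gd σ t (fun α => wt α = D ∧ ∃ i, ¬ 2 ^ e ∣ α i)) {n' : ℕ}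
    {f : PS σ} (hf : f ∈ Hg σ n') {g : PS σ} (hg : g ∈ ND t e D f) :
    g ∈ OG σ (JG t) (n' + D) := by
  refine Submodule.span_le.2 ?_ hg
  rintro _ ⟨m, ρ, hρ, hs, hi, rfl⟩
  have h := hP ρ ⟨hρ, hi⟩ hs n' m f hf
  rwa [hρ] at h

/-- Case 1. -/
theorem case1 (h1 : P_OPB) (h3 : P_CO1) {e D : ℕ}
    (hD : Gd σ t (fun α => α ≠ 0 ∧ wt α < D))
    (hP : Gd σ t (fun α => wt α = D ∧ ∃ i, ¬ 2 ^ e ∣ α i)) (j m : ℕ) (δ : ℕ →₀ ℕ)
    (hδ : ¬ 2 ∣ δ j) (hne : δ ≠ Finsupp.single j 1) (hs : ∀ i, (2 ^ e • δ) i < 2 ^ t)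
    (hm : ∀ i, δ i ≠ 0 → i < m) (hw : wt (2 ^ e • δ) = D) {n' : ℕ} {f : PS σ}
    (hf : f ∈ Hg σ n') : Mp m (2 ^ e • δ) f ∈ OG σ (JG t) (n' + D) := by
  obtain ⟨-, -, o3, -, -, -, o7, -⟩ := h1
  have hδ0 : 1 ≤ δ j := by
    rcases Nat.eq_zero_or_pos (δ j) with h | h
    · exact absurd (by rw [h]; exact dvd_zero 2) hδ
    · exact h
  have hle : Finsupp.single j (2 ^ e) ≤ 2 ^ e • δ := by
    rw [Finsupp.single_le_iff, Finsupp.smul_apply, smul_eq_mul]
    exact Nat.le_mul_of_pos_right _ hδ0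
  set β : ℕ →₀ ℕ := 2 ^ e • δ - Finsupp.single j (2 ^ e) with hβ
  have hsum : β + Finsupp.single j (2 ^ e) = 2 ^ e • δ := tsub_add_cancel_of_le hle
  have hwt : wt β + wt (Finsupp.single j (2 ^ e)) = D := by
    rw [← wt_add, hsum, hw]
  have hβ0 : β ≠ 0 := by
    intro h
    apply hne
    rw [h, zero_add] at hsum
    ext i
    have h2 := DFunLike.congr_fun hsum i
    rw [Finsupp.smul_apply, smul_eq_mul] at h2
    by_cases hij : i = j
    · subst hij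
      rw [Finsupp.single_eq_same] at h2 ⊢
      have h4 : 0 < 2 ^ e := by positivity
      exact Nat.eq_of_mul_eq_mul_left h4 (by rw [← h2, mul_one])
    · rw [Finsupp.single_eq_of_ne hij] at h2 ⊢
      have h4 : 0 < 2 ^ e := by positivity
      exact (Nat.mul_eq_zero.1 h2.symm).resolve_left (by omega)
  have hco := h3 σ t e m j δ f hδ hm hs
  rw [hw] at hco
  have a1 := nd_mem hP hf hco
  have a2 : Mp (j + 1) (Finsupp.single j (2 ^ e)) (Mp m β f) ∈
      OG σ (JG t) ((n' + wt β) + wt (Finsupp.single j (2 ^ e))) := by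
    refine hD _ ⟨?_, ?_⟩ ?_ _ _ _ (o3 σ m β n' f hf)
    · rw [Ne, Finsupp.single_eq_zero]
      positivity
    · have := wt_pos hβ0
      omega
    · intro i
      exact lt_of_le_of_lt (hle i) (hs i)
  rw [o7 σ (j + 1) j (2 ^ e) (Mp m β f) (Nat.lt_succ_self j), add_assoc, hwt] at a2
  have e1 : Mp m (2 ^ e • δ) f = Os j (2 ^ e) (Mp m β f) -
      (Os j (2 ^ e) (Mp m β f) - Mp m (2 ^ e • δ) f) := by
    rw [sub_sub_cancel]
  rw [e1]
  exact Submodule.sub_mem _ a2 a1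

/-- The step from `e` to `e + 1`. -/
theorem estep (h1 : P_OPB) (h2 : P_NNB) (h3 : P_CO1) (h4 : P_CO2) {e D : ℕ} (he : e < t)
    (hD : Gd σ t (fun α => α ≠ 0 ∧ wt α < D))
    (hP : Gd σ t (fun α => wt α = D ∧ ∃ i, ¬ 2 ^ e ∣ α i)) :
    Gd σ t (fun α => wt α = D ∧ ∃ i, ¬ 2 ^ (e + 1) ∣ α i) := by
  rintro α ⟨hw, j, hj⟩ hs n' m f hf
  by_cases hdiv : ∃ i, ¬ 2 ^ e ∣ α i
  · exact hP α ⟨hw, hdiv⟩ hs n' m f hf
  push Not at hdiv
  -- write `α = 2 ^ e • δ`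
  obtain ⟨δ, rfl⟩ : ∃ δ : ℕ →₀ ℕ, α = 2 ^ e • δ := by
    refine ⟨α.mapRange (fun a => a / 2 ^ e) (Nat.zero_div _), ?_⟩
    ext i
    rw [Finsupp.smul_apply, smul_eq_mul, Finsupp.mapRange_apply, Nat.mul_div_cancel' (hdiv i)]
  have hδj : ¬ 2 ∣ δ j := by
    intro h
    apply hj
    rw [Finsupp.smul_apply, smul_eq_mul, pow_succ]
    exact Nat.mul_dvd_mul_left _ h
  have h2e : 0 < 2 ^ e := by positivity
  by_cases hm : ∀ i, δ i ≠ 0 → i < m
  swap
  · have h5 : Mp m (2 ^ e • δ) f = 0 := by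
      refine h1.2.2.2.1 σ m (2 ^ e • δ) f fun h => hm fun i hi => h i ?_
      rw [Finsupp.smul_apply, smul_eq_mul]
      exact Nat.mul_ne_zero (by omega) hi
    rw [h5]
    exact Submodule.zero_mem _
  by_cases hne : δ = Finsupp.single j 1
  swap
  · rw [hw]
    exact case1 h1 h3 hD hP j m δ hδj hne hs hm hw hf
  -- Case 2
  have hjm : j < m := hm j (by rw [hne, Finsupp.single_eq_same]; exact one_ne_zero)
  have hα : 2 ^ e • δ = Finsupp.single j (2 ^ e) := by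
    rw [hne, Finsupp.smul_single, smul_eq_mul, mul_one]
  have hDv : 2 ^ e * (2 ^ (j + 1) - 1) = D := by
    rw [← hw, hα, wt_single]
  rw [hw, hα, h1.2.2.2.2.2.2.1 σ m j (2 ^ e) f hjm]
  by_cases hj0 : j = 0
  · subst hj0
    exact Submodule.subset_span ⟨0, 2 ^ e, n', f, hf, Or.inl ⟨rfl, e, he, rfl⟩,
      by rw [hDv], rfl⟩
  by_cases het : e = t - 1
  · exact Submodule.subset_span ⟨j, 2 ^ e, n', f, hf, Or.inr (by rw [het]), by rw [hDv], rfl⟩
  obtain ⟨i, rfl⟩ : ∃ i, j = i + 1 := ⟨j - 1, by omega⟩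
  have he2 : e + 2 ≤ t := by omega
  have hpow : 2 ^ e * 4 ≤ 2 ^ t := by
    have h6 : 2 ^ (e + 2) ≤ 2 ^ t := Nat.pow_le_pow_right (by norm_num) he2
    rw [pow_add] at h6
    omega
  have hgeo : 1 ≤ 2 ^ (i + 1) := Nat.one_le_two_pow
  have hDv' : 2 ^ e * (2 ^ (i + 2) - 1) = D := hDv
  have hco := h4 σ t e i f he2
  rw [hDv'] at hco
  have a1 := nd_mem hP hf hco
  -- the first term
  have b1 : 2 ^ e + 2 ^ (e + 1) * (2 ^ (i + 1) - 1) = D := by
    rw [← hDv', pow_succ 2 e, pow_succ 2 (i + 1)]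
    obtain ⟨a, ha⟩ : ∃ a, 2 ^ (i + 1) = a + 1 := ⟨2 ^ (i + 1) - 1, by omega⟩
    rw [ha]
    have e5 : (a + 1) * 2 - 1 = 2 * a + 1 := by omega
    rw [e5, Nat.add_sub_cancel]
    ring
  have hh : Os 0 (2 ^ e) f ∈ Hg σ (n' + 2 ^ e) := by
    have h7 := h2.2.2.2.2.2.2.2.2.1 σ 0 (2 ^ e) n' f hf
    have e6 : 2 ^ e * (2 ^ (0 + 1) - 1) = 2 ^ e := by norm_num
    rwa [e6] at h7
  have a2 : Mp (i + 1) (Finsupp.single i (2 ^ (e + 1))) (Os 0 (2 ^ e) f) ∈
      OG σ (JG t) ((n' + 2 ^ e) + wt (Finsupp.single i (2 ^ (e + 1)))) := by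
    refine hD _ ⟨?_, ?_⟩ ?_ _ _ _ hh
    · rw [Ne, Finsupp.single_eq_zero]
      positivity
    · rw [wt_single]
      omega
    · intro l
      by_cases hl : l = i
      · subst hl
        rw [Finsupp.single_eq_same, pow_succ]
        omega
      · rw [Finsupp.single_eq_of_ne hl]
        positivity
  rw [h1.2.2.2.2.2.2.1 σ (i + 1) i (2 ^ (e + 1)) _ (Nat.lt_succ_self i), wt_single, add_assoc,
    b1] at a2
  -- the second term
  have c0 : (Finsupp.single i 2 + Finsupp.single 0 1 : ℕ →₀ ℕ) 0 = 1 ∨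
      (Finsupp.single i 2 + Finsupp.single 0 1 : ℕ →₀ ℕ) 0 = 3 := by
    rw [Finsupp.add_apply, Finsupp.single_eq_same]
    by_cases hi : i = 0
    · subst hi
      right
      rw [Finsupp.single_eq_same]
    · left
      rw [Finsupp.single_eq_of_ne (fun h => hi h.symm)]
  have a3 : Mp (i + 2) (2 ^ e • (Finsupp.single i 2 + Finsupp.single 0 1)) f ∈
      OG σ (JG t) (n' + D) := by
    refine case1 h1 h3 hD hP 0 (i + 2) _ ?_ ?_ ?_ ?_ ?_ hf
    · rcases c0 with h | h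
      · rw [h]; norm_num
      · rw [h]; norm_num
    · intro h
      have h8 := DFunLike.congr_fun h i
      rw [Finsupp.add_apply, Finsupp.single_eq_same] at h8
      omega
    · intro l
      rw [Finsupp.smul_apply, smul_eq_mul]
      have h9 : (Finsupp.single i 2 + Finsupp.single 0 1 : ℕ →₀ ℕ) l ≤ 3 := by
        rw [Finsupp.add_apply, Finsupp.single_apply, Finsupp.single_apply]
        split_ifs <;> omega
      calc 2 ^ e * (Finsupp.single i 2 + Finsupp.single 0 1 : ℕ →₀ ℕ) l ≤ 2 ^ e * 3 :=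
            Nat.mul_le_mul_left _ h9
        _ < 2 ^ t := by omega
    · intro l hl
      by_contra hcon
      apply hl
      rw [Finsupp.add_apply, Finsupp.single_eq_of_ne (by omega),
        Finsupp.single_eq_of_ne (by omega), add_zero]
    · rw [smul_add, Finsupp.smul_single, Finsupp.smul_single, wt_add, wt_single, wt_single,
        ← b1, smul_eq_mul, smul_eq_mul, pow_succ 2 e]
      norm_num
      ring
  have e9 : Os (i + 1) (2 ^ e) f = Os i (2 ^ (e + 1)) (Os 0 (2 ^ e) f) -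
      Mp (i + 2) (2 ^ e • (Finsupp.single i 2 + Finsupp.single 0 1)) f -
      (Os i (2 ^ (e + 1)) (Os 0 (2 ^ e) f) - Os (i + 1) (2 ^ e) f -
        Mp (i + 2) (2 ^ e • (Finsupp.single i 2 + Finsupp.single 0 1)) f) := by
    abel
  rw [e9]
  exact Submodule.sub_mem _ (Submodule.sub_mem _ a2 a3) a1

theorem main (h1 : P_OPB) (h2 : P_NNB) (h3 : P_CO1) (h4 : P_CO2) (D : ℕ) :
    Gd σ t (fun α => α ≠ 0 ∧ wt α = D) := by
  induction D using Nat.strong_induction_on with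
  | _ D ih =>
    have hD : Gd σ t (fun α => α ≠ 0 ∧ wt α < D) := by
      rintro α ⟨h0, hw⟩ hs n' m f hf
      exact ih (wt α) hw α ⟨h0, rfl⟩ hs n' m f hf
    have hE : ∀ e, e ≤ t → Gd σ t (fun α => wt α = D ∧ ∃ i, ¬ 2 ^ e ∣ α i) := by
      intro e
      induction e with
      | zero =>
        rintro - α ⟨-, i, hi⟩
        exact absurd (by rw [pow_zero]; exact one_dvd _) hi
      | succ e ihe =>
        intro he
        exact estep h1 h2 h3 h4 he hD (ihe (by omega))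
    rintro α ⟨h0, hw⟩ hs n' m f hf
    refine hE t le_rfl α ⟨hw, ?_⟩ hs n' m f hf
    obtain ⟨j, hj⟩ := Finsupp.ne_iff.1 h0
    exact ⟨j, fun h => hj (Nat.eq_zero_of_dvd_of_lt h (hs j))⟩

end

end GEN

/-- Generators. -/
theorem t_GEN : Stmt_GEN := by
  intro h1 h2 h3 h4 σ t n f _ hf hN
  have h5 := h2.2.2.2.2.1 σ t n f hf hN
  refine Submodule.span_le.2 ?_ h5
  rintro _ ⟨m, α, n', g, hg, h0, hs, hn, rfl⟩
  have h6 := GEN.main (σ := σ) (t := t) h1 h2 h3 h4 (wt α) α ⟨h0, rfl⟩ hs n' m g hg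
  rwa [hn] at h6

end HGP
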