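import Pool.Agent.HGP.Stmts
import Pool.Agent.Lib_helper74.Hit.Dim

/-!
# Gap splitting for the hit problem: the formula
-/

namespace HGP

open MvPolynomial
open Pool.Agent.Lib_helper74.Hit (hits qd hitsDeg qd_add finrank_homog pdim)

namespace GSP

theorem qz_neg (d : ℕ) {z : ℤ} (hz : z < 0) : qz d z = 0 := by
  unfold qz
  rw [if_neg (by omega)]

theorem qz_nat (d n : ℕ) {z : ℤ} (hz : (n : ℤ) = z) : qz d z = qd (Fin d) n := by
  unfold qz
  rw [if_pos (by omega), ← hz, Int.toNat_natCast]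

theorem qd_zero_zero : qd (Fin 0) 0 = 1 := by
  have h1 := qd_add (σ := Fin 0) 0
  have h2 : Pool.Agent.Lib_helper74.Hit.hitsDeg (Fin 0) 0 = ⊥ := by
    unfold Pool.Agent.Lib_helper74.Hit.hitsDeg
    rw [Submodule.span_eq_bot]
    rintro x ⟨k, f, hk, hk0, -⟩
    omega
  rw [h2, finrank_bot, add_zero, finrank_homog] at h1
  rw [h1]
  rfl

theorem nsub_zero (d : ℕ) : nsub d 0 = 1 := by
  unfold nsub
  rw [Nat.card_eq_one_iff_unique]
  refine ⟨⟨fun a b => ?_⟩, ⟨⟨⊥, finrank_bot _ _⟩⟩⟩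
  have ha := Submodule.finrank_eq_zero.1 a.2
  have hb := Submodule.finrank_eq_zero.1 b.2
  exact Subtype.ext (ha.trans hb.symm)

/-- The sum `RH` for `c = d`. -/
theorem RH_self (k C : ℕ) (q : ℤ) : RH k k C q = qz k (2 ^ C * q - k) := by
  unfold RH
  rw [Finset.sum_eq_single 0]
  · rw [nsub_zero, one_mul, Nat.sub_zero, sub_self, qz_nat 0 0 (z := 0) (by norm_num), qd_zero_zero, mul_one]
  · intro m hm hm0
    have hm' := Finset.mem_range.1 hm
    rw [qz_neg m (by omega), mul_zero, mul_zero]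
  · intro h
    exact absurd (Finset.mem_range.2 (by omega)) h

/-- Stability, one step. -/
theorem stab1 (hM : P_MAI) (hC : P_CNT) (k : ℕ) : ∃ C₀ : ℕ, ∀ C, C₀ ≤ C → ∀ q : ℤ,
    qz k (2 ^ (C + 1) * q - k) = qz k (2 ^ C * q - k) := by
  have hk : (k : ℤ) - k < 2 ^ 1 := by norm_num
  obtain ⟨C₀, h0⟩ := hM k k 1 hk
  refine ⟨C₀, fun C hCC q => ?_⟩
  by_cases hn : 0 ≤ 2 ^ (C + 1) * q - (k : ℤ)
  · obtain ⟨n, hn'⟩ := Int.eq_ofNat_of_zero_le hn
    have h1 := hC k k 1 C hk (h0 C hCC) q n hn'.symm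
    rw [qz_nat k n hn'.symm, h1, RH_self]
  · push Not at hn
    rw [qz_neg k hn, qz_neg k]
    have h2 : (0 : ℤ) < 2 ^ C := by positivity
    rw [pow_succ] at hn
    rcases le_or_gt q 0 with hq | hq
    · have h3 : (2 : ℤ) ^ C * q ≤ 0 := mul_nonpos_of_nonneg_of_nonpos h2.le hq
      rcases Nat.eq_zero_or_pos k with hk0 | hk0
      · subst hk0
        have h4 : (2 : ℤ) ^ C * 2 * q = 2 * (2 ^ C * q) := by ring
        rw [h4] at hn
        omega
      · omega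
    · have h3 : (0 : ℤ) < 2 ^ C * q := mul_pos h2 hq
      have h4 : (2 : ℤ) ^ C * 2 * q = 2 * (2 ^ C * q) := by ring
      rw [h4] at hn
      omega

/-- Stability. -/
theorem stab (hM : P_MAI) (hC : P_CNT) (k : ℕ) : ∃ C₀ : ℕ, ∀ C, C₀ ≤ C → ∀ q : ℤ,
    qz k (2 ^ C * q - k) = qz k (2 ^ C₀ * q - k) := by
  obtain ⟨C₀, h0⟩ := stab1 hM hC k
  refine ⟨C₀, fun C hCC q => ?_⟩
  induction C, hCC using Nat.le_induction with
  | base => rfl
  | succ C hCC ih => rw [h0 C hCC, ih]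

theorem stab_all (hM : P_MAI) (hC : P_CNT) (d : ℕ) : ∃ S : ℕ, ∀ k, k ≤ d → ∀ C C', S ≤ C →
    S ≤ C' → ∀ q : ℤ, qz k (2 ^ C * q - k) = qz k (2 ^ C' * q - k) := by
  choose F hF using stab hM hC
  refine ⟨∑ k ∈ Finset.range (d + 1), F k, fun k hk C C' h1 h2 q => ?_⟩
  have h3 : F k ≤ ∑ k ∈ Finset.range (d + 1), F k :=
    Finset.single_le_sum (f := F) (fun _ _ => Nat.zero_le _) (Finset.mem_range.2 (by omega))
  rw [hF k C (h3.trans h1), hF k C' (h3.trans h2)]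

theorem RH_stab {d S : ℕ} (hS : ∀ k, k ≤ d → ∀ C C', S ≤ C → S ≤ C' → ∀ q : ℤ,
    qz k (2 ^ C * q - k) = qz k (2 ^ C' * q - k)) (c : ℤ) {C C' : ℕ} (h1 : S ≤ C)
    (h2 : S ≤ C') (q : ℤ) : RH d c C q = RH d c C' q := by
  unfold RH
  refine Finset.sum_congr rfl fun m _ => ?_
  rw [hS (d - m) (Nat.sub_le _ _) C C' h1 h2 q]

theorem RH_neg (d : ℕ) (c : ℤ) (C : ℕ) {q : ℤ} (hq : q ≤ 0) (hc : q = 0 → 0 < c) :
    RH d c C q = 0 := by
  unfold RH
  refine Finset.sum_eq_zero fun m hm => ?_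
  have hm' := Finset.mem_range.1 hm
  have h2 : (0 : ℤ) < 2 ^ C := by positivity
  rcases lt_or_eq_of_le hq with h | h
  · have h3 : (2 : ℤ) ^ C * q < 0 := mul_neg_of_pos_of_neg h2 h
    rw [qz_neg (d - m) (by omega), zero_mul, mul_zero]
  · have h4 := hc h
    subst h
    rcases Nat.lt_or_ge m d with h5 | h5
    · rw [qz_neg (d - m) (by rw [mul_zero]; omega), zero_mul, mul_zero]
    · rw [qz_neg m (by omega), mul_zero, mul_zero]

end GSP

/-- The formula. -/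
theorem t_GSP : Stmt_GSP := by
  intro hM hC d c
  obtain ⟨S, hS⟩ := GSP.stab_all hM hC d
  obtain ⟨t₀, ht₀⟩ : ∃ t₀ : ℕ, (d : ℤ) - c < 2 ^ t₀ := by
    refine ⟨((d : ℤ) - c).toNat, ?_⟩
    have h1 : ((d : ℤ) - c).toNat < 2 ^ ((d : ℤ) - c).toNat := Nat.lt_two_pow_self
    have h2 : (d : ℤ) - c ≤ (((d : ℤ) - c).toNat : ℤ) := Int.self_le_toNat _
    have h3 : ((((d : ℤ) - c).toNat : ℕ) : ℤ) < ((2 ^ ((d : ℤ) - c).toNat : ℕ) : ℤ) := by
      exact_mod_cast h1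
    push_cast at h3 ⊢
    omega
  obtain ⟨C₀, hC₀⟩ := hM d c t₀ ht₀
  refine ⟨C₀ + S + t₀ + c.natAbs, fun t C ht hCT q => ?_⟩
  have hcl : |c| < 2 ^ t := by
    have h1 : c.natAbs < 2 ^ c.natAbs := Nat.lt_two_pow_self
    have h2 : 2 ^ c.natAbs ≤ 2 ^ t := Nat.pow_le_pow_right (by norm_num) (by omega)
    have h3 : (c.natAbs : ℤ) < ((2 ^ t : ℕ) : ℤ) := by exact_mod_cast h1.trans_le h2
    rw [Int.natCast_natAbs] at h3
    push_cast at h3
    exact h3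
  by_cases hn : 0 ≤ 2 ^ t * q - c
  · obtain ⟨n, hn'⟩ := Int.eq_ofNat_of_zero_le hn
    obtain ⟨C₁, hC₁⟩ : ∃ C₁, t = C₁ + t₀ := ⟨t - t₀, by omega⟩
    have h1 := hC d c t₀ C₁ ht₀ (hC₀ C₁ (by omega)) q n (by rw [← hC₁]; exact hn'.symm)
    rw [GSP.qz_nat d n hn'.symm, h1]
    exact GSP.RH_stab hS c (by omega) (by omega) q
  · push Not at hn
    rw [GSP.qz_neg d hn]
    have h2 : (0 : ℤ) < 2 ^ t := by positivity
    have hq : q ≤ 0 := by
      by_contra hq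
      push Not at hq
      have h3 : (2 : ℤ) ^ t * 1 ≤ 2 ^ t * q := mul_le_mul_of_nonneg_left (by omega) h2.le
      have h4 := le_abs_self c
      rw [mul_one] at h3
      omega
    refine (GSP.RH_neg d c C hq fun h => ?_).symm
    subst h
    rw [mul_zero] at hn
    omega

end HGP
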