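import Pool.Agent.HGP.Stmts

/-!
# HTS: the hits
-/

set_option autoImplicit false

namespace HGP

open MvPolynomial
open Pool.Agent.Lib_helper74.Hit (hits qd up cf Sq hitsDeg mem_hitsDeg)

namespace HTS

variable {σ : Type}

theorem one_le_pow (j : ℕ) : 1 ≤ 2 ^ (j + 1) - 1 := by
  have h : 2 ^ 1 ≤ 2 ^ (j + 1) := Nat.pow_le_pow_right (by norm_num) (by omega)
  omega

/-- A homogeneous element of `NN σ T`, with `T` large, is a sum of squares of exponents `2 ^ i`. -/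
theorem toJS (hGEN : P_GEN) (T n : ℕ) (f : PS σ) (hT : 1 ≤ T) (hn : n < 2 ^ (T - 1))
    (hf : f ∈ Hg σ n) (hN : f ∈ NN σ T) : f ∈ OG σ (JS 0) n := by
  have h1 := hGEN σ T n f hT hf hN
  refine Submodule.span_mono ?_ h1
  rintro g ⟨j, κ, n', h, hh, hJ, hd, rfl⟩
  refine ⟨j, κ, n', h, hh, ?_, hd, rfl⟩
  rcases hJ with ⟨hj, i, -, hi⟩ | hκ
  · exact ⟨hj, i, Nat.zero_le _, hi⟩
  · exfalso
    subst hκ
    have h2 : 2 ^ (T - 1) * 1 ≤ 2 ^ (T - 1) * (2 ^ (j + 1) - 1) :=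
      Nat.mul_le_mul_left _ (one_le_pow j)
    omega

theorem JS_le_hits (hOPB : P_OPB) (n : ℕ) : OG σ (JS 0) n ≤ hits σ := by
  obtain ⟨-, -, -, -, -, -, -, hSq, -⟩ := hOPB
  rw [OG, Submodule.span_le]
  rintro g ⟨j, κ, n', h, hh, ⟨rfl, i, -, rfl⟩, hd, rfl⟩
  rw [hSq]
  exact Submodule.subset_span ⟨2 ^ i, h, Nat.one_le_two_pow, rfl⟩

theorem JS_le (hNNB : P_NNB) (t n : ℕ) : OG σ (JS 0) n ≤ NN σ t ⊔ OG σ (JS t) n := by
  obtain ⟨-, -, -, -, -, -, -, hOs, -⟩ := hNNB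
  rw [OG, Submodule.span_le]
  rintro g ⟨j, κ, n', h, hh, ⟨rfl, i, -, rfl⟩, hd, rfl⟩
  by_cases hi : i < t
  · refine Submodule.mem_sup_left (hOs σ t 0 (2 ^ i) h Nat.one_le_two_pow ?_)
    exact Nat.pow_lt_pow_right (by norm_num) hi
  · refine Submodule.mem_sup_right (Submodule.subset_span ?_)
    exact ⟨0, 2 ^ i, n', h, hh, ⟨rfl, i, not_lt.1 hi, rfl⟩, hd, rfl⟩

theorem JS_bot (t n : ℕ) (hn : n < 2 ^ t) : OG σ (JS t) n = ⊥ := by
  rw [OG, Submodule.span_eq_bot]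
  rintro g ⟨j, κ, n', h, hh, ⟨rfl, i, hi, rfl⟩, hd, rfl⟩
  exfalso
  have h1 : 2 ^ t ≤ 2 ^ i := Nat.pow_le_pow_right (by norm_num) hi
  have h2 : 2 ^ i * (2 ^ (0 + 1) - 1) = 2 ^ i := by norm_num
  omega

theorem le_sup (α : ℕ →₀ ℕ) (j : ℕ) : α j ≤ α.support.sup α := by
  by_cases h : j ∈ α.support
  · exact Finset.le_sup (f := α) h
  · rw [Finsupp.notMem_support_iff.1 h]
    exact Nat.zero_le _

theorem Mp_mem (hOPB : P_OPB) (hGEN : P_GEN) (m : ℕ) (α : ℕ →₀ ℕ) (n' : ℕ) (f : PS σ)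
    (hf : f ∈ Hg σ n') (hα : α ≠ 0) : Mp m α f ∈ hits σ := by
  set n := n' + wt α with hn
  set T := n + α.support.sup α + 1 with hT
  have hdeg : Mp m α f ∈ Hg σ n := hOPB.2.2.1 σ m α n' f hf
  have hN : Mp m α f ∈ NN σ T := by
    refine Submodule.subset_span ⟨m, α, f, hα, fun j => ?_, rfl⟩
    calc α j ≤ α.support.sup α := le_sup α j
      _ ≤ T := by omega
      _ < 2 ^ T := Nat.lt_two_pow_self
  refine JS_le_hits hOPB n (toJS hGEN T n _ (by omega) ?_ hdeg hN)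
  calc n ≤ T - 1 := by omega
    _ < 2 ^ (T - 1) := Nat.lt_two_pow_self

end HTS

theorem t_HTS : Stmt_HTS := by
  intro hOPB hNNB hGEN
  have h2 : ∀ (σ : Type) (t n : ℕ) (f : PS σ), f ∈ Hg σ n → f ∈ hits σ →
      f ∈ NN σ t ⊔ OG σ (JS t) n := by
    intro σ t n f hf hh
    have h1 : f ∈ hitsDeg σ n := mem_hitsDeg hh hf
    refine (Submodule.span_le.2 ?_ : hitsDeg σ n ≤ _) h1
    rintro g ⟨k, h, hk, hkn, hhom, rfl⟩
    have hhom' : h ∈ Hg σ (n - k) := hhom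
    have hOs : Sq k h = Os 0 k h := (hOPB.2.2.2.2.2.2.2.1 σ k h).symm
    rw [hOs]
    have hd : Os 0 k h ∈ Hg σ n := by
      have h3 := hNNB.2.2.2.2.2.2.2.2.1 σ 0 k (n - k) h hhom'
      have h4 : n - k + k * (2 ^ (0 + 1) - 1) = n := by
        have h5 : (2 : ℕ) ^ (0 + 1) - 1 = 1 := by norm_num
        rw [h5, mul_one]
        omega
      rwa [h4] at h3
    have hN : Os 0 k h ∈ NN σ (n + 1) := by
      refine hNNB.2.2.2.2.2.2.2.1 σ (n + 1) 0 k h hk ?_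
      calc k ≤ n + 1 := by omega
        _ < 2 ^ (n + 1) := Nat.lt_two_pow_self
    exact HTS.JS_le hNNB t n (HTS.toJS hGEN (n + 1) n _ (by omega)
      (by rw [Nat.add_sub_cancel]; exact Nat.lt_two_pow_self) hd hN)
  refine ⟨?_, h2, ?_⟩
  · intro σ m α f hα
    have h1 : f = ∑ i ∈ Finset.range (f.totalDegree + 1), homogeneousComponent i f :=
      (sum_homogeneousComponent f).symm
    rw [h1, map_sum]
    refine Submodule.sum_mem _ fun i _ => ?_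
    exact HTS.Mp_mem hOPB hGEN m α i _ (homogeneousComponent_isHomogeneous i f) hα
  · intro σ t n f hf hn hh
    have h3 := h2 σ t n f hf hh
    rwa [HTS.JS_bot t n hn, sup_bot_eq] at h3

end HGP
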