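import Pool.Agent.HGP.Stmts

/-!
# KR1: the kernel is torsion
-/

namespace HGP

open MvPolynomial
open Pool.Agent.Lib_helper74.Hit (hits qd up cf Sq cf_apply cf_up sum_cf)

namespace KR1

/-- The coefficients of a homogeneous polynomial. -/
theorem cf_homog {j n : ℕ} {F : PS (Fin (j + 1))} (hF : F ∈ Hg (Fin (j + 1)) n) (b : ℕ) :
    (b ≤ n → cf b F ∈ Hg (Fin j) (n - b)) ∧ (n < b → cf b F = 0) := by
  have hF' : F.IsHomogeneous n := hF
  constructor
  · intro hb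
    refine hF'.finSuccEquiv_coeff_isHomogeneous b (n - b) (by omega)
  · intro hb
    rw [cf_apply]
    ext m
    rw [finSuccEquiv_coeff_coeff, coeff_zero]
    by_contra h
    have h1 := hF' h
    have h2 : Finsupp.weight (1 : Fin (j + 1) → ℕ) (m.cons b) = (m.cons b).degree := by
      rw [Finsupp.degree_eq_weight_one]
      rfl
    rw [h2] at h1
    have h3 : b ≤ (m.cons b).degree := by
      have := Finsupp.le_degree (0 : Fin (j + 1)) (m.cons b)
      rwa [Finsupp.cons_zero] at this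
    omega

/-- The coefficients of a projection. -/
theorem cf_pj (h1 : P_PJE) {d t k m : ℕ} (g : WS (Fin d) ≃ₗ[ZMod 2] WS (Fin k ⊕ Fin m))
    (μ : PS (Fin m) →ₗ[ZMod 2] ZMod 2) {M : ℕ} (hM : M % 2 ^ t = 2 ^ t - 1)
    (F : PS (Fin (d + 1))) : cf (M / 2 ^ t) (pj t (ee g) μ F) = pj t g μ (cf M F) := by
  obtain ⟨N, hN⟩ := sum_cf F
  have key : ∀ (M' : ℕ) (h : PS (Fin d)), cf (M / 2 ^ t) (pj t (ee g) μ (up d h * X 0 ^ M')) =
      pj t g μ (cf M (up d h * X 0 ^ M')) := by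
    intro M' h
    rw [h1 d t k m M' g μ h, cf_up]
    by_cases hM' : M' % 2 ^ t = 2 ^ t - 1
    · rw [if_pos hM', cf_up]
      by_cases hq : M / 2 ^ t = M' / 2 ^ t
      · have e : M = M' := by
          rw [← Nat.div_add_mod M (2 ^ t), ← Nat.div_add_mod M' (2 ^ t), hq, hM, hM']
        rw [if_pos hq, if_pos e]
      · rw [if_neg hq, if_neg (fun e => hq (by rw [e])), map_zero]
    · rw [if_neg hM', if_neg (fun e => hM' (by rw [← e]; exact hM)), map_zero, map_zero]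
  have h2 : ∀ s : Finset ℕ, cf (M / 2 ^ t) (pj t (ee g) μ (∑ m ∈ s, up d (cf m F) * X 0 ^ m)) =
      pj t g μ (cf M (∑ m ∈ s, up d (cf m F) * X 0 ^ m)) := by
    intro s
    rw [map_sum, map_sum, map_sum, map_sum]
    exact Finset.sum_congr rfl fun M' _ => key M' (cf M' F)
  have h3 := h2 (Finset.range N)
  rwa [← hN] at h3

theorem arith {t C M : ℕ} (hM : M % 2 ^ (C + t) = 2 ^ (C + t) - 1) :
    M % 2 ^ t = 2 ^ t - 1 ∧ (M / 2 ^ t) % 2 ^ C = 2 ^ C - 1 ∧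
      (M : ℤ) = 2 ^ (C + t) * ((M / 2 ^ (C + t) : ℕ) + 1) - 1 := by
  have e := Nat.div_add_mod M (2 ^ (C + t))
  rw [hM] at e
  have p1 : 0 < 2 ^ t := Nat.two_pow_pos t
  have p2 : 0 < 2 ^ C := Nat.two_pow_pos C
  have p3 : 0 < 2 ^ (C + t) := Nat.two_pow_pos _
  obtain ⟨j, hj⟩ : ∃ j, j = M / 2 ^ (C + t) := ⟨_, rfl⟩
  rw [← hj] at e ⊢
  have p4 : 2 ^ (C + t) = 2 ^ t * 2 ^ C := by rw [pow_add, mul_comm]
  have e2 : M = 2 ^ t * (2 ^ C * j + (2 ^ C - 1)) + (2 ^ t - 1) := by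
    obtain ⟨a, ha⟩ : ∃ a, 2 ^ t = a + 1 := ⟨2 ^ t - 1, by omega⟩
    obtain ⟨b, hb⟩ : ∃ b, 2 ^ C = b + 1 := ⟨2 ^ C - 1, by omega⟩
    rw [← e, p4, ha, hb]
    have : (a + 1) * (b + 1) - 1 = a * b + a + b := by
      have : (a + 1) * (b + 1) = a * b + a + b + 1 := by ring
      omega
    rw [this]
    simp only [Nat.add_sub_cancel]
    ring
  have e3 : M % 2 ^ t = 2 ^ t - 1 := by
    rw [e2, Nat.mul_add_mod, Nat.mod_eq_of_lt (by omega)]
  have e4 : M / 2 ^ t = 2 ^ C * j + (2 ^ C - 1) := by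
    rw [e2, Nat.mul_add_div p1, Nat.div_eq_of_lt (by omega), add_zero]
  refine ⟨e3, ?_, ?_⟩
  · rw [e4, Nat.mul_add_mod, Nat.mod_eq_of_lt (by omega)]
  · rw [← e]
    push_cast [Nat.one_le_two_pow]
    ring

end KR1

theorem t_KR1 : Stmt_KR1 := by
  intro hNNB hSBB hLIN hPJE hCFX hLO2 hRES d c t C hC hdc hInj q n f hn hf hK v hv
  obtain ⟨A, hA⟩ := hLIN.2.1 d v hv
  obtain ⟨-, hS2, hS3, hS4, -, -, hS7⟩ := hSBB
  obtain ⟨-, -, hN3, -⟩ := hNNB
  -- the element in the new coordinates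
  have hf' : sb A.toLinearMap f ∈ Hg (Fin (d + 1)) n := hS4 _ _ _ n f hf
  have hK' : KK c t C (sb A.toLinearMap f) := by
    intro k m g μ hμ
    rw [hS7]
    exact hK k m (A.trans g) μ hμ
  have hcf : ∀ M, M % 2 ^ (C + t) = 2 ^ (C + t) - 1 →
      cf M (sb A.toLinearMap f) ∈ NN (Fin d) (C + t) := by
    intro M hM
    obtain ⟨hM1, hM2, hM3⟩ := KR1.arith hM
    obtain ⟨hc1, hc2⟩ := KR1.cf_homog hf' M
    by_cases hMn : M ≤ n
    · refine hInj (q - ((M / 2 ^ (C + t) : ℕ) + 1)) (n - M) ?_ _ (hc1 hMn) ?_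
      · rw [Nat.cast_sub hMn, hn, hM3]
        ring
      · intro k m g μ hμ
        have hμ' : Ad c (k + 1) m μ := by
          refine ⟨hμ.1, fun r hr => hμ.2 r fun h => hr ?_⟩
          rw [h]
          push_cast
          ring
        rw [← KR1.cf_pj hPJE g μ hM1]
        exact hCFX.2 k C (M / 2 ^ t) _ hM2 (hK' (k + 1) m (ee g) μ hμ')
    · rw [hc2 (by omega)]
      exact Submodule.zero_mem _
  have h1 := hLO2 d (C + t) (sb A.toLinearMap f) (by omega) hcf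
  have h2 := hN3 _ _ A.symm.toLinearMap (C + t) _ h1
  have hinv : ∀ F : PS (Fin (d + 1)), sb A.symm.toLinearMap (sb A.toLinearMap F) = F := by
    intro F
    rw [hS2]
    have e : A.symm.toLinearMap.comp A.toLinearMap = LinearMap.id := by
      ext w
      simp
    rw [e, hS3]
  rw [map_mul, map_pow, hinv, ← hRES.2.2.1 d v A hA, hinv] at h2
  exact h2

end HGP
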