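import Pool.Agent.HGP.Stmts

/-!
# Gap splitting for the hit problem: injectivity in large degrees
-/

namespace HGP

open MvPolynomial

namespace KR2

/-- The power map. -/
noncomputable def fr (d T : ℕ) : PS (Fin d) →ₐ[ZMod 2] PS (Fin d) :=
  { iterateFrobenius (PS (Fin d)) 2 T with
    commutes' := fun a => by
      change (algebraMap (ZMod 2) (PS (Fin d)) a) ^ 2 ^ T = _
      rw [← map_pow, ZMod.pow_card_pow] }

theorem fr_apply (d T : ℕ) (r : PS (Fin d)) : fr d T r = r ^ 2 ^ T := rfl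

theorem noeth (d T : ℕ) : IsNoetherian (fr d T).range (PS (Fin d)) := by
  have h0 : IsNoetherianRing (fr d T).range :=
    isNoetherianRing_of_surjective (PS (Fin d)) _ (fr d T).rangeRestrict.toRingHom
      (fr d T).rangeRestrict_surjective
  have h1 : Algebra.FiniteType (fr d T).range (PS (Fin d)) :=
    Algebra.FiniteType.of_restrictScalars_finiteType (ZMod 2) _ _
  have h2 : Algebra.IsIntegral (fr d T).range (PS (Fin d)) := by
    refine ⟨fun x => ?_⟩
    refine IsIntegral.of_pow (n := 2 ^ T) (Nat.two_pow_pos T) ?_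
    exact isIntegral_algebraMap (R := (fr d T).range) (x := ⟨fr d T x, ⟨x, rfl⟩⟩)
  have h3 : Module.Finite (fr d T).range (PS (Fin d)) := Algebra.IsIntegral.finite
  infer_instance

/-- The multiples of one element. -/
theorem one (h1 : P_NNB) (h2 : P_NUL) (d : ℕ) (c : ℤ) (t C : ℕ) (hT : Tor d c t C) :
    ∃ B₀ : ℕ, ∀ (q₀ : ℤ) (n₀ : ℕ) (s : PS (Fin d)), (n₀ : ℤ) = 2 ^ (C + t) * q₀ - c →
      s ∈ Hg (Fin d) n₀ → KK c t C s → ∀ b, B₀ ≤ b → ∀ r ∈ Hg (Fin d) b,
        r ^ 2 ^ (C + t) * s ∈ NN (Fin d) (C + t) := by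
  obtain ⟨B₀, hB₀⟩ := h2 d (2 ^ (C + t))
  refine ⟨B₀, fun q₀ n₀ s hn hs hK b hb r hr => ?_⟩
  let I : Ideal (PS (Fin d)) :=
    { carrier := {r | r ^ 2 ^ (C + t) * s ∈ NN (Fin d) (C + t)}
      add_mem' := by
        intro x y hx hy
        change (x + y) ^ 2 ^ (C + t) * s ∈ NN (Fin d) (C + t)
        rw [← fr_apply, map_add, add_mul]
        exact Submodule.add_mem _ hx hy
      zero_mem' := by
        change (0 : PS (Fin d)) ^ 2 ^ (C + t) * s ∈ NN (Fin d) (C + t)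
        rw [← fr_apply, map_zero, zero_mul]
        exact Submodule.zero_mem _
      smul_mem' := by
        intro a x hx
        change (a * x) ^ 2 ^ (C + t) * s ∈ NN (Fin d) (C + t)
        rw [mul_pow, mul_assoc]
        exact h1.1 _ _ _ _ hx }
  have hI : Ideal.span {s : PS (Fin d) | ∃ v : WS (Fin d) →ₗ[ZMod 2] ZMod 2, v ≠ 0 ∧
      s = Sv v ^ 2 ^ (C + t)} ≤ I := by
    rw [Ideal.span_le]
    rintro _ ⟨v, hv, rfl⟩
    change (Sv v ^ 2 ^ (C + t)) ^ 2 ^ (C + t) * s ∈ NN (Fin d) (C + t)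
    rw [← pow_mul]
    exact hT q₀ n₀ s hn hs hK v hv
  exact hI (hB₀ b hb r hr)

/-- The component of a multiple. -/
theorem comp (d T n n₀ B₀ : ℕ) (s : PS (Fin d)) (hs : s ∈ Hg (Fin d) n₀)
    (hb : ∀ b, n = b * 2 ^ T + n₀ → B₀ ≤ b)
    (hk : ∀ b, B₀ ≤ b → ∀ r ∈ Hg (Fin d) b, r ^ 2 ^ T * s ∈ NN (Fin d) T) (r : PS (Fin d)) :
    homogeneousComponent n (fr d T r * s) ∈ NN (Fin d) T := by
  have h1 : fr d T r = ∑ b ∈ Finset.range (r.totalDegree + 1),
      fr d T (homogeneousComponent b r) := by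
    rw [← map_sum, sum_homogeneousComponent]
  rw [h1, Finset.sum_mul, map_sum]
  refine Submodule.sum_mem _ fun b _ => ?_
  have h2 : (homogeneousComponent b r).IsHomogeneous b := homogeneousComponent_isHomogeneous b r
  have h3 : fr d T (homogeneousComponent b r) * s ∈ homogeneousSubmodule (Fin d) (ZMod 2)
      (b * 2 ^ T + n₀) := (h2.pow (2 ^ T)).mul hs
  rw [homogeneousComponent_of_mem h3]
  split_ifs with h4
  · exact hk b (hb b h4) _ h2
  · exact Submodule.zero_mem _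

end KR2

/-- Injectivity in large degrees. -/
theorem t_KR2 : Stmt_KR2 := by
  intro h1 h2 d c t C _ hT
  obtain ⟨B₀, hB₀⟩ := KR2.one h1 h2 d c t C hT
  have hno := KR2.noeth d (C + t)
  let S : Set (PS (Fin d)) := {f | ∃ (q : ℤ) (n : ℕ), (n : ℤ) = 2 ^ (C + t) * q - c ∧
    f ∈ Hg (Fin d) n ∧ KK c t C f}
  obtain ⟨S₀, hS₀, hspan⟩ := (Submodule.fg_span_iff_fg_span_finset_subset S).mp
    (IsNoetherian.noetherian (Submodule.span (KR2.fr d (C + t)).range S))
  have hS₀' : ∀ s : S₀, ∃ (q : ℤ) (n : ℕ), (n : ℤ) = 2 ^ (C + t) * q - c ∧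
    s.1 ∈ Hg (Fin d) n ∧ KK c t C s.1 := fun s => hS₀ s.2
  choose Q Nn hNn hH hK using hS₀'
  obtain ⟨M, hM⟩ := (Set.finite_range Q).bddAbove
  have hM' : ∀ s, Q s ≤ M := fun s => hM ⟨s, rfl⟩
  refine ⟨B₀ + M, fun q hq n hn f hf hfK => ?_⟩
  have hp : (0 : ℤ) < 2 ^ (C + t) := by positivity
  have hfS : f ∈ Submodule.span (KR2.fr d (C + t)).range (S₀ : Set (PS (Fin d))) := by
    rw [← hspan]
    exact Submodule.subset_span ⟨q, n, hn, hf, hfK⟩
  have key : ∀ x ∈ Submodule.span (KR2.fr d (C + t)).range (S₀ : Set (PS (Fin d))),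
      ∀ r : PS (Fin d), homogeneousComponent n (KR2.fr d (C + t) r * x) ∈
        NN (Fin d) (C + t) := by
    intro x hx
    induction hx using Submodule.span_induction with
    | mem x hx =>
      intro r
      refine KR2.comp d (C + t) n (Nn ⟨x, hx⟩) B₀ x (hH ⟨x, hx⟩) ?_
        (fun b hb r hr => hB₀ (Q ⟨x, hx⟩) (Nn ⟨x, hx⟩) x (hNn ⟨x, hx⟩) (hH ⟨x, hx⟩) (hK ⟨x, hx⟩)
          b hb r hr) r
      intro b hb
      have e1 : (n : ℤ) = b * 2 ^ (C + t) + Nn ⟨x, hx⟩ := by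
        rw [hb]
        push_cast
        ring
      rw [hn, hNn ⟨x, hx⟩] at e1
      have e2 : (2 : ℤ) ^ (C + t) * (q - Q ⟨x, hx⟩) = 2 ^ (C + t) * b := by linear_combination e1
      have e3 : q - Q ⟨x, hx⟩ = b := mul_left_cancel₀ hp.ne' e2
      have e4 := hM' ⟨x, hx⟩
      omega
    | zero =>
      intro r
      rw [mul_zero, map_zero]
      exact Submodule.zero_mem _
    | add x y _ _ hx hy =>
      intro r
      rw [mul_add, map_add]
      exact Submodule.add_mem _ (hx r) (hy r)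
    | smul a x _ hx =>
      intro r
      obtain ⟨_, ⟨a, rfl⟩⟩ := a
      have e : (KR2.fr d (C + t) r : PS (Fin d)) *
          ((⟨KR2.fr d (C + t) a, ⟨a, rfl⟩⟩ : (KR2.fr d (C + t)).range) • x) =
          KR2.fr d (C + t) (r * a) * x := by
        rw [map_mul, mul_assoc]
        rfl
      exact e ▸ hx (r * a)
  have h3 := key f hfS 1
  rw [map_one, one_mul, homogeneousComponent_of_mem hf, if_pos rfl] at h3
  exact h3

end HGP
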