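import Pool.Agent.HGP.Stmts

/-!
# Lifts of values of operations
-/

namespace HGP

open MvPolynomial
open Pool.Agent.Lib_helper74.Hit (hits qd up cf Sq)

namespace LFG

theorem deg_eq {n n₂ n' n'' k r a C t : ℕ} {q s c : ℤ} (hn : (n : ℤ) = 2 ^ (C + t) * q - c)
    (hn' : (n' : ℤ) = 2 ^ C * q - k) (hr : (r : ℤ) = k - c) (hd : n'' + a = n')
    (ha : (a : ℤ) = 2 ^ C * s) (h2 : n₂ + k = 2 ^ t * (n'' + k) + r) :
    (n₂ : ℤ) = 2 ^ (C + t) * (q - s) - c ∧ (n'' : ℤ) = 2 ^ C * (q - s) - k ∧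
      n₂ + 2 ^ t * a = n := by
  have h1 : (n'' : ℤ) + a = n' := by exact_mod_cast hd
  have h3 : (n₂ : ℤ) + k = 2 ^ t * (n'' + k) + r := by exact_mod_cast h2
  have h4 : (n'' : ℤ) = 2 ^ C * (q - s) - k := by linear_combination h1 - ha + hn'
  have h5 : (n₂ : ℤ) = 2 ^ (C + t) * (q - s) - c := by
    rw [pow_add]
    linear_combination h3 + 2 ^ t * h4 + hr
  refine ⟨h5, h4, ?_⟩
  have h6 : (n₂ : ℤ) + 2 ^ t * a = n := by
    rw [hn, h5, ha, pow_add]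
    ring
  exact_mod_cast h6

end LFG

open LFG in
theorem t_LFG : Stmt_LFG := by
  intro hNNB hNRM hPJB hTRN d c t C q J hS n k m n' r g hn hn' hr x hx ν hν
  obtain ⟨-, -, -, -, -, -, -, -, b9, -, -⟩ := hNNB
  obtain ⟨-, -, p3, -, -⟩ := hPJB
  obtain ⟨-, -, t3, t4⟩ := hTRN
  refine Submodule.span_induction (p := fun x _ => ∃ f ∈ OH (Fin d) J t, Lft c t C n g x ν f)
    ?_ ?_ ?_ ?_ hx
  · rintro _ ⟨j, κ, n'', u, hu, hJ, hd, rfl⟩
    obtain ⟨s, hs, hSur⟩ := hS j κ hJ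
    obtain ⟨n₂, h2⟩ : ∃ n₂, n₂ + k = 2 ^ t * (n'' + k) + r := by
      refine ⟨2 ^ t * (n'' + k) + r - k, Nat.sub_add_cancel ?_⟩
      have h1 : 1 ≤ 2 ^ t := Nat.one_le_two_pow
      nlinarith
    have ha : ((κ * (2 ^ (j + 1) - 1) : ℕ) : ℤ) = 2 ^ C * s := by
      rw [← hs, Nat.cast_mul, Nat.cast_sub Nat.one_le_two_pow]
      push_cast
      ring
    obtain ⟨c1, c2, c3⟩ := deg_eq hn hn' hr hd ha h2
    obtain ⟨f, hf1, hf2, hf3⟩ := hSur n₂ k m n'' r g c1 c2 hr u hu ν hν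
    refine ⟨Os j (2 ^ t * κ) f, Submodule.subset_span ⟨j, κ, f, hJ, rfl⟩, ?_, ?_, ?_⟩
    · have h3 := b9 (Fin d) j (2 ^ t * κ) n₂ f hf1
      rw [mul_assoc, c3] at h3
      exact h3
    · intro μ hμ
      rw [p3 d c t k m j κ g μ hμ f, ← map_smul, ← map_sub]
      exact hNRM _ _ _ _ _ (hf2 μ hμ)
    · intro k' m' g' μ' hμ' hne
      rw [p3 d c t k' m' j κ g' μ' hμ' f]
      exact hNRM _ _ _ _ _ (hf3 k' m' g' μ' hμ' hne)
  · exact ⟨0, Submodule.zero_mem _, t4 d c t C n k m g ν⟩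
  · rintro x y _ _ ⟨f, hf, hL⟩ ⟨f', hf', hL'⟩
    refine ⟨f + f', Submodule.add_mem _ hf hf', ?_⟩
    have h := t3 d c t C n k m g x y 0 ν f f' (Submodule.zero_mem _) hL hL'
    rwa [add_zero] at h
  · rintro a x _ ⟨f, hf, hL⟩
    have ha : a = 0 ∨ a = 1 := by
      revert a
      decide
    rcases ha with rfl | rfl
    · rw [zero_smul]
      exact ⟨0, Submodule.zero_mem _, t4 d c t C n k m g ν⟩
    · rw [one_smul]
      exact ⟨f, hf, hL⟩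

end HGP
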