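import Pool.Agent.HGP.Stmts

/-!
# Gap splitting for the hit problem: linear algebra
-/

namespace HGP

open MvPolynomial

namespace LIN

theorem mem_An {d k m : ℕ} (g : WS (Fin d) ≃ₗ[ZMod 2] WS (Fin k ⊕ Fin m)) (w : WS (Fin d)) :
    w ∈ An g ↔ ∀ i, g w (Sum.inl i) = 0 := Iff.rfl

theorem mem_An_ee {d k m : ℕ} (g : WS (Fin d) ≃ₗ[ZMod 2] WS (Fin k ⊕ Fin m))
    (w : WS (Fin (d + 1))) : w ∈ An (ee g) ↔ w 0 = 0 ∧ (Fin.tail w : WS (Fin d)) ∈ An g := by
  rw [mem_An, mem_An]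
  constructor
  · intro h
    exact ⟨h 0, fun i => h i.succ⟩
  · rintro ⟨h0, h1⟩ i
    refine Fin.cases ?_ (fun i => ?_) i
    · exact h0
    · exact h1 i

theorem lin1 (d : ℕ) (Λ : Submodule (ZMod 2) (WS (Fin d))) (m : ℕ)
    (hm : Module.finrank (ZMod 2) Λ = m) :
    ∃ (k : ℕ) (g : WS (Fin d) ≃ₗ[ZMod 2] WS (Fin k ⊕ Fin m)), An g = Λ := by
  obtain ⟨Λ', hc⟩ := Submodule.exists_isCompl Λ
  have e : Λ ≃ₗ[ZMod 2] (Fin m → ZMod 2) := LinearEquiv.ofFinrankEq _ _ (by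
    rw [hm, Module.finrank_fintype_fun_eq_card, Fintype.card_fin])
  have e' : Λ' ≃ₗ[ZMod 2] (Fin (Module.finrank (ZMod 2) Λ') → ZMod 2) :=
    LinearEquiv.ofFinrankEq _ _ (by rw [Module.finrank_fintype_fun_eq_card, Fintype.card_fin])
  refine ⟨Module.finrank (ZMod 2) Λ', ((Submodule.prodEquivOfIsCompl Λ' Λ hc.symm).symm.trans
    (e'.prodCongr e)).trans (LinearEquiv.sumArrowLequivProdArrow _ _ (ZMod 2) (ZMod 2)).symm, ?_⟩
  ext w
  rw [mem_An, ← Submodule.prodEquivOfIsCompl_symm_apply_fst_eq_zero Λ' Λ hc.symm (x := w)]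
  have h : ∀ i, (((Submodule.prodEquivOfIsCompl Λ' Λ hc.symm).symm.trans
      (e'.prodCongr e)).trans (LinearEquiv.sumArrowLequivProdArrow _ _ (ZMod 2) (ZMod 2)).symm) w
      (Sum.inl i) = e' ((Submodule.prodEquivOfIsCompl Λ' Λ hc.symm).symm w).1 i := fun i => rfl
  constructor
  · intro h1
    apply e'.injective
    rw [map_zero]
    funext i
    rw [← h i]
    exact h1 i
  · intro h1 i
    rw [h i, h1, map_zero]
    rfl

theorem lin3 (d k m : ℕ) (g : WS (Fin d) ≃ₗ[ZMod 2] WS (Fin k ⊕ Fin m)) :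
    k + m = d ∧ Module.finrank (ZMod 2) (An g) = m := by
  have h1 : k + m = d := by
    have h := g.finrank_eq
    rw [Module.finrank_fintype_fun_eq_card, Module.finrank_fintype_fun_eq_card,
      Fintype.card_sum, Fintype.card_fin, Fintype.card_fin, Fintype.card_fin] at h
    exact h.symm
  refine ⟨h1, ?_⟩
  let f : WS (Fin d) →ₗ[ZMod 2] (Fin k → ZMod 2) :=
    (LinearMap.funLeft (ZMod 2) (ZMod 2) Sum.inl).comp g.toLinearMap
  have hf : An g = LinearMap.ker f := by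
    ext w
    rw [LinearMap.mem_ker, mem_An]
    exact ⟨fun h => funext h, fun h i => congrFun h i⟩
  have hs : LinearMap.range f = ⊤ := by
    rw [LinearMap.range_eq_top]
    intro u
    refine ⟨g.symm (Sum.elim u 0), ?_⟩
    funext i
    change g (g.symm (Sum.elim u 0)) (Sum.inl i) = u i
    rw [LinearEquiv.apply_symm_apply, Sum.elim_inl]
  have h2 := LinearMap.finrank_range_add_finrank_ker f
  rw [hs, finrank_top, Module.finrank_fintype_fun_eq_card, Module.finrank_fintype_fun_eq_card,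
    Fintype.card_fin, Fintype.card_fin] at h2
  rw [hf]
  omega

theorem lin2 (d : ℕ) (v : WS (Fin (d + 1)) →ₗ[ZMod 2] ZMod 2) (hv : v ≠ 0) :
    ∃ A : WS (Fin (d + 1)) ≃ₗ[ZMod 2] WS (Fin (d + 1)), ∀ w, A w 0 = v w := by
  obtain ⟨w₀, hw₀⟩ := LinearMap.surjective hv 1
  have hfin : Module.finrank (ZMod 2) (LinearMap.ker v) = Module.finrank (ZMod 2)
      (Fin d → ZMod 2) := by
    have h := Module.Dual.finrank_ker_add_one_of_ne_zero hv
    rw [Module.finrank_fintype_fun_eq_card, Fintype.card_fin] at h ⊢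
    omega
  let e : LinearMap.ker v ≃ₗ[ZMod 2] (Fin d → ZMod 2) := LinearEquiv.ofFinrankEq _ _ hfin
  let p : WS (Fin (d + 1)) →ₗ[ZMod 2] LinearMap.ker v :=
    LinearMap.codRestrict _ (LinearMap.id - v.smulRight w₀) (by
      intro w
      rw [LinearMap.mem_ker, LinearMap.sub_apply, LinearMap.id_apply, LinearMap.smulRight_apply,
        map_sub, map_smul, hw₀, smul_eq_mul, mul_one, sub_self])
  let A' : WS (Fin (d + 1)) →ₗ[ZMod 2] WS (Fin (d + 1)) :=
    LinearMap.pi (Fin.cons v fun j => (LinearMap.proj j).comp (e.toLinearMap.comp p))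
  have hA0 : ∀ w, A' w 0 = v w := fun w => rfl
  have hAs : ∀ w j, A' w (Fin.succ j) = e (p w) j := fun w j => rfl
  have hinj : Function.Injective A' := by
    rw [injective_iff_map_eq_zero]
    intro w hw
    have h0 : v w = 0 := by
      rw [← hA0, hw]
      rfl
    have h1 : p w = 0 := by
      apply e.injective
      rw [map_zero]
      funext j
      rw [← hAs, hw]
      rfl
    have h2 : w - v w • w₀ = 0 := congrArg Subtype.val h1
    rw [h0, zero_smul, sub_zero] at h2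
    exact h2
  exact ⟨LinearEquiv.ofInjectiveEndo A' hinj, fun w => hA0 w⟩

theorem lin4 (d k m : ℕ) (g : WS (Fin (d + 1)) ≃ₗ[ZMod 2] WS (Fin (k + 1) ⊕ Fin m))
    (hg : ∀ w ∈ An g, w 0 = 0) :
    ∃ g₁ : WS (Fin d) ≃ₗ[ZMod 2] WS (Fin k ⊕ Fin m), An (ee g₁) = An g := by
  let tl : WS (Fin (d + 1)) →ₗ[ZMod 2] WS (Fin d) := LinearMap.funLeft (ZMod 2) (ZMod 2) Fin.succ
  have htl : ∀ w, tl w = Fin.tail w := fun w => rfl
  have hext : ∀ w w' : WS (Fin (d + 1)), w 0 = w' 0 → tl w = tl w' → w = w' := by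
    intro w w' h0 h1
    funext i
    refine Fin.cases ?_ (fun i => ?_) i
    · exact h0
    · exact congrFun h1 i
  have hinj : Function.Injective (tl.domRestrict (An g)) := by
    intro w w' h
    exact Subtype.ext (hext _ _ ((hg _ w.2).trans (hg _ w'.2).symm) h)
  have hfin : Module.finrank (ZMod 2) ((An g).map tl) = m := by
    rw [← LinearMap.range_domRestrict, LinearMap.finrank_range_of_inj hinj]
    exact (lin3 _ _ _ g).2
  obtain ⟨k₁, g₁, h₁⟩ := lin1 d ((An g).map tl) m hfin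
  have hk : k₁ = k := by
    have h2 := (lin3 _ _ _ g₁).1
    have h3 := (lin3 _ _ _ g).1
    omega
  subst hk
  refine ⟨g₁, ?_⟩
  ext w
  rw [mem_An_ee, h₁]
  constructor
  · rintro ⟨h0, w', hw', hww⟩
    have h4 : w = w' := hext _ _ (h0.trans (hg _ hw').symm) hww.symm
    rw [h4]
    exact hw'
  · intro h
    exact ⟨hg _ h, w, h, rfl⟩

theorem lin5 (d k m k' m' : ℕ) (g : WS (Fin d) ≃ₗ[ZMod 2] WS (Fin k ⊕ Fin m))
    (g' : WS (Fin d) ≃ₗ[ZMod 2] WS (Fin k' ⊕ Fin m')) (h : An (ee g) = An (ee g')) :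
    An g = An g' := by
  have key : ∀ (k m : ℕ) (g : WS (Fin d) ≃ₗ[ZMod 2] WS (Fin k ⊕ Fin m)) (x : WS (Fin d)),
      (Fin.cons 0 x : WS (Fin (d + 1))) ∈ An (ee g) ↔ x ∈ An g := by
    intro k m g x
    rw [mem_An_ee, Fin.cons_zero, Fin.tail_cons]
    exact ⟨fun h => h.2, fun h => ⟨rfl, h⟩⟩
  ext x
  rw [← key k m g, ← key k' m' g', h]

end LIN

/-- Linear algebra. -/
theorem t_LIN : Stmt_LIN :=
  ⟨fun d Λ => LIN.lin1 d Λ _ rfl, LIN.lin2, LIN.lin3, LIN.lin4, LIN.lin5⟩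

end HGP
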