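import Pool.Agent.HGP.Stmts

/-!
# Gap splitting for the hit problem: module LO1, multiples of `SL`
-/

namespace HGP

open MvPolynomial
open Pool.Agent.Lib_helper74.Hit (up)

namespace LO1

theorem odd_choose : ∀ r N : ℕ, N / 2 ^ r % 2 = 1 → N.choose (2 ^ r) % 2 = 1 := by
  intro r
  induction r with
  | zero =>
    intro N hN
    rw [pow_zero, Nat.choose_one_right]
    simpa using hN
  | succ r ih =>
    intro N hN
    have h := Choose.choose_modEq_choose_mod_mul_choose_div_nat (p := 2) (n := N)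
      (k := 2 ^ (r + 1))
    have e1 : 2 ^ (r + 1) % 2 = 0 := by
      rw [pow_succ]
      omega
    have e2 : 2 ^ (r + 1) / 2 = 2 ^ r := by
      rw [pow_succ]
      omega
    rw [e1, e2, Nat.choose_zero_right, one_mul] at h
    rw [h]
    refine ih (N / 2) ?_
    rw [Nat.div_div_eq_div_mul, mul_comm, ← pow_succ]
    exact hN

theorem choose_one (M r : ℕ) (h : M.testBit r = false) :
    ((M + 2 ^ r).choose (2 ^ r) : ZMod 2) = 1 := by
  have h1 : (M + 2 ^ r) / 2 ^ r % 2 = 1 := by
    rw [Nat.add_div_right _ (by positivity)]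
    rw [Nat.testBit_eq_decide_div_mod_eq, decide_eq_false_iff_not] at h
    omega
  have h2 := odd_choose r _ h1
  have h3 : ((M + 2 ^ r).choose (2 ^ r) : ZMod 2) = ((1 : ℕ) : ZMod 2) :=
    (ZMod.natCast_eq_natCast_iff' _ _ _).2 (by rw [h2])
  rw [h3, Nat.cast_one]

variable {R : Type} [CommRing R]

theorem coeff_pow_lin (a b : R) (n k : ℕ) :
    ((Polynomial.C a + Polynomial.C b * Polynomial.X) ^ n).coeff k =
      if k ≤ n then a ^ (n - k) * b ^ k * (n.choose k : R) else 0 := by
  rw [add_comm, add_pow, Polynomial.finsetSum_coeff]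
  have h : ∀ m ∈ Finset.range (n + 1), ((Polynomial.C b * Polynomial.X) ^ m *
      Polynomial.C a ^ (n - m) * (n.choose m : Polynomial R)).coeff k =
      if k = m then a ^ (n - m) * b ^ m * (n.choose m : R) else 0 := by
    intro m _
    have : (Polynomial.C b * Polynomial.X) ^ m * Polynomial.C a ^ (n - m) *
        (n.choose m : Polynomial R) =
        Polynomial.C (a ^ (n - m) * b ^ m * (n.choose m : R)) * Polynomial.X ^ m := by
      rw [mul_pow, map_mul, map_mul, map_pow, map_pow, Polynomial.C_eq_natCast]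
      ring
    rw [this, Polynomial.coeff_C_mul_X_pow]
  rw [Finset.sum_congr rfl h, Finset.sum_ite_eq]
  simp only [Finset.mem_range, Nat.lt_succ_iff]

/-- The specialisation of the parameters. -/
noncomputable def Th (b : ℕ → R) : MvPolynomial ℕ R →ₐ[R] Polynomial R :=
  aeval fun j => Polynomial.C (b j) * Polynomial.X

theorem Th_coeff (b : ℕ → R) (F : MvPolynomial ℕ R) (k : ℕ) :
    (Th b F).coeff k = ∑ α ∈ F.support,
      if k = α.sum (fun _ a => a) then coeff α F * α.prod (fun j a => b j ^ a) else 0 := by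
  have h : Th b F = ∑ α ∈ F.support, Polynomial.C (coeff α F * α.prod (fun j a => b j ^ a)) *
      Polynomial.X ^ α.sum (fun _ a => a) := by
    rw [Th, aeval_def, eval₂_eq]
    refine Finset.sum_congr rfl fun α _ => ?_
    rw [map_mul, mul_assoc]
    congr 1
    have : ∀ i ∈ α.support, (Polynomial.C (b i) * Polynomial.X) ^ α i =
        Polynomial.C (b i ^ α i) * Polynomial.X ^ α i := by
      intro i _
      rw [mul_pow, map_pow]
    rw [Finset.prod_congr rfl this, Finset.prod_mul_distrib, Finset.prod_pow_eq_pow_sum,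
      Finsupp.prod, map_prod]
    rfl
  rw [h, Polynomial.finsetSum_coeff]
  refine Finset.sum_congr rfl fun α _ => ?_
  rw [Polynomial.coeff_C_mul_X_pow]

end LO1

open LO1 in
theorem t_LO1 : Stmt_LO1 := by
  intro hOPB hNNB hFKS d t r M g hr hM
  obtain ⟨c, hc1, hc0⟩ := hFKS d
  obtain ⟨s, rfl⟩ : ∃ s, t = s + 1 := ⟨t - 1, by omega⟩
  let ps : ℕ → PS (Fin (d + 1)) := fun j => if s ≤ j then c (j - s) else 0
  let Φ : PS (Fin (d + 1)) →+* Polynomial (PS (Fin (d + 1))) :=
    (Th fun j => ps j ^ 2 ^ (s + 1) : MvPolynomial ℕ (PS (Fin (d + 1))) →+* _).comp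
      (ph (Fin (d + 1)) (s + (d + 1)) : PS (Fin (d + 1)) →+* _)
  have hΦ : ∀ f, Φ f = Th (fun j => ps j ^ 2 ^ (s + 1)) (ph (Fin (d + 1)) (s + (d + 1)) f) :=
    fun f => rfl
  have hΦX : ∀ i, Φ (X i) = Polynomial.C (X i) +
      Polynomial.C ((∑ n ∈ Finset.range (d + 1), c n * X i ^ 2 ^ n) ^ 2 ^ (s + 1)) *
        Polynomial.X := by
    intro i
    have h1 : ph (Fin (d + 1)) (s + (d + 1)) (X i) =
        C (X i) + ∑ j ∈ Finset.range (s + (d + 1)), C (X i ^ 2 ^ (j + 1)) * X j := by
      rw [ph, aeval_X]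
    rw [hΦ, h1, map_add, map_sum]
    have h2 : ∀ a : PS (Fin (d + 1)), Th (fun j => ps j ^ 2 ^ (s + 1)) (C a) =
        Polynomial.C a := fun a => by
      rw [Th, aeval_C]
      rfl
    rw [h2]
    congr 1
    have h3 : ∀ j, Th (fun j => ps j ^ 2 ^ (s + 1)) (C (X i ^ 2 ^ (j + 1)) * X j) =
        Polynomial.C (X i ^ 2 ^ (j + 1) * ps j ^ 2 ^ (s + 1)) * Polynomial.X := by
      intro j
      rw [map_mul, h2, Th, aeval_X, map_mul, mul_assoc]
    simp only [h3]
    rw [← Finset.sum_mul, ← map_sum]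
    congr 2
    rw [Finset.sum_range_add, sum_pow_char_pow]
    have h4 : ∀ j ∈ Finset.range s, (X i : PS (Fin (d + 1))) ^ 2 ^ (j + 1) *
        ps j ^ 2 ^ (s + 1) = 0 := by
      intro j hj
      have : ps j = 0 := if_neg (by rw [Finset.mem_range] at hj; omega)
      rw [this, zero_pow (by positivity), mul_zero]
    rw [Finset.sum_eq_zero h4, zero_add]
    refine Finset.sum_congr rfl fun n _ => ?_
    have : ps (s + n) = c n := by
      change (if s ≤ s + n then c (s + n - s) else 0) = c n
      rw [if_pos (by omega), Nat.add_sub_cancel_left]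
    rw [this, mul_pow, ← pow_mul, ← pow_add, mul_comm]
    congr 3
    ring
  have hΦu : ∀ f : PS (Fin d), Φ (up d f) = Polynomial.C (up d f) := by
    intro f
    induction f using MvPolynomial.induction_on with
    | C a =>
      have h1 : up d (C a) = C a := by rw [up, rename_C]
      rw [h1, hΦ]
      have h2 : ph (Fin (d + 1)) (s + (d + 1)) (C a) = C (C a) := by
        rw [ph, aeval_C]
        rfl
      rw [h2, Th, aeval_C]
      rfl
    | add p q hp hq => rw [map_add, map_add, hp, hq, map_add]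
    | mul_X p i hp =>
      have h1 : up d (X i) = X i.succ := by rw [up, rename_X]
      rw [map_mul, map_mul, hp, h1, hΦX, hc1, zero_pow (by positivity), map_zero, zero_mul,
        add_zero, map_mul]
  have hΦ0 : Φ (X 0) = Polynomial.C (X 0) + Polynomial.C (SL d ^ 2 ^ (s + 1)) * Polynomial.X := by
    rw [hΦX, hc0]
  have hco : (Φ (up d g * X 0 ^ (M + 2 ^ r))).coeff (2 ^ r) =
      SL d ^ (2 ^ (s + 1) * 2 ^ r) * (up d g * X 0 ^ M) := by
    rw [map_mul, map_pow, hΦu, hΦ0, Polynomial.coeff_C_mul, coeff_pow_lin, if_pos (by omega),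
      Nat.add_sub_cancel]
    have h1 : (((M + 2 ^ r).choose (2 ^ r) : ℕ) : PS (Fin (d + 1))) = 1 := by
      have h2 := congrArg (C : ZMod 2 →+* PS (Fin (d + 1))) (choose_one M r hM)
      rw [map_natCast, map_one] at h2
      exact h2
    rw [h1, mul_one, ← pow_mul]
    ring
  rw [← hco, hΦ, Th_coeff]
  refine Submodule.sum_mem _ fun α _ => ?_
  split_ifs with hk
  swap
  · exact Submodule.zero_mem _
  have hα : ∀ j, α j < 2 ^ (s + 1) := by
    intro j
    have h1 : α j ≤ α.sum fun _ a => a := by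
      by_cases h : j ∈ α.support
      · exact Finset.single_le_sum (f := fun j => α j) (fun _ _ => Nat.zero_le _) h
      · rw [Finsupp.notMem_support_iff.1 h]
        exact Nat.zero_le _
    have h2 : 2 ^ r < 2 ^ (s + 1) := Nat.pow_lt_pow_right (by omega) hr
    omega
  have hα0 : α ≠ 0 := by
    rintro rfl
    rw [Finsupp.sum_zero_index] at hk
    exact absurd hk (by positivity)
  have hp : (α.prod fun j a => (ps j ^ 2 ^ (s + 1)) ^ a) =
      (α.prod fun j a => ps j ^ a) ^ 2 ^ (s + 1) := by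
    rw [Finsupp.prod, Finsupp.prod, ← Finset.prod_pow]
    refine Finset.prod_congr rfl fun j _ => ?_
    rw [← pow_mul, ← pow_mul, mul_comm]
  rw [hp, mul_comm]
  refine hNNB.1 _ _ _ _ (Submodule.subset_span ?_)
  exact ⟨s + (d + 1), α, _, hα0, hα, rfl⟩

end HGP
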