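import Pool.Agent.HGP.Stmts

/-!
# LO2: multiples of `SL`
-/

set_option autoImplicit false

namespace HGP

open MvPolynomial
open Pool.Agent.Lib_helper74.Hit (hits qd up cf Sq sum_cf)

namespace LO2

theorem exists_bit (t M : ℕ) (h : M % 2 ^ t ≠ 2 ^ t - 1) : ∃ r < t, M.testBit r = false := by
  by_contra hc
  push Not at hc
  apply h
  apply Nat.eq_of_testBit_eq
  intro i
  rw [Nat.testBit_mod_two_pow, Nat.testBit_two_pow_sub_one]
  by_cases hi : i < t
  · have h1 := hc i hi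
    have h2 : M.testBit i = true := by
      rcases Bool.eq_false_or_eq_true (M.testBit i) with h | h
      · exact h
      · exact absurd h h1
    simp [hi, h2]
  · simp [hi]

/-- One monomial. -/
theorem mono (hNNB : P_NNB) (hLO1 : P_LO1) (d t M : ℕ) (g : PS (Fin d))
    (h : M % 2 ^ t ≠ 2 ^ t - 1) :
    SL d ^ (2 ^ t * 2 ^ t) * (up d g * X 0 ^ M) ∈ NN (Fin (d + 1)) t := by
  obtain ⟨r, hr, hb⟩ := exists_bit t M h
  have h1 := hLO1 d t r M g hr hb
  have h2 := hNNB.1 (Fin (d + 1)) t (SL d ^ (2 ^ t - 2 ^ r)) _ h1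
  have h3 : 2 ^ r ≤ 2 ^ t := Nat.pow_le_pow_right (by norm_num) hr.le
  have h4 : (2 ^ t - 2 ^ r) * 2 ^ t + 2 ^ t * 2 ^ r = 2 ^ t * 2 ^ t := by
    rw [mul_comm (2 ^ t - 2 ^ r), ← mul_add, Nat.sub_add_cancel h3]
  rw [← mul_assoc, ← pow_mul, ← pow_add, h4] at h2
  exact h2

/-- The coefficients of the powers `2 ^ t * j - 1` are zero. -/
theorem zero (hNNB : P_NNB) (hLO1 : P_LO1) (d t : ℕ) (G : PS (Fin (d + 1)))
    (h : ∀ M, M % 2 ^ t = 2 ^ t - 1 → cf M G = 0) :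
    SL d ^ (2 ^ t * 2 ^ t) * G ∈ NN (Fin (d + 1)) t := by
  obtain ⟨N, hN⟩ := sum_cf G
  rw [hN, Finset.mul_sum]
  refine Submodule.sum_mem _ fun M _ => ?_
  by_cases hM : M % 2 ^ t = 2 ^ t - 1
  · rw [h M hM, map_zero, zero_mul, mul_zero]
    exact Submodule.zero_mem _
  · exact mono hNNB hLO1 d t M _ hM

/-- The monomial of a power `2 ^ t * j - 1` with a coefficient in `NN`. -/
theorem top (hOPB : P_OPB) (hNNB : P_NNB) (hLO1 : P_LO1) (hCFX : P_CFX) (d t M : ℕ)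
    (c : PS (Fin d)) (hc : c ∈ NN (Fin d) t) :
    SL d ^ (2 ^ t * 2 ^ t) * (up d c * X 0 ^ M) ∈ NN (Fin (d + 1)) t := by
  obtain ⟨h0, hmul, -, -, -, -, -, -, -, hren, -⟩ := hOPB
  induction hc using Submodule.span_induction with
  | zero =>
    rw [map_zero, zero_mul, mul_zero]
    exact Submodule.zero_mem _
  | add x y _ _ hx hy =>
    rw [map_add, add_mul, mul_add]
    exact Submodule.add_mem _ hx hy
  | smul a x _ hx =>
    rw [map_smul, smul_mul_assoc, mul_smul_comm]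
    exact Submodule.smul_mem _ _ hx
  | mem x hx =>
    obtain ⟨m, α, h, hα, hlt, rfl⟩ := hx
    have hup : ∀ β, Mp m β (up d h) = up d (Mp m β h) := fun β =>
      hren (Fin d) (Fin (d + 1)) Fin.succ m β h
    have h1 := hmul (Fin (d + 1)) m α (up d h) (X 0 ^ M)
    have hmem : ((α, 0) : (ℕ →₀ ℕ) × (ℕ →₀ ℕ)) ∈ Finset.HasAntidiagonal.antidiagonal α :=
      Finset.HasAntidiagonal.mem_antidiagonal.2 (add_zero α)
    rw [← Finset.add_sum_erase _ _ hmem] at h1
    simp only [hup] at h1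
    rw [h0] at h1
    have h2 : up d (Mp m α h) * X 0 ^ M = Mp m α (up d h * X 0 ^ M) -
        ∑ p ∈ (Finset.HasAntidiagonal.antidiagonal α).erase (α, 0),
          up d (Mp m p.1 h) * Mp m p.2 (X 0 ^ M) := by
      rw [h1, add_sub_cancel_right]
    rw [h2, mul_sub, Finset.mul_sum]
    refine Submodule.sub_mem _ ?_ (Submodule.sum_mem _ fun p hp => ?_)
    · rw [mul_comm (2 ^ t) (2 ^ t), pow_mul]
      exact hNNB.1 (Fin (d + 1)) t (SL d ^ 2 ^ t) _
        (Submodule.subset_span ⟨m, α, _, hα, hlt, rfl⟩)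
    · have hp1 := Finset.HasAntidiagonal.mem_antidiagonal.1 (Finset.mem_of_mem_erase hp)
      have hp2 : p.2 ≠ 0 := by
        intro h3
        apply Finset.ne_of_mem_erase hp
        rw [h3, add_zero] at hp1
        exact Prod.ext hp1 h3
      refine zero hNNB hLO1 d t _ fun M' hM' => ?_
      rw [mul_comm]
      refine hCFX.1 d t m p.2 M M' _ hp2 (fun j => ?_) hM'
      refine lt_of_le_of_lt ?_ (hlt j)
      rw [← hp1, Finsupp.add_apply]
      exact Nat.le_add_left _ _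

end LO2

theorem t_LO2 : Stmt_LO2 := by
  intro hOPB hNNB hLO1 hCFX d t F _ hF
  obtain ⟨N, hN⟩ := sum_cf F
  rw [hN, Finset.mul_sum]
  refine Submodule.sum_mem _ fun M _ => ?_
  by_cases hM : M % 2 ^ t = 2 ^ t - 1
  · exact LO2.top hOPB hNNB hLO1 hCFX d t M _ (hF M hM)
  · exact LO2.mono hNNB hLO1 d t M _ hM

end HGP
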