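import Pool.Agent.HGP.Stmts

/-!
# Gap splitting for the hit problem: the induction (module MAI)
-/

namespace HGP

/-- MAI -/
theorem t_MAI : Stmt_MAI := by
  intro hK1 hK2 hC2 hC3 hQ hF d
  induction d with
  | zero =>
    intro c t h
    apply hQ.2 c t
    have h0 : ((0 : ℕ) : ℤ) - c < 2 ^ t := h
    simpa using h0
  | succ d ih =>
    intro c t h
    have h' : (d : ℤ) - (c - 1) < 2 ^ t := by
      push_cast at h
      linarith
    obtain ⟨C₀, hC₀⟩ := ih (c - 1) t h'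
    have h1 : ∀ q, Inj d (c - 1) t (max C₀ 1) q ∧ Sur d (c - 1) t (max C₀ 1) q :=
      hC₀ (max C₀ 1) (le_max_left _ _)
    have h2 : 1 ≤ max C₀ 1 := le_max_right _ _
    obtain ⟨B₁, hB₁⟩ := hK2 (d + 1) c t (max C₀ 1) h
      (hK1 d c t (max C₀ 1) h2 h fun q => (h1 q).1)
    obtain ⟨B₂, hB₂⟩ := hC3 d c t (max C₀ 1)
      (hC2 d c t (max C₀ 1) h2 h fun q => (h1 q).2)
    exact hF (d + 1) c t (max C₀ 1) (max B₁ B₂) h fun q hq =>
      ⟨hB₁ q (lt_of_le_of_lt (le_max_left _ _) hq), hB₂ q (lt_of_le_of_lt (le_max_right _ _) hq)⟩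

end HGP
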