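import Pool.Agent.HGP.Stmts

/-!
# NUL: the ideal of the powers of the `Sv v`
-/

namespace HGP

open MvPolynomial

namespace NUL

theorem lf_add {σ : Type} [Fintype σ] (w w' : WS σ) : lf (w + w') = lf w + lf w' := by
  rw [lf, lf, lf, ← Finset.sum_add_distrib]
  refine Finset.sum_congr rfl fun i _ => ?_
  rw [Pi.add_apply, C_add, add_mul]

theorem lf_smul {σ : Type} [Fintype σ] (c : ZMod 2) (w : WS σ) : lf (c • w) = C c * lf w := by
  rw [lf, lf, Finset.mul_sum]
  refine Finset.sum_congr rfl fun i _ => ?_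
  rw [Pi.smul_apply, smul_eq_mul, C_mul, mul_assoc]

theorem lf_single {σ : Type} [Fintype σ] [DecidableEq σ] (i : σ) :
    lf (Pi.single i 1 : WS σ) = X i := by
  rw [lf, Finset.sum_eq_single i]
  · rw [Pi.single_eq_same, C_1, one_mul]
  · intro j _ hj
    rw [Pi.single_eq_of_ne hj, C_0, zero_mul]
  · intro h
    exact absurd (Finset.mem_univ i) h

/-- The ideal. -/
noncomputable def II (d N : ℕ) : Ideal (PS (Fin d)) :=
  Ideal.span {s : PS (Fin d) | ∃ v : WS (Fin d) →ₗ[ZMod 2] ZMod 2, v ≠ 0 ∧ s = Sv v ^ N}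

/-- The coefficient vectors of the linear forms in an ideal. -/
noncomputable def VV {d : ℕ} (p : Ideal (PS (Fin d))) : Submodule (ZMod 2) (WS (Fin d)) where
  carrier := {w | lf w ∈ p}
  add_mem' {a b} ha hb := by
    change lf (a + b) ∈ p
    rw [lf_add]
    exact p.add_mem ha hb
  zero_mem' := by
    change lf (0 : WS (Fin d)) ∈ p
    have h : lf (0 : WS (Fin d)) = 0 := by
      rw [← zero_smul (ZMod 2) (0 : WS (Fin d)), lf_smul, C_0, zero_mul]
    rw [h]
    exact p.zero_mem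
  smul_mem' c a ha := by
    change lf (c • a) ∈ p
    rw [lf_smul]
    exact p.mul_mem_left _ ha

theorem X_mem {d N : ℕ} (p : Ideal (PS (Fin d))) (hp : p.IsPrime) (h : II d N ≤ p) (i : Fin d) :
    (X i : PS (Fin d)) ∈ p := by
  have hV : VV p = ⊤ := by
    by_contra hne
    obtain ⟨v, hv, hle⟩ := Submodule.exists_le_ker_of_lt_top (VV p) (lt_top_iff_ne_top.2 hne)
    have h1 : Sv v ^ N ∈ p := h (Ideal.subset_span ⟨v, hv, rfl⟩)
    have h2 : Sv v ∈ p := hp.mem_of_pow_mem N h1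
    rw [Sv] at h2
    obtain ⟨w, hw, hwp⟩ := (Ideal.IsPrime.prod_mem_iff (hp := hp)).1 h2
    rw [Finset.mem_filter] at hw
    have h3 : v w = 0 := hle (show w ∈ VV p from hwp)
    rw [hw.2] at h3
    exact one_ne_zero h3
  have h4 : (Pi.single i 1 : WS (Fin d)) ∈ VV p := by
    rw [hV]
    exact Submodule.mem_top
  have h5 : lf (Pi.single i 1 : WS (Fin d)) ∈ p := h4
  rwa [lf_single] at h5

theorem vars_le (d N : ℕ) : idealOfVars (Fin d) (ZMod 2) ≤ (II d N).radical := by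
  rw [Ideal.radical_eq_sInf]
  refine le_sInf ?_
  rintro p ⟨h1, h2⟩
  rw [idealOfVars, Ideal.span_le]
  rintro _ ⟨i, rfl⟩
  exact X_mem p h2 h1 i

end NUL

theorem t_NUL : Stmt_NUL := by
  intro d N
  obtain ⟨B, hB⟩ := Ideal.exists_pow_le_of_le_radical_of_fg (NUL.vars_le d N)
    (idealOfVars_fg (Fin d) (ZMod 2))
  refine ⟨B, fun b hb r hr => hB ?_⟩
  rw [mem_pow_idealOfVars_iff]
  intro x hx
  rw [Hg, mem_homogeneousSubmodule] at hr
  have h1 := hr (mem_support_iff.1 hx)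
  rw [Finsupp.degree_eq_weight_one]
  exact hb.trans h1.ge

end HGP
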