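import Pool.Agent.HGP.Stmts

/-!
# NNB: basic facts on `NN`
-/

namespace HGP

open MvPolynomial

namespace NNB

theorem single_ne {j κ : ℕ} (h : 1 ≤ κ) : Finsupp.single j κ ≠ 0 := by
  intro h0
  have := congrArg (fun x : ℕ →₀ ℕ => x j) h0
  simp only [Finsupp.single_eq_same, Finsupp.coe_zero, Pi.zero_apply] at this
  omega

theorem single_lt {j κ N : ℕ} (hN : 0 < N) (h : κ < N) (i : ℕ) : Finsupp.single j κ i < N := by
  rw [Finsupp.single_apply]
  split_ifs
  · exact h
  · exact hN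

theorem wt_single (j κ : ℕ) : wt (Finsupp.single j κ) = κ * (2 ^ (j + 1) - 1) := by
  rw [wt, Finsupp.sum_single_index]
  rw [zero_mul]

/-- Homogeneous components of elements of `NN`. -/
theorem hc_mem {σ : Type} (h3 : ∀ (m : ℕ) (α : ℕ →₀ ℕ) (n : ℕ) (f : PS σ), f ∈ Hg σ n →
    Mp m α f ∈ Hg σ (n + wt α)) (t n : ℕ) (f : PS σ) (hf : f ∈ NN σ t) :
    homogeneousComponent n f ∈ NG σ t n := by
  unfold NN at hf
  induction hf using Submodule.span_induction with
  | mem x hx =>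
    obtain ⟨m, α, f, hα, hαt, rfl⟩ := hx
    have h0 : homogeneousComponent n (Mp m α f) =
        ∑ i ∈ Finset.range (f.totalDegree + 1),
          homogeneousComponent n (Mp m α (homogeneousComponent i f)) := by
      conv_lhs => rw [← sum_homogeneousComponent f]
      rw [map_sum, map_sum]
    rw [h0]
    refine Submodule.sum_mem _ fun i _ => ?_
    have h4 : Mp m α (homogeneousComponent i f) ∈ homogeneousSubmodule σ (ZMod 2) (i + wt α) :=
      h3 m α i _ (homogeneousComponent_isHomogeneous i f)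
    rw [homogeneousComponent_of_mem h4]
    split_ifs with h5
    · exact Submodule.subset_span ⟨m, α, i, homogeneousComponent i f,
        homogeneousComponent_isHomogeneous i f, hα, hαt, h5.symm, rfl⟩
    · exact Submodule.zero_mem _
  | zero =>
    rw [map_zero]
    exact Submodule.zero_mem _
  | add x y _ _ hx hy =>
    rw [map_add]
    exact Submodule.add_mem _ hx hy
  | smul a x _ hx =>
    rw [map_smul]
    exact Submodule.smul_mem _ a hx

/-- A linear map which maps the generators into a submodule. -/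
theorem map_mem {σ : Type} {M : Type} [AddCommGroup M] [Module (ZMod 2) M] (t : ℕ)
    (L : PS σ →ₗ[ZMod 2] M) (W : Submodule (ZMod 2) M)
    (h : ∀ (m : ℕ) (α : ℕ →₀ ℕ) (f : PS σ), α ≠ 0 → (∀ j, α j < 2 ^ t) → L (Mp m α f) ∈ W)
    (f : PS σ) (hf : f ∈ NN σ t) : L f ∈ W := by
  have h1 : NN σ t ≤ W.comap L := by
    unfold NN
    rw [Submodule.span_le]
    rintro g ⟨m, α, f, hα, hαt, rfl⟩
    exact h m α f hα hαt
  exact h1 hf

theorem mem_NN {σ : Type} {t m : ℕ} {α : ℕ →₀ ℕ} (f : PS σ) (hα : α ≠ 0)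
    (hαt : ∀ j, α j < 2 ^ t) : Mp m α f ∈ NN σ t :=
  Submodule.subset_span ⟨m, α, f, hα, hαt, rfl⟩

theorem NG_le {σ : Type} (t n : ℕ) : NG σ t n ≤ NN σ t := by
  unfold NG
  rw [Submodule.span_le]
  rintro g ⟨m, α, n', f, _, hα, hαt, _, rfl⟩
  exact mem_NN f hα hαt

theorem Mp_fin_zero (m : ℕ) (α : ℕ →₀ ℕ) (f : PS (Fin 0)) (hα : α ≠ 0) : Mp m α f = 0 := by
  obtain ⟨a, rfl⟩ := C_surjective (R := ZMod 2) (Fin 0) f
  have h1 : ph (Fin 0) m (C a) = C (C a) := by
    have h2 : (C a : PS (Fin 0)) = algebraMap (ZMod 2) (PS (Fin 0)) a := rfl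
    rw [h2, AlgHom.commutes]
    rfl
  show coeff α (ph (Fin 0) m (C a)) = 0
  rw [h1, coeff_C, if_neg hα.symm]

end NNB

theorem t_NNB : Stmt_NNB := by
  intro h
  obtain ⟨_, _, h3, _, _, h6, h7, _, h9, h10, _, _⟩ := h
  have hOH : ∀ (σ : Type) (j κ n : ℕ) (f : PS σ), f ∈ Hg σ n →
      Os j κ f ∈ Hg σ (n + κ * (2 ^ (j + 1) - 1)) := by
    intro σ j κ n f hf
    rw [← h7 σ (j + 1) j κ f (by omega), ← NNB.wt_single]
    exact h3 σ _ _ n f hf
  refine ⟨?_, ?_, ?_, ?_, ?_, ?_, ?_, ?_, hOH, ?_, ?_⟩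
  · intro σ t r f hf
    refine NNB.map_mem t (LinearMap.mulLeft (ZMod 2) (r ^ 2 ^ t)) (NN σ t)
      (fun m α f hα hαt => ?_) f hf
    rw [LinearMap.mulLeft_apply, ← h6 σ m α t r f hαt]
    exact NNB.mem_NN _ hα hαt
  · intro σ s t hst
    unfold NN
    refine Submodule.span_mono ?_
    rintro g ⟨m, α, f, hα, hαt, rfl⟩
    exact ⟨m, α, f, hα, fun j => lt_of_lt_of_le (hαt j) (Nat.pow_le_pow_right (by norm_num) hst),
      rfl⟩
  · intro σ τ _ _ A t f hf
    refine NNB.map_mem t (sb A).toLinearMap (NN τ t) (fun m α f hα hαt => ?_) f hf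
    rw [AlgHom.toLinearMap_apply, h9]
    exact NNB.mem_NN _ hα hαt
  · intro σ τ θ t f hf
    refine NNB.map_mem t (rename (R := ZMod 2) θ).toLinearMap (NN τ t)
      (fun m α f hα hαt => ?_) f hf
    rw [AlgHom.toLinearMap_apply, ← h10]
    exact NNB.mem_NN _ hα hαt
  · intro σ t n f hf hf'
    have h11 := NNB.hc_mem (h3 σ) t n f hf'
    have h12 : homogeneousComponent n f = f := by
      rw [homogeneousComponent_of_mem hf, if_pos rfl]
    rwa [h12] at h11
  · intro σ t n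
    refine ⟨NNB.NG_le t n, ?_⟩
    unfold NG
    rw [Submodule.span_le]
    rintro g ⟨m, α, n', f, hf, _, _, hn, rfl⟩
    rw [← hn]
    exact h3 σ m α n' f hf
  · intro σ t n f hf
    exact NNB.NG_le t n (NNB.hc_mem (h3 σ) t n f hf)
  · intro σ t j κ f hκ hκt
    rw [← h7 σ (j + 1) j κ f (by omega)]
    exact NNB.mem_NN f (NNB.single_ne hκ) (NNB.single_lt (by positivity) hκt)
  · intro σ J n
    unfold OG
    rw [Submodule.span_le]
    rintro g ⟨j, κ, n', f, hf, _, hn, rfl⟩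
    rw [← hn]
    exact hOH σ j κ n' f hf
  · intro t
    rw [eq_bot_iff]
    unfold NN
    rw [Submodule.span_le]
    rintro g ⟨m, α, f, hα, _, rfl⟩
    rw [NNB.Mp_fin_zero m α f hα]
    exact Submodule.zero_mem _

end HGP
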