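import Pool.Agent.HGP.Stmts

/-!
# The operations preserve `NN`
-/

namespace HGP.NRM

open MvPolynomial

/-- Polynomials in two variables over `R`: the inner variable is `η`, the outer one is `ξ`. -/
abbrev PP (R : Type) [CommRing R] : Type := Polynomial (Polynomial R)

/-- The exponents `e 0 = 0`, `e (i + 1) = 1 + 2 ^ a * e i`. -/
def e (a : ℕ) : ℕ → ℕ
  | 0 => 0
  | i + 1 => 1 + 2 ^ a * e a i

/-- The parameters. -/
noncomputable def pr (a b t u : ℕ) : PP (ZMod 2) :=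
  ∑ i ∈ Finset.range t,
    ((if u + 1 = b + a * i then
        Polynomial.C (Polynomial.X ^ e a i) * Polynomial.X ^ 2 ^ (a * i) else 0) +
      (if u + 1 = a + b + a * i then
        Polynomial.C (Polynomial.X ^ (e a i + 2 ^ (b + a * i))) * Polynomial.X ^ 2 ^ (a * i)
        else 0))

theorem X_dvd_pr (a b t u : ℕ) : Polynomial.X ∣ pr a b t u := by
  refine Finset.dvd_sum fun i _ => ?_
  have h : (Polynomial.X : PP (ZMod 2)) ∣ Polynomial.X ^ 2 ^ (a * i) :=
    dvd_pow_self _ (by positivity)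
  refine dvd_add ?_ ?_
  · split_ifs
    · exact h.mul_left _
    · exact dvd_zero _
  · split_ifs
    · exact h.mul_left _
    · exact dvd_zero _

variable {σ : Type}

/-- The constants. -/
noncomputable def io (σ : Type) : PP (ZMod 2) →+* PP (PS σ) :=
  Polynomial.mapRingHom (Polynomial.mapRingHom (algebraMap (ZMod 2) (PS σ)))

/-- The embedding of the coefficients. -/
noncomputable def kk (σ : Type) : PS σ →+* PP (PS σ) := Polynomial.C.comp Polynomial.C

theorem coeff_kk_mul_io (h : PS σ) (G : PP (ZMod 2)) (l κ : ℕ) :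
    ((kk σ h * io σ G).coeff l).coeff κ = (G.coeff l).coeff κ • h := by
  rw [kk, io, RingHom.comp_apply, Polynomial.coeff_C_mul, Polynomial.coe_mapRingHom,
    Polynomial.coeff_map, Polynomial.coeff_C_mul, Polynomial.coe_mapRingHom,
    Polynomial.coeff_map, Algebra.smul_def, mul_comm]

/-- The substitution `Ψ`. -/
noncomputable def Ps (σ : Type) (a b t m : ℕ) : PS σ →+* PP (PS σ) :=
  (eval₂Hom (kk σ) fun u => io σ (pr a b t u)).comp (ph σ m).toRingHom

theorem Ps_eq (a b t m : ℕ) (h : PS σ) : Ps σ a b t m h =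
    ∑ α ∈ (ph σ m h).support, kk σ (Mp m α h) *
      io σ (∏ u ∈ α.support, pr a b t u ^ α u) := by
  change eval₂ (kk σ) (fun u => io σ (pr a b t u)) (ph σ m h) = _
  rw [eval₂_eq]
  refine Finset.sum_congr rfl fun α _ => ?_
  rw [map_prod]
  simp only [map_pow]
  rfl

/-- The elements whose coefficients lie in `NN`. -/
noncomputable def SS (σ : Type) (t : ℕ) : AddSubgroup (PP (PS σ)) where
  carrier := {F | ∀ l κ, 1 ≤ l → l < 2 ^ t → (F.coeff l).coeff κ ∈ NN σ t}
  zero_mem' := by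
    intro l κ _ _
    rw [Polynomial.coeff_zero, Polynomial.coeff_zero]
    exact Submodule.zero_mem _
  add_mem' := by
    intro F G hF hG l κ h1 h2
    rw [Polynomial.coeff_add, Polynomial.coeff_add]
    exact Submodule.add_mem _ (hF l κ h1 h2) (hG l κ h1 h2)
  neg_mem' := by
    intro F hF l κ h1 h2
    rw [Polynomial.coeff_neg, Polynomial.coeff_neg]
    exact Submodule.neg_mem _ (hF l κ h1 h2)

theorem mem_SS {t : ℕ} {F : PP (PS σ)} : F ∈ SS σ t ↔
    ∀ l κ, 1 ≤ l → l < 2 ^ t → (F.coeff l).coeff κ ∈ NN σ t := Iff.rfl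

theorem eta_mul {t : ℕ} {F : PP (PS σ)} (hF : F ∈ SS σ t) (n : ℕ) :
    F * Polynomial.C Polynomial.X ^ n ∈ SS σ t := by
  intro l κ h1 h2
  rw [← map_pow, Polynomial.coeff_mul_C, Polynomial.coeff_mul_X_pow']
  split_ifs
  · exact hF l _ h1 h2
  · exact Submodule.zero_mem _

theorem prod_coeff (a b t : ℕ) (α : ℕ →₀ ℕ) (l : ℕ) (h1 : 1 ≤ l) (h2 : l < 2 ^ t)
    (h : ¬ (α ≠ 0 ∧ ∀ j, α j < 2 ^ t)) : (∏ u ∈ α.support, pr a b t u ^ α u).coeff l = 0 := by
  by_cases h0 : α = 0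
  · subst h0
    rw [Finsupp.support_zero, Finset.prod_empty, Polynomial.coeff_one, if_neg (by omega)]
  · have h3 : ∃ j, 2 ^ t ≤ α j := by
      by_contra hcon
      push Not at hcon
      exact h ⟨h0, hcon⟩
    obtain ⟨j, hj⟩ := h3
    have h4 : (Polynomial.X : PP (ZMod 2)) ^ 2 ^ t ∣ ∏ u ∈ α.support, pr a b t u ^ α u := by
      have h5 : j ∈ α.support := by
        rw [Finsupp.mem_support_iff]
        have : 0 < 2 ^ t := by positivity
        omega
      refine Dvd.dvd.trans ?_ (Finset.dvd_prod_of_mem _ h5)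
      exact (pow_dvd_pow _ hj).trans (pow_dvd_pow_of_dvd (X_dvd_pr a b t j) _)
    rw [Polynomial.X_pow_dvd_iff] at h4
    exact h4 l h2

theorem Ps_mem (a b t m : ℕ) (h : PS σ) : Ps σ a b t m h ∈ SS σ t := by
  rw [Ps_eq]
  refine AddSubgroup.sum_mem _ fun α _ => ?_
  intro l κ h1 h2
  rw [coeff_kk_mul_io]
  by_cases h3 : α ≠ 0 ∧ ∀ j, α j < 2 ^ t
  · exact Submodule.smul_mem _ _ (Submodule.subset_span ⟨m, α, h, h3.1, h3.2, rfl⟩)
  · rw [prod_coeff a b t α l h1 h2 h3, Polynomial.coeff_zero, zero_smul]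
    exact Submodule.zero_mem _

theorem eval_mem (a b t m : ℕ) (g : Polynomial (PS σ)) :
    Polynomial.eval₂ (Ps σ a b t m) (Polynomial.C Polynomial.X) g ∈ SS σ t := by
  rw [Polynomial.eval₂_eq_sum_range]
  exact AddSubgroup.sum_mem _ fun i _ => eta_mul (Ps_mem a b t m _) i

/-! ### the identity -/

/-- The composite. -/
noncomputable def LL (σ : Type) (j j' : ℕ) : PS σ →+* PP (PS σ) :=
  (Polynomial.mapRingHom (es σ j').toRingHom).comp (es σ j).toRingHom

theorem coeff_LL (j j' l κ : ℕ) (f : PS σ) :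
    ((LL σ j j' f).coeff l).coeff κ = Os j' κ (Os j l f) := by
  change ((Polynomial.map (es σ j').toRingHom (es σ j f)).coeff l).coeff κ = _
  rw [Polynomial.coeff_map]
  rfl

/-- The other composite. -/
noncomputable def RR (σ : Type) (j j' t m : ℕ) : PS σ →+* PP (PS σ) :=
  (Polynomial.eval₂RingHom (Ps σ (j' + 1) (j + 1) t m) (Polynomial.C Polynomial.X)).comp
    (es σ j').toRingHom

theorem RR_mem (j j' t m : ℕ) (f : PS σ) : RR σ j j' t m f ∈ SS σ t := eval_mem _ _ _ _ _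

theorem es_X (j : ℕ) (i : σ) : es σ j (X i) =
    Polynomial.C (X i) + Polynomial.C (X i ^ 2 ^ (j + 1)) * Polynomial.X := by
  rw [es, aeval_X]

theorem ph_X (m : ℕ) (i : σ) : ph σ m (X i) =
    C (X i) + ∑ j ∈ Finset.range m, C (X i ^ 2 ^ (j + 1)) * X j := by
  rw [ph, aeval_X]

section charTwo

variable {A : Type} [CommRing A] [CharP A 2]

theorem key (a t : ℕ) (η θ : A) :
    (∑ i ∈ Finset.range t, η ^ e a i * θ ^ 2 ^ (a * i)) +
      (∑ i ∈ Finset.range t, η ^ e a i * θ ^ 2 ^ (a * i)) ^ 2 ^ a * η =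
      θ + η ^ e a t * θ ^ 2 ^ (a * t) := by
  have h1 : (∑ i ∈ Finset.range t, η ^ e a i * θ ^ 2 ^ (a * i)) ^ 2 ^ a * η =
      ∑ i ∈ Finset.range t, η ^ e a (i + 1) * θ ^ 2 ^ (a * (i + 1)) := by
    rw [sum_pow_char_pow, Finset.sum_mul]
    refine Finset.sum_congr rfl fun i _ => ?_
    rw [mul_pow, ← pow_mul, ← pow_mul, e, ← pow_add, mul_add a i 1, mul_one]
    ring
  rw [h1]
  induction t with
  | zero =>
    simp [e, CharTwo.add_self_eq_zero]
  | succ n ih =>
    rw [Finset.sum_range_succ, Finset.sum_range_succ]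
    have h3 : η ^ e a n * θ ^ 2 ^ (a * n) + η ^ e a n * θ ^ 2 ^ (a * n) = 0 :=
      CharTwo.add_self_eq_zero _
    have h4 : (∑ i ∈ Finset.range n, η ^ e a i * θ ^ 2 ^ (a * i)) ^ 2 ^ a * η =
        ∑ i ∈ Finset.range n, η ^ e a (i + 1) * θ ^ 2 ^ (a * (i + 1)) := by
      rw [sum_pow_char_pow, Finset.sum_mul]
      refine Finset.sum_congr rfl fun i _ => ?_
      rw [mul_pow, ← pow_mul, ← pow_mul, e, ← pow_add, mul_add a i 1, mul_one]
      ring
    linear_combination ih h4 + h3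

omit [CharP A 2] in
theorem sum_single (m N : ℕ) (x c : A) (h1 : 1 ≤ N) (h2 : N ≤ m) :
    ∑ u ∈ Finset.range m, x ^ 2 ^ (u + 1) * (if u + 1 = N then c else 0) = x ^ 2 ^ N * c := by
  rw [Finset.sum_eq_single (N - 1)]
  · have h3 : N - 1 + 1 = N := by omega
    rw [h3, if_pos rfl]
  · intro u _ hu
    rw [if_neg (by omega), mul_zero]
  · intro h
    exfalso
    apply h
    rw [Finset.mem_range]
    omega

theorem psi (a b t m : ℕ) (x η ξ : A) (hb : 1 ≤ b) (hm : a + b + a * t ≤ m) :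
    ∑ u ∈ Finset.range m, x ^ 2 ^ (u + 1) * ∑ i ∈ Finset.range t,
      ((if u + 1 = b + a * i then η ^ e a i * ξ ^ 2 ^ (a * i) else 0) +
        (if u + 1 = a + b + a * i then η ^ (e a i + 2 ^ (b + a * i)) * ξ ^ 2 ^ (a * i) else 0)) =
      ∑ i ∈ Finset.range t, η ^ e a i *
        (x ^ 2 ^ b * ξ + x ^ 2 ^ (a + b) * η ^ 2 ^ b * ξ) ^ 2 ^ (a * i) := by
  simp only [Finset.mul_sum]
  rw [Finset.sum_comm]
  refine Finset.sum_congr rfl fun i hi => ?_
  rw [Finset.mem_range] at hi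
  have hai : a * i ≤ a * t := Nat.mul_le_mul_left a hi.le
  simp only [mul_add]
  rw [Finset.sum_add_distrib, sum_single _ _ _ _ (by omega) (by omega),
    sum_single _ _ _ _ (by omega) (by omega), add_pow_char_pow, mul_pow, mul_pow, mul_pow,
    ← pow_mul, ← pow_mul, ← pow_mul, ← pow_add, ← pow_add, pow_add η]
  ring

end charTwo

theorem io_mono (k n : ℕ) : io σ (Polynomial.C (Polynomial.X ^ k) * Polynomial.X ^ n) =
    Polynomial.C Polynomial.X ^ k * Polynomial.X ^ n := by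
  simp [io]

theorem Ps_X (a b t m : ℕ) (i : σ) (hb : 1 ≤ b) (hm : a + b + a * t ≤ m) :
    Ps σ a b t m (X i) = kk σ (X i) + ∑ l ∈ Finset.range t, Polynomial.C Polynomial.X ^ e a l *
      (kk σ (X i) ^ 2 ^ b * Polynomial.X + kk σ (X i) ^ 2 ^ (a + b) *
        Polynomial.C Polynomial.X ^ 2 ^ b * Polynomial.X) ^ 2 ^ (a * l) := by
  rw [← psi a b t m _ _ _ hb hm]
  have h0 : Ps σ a b t m (X i) =
      eval₂Hom (kk σ) (fun u => io σ (pr a b t u)) (ph σ m (X i)) := rfl
  have h1 : ∀ u, io σ (pr a b t u) = ∑ i ∈ Finset.range t,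
      ((if u + 1 = b + a * i then Polynomial.C Polynomial.X ^ e a i * Polynomial.X ^ 2 ^ (a * i)
          else 0) +
        (if u + 1 = a + b + a * i then Polynomial.C Polynomial.X ^ (e a i + 2 ^ (b + a * i)) *
          Polynomial.X ^ 2 ^ (a * i) else 0)) := by
    intro u
    rw [pr, map_sum]
    refine Finset.sum_congr rfl fun l _ => ?_
    rw [map_add]
    refine congrArg₂ (· + ·) ?_ ?_
    · split_ifs
      · exact io_mono _ _
      · exact map_zero _
    · split_ifs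
      · exact io_mono _ _
      · exact map_zero _
  rw [h0, ph_X, map_add, map_sum, eval₂Hom_C]
  refine congrArg₂ (· + ·) rfl (Finset.sum_congr rfl fun u _ => ?_)
  rw [map_mul, eval₂Hom_C, eval₂Hom_X', map_pow, h1]

theorem LL_X (j j' : ℕ) (i : σ) : LL σ j j' (X i) =
    (kk σ (X i) + kk σ (X i) ^ 2 ^ (j' + 1) * Polynomial.C Polynomial.X) +
      (kk σ (X i) + kk σ (X i) ^ 2 ^ (j' + 1) * Polynomial.C Polynomial.X) ^ 2 ^ (j + 1) *
        Polynomial.X := by
  change Polynomial.map (es σ j').toRingHom (es σ j (X i)) = _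
  rw [es_X, Polynomial.map_add, Polynomial.map_mul, Polynomial.map_C, Polynomial.map_C,
    Polynomial.map_X]
  have h1 : (es σ j').toRingHom (X i) = es σ j' (X i) := rfl
  rw [map_pow, h1, es_X]
  simp [kk]

theorem RR_X (j j' t m : ℕ) (i : σ) : RR σ j j' t m (X i) =
    Ps σ (j' + 1) (j + 1) t m (X i) +
      Ps σ (j' + 1) (j + 1) t m (X i) ^ 2 ^ (j' + 1) * Polynomial.C Polynomial.X := by
  change Polynomial.eval₂ (Ps σ (j' + 1) (j + 1) t m) (Polynomial.C Polynomial.X)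
    (es σ j' (X i)) = _
  rw [es_X, Polynomial.eval₂_add, Polynomial.eval₂_mul, Polynomial.eval₂_C, Polynomial.eval₂_C,
    Polynomial.eval₂_X, map_pow]

theorem dvd_X (j j' t m : ℕ) (i : σ) (hm : j' + 1 + (j + 1) + (j' + 1) * t ≤ m) :
    Polynomial.X ^ 2 ^ t ∣ RR σ j j' t m (X i) - LL σ j j' (X i) := by
  rw [LL_X, RR_X, Ps_X _ _ _ _ _ (by omega) hm]
  generalize kk σ (X i) = x
  generalize (Polynomial.C Polynomial.X : PP (PS σ)) = η
  generalize hθ : x ^ 2 ^ (j + 1) * Polynomial.X +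
    x ^ 2 ^ (j' + 1 + (j + 1)) * η ^ 2 ^ (j + 1) * Polynomial.X = θ
  have h1 := key (j' + 1) t η θ
  have h2 : (x + ∑ l ∈ Finset.range t, η ^ e (j' + 1) l * θ ^ 2 ^ ((j' + 1) * l)) +
      (x + ∑ l ∈ Finset.range t, η ^ e (j' + 1) l * θ ^ 2 ^ ((j' + 1) * l)) ^ 2 ^ (j' + 1) * η -
      ((x + x ^ 2 ^ (j' + 1) * η) + (x + x ^ 2 ^ (j' + 1) * η) ^ 2 ^ (j + 1) * Polynomial.X) =
      η ^ e (j' + 1) t * θ ^ 2 ^ ((j' + 1) * t) := by
    rw [add_pow_char_pow, add_pow_char_pow x, mul_pow, ← pow_mul, ← pow_add]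
    linear_combination h1 - hθ
  rw [h2]
  refine Dvd.dvd.mul_left ?_ _
  have h3 : (Polynomial.X : PP (PS σ)) ∣ θ := by
    rw [← hθ]
    exact dvd_add (Dvd.intro_left _ rfl) (Dvd.intro_left _ rfl)
  have h4 : t ≤ (j' + 1) * t := Nat.le_mul_of_pos_left t (by omega)
  exact (pow_dvd_pow _ (Nat.pow_le_pow_right (by norm_num) h4)).trans (pow_dvd_pow_of_dvd h3 _)

theorem dvd_all (j j' t m : ℕ) (hm : j' + 1 + (j + 1) + (j' + 1) * t ≤ m) (f : PS σ) :
    Polynomial.X ^ 2 ^ t ∣ RR σ j j' t m f - LL σ j j' f := by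
  have h1 : (Ideal.Quotient.mk (Ideal.span {(Polynomial.X : PP (PS σ)) ^ 2 ^ t})).comp
      (RR σ j j' t m) =
      (Ideal.Quotient.mk (Ideal.span {(Polynomial.X : PP (PS σ)) ^ 2 ^ t})).comp
        (LL σ j j') := by
    refine MvPolynomial.ringHom_ext' (Subsingleton.elim _ _) fun i => ?_
    rw [RingHom.comp_apply, RingHom.comp_apply, Ideal.Quotient.mk_eq_mk_iff_sub_mem,
      Ideal.mem_span_singleton]
    exact dvd_X j j' t m i hm
  have h2 := congrArg (fun g => g f) h1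
  simp only [RingHom.comp_apply] at h2
  rwa [Ideal.Quotient.mk_eq_mk_iff_sub_mem, Ideal.mem_span_singleton] at h2

theorem Os_Os (t j j' κ l : ℕ) (f : PS σ) (h1 : 1 ≤ l) (h2 : l < 2 ^ t) :
    Os j' κ (Os j l f) ∈ NN σ t := by
  have h3 := dvd_all j j' t _ le_rfl f
  rw [Polynomial.X_pow_dvd_iff] at h3
  have h4 := h3 l h2
  rw [Polynomial.coeff_sub, sub_eq_zero] at h4
  rw [← coeff_LL, ← h4]
  exact RR_mem j j' t _ f l κ h1 h2

end HGP.NRM

namespace HGP

open MvPolynomial NRM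

theorem t_NRM : Stmt_NRM := by
  intro _ hNNB hGEN σ t j κ f hf
  obtain ⟨_, _, _, _, _, _, hcomp, _, _, _, _⟩ := hNNB
  rcases Nat.eq_zero_or_pos t with h0 | h0
  · subst h0
    have h1 : NN σ 0 = ⊥ := by
      rw [NN, Submodule.span_eq_bot]
      rintro g ⟨m, α, f, hα, hlt, -⟩
      exfalso
      apply hα
      ext i
      have := hlt i
      rw [pow_zero] at this
      rw [Finsupp.coe_zero, Pi.zero_apply]
      omega
    rw [h1, Submodule.mem_bot] at hf
    rw [hf, map_zero]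
    exact Submodule.zero_mem _
  · have h1 : f = ∑ n ∈ Finset.range (f.totalDegree + 1), homogeneousComponent n f :=
      (sum_homogeneousComponent f).symm
    rw [h1, map_sum]
    refine Submodule.sum_mem _ fun n _ => ?_
    have h2 : homogeneousComponent n f ∈ OG σ (JG t) n :=
      hGEN σ t n _ h0 (homogeneousComponent_isHomogeneous n f) (hcomp σ t n f hf)
    generalize homogeneousComponent n f = g at h2
    rw [OG] at h2
    induction h2 using Submodule.span_induction with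
    | mem x hx =>
      obtain ⟨j₁, κ₁, n', f', -, hJ, -, rfl⟩ := hx
      have h3 : 1 ≤ κ₁ ∧ κ₁ < 2 ^ t := by
        rcases hJ with ⟨-, i, hi, rfl⟩ | rfl
        · exact ⟨Nat.one_le_two_pow, Nat.pow_lt_pow_right (by norm_num) hi⟩
        · exact ⟨Nat.one_le_two_pow, Nat.pow_lt_pow_right (by norm_num) (by omega)⟩
      exact Os_Os t j₁ j κ κ₁ f' h3.1 h3.2
    | zero =>
      rw [map_zero]
      exact Submodule.zero_mem _
    | add x y _ _ hx hy =>
      rw [map_add]
      exact Submodule.add_mem _ hx hy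
    | smul c x _ hx =>
      rw [map_smul]
      exact Submodule.smul_mem _ _ hx

end HGP
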