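import Pool.Agent.HGP.Stmts

/-!
# OPB: basic facts on the operations
-/

namespace HGP

open MvPolynomial
open Pool.Agent.Lib_helper74.Hit (hits qd up cf Sq totalSq)

namespace OPB

variable {σ τ : Type}

theorem Mp_apply (m : ℕ) (α : ℕ →₀ ℕ) (f : PS σ) : Mp m α f = coeff α (ph σ m f) := rfl

theorem Os_apply (j κ : ℕ) (f : PS σ) : Os j κ f = (es σ j f).coeff κ := rfl

theorem ph_X (m : ℕ) (i : σ) : ph σ m (X i) =
    C (X i) + ∑ j ∈ Finset.range m, C (X i ^ 2 ^ (j + 1)) * X j := aeval_X _ _

theorem es_X (j : ℕ) (i : σ) : es σ j (X i) =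
    Polynomial.C (X i) + Polynomial.C (X i ^ 2 ^ (j + 1)) * Polynomial.X := aeval_X _ _

theorem ph_C (m : ℕ) (a : ZMod 2) : ph σ m (C a) = C (C a) := by
  have h := (ph σ m).commutes a
  exact h

/-! ### squares -/

theorem coeff_sq {R : Type} [CommRing R] [CharP R 2] (F : MvPolynomial ℕ R) (β : ℕ →₀ ℕ) :
    coeff β (F ^ 2) = ∑ s ∈ F.support, if 2 • s = β then coeff s F ^ 2 else 0 := by
  classical
  have h : F ^ 2 = ∑ s ∈ F.support, monomial (2 • s) (coeff s F ^ 2) := by
    conv_lhs => rw [F.as_sum]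
    rw [CharTwo.sum_sq]
    exact Finset.sum_congr rfl fun s _ => monomial_pow
  rw [h, coeff_sum]
  exact Finset.sum_congr rfl fun s _ => coeff_monomial _ _ _

theorem coeff_sq_two {R : Type} [CommRing R] [CharP R 2] (F : MvPolynomial ℕ R) (α : ℕ →₀ ℕ) :
    coeff (2 • α) (F ^ 2) = coeff α F ^ 2 := by
  classical
  have hinj : ∀ s : ℕ →₀ ℕ, 2 • s = 2 • α ↔ s = α := by
    intro s
    constructor
    · intro h
      ext i
      have := DFunLike.congr_fun h i
      simp only [Finsupp.smul_apply, smul_eq_mul] at this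
      omega
    · rintro rfl
      rfl
  rw [coeff_sq]
  simp only [hinj]
  rw [Finset.sum_ite_eq']
  split_ifs with h
  · rfl
  · rw [notMem_support_iff.1 h]
    exact (zero_pow two_ne_zero).symm

theorem coeff_sq_odd {R : Type} [CommRing R] [CharP R 2] (F : MvPolynomial ℕ R) (β : ℕ →₀ ℕ)
    (h : ∃ j, ¬ 2 ∣ β j) : coeff β (F ^ 2) = 0 := by
  rw [coeff_sq]
  refine Finset.sum_eq_zero fun s _ => if_neg ?_
  rintro rfl
  obtain ⟨j, hj⟩ := h
  exact hj ⟨s j, by simp⟩

theorem coeff_pow {R : Type} [CommRing R] [CharP R 2] (F : MvPolynomial ℕ R) (t : ℕ) :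
    ∀ β : ℕ →₀ ℕ, (∀ j, β j < 2 ^ t) → coeff β (F ^ 2 ^ t) =
      if β = 0 then coeff 0 F ^ 2 ^ t else 0 := by
  induction t with
  | zero =>
    intro β hβ
    have : β = 0 := by
      ext j
      have := hβ j
      simp at this
      simpa using this
    subst this
    simp
  | succ t ih =>
    intro β hβ
    rw [pow_succ 2 t, pow_mul]
    by_cases h : ∃ j, ¬ 2 ∣ β j
    · rw [coeff_sq_odd _ _ h, if_neg]
      rintro rfl
      obtain ⟨j, hj⟩ := h
      exact hj (by simp)
    · push Not at h
      obtain ⟨α, rfl⟩ : ∃ α : ℕ →₀ ℕ, β = 2 • α := by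
        refine ⟨β.mapRange (fun a => a / 2) (Nat.zero_div _), ?_⟩
        ext j
        simp only [Finsupp.smul_apply, Finsupp.mapRange_apply, smul_eq_mul]
        exact (Nat.mul_div_cancel' (h j)).symm
      rw [coeff_sq_two, ih α (fun j => by
        have := hβ j
        simp only [Finsupp.smul_apply, smul_eq_mul] at this
        rw [pow_succ] at this
        omega)]
      by_cases h0 : α = 0
      · subst h0
        rw [if_pos rfl, if_pos (smul_zero _), pow_mul]
      · rw [if_neg h0, if_neg (fun h2 => h0 (by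
          ext j
          have := DFunLike.congr_fun h2 j
          simp only [Finsupp.smul_apply, smul_eq_mul, Finsupp.coe_zero, Pi.zero_apply] at this
          simpa using this))]
        exact zero_pow two_ne_zero

/-! ### the parts -/

theorem Mp_zero (m : ℕ) (f : PS σ) : Mp m 0 f = f := by
  have h : ((constantCoeff : MvPolynomial ℕ (PS σ) →+* PS σ).comp (ph σ m).toRingHom) =
      RingHom.id (PS σ) := by
    apply MvPolynomial.ringHom_ext
    · intro r
      change constantCoeff (ph σ m (C r)) = _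
      rw [ph_C, constantCoeff_C]
      rfl
    · intro i
      change constantCoeff (ph σ m (X i)) = _
      rw [ph_X, map_add, map_sum, constantCoeff_C]
      simp
  exact congrArg (fun F => F f) h

theorem Mp_mul (m : ℕ) (α : ℕ →₀ ℕ) (f g : PS σ) : Mp m α (f * g) =
    ∑ p ∈ Finset.HasAntidiagonal.antidiagonal α, Mp m p.1 f * Mp m p.2 g := by
  classical
  rw [Mp_apply, map_mul, coeff_mul]
  refine Finset.sum_congr ?_ fun p _ => rfl
  ext p
  simp

theorem wt_zero : wt 0 = 0 := Finsupp.sum_zero_index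

theorem wt_add (α β : ℕ →₀ ℕ) : wt (α + β) = wt α + wt β := by
  unfold wt
  exact Finsupp.sum_add_index' (fun _ => zero_mul _) fun _ _ _ => add_mul _ _ _

theorem wt_single (j a : ℕ) : wt (Finsupp.single j a) = a * (2 ^ (j + 1) - 1) := by
  unfold wt
  exact Finsupp.sum_single_index (zero_mul _)

/-- Homogeneity of all coefficients. -/
def Hm (n : ℕ) (F : MvPolynomial ℕ (PS σ)) : Prop :=
  ∀ α, (coeff α F).IsHomogeneous (n + wt α)

theorem Hm.mul {m n : ℕ} {F G : MvPolynomial ℕ (PS σ)} (hF : Hm m F) (hG : Hm n G) :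
    Hm (m + n) (F * G) := by
  classical
  intro α
  rw [coeff_mul]
  apply IsHomogeneous.sum
  intro p hp
  rw [Finset.HasAntidiagonal.mem_antidiagonal] at hp
  have h := (hF p.1).mul (hG p.2)
  have e : m + n + wt α = m + wt p.1 + (n + wt p.2) := by
    rw [← hp, wt_add]
    omega
  rw [e]
  exact h

theorem Hm.add {n : ℕ} {F G : MvPolynomial ℕ (PS σ)} (hF : Hm n F) (hG : Hm n G) :
    Hm n (F + G) := fun α => by
  rw [coeff_add]
  exact (hF α).add (hG α)

theorem Hm.sum {ι : Type*} (s : Finset ι) (n : ℕ) (F : ι → MvPolynomial ℕ (PS σ))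
    (h : ∀ i ∈ s, Hm n (F i)) : Hm n (∑ i ∈ s, F i) := fun α => by
  rw [coeff_sum]
  exact IsHomogeneous.sum _ _ _ fun i hi => h i hi α

theorem Hm.C {n : ℕ} {f : PS σ} (hf : f.IsHomogeneous n) :
    Hm n (MvPolynomial.C f : MvPolynomial ℕ (PS σ)) := fun α => by
  classical
  rw [coeff_C]
  split_ifs with h
  · subst h
    rw [wt_zero]
    exact hf
  · exact isHomogeneous_zero _ _ _

theorem Hm.one : Hm 0 (1 : MvPolynomial ℕ (PS σ)) := by
  rw [← MvPolynomial.C_1]
  exact Hm.C (isHomogeneous_one σ (ZMod 2))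

theorem Hm.pow {m : ℕ} {F : MvPolynomial ℕ (PS σ)} (hF : Hm m F) (e : ℕ) :
    Hm (m * e) (F ^ e) := by
  induction e with
  | zero => simpa using Hm.one
  | succ e ih =>
    rw [pow_succ, Nat.mul_succ]
    exact ih.mul hF

theorem Hm.prod {ι : Type*} (s : Finset ι) (m : ι → ℕ)
    (F : ι → MvPolynomial ℕ (PS σ)) (h : ∀ i ∈ s, Hm (m i) (F i)) :
    Hm (∑ i ∈ s, m i) (∏ i ∈ s, F i) := by
  classical
  induction s using Finset.induction_on with
  | empty => simpa using Hm.one
  | insert a s ha ih =>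
    rw [Finset.sum_insert ha, Finset.prod_insert ha]
    exact (h a (by simp)).mul (ih fun i hi => h i (by simp [hi]))

theorem Hm_X (m : ℕ) (i : σ) : Hm 1 (ph σ m (X i)) := by
  classical
  rw [ph_X]
  refine (Hm.C (isHomogeneous_X (ZMod 2) i)).add (Hm.sum _ _ _ fun j _ => ?_)
  intro α
  rw [coeff_C_mul, coeff_X]
  split_ifs with h
  · subst h
    rw [mul_one, wt_single, one_mul]
    have h2 : 1 + (2 ^ (j + 1) - 1) = 2 ^ (j + 1) := by
      have := Nat.one_le_two_pow (n := j + 1)
      omega
    rw [h2]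
    have := (isHomogeneous_X (ZMod 2) i).pow (2 ^ (j + 1))
    rwa [one_mul] at this
  · rw [mul_zero]
    exact isHomogeneous_zero _ _ _

theorem Hm_monomial (m : ℕ) (s : σ →₀ ℕ) (c : ZMod 2) : Hm s.degree (ph σ m (monomial s c)) := by
  rw [MvPolynomial.monomial_eq, map_mul]
  have h2 : Hm 0 (ph σ m (MvPolynomial.C c)) := by
    rw [ph_C]
    exact Hm.C (isHomogeneous_C σ c)
  have h3 : Hm s.degree (ph σ m (s.prod fun n e => X n ^ e)) := by
    rw [Finsupp.prod, map_prod, Finsupp.degree]
    apply Hm.prod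
    intro i _
    rw [map_pow]
    have := (Hm_X m i).pow (s i)
    rwa [one_mul] at this
  have := h2.mul h3
  rwa [zero_add] at this

theorem Mp_homog (m : ℕ) (α : ℕ →₀ ℕ) (n : ℕ) (f : PS σ) (hf : f ∈ Hg σ n) :
    Mp m α f ∈ Hg σ (n + wt α) := by
  classical
  have hf' : f.IsHomogeneous n := hf
  change (Mp m α f).IsHomogeneous (n + wt α)
  rw [f.as_sum, map_sum]
  apply IsHomogeneous.sum
  intro s hs
  have h := Hm_monomial m s (coeff s f) α
  have hd : s.degree = n := by
    have := hf'.degree_eq_sum_deg_support hs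
    simpa [Finsupp.degree] using this.symm
  rw [hd] at h
  exact h

theorem ph_supported (m : ℕ) (f : PS σ) :
    ph σ m f ∈ supported (PS σ) (Set.Iio m : Set ℕ) := by
  induction f using MvPolynomial.induction_on with
  | C a =>
    rw [ph_C]
    exact Subalgebra.algebraMap_mem _ _
  | add p q hp hq =>
    rw [map_add]
    exact add_mem hp hq
  | mul_X p i hp =>
    rw [map_mul, ph_X]
    refine mul_mem hp (add_mem (Subalgebra.algebraMap_mem _ _) (sum_mem fun j hj =>
      mul_mem (Subalgebra.algebraMap_mem _ _) ?_))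
    rw [X_mem_supported]
    exact Finset.mem_range.1 hj

theorem Mp_supp (m : ℕ) (α : ℕ →₀ ℕ) (f : PS σ) (h : ¬ (∀ j, α j ≠ 0 → j < m)) :
    Mp m α f = 0 := by
  classical
  by_contra h0
  apply h
  intro j hj
  have h1 := mem_supported.1 (ph_supported m f)
  have h2 : j ∈ (ph σ m f).vars := by
    rw [mem_vars_iff_mem_support]
    exact ⟨α, mem_support_iff.2 h0, Finsupp.mem_support_iff.2 hj⟩
  exact h1 h2

/-- The difference of two total operations lies in the ideal of the last parameters. -/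
theorem ph_sub (m m' : ℕ) (h : m ≤ m') (f : PS σ) :
    ph σ m' f - ph σ m f ∈
      Ideal.span ((X : ℕ → MvPolynomial ℕ (PS σ)) '' (Set.Ici m)) := by
  set I := Ideal.span ((X : ℕ → MvPolynomial ℕ (PS σ)) '' (Set.Ici m))
  have h1 : (Ideal.Quotient.mk I).comp (ph σ m').toRingHom =
      (Ideal.Quotient.mk I).comp (ph σ m).toRingHom := by
    apply MvPolynomial.ringHom_ext
    · intro a
      change Ideal.Quotient.mk I (ph σ m' (C a)) = Ideal.Quotient.mk I (ph σ m (C a))
      rw [ph_C, ph_C]
    · intro i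
      change Ideal.Quotient.mk I (ph σ m' (X i)) = Ideal.Quotient.mk I (ph σ m (X i))
      rw [Ideal.Quotient.eq, ph_X, ph_X]
      obtain ⟨k, rfl⟩ := Nat.exists_eq_add_of_le h
      rw [Finset.sum_range_add, add_sub_add_left_eq_sub, add_sub_cancel_left]
      refine Ideal.sum_mem _ fun j _ => Ideal.mul_mem_left _ _ (Ideal.subset_span ?_)
      exact ⟨m + j, Nat.le_add_right m j, rfl⟩
  exact Ideal.Quotient.eq.1 (congrArg (fun F => F f) h1)

theorem Mp_indep_le (m m' : ℕ) (hm : m ≤ m') (α : ℕ →₀ ℕ) (f : PS σ)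
    (h : ∀ j, α j ≠ 0 → j < m) : Mp m' α f = Mp m α f := by
  classical
  rw [Mp_apply, Mp_apply, ← sub_eq_zero, ← coeff_sub]
  by_contra h0
  obtain ⟨j, hj, hj0⟩ := mem_ideal_span_X_image.1 (ph_sub m m' hm f) α (mem_support_iff.2 h0)
  exact absurd (h j hj0) (not_lt.2 hj)

theorem Mp_indep (m m' : ℕ) (α : ℕ →₀ ℕ) (f : PS σ) (h : ∀ j, α j ≠ 0 → j < m)
    (h' : ∀ j, α j ≠ 0 → j < m') : Mp m α f = Mp m' α f := by
  rcases le_total m m' with hm | hm
  · exact (Mp_indep_le m m' hm α f h).symm
  · exact Mp_indep_le m' m hm α f h'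

theorem Mp_pow_mul (m : ℕ) (α : ℕ →₀ ℕ) (t : ℕ) (r f : PS σ) (h : ∀ j, α j < 2 ^ t) :
    Mp m α (r ^ 2 ^ t * f) = r ^ 2 ^ t * Mp m α f := by
  classical
  rw [Mp_mul]
  rw [Finset.sum_eq_single (0, α)]
  · rw [Mp_zero]
  · rintro ⟨p, q⟩ hp hne
    rw [Finset.HasAntidiagonal.mem_antidiagonal] at hp
    change p + q = α at hp
    have hp0 : p ≠ 0 := by
      rintro rfl
      rw [zero_add] at hp
      exact hne (by rw [hp])
    change Mp m p (r ^ 2 ^ t) * Mp m q f = 0
    rw [Mp_apply, map_pow, coeff_pow _ t p (fun j => by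
      have h1 := DFunLike.congr_fun hp j
      rw [Finsupp.add_apply] at h1
      have := h j
      omega), if_neg hp0, zero_mul]
  · intro h1
    exact absurd (Finset.HasAntidiagonal.mem_antidiagonal.2 (zero_add α)) h1

/-! ### one parameter -/

/-- All parameters other than number `j` become zero. -/
noncomputable def th (σ : Type) (j : ℕ) : MvPolynomial ℕ (PS σ) →ₐ[PS σ] Polynomial (PS σ) :=
  aeval fun i => if i = j then Polynomial.X else 0

theorem th_coeff (j κ : ℕ) (F : MvPolynomial ℕ (PS σ)) :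
    (th σ j F).coeff κ = coeff (Finsupp.single j κ) F := by
  classical
  induction F using MvPolynomial.induction_on' with
  | monomial s a =>
    rw [th, aeval_monomial, coeff_monomial]
    by_cases hs : ∃ i, i ≠ j ∧ s i ≠ 0
    · obtain ⟨i, hij, hi⟩ := hs
      have h1 : (s.prod fun i k => (if i = j then Polynomial.X else 0 : Polynomial (PS σ)) ^ k) =
          0 := by
        refine Finset.prod_eq_zero (Finsupp.mem_support_iff.2 hi) ?_
        change (if i = j then Polynomial.X else 0 : Polynomial (PS σ)) ^ s i = 0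
        rw [if_neg hij]
        exact zero_pow hi
      rw [h1, mul_zero, Polynomial.coeff_zero, if_neg]
      rintro rfl
      exact hi (Finsupp.single_eq_of_ne hij)
    · push Not at hs
      have h2 : s = Finsupp.single j (s j) := by
        ext i
        by_cases hij : i = j
        · subst hij
          rw [Finsupp.single_eq_same]
        · rw [hs i hij, Finsupp.single_eq_of_ne hij]
      have h3 : (s.prod fun i k => (if i = j then Polynomial.X else 0 : Polynomial (PS σ)) ^ k) =
          Polynomial.X ^ s j := by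
        conv_lhs => rw [h2]
        rw [Finsupp.prod_single_index]
        · rw [if_pos rfl]
        · rw [pow_zero]
      rw [h3]
      change (Polynomial.C a * Polynomial.X ^ s j).coeff κ = _
      rw [Polynomial.coeff_C_mul_X_pow]
      by_cases hκ : κ = s j
      · rw [if_pos hκ, if_pos (by rw [hκ]; exact h2)]
      · rw [if_neg hκ, if_neg]
        intro h4
        have := DFunLike.congr_fun h4 j
        rw [Finsupp.single_eq_same] at this
        exact hκ this.symm
  | add p q hp hq =>
    rw [map_add, Polynomial.coeff_add, coeff_add, hp, hq]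

theorem th_ph (m j : ℕ) (hj : j < m) (f : PS σ) : th σ j (ph σ m f) = es σ j f := by
  have h : (th σ j).toRingHom.comp (ph σ m).toRingHom = (es σ j).toRingHom := by
    apply MvPolynomial.ringHom_ext
    · intro a
      change th σ j (ph σ m (C a)) = es σ j (C a)
      rw [ph_C]
      exact ((th σ j).commutes (C a)).trans ((es σ j).commutes a).symm
    · intro i
      change th σ j (ph σ m (X i)) = es σ j (X i)
      rw [ph_X, es_X, map_add, map_sum]
      congr 1
      · exact (th σ j).commutes _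
      · rw [Finset.sum_eq_single j]
        · rw [map_mul]
          congr 1
          · exact (th σ j).commutes _
          · rw [th, aeval_X, if_pos rfl]
        · intro l _ hl
          rw [map_mul, th, aeval_X, if_neg hl, mul_zero]
        · intro h
          exact absurd (Finset.mem_range.2 hj) h
  exact congrArg (fun F => F f) h

theorem Mp_single (m j κ : ℕ) (f : PS σ) (hj : j < m) :
    Mp m (Finsupp.single j κ) f = Os j κ f := by
  rw [Mp_apply, Os_apply, ← th_ph m j hj, th_coeff]

theorem Os_zero (κ : ℕ) (f : PS σ) : Os 0 κ f = Sq κ f := by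
  have h : es σ 0 = totalSq σ := rfl
  rw [Os_apply, h]
  rfl

/-! ### substitutions -/

/-- The property of the variables which is inherited by linear forms. -/
def Lin (m : ℕ) (f : PS σ) : Prop :=
  ph σ m f = C f + ∑ j ∈ Finset.range m, C (f ^ 2 ^ (j + 1)) * X j

theorem Lin_X (m : ℕ) (i : σ) : Lin m (X i) := ph_X m i

theorem Lin_zero (m : ℕ) : Lin m (0 : PS σ) := by
  unfold Lin
  rw [map_zero, map_zero, zero_add]
  refine (Finset.sum_eq_zero fun j _ => ?_).symm
  rw [zero_pow (by positivity), map_zero, zero_mul]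

theorem Lin_add (m : ℕ) {f g : PS σ} (hf : Lin m f) (hg : Lin m g) : Lin m (f + g) := by
  unfold Lin at *
  rw [map_add, hf, hg, map_add]
  have : ∀ j ∈ Finset.range m, (C ((f + g) ^ 2 ^ (j + 1)) : MvPolynomial ℕ (PS σ)) * X j =
      C (f ^ 2 ^ (j + 1)) * X j + C (g ^ 2 ^ (j + 1)) * X j := by
    intro j _
    rw [add_pow_char_pow, map_add, add_mul]
  rw [Finset.sum_congr rfl this, Finset.sum_add_distrib]
  abel

theorem Lin_sum {ι : Type*} (m : ℕ) (s : Finset ι) (f : ι → PS σ) (h : ∀ i ∈ s, Lin m (f i)) :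
    Lin m (∑ i ∈ s, f i) := by
  classical
  induction s using Finset.induction_on with
  | empty => exact Lin_zero m
  | insert a s ha ih =>
    rw [Finset.sum_insert ha]
    exact Lin_add m (h a (by simp)) (ih fun i hi => h i (by simp [hi]))

theorem Lin_lf [Fintype τ] (m : ℕ) (w : WS τ) : Lin m (lf w) := by
  refine Lin_sum m _ _ fun i _ => ?_
  have h : ∀ a : ZMod 2, Lin m (C a * X i : PS τ) := by
    intro a
    fin_cases a
    · change Lin m (C 0 * X i : PS τ)
      rw [map_zero, zero_mul]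
      exact Lin_zero m
    · change Lin m (C 1 * X i : PS τ)
      rw [map_one, one_mul]
      exact Lin_X m i
  exact h _

theorem Mp_hom (m : ℕ) (φ : PS σ →ₐ[ZMod 2] PS τ) (hφ : ∀ i, Lin m (φ (X i))) (α : ℕ →₀ ℕ)
    (f : PS σ) : Mp m α (φ f) = φ (Mp m α f) := by
  have h : (ph τ m).toRingHom.comp φ.toRingHom =
      (MvPolynomial.map φ.toRingHom).comp (ph σ m).toRingHom := by
    apply MvPolynomial.ringHom_ext
    · intro a
      change ph τ m (φ (C a)) = MvPolynomial.map φ.toRingHom (ph σ m (C a))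
      have e : φ (C a) = C a := φ.commutes a
      rw [e, ph_C, ph_C, map_C]
      change _ = C (φ (C a))
      rw [e]
    · intro i
      change ph τ m (φ (X i)) = MvPolynomial.map φ.toRingHom (ph σ m (X i))
      rw [hφ i, ph_X, map_add, map_sum, map_C]
      congr 1
      refine Finset.sum_congr rfl fun j _ => ?_
      rw [map_mul, map_C, map_X]
      change _ = C (φ (X i ^ 2 ^ (j + 1))) * X j
      have e : φ (X i ^ 2 ^ (j + 1)) = φ (X i) ^ 2 ^ (j + 1) := map_pow _ _ _
      rw [e]
  have h2 : ph τ m (φ f) = MvPolynomial.map φ.toRingHom (ph σ m f) := congrArg (fun F => F f) h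
  rw [Mp_apply, h2, coeff_map]
  rfl

end OPB

theorem t_OPB : Stmt_OPB := by
  refine ⟨fun σ m f => OPB.Mp_zero m f, fun σ m α f g => OPB.Mp_mul m α f g,
    fun σ m α n f hf => OPB.Mp_homog m α n f hf, fun σ m α f h => OPB.Mp_supp m α f h,
    fun σ m m' α f h h' => OPB.Mp_indep m m' α f h h',
    fun σ m α t r f h => OPB.Mp_pow_mul m α t r f h,
    fun σ m j κ f h => OPB.Mp_single m j κ f h, fun σ κ f => OPB.Os_zero κ f,
    fun σ τ _ _ A m α f => ?_, fun σ τ θ m α f => ?_, fun σ m α f h => ?_, fun σ m α f => ?_⟩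
  · refine (OPB.Mp_hom m (sb A) (fun i => ?_) α f).symm
    have : sb A (X i) = lf (A (Pi.single i 1)) := aeval_X _ _
    rw [this]
    exact OPB.Lin_lf m _
  · refine OPB.Mp_hom m (rename θ) (fun i => ?_) α f
    rw [rename_X]
    exact OPB.Lin_X m _
  · rw [OPB.Mp_apply, map_pow]
    exact OPB.coeff_sq_odd _ _ h
  · rw [OPB.Mp_apply, map_pow]
    exact OPB.coeff_sq_two _ _

end HGP
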