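import Pool.Agent.HGP.Stmts

/-!
# Gap splitting for the hit problem, module PJE: one more variable
-/

namespace HGP

open MvPolynomial
open Pool.Agent.Lib_helper74.Hit (hits qd up cf Sq)

namespace PJE

theorem sb_X {σ τ : Type} [DecidableEq σ] [Fintype τ] (A : WS σ →ₗ[ZMod 2] WS τ) (i : σ) :
    sb A (X i) = lf (A (Pi.single i 1)) := by
  rw [sb, aeval_X]

theorem ee_zero {d k m : ℕ} (g : WS (Fin d) ≃ₗ[ZMod 2] WS (Fin k ⊕ Fin m)) :
    lf (ee g (Pi.single 0 1)) = X (Sum.inl 0) := by
  have h0 : Fin.tail (Pi.single 0 1 : WS (Fin (d + 1))) = (0 : WS (Fin d)) := by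
    funext i
    exact Pi.single_eq_of_ne (Fin.succ_ne_zero i) _
  have h1 : ee g (Pi.single 0 1) = Pi.single (Sum.inl 0) 1 := by
    funext x
    rcases x with i | j
    · refine Fin.cases ?_ (fun i => ?_) i
      · change (Pi.single 0 1 : WS (Fin (d + 1))) 0 = _
        rw [Pi.single_eq_same, Pi.single_eq_same]
      · change g (Fin.tail (Pi.single 0 1 : WS (Fin (d + 1)))) (Sum.inl i) = _
        rw [h0, map_zero, Pi.zero_apply, Pi.single_eq_of_ne]
        intro h
        exact Fin.succ_ne_zero i (Sum.inl_injective h)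
    · change g (Fin.tail (Pi.single 0 1 : WS (Fin (d + 1)))) (Sum.inr j) = _
      rw [h0, map_zero, Pi.zero_apply, Pi.single_eq_of_ne (by simp)]
  rw [h1, lf, Finset.sum_eq_single (Sum.inl 0)]
  · rw [Pi.single_eq_same, map_one, one_mul]
  · intro b _ hb
    rw [Pi.single_eq_of_ne hb, map_zero, zero_mul]
  · intro h
    exact absurd (Finset.mem_univ _) h

theorem ee_succ {d k m : ℕ} (g : WS (Fin d) ≃ₗ[ZMod 2] WS (Fin k ⊕ Fin m)) (i : Fin d) :
    lf (ee g (Pi.single i.succ 1)) = rename (Sum.map Fin.succ id) (lf (g (Pi.single i 1))) := by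
  have h0 : Fin.tail (Pi.single i.succ 1 : WS (Fin (d + 1))) = (Pi.single i 1 : WS (Fin d)) := by
    funext j
    change (Pi.single i.succ 1 : WS (Fin (d + 1))) j.succ = _
    by_cases h : j = i
    · subst h
      rw [Pi.single_eq_same, Pi.single_eq_same]
    · rw [Pi.single_eq_of_ne h, Pi.single_eq_of_ne fun h' => h (Fin.succ_injective _ h')]
  have h1 : ∀ j : Fin m, ee g (Pi.single i.succ 1) (Sum.inr j) = g (Pi.single i 1) (Sum.inr j) := by
    intro j
    rw [← h0]
    rfl
  have h2 : ∀ j : Fin k, ee g (Pi.single i.succ 1) (Sum.inl j.succ) =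
      g (Pi.single i 1) (Sum.inl j) := by
    intro j
    rw [← h0]
    rfl
  have h3 : ee g (Pi.single i.succ 1) (Sum.inl 0) = 0 := by
    change (Pi.single i.succ (1 : ZMod 2) : WS (Fin (d + 1))) 0 = 0
    exact Pi.single_eq_of_ne (Fin.succ_ne_zero i).symm _
  rw [lf, lf, Fintype.sum_sum_type, Fintype.sum_sum_type, Fin.sum_univ_succ, map_add, map_sum,
    map_sum]
  simp only [h1, h2, h3, map_zero, zero_mul, zero_add, map_mul, rename_C, rename_X, Sum.map_inl,
    Sum.map_inr, id_eq]

/-- The substitution of the product. -/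
theorem sb_up {d k m : ℕ} (M : ℕ) (g : WS (Fin d) ≃ₗ[ZMod 2] WS (Fin k ⊕ Fin m)) (f : PS (Fin d)) :
    sb (ee g).toLinearMap (up d f * X 0 ^ M) =
      rename (Sum.map Fin.succ id) (sb g.toLinearMap f) * X (Sum.inl 0) ^ M := by
  have h : (sb (ee g).toLinearMap).comp (up d) =
      (rename (Sum.map Fin.succ id)).comp (sb g.toLinearMap) := by
    apply algHom_ext
    intro i
    rw [AlgHom.comp_apply, AlgHom.comp_apply, up, rename_X, sb_X, sb_X]
    exact ee_succ g i
  have h2 := congrArg (fun φ : PS (Fin d) →ₐ[ZMod 2] PS (Fin (k + 1) ⊕ Fin m) => φ f) h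
  simp only [AlgHom.comp_apply] at h2
  rw [map_mul, map_pow, h2, sb_X]
  congr 2
  exact ee_zero g

/-- The contraction of the product. -/
theorem ct_up (hC : P_CTB) {k m : ℕ} (M : ℕ) (μ : PS (Fin m) →ₗ[ZMod 2] ZMod 2)
    (F : PS (Fin k ⊕ Fin m)) :
    ct μ (rename (Sum.map Fin.succ id) F * X (Sum.inl 0) ^ M) = up k (ct μ F) * X 0 ^ M := by
  have hF := hC.2.1 (Fin k) (Fin m) F
  induction hF using Submodule.span_induction with
  | mem x hx =>
    obtain ⟨a, b, rfl⟩ := hx
    have h1 : rename (Sum.map Fin.succ id) (rename Sum.inl a * rename Sum.inr b) *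
        X (Sum.inl 0) ^ M = rename Sum.inl (up k a * X 0 ^ M) * rename Sum.inr b := by
      rw [map_mul, map_mul, rename_rename, rename_rename, up, rename_rename, map_pow, rename_X,
        mul_right_comm]
      rfl
    rw [h1, hC.1, hC.1, map_smul, smul_mul_assoc]
  | zero => rw [map_zero, map_zero, zero_mul, map_zero, map_zero, zero_mul]
  | add x y _ _ hx hy => rw [map_add, map_add, add_mul, map_add, hx, hy, map_add, add_mul]
  | smul a x _ hx => rw [map_smul, map_smul, smul_mul_assoc, map_smul, hx, map_smul, smul_mul_assoc]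

theorem ex_monomial {σ : Type} (t : ℕ) (s : σ →₀ ℕ) [Decidable (∀ i, s i % 2 ^ t = 2 ^ t - 1)] :
    ex σ t (monomial s 1) = if ∀ i, s i % 2 ^ t = 2 ^ t - 1 then
      monomial (s.mapRange (fun a => a / 2 ^ t) (Nat.zero_div _)) 1 else 0 := by
  have h := Module.Basis.constr_basis (basisMonomials σ (ZMod 2)) (ZMod 2)
    (fun s : σ →₀ ℕ => open Classical in if ∀ i, s i % 2 ^ t = 2 ^ t - 1 then
      (monomial (s.mapRange (fun a => a / 2 ^ t) (Nat.zero_div _)) 1 : PS σ) else 0) s
  rw [coe_basisMonomials] at h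
  rw [ex, h]
  congr

/-- The extraction of the product. -/
theorem ex_up {k : ℕ} (t M : ℕ) (h : PS (Fin k)) :
    ex (Fin (k + 1)) t (up k h * X 0 ^ M) =
      if M % 2 ^ t = 2 ^ t - 1 then up k (ex (Fin k) t h) * X 0 ^ (M / 2 ^ t) else 0 := by
  classical
  induction h using MvPolynomial.induction_on' with
  | monomial s a =>
    have h1 : (monomial s a : PS (Fin k)) = a • monomial s 1 := by
      rw [smul_monomial, smul_eq_mul, mul_one]
    have h2 : ∀ (u : Fin k →₀ ℕ) (N : ℕ), up k (monomial u 1) * X 0 ^ N =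
        monomial (u.mapDomain Fin.succ + Finsupp.single 0 N) 1 := by
      intro u N
      rw [up, rename_monomial, X_pow_eq_monomial, monomial_mul, one_mul]
    have h3 : ∀ (u : Fin k →₀ ℕ) (N : ℕ),
        (u.mapDomain Fin.succ + Finsupp.single 0 N : Fin (k + 1) →₀ ℕ) 0 = N := by
      intro u N
      rw [Finsupp.add_apply, Finsupp.single_eq_same, Finsupp.mapDomain_of_notMem_range, zero_add]
      rintro ⟨i, hi⟩
      exact Fin.succ_ne_zero i hi
    have h4 : ∀ (u : Fin k →₀ ℕ) (N : ℕ) (i : Fin k),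
        (u.mapDomain Fin.succ + Finsupp.single 0 N : Fin (k + 1) →₀ ℕ) i.succ = u i := by
      intro u N i
      rw [Finsupp.add_apply, Finsupp.mapDomain_apply (Fin.succ_injective k),
        Finsupp.single_eq_of_ne (Fin.succ_ne_zero i), add_zero]
    rw [h1, map_smul, smul_mul_assoc, h2, map_smul, ex_monomial, map_smul, ex_monomial]
    by_cases hM : M % 2 ^ t = 2 ^ t - 1
    · rw [if_pos hM]
      by_cases hs : ∀ i, s i % 2 ^ t = 2 ^ t - 1
      · rw [if_pos hs, if_pos, map_smul, smul_mul_assoc, h2]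
        · congr 3
          refine Finsupp.ext fun i => ?_
          refine Fin.cases ?_ (fun i => ?_) i
          · rw [Finsupp.mapRange_apply, h3, h3]
          · rw [Finsupp.mapRange_apply, h4, h4, Finsupp.mapRange_apply]
        · intro i
          refine Fin.cases ?_ (fun i => ?_) i
          · rw [h3]
            exact hM
          · rw [h4]
            exact hs i
      · rw [if_neg hs, if_neg, smul_zero, smul_zero, map_zero, zero_mul]
        intro h
        apply hs
        intro i
        have := h i.succ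
        rwa [h4] at this
    · rw [if_neg hM, if_neg, smul_zero]
      intro h
      apply hM
      have := h 0
      rwa [h3] at this
  | add p q hp hq =>
    rw [map_add, add_mul, map_add, hp, hq, map_add, map_add, add_mul]
    split_ifs
    · rfl
    · rw [add_zero]

end PJE

open PJE in
/-- PJE -/
theorem t_PJE : Stmt_PJE := by
  intro _ hC d t k m M g μ f
  change ex (Fin (k + 1)) t (ct μ (sb (ee g).toLinearMap (up d f * X 0 ^ M))) = _
  rw [sb_up, ct_up hC, ex_up]
  rfl

end HGP
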