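import Pool.Agent.HGP.Stmts

/-!
# QZR: the degrees with `q ≤ 0` and the case without variables
-/

namespace HGP

namespace QZR

open MvPolynomial
open Pool.Agent.Lib_helper74.Hit (hits hitsDeg mem_hitsDeg hitsDeg_le_hits)

theorem lf_single {σ : Type} [Fintype σ] [DecidableEq σ] (x : σ) :
    lf (Pi.single x 1 : WS σ) = X x := by
  unfold lf
  rw [Finset.sum_eq_single x]
  · rw [Pi.single_eq_same, map_one, one_mul]
  · intro i _ hi
    rw [Pi.single_eq_of_ne hi, map_zero, zero_mul]
  · intro h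
    exact absurd (Finset.mem_univ _) h

/-- The obvious equivalence. -/
def g0 (d : ℕ) : WS (Fin d) ≃ₗ[ZMod 2] WS (Fin 0 ⊕ Fin d) where
  toFun w := Sum.elim (fun i => i.elim0) w
  invFun u := u ∘ Sum.inr
  map_add' a b := by
    funext x
    rcases x with i | j
    · exact i.elim0
    · rfl
  map_smul' c a := by
    funext x
    rcases x with i | j
    · exact i.elim0
    · rfl
  left_inv w := rfl
  right_inv u := by
    funext x
    rcases x with i | j
    · exact i.elim0
    · rfl

theorem g0_single (d : ℕ) (i : Fin d) :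
    (g0 d).toLinearMap (Pi.single i 1) = Pi.single (Sum.inr i) 1 := by
  funext x
  rcases x with j | j
  · exact j.elim0
  · change (Pi.single i 1 : WS (Fin d)) j = _
    rcases eq_or_ne j i with h | h
    · rw [h, Pi.single_eq_same, Pi.single_eq_same]
    · rw [Pi.single_eq_of_ne h, Pi.single_eq_of_ne (by simpa using h)]

theorem sb_g0 (d : ℕ) (f : PS (Fin d)) : sb (g0 d).toLinearMap f = rename Sum.inr f := by
  have h : sb (g0 d).toLinearMap = rename (Sum.inr : Fin d → Fin 0 ⊕ Fin d) := by
    refine algHom_ext fun i => ?_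
    rw [sb, aeval_X, rename_X, g0_single, lf_single]
  rw [h]

theorem ex_one (t : ℕ) : ex (Fin 0) t 1 = 1 := by
  have h : (1 : PS (Fin 0)) = basisMonomials (Fin 0) (ZMod 2) 0 := by
    rw [coe_basisMonomials]
    rfl
  rw [h, ex, Module.Basis.constr_basis, if_pos (fun i => i.elim0), coe_basisMonomials,
    Finsupp.mapRange_zero]

theorem pj_inr (hC : P_CTB) (t : ℕ) {m : ℕ} (μ : PS (Fin m) →ₗ[ZMod 2] ZMod 2) (b : PS (Fin m)) :
    ex (Fin 0) t (ct μ (rename Sum.inr b)) = μ b • (1 : PS (Fin 0)) := by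
  have h := hC.1 (Fin 0) (Fin m) μ 1 b
  rw [map_one, one_mul] at h
  rw [h, map_smul, ex_one]

theorem const0 (f : PS (Fin 0)) : ∃ a : ZMod 2, f = a • (1 : PS (Fin 0)) :=
  ⟨coeff 0 f, by
    rw [smul_eq_C_mul, mul_one]
    exact eq_C_of_isEmpty f⟩

theorem pow_big (C t : ℕ) (q c : ℤ) (d : ℕ) (h : (d : ℤ) - c < 2 ^ t) (hq : q < 0) :
    2 ^ (C + t) * q - c < 0 := by
  have h1 : (2 : ℤ) ^ t ≤ 2 ^ (C + t) := pow_le_pow_right₀ (by norm_num) (Nat.le_add_left _ _)
  have h2 : (2 : ℤ) ^ (C + t) * q ≤ 2 ^ (C + t) * (-1) :=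
    mul_le_mul_of_nonneg_left (by omega) (by positivity)
  have h3 : (0 : ℤ) ≤ d := Nat.cast_nonneg _
  linarith

theorem pow_neg (C : ℕ) (q : ℤ) (hq : q < 0) : 2 ^ C * q < 0 :=
  mul_neg_of_pos_of_neg (by positivity) hq

theorem inj0 (hN : P_NNB) (hH : P_HTS) (hC : P_CTB) (d : ℕ) (c : ℤ) (t C : ℕ)
    (hd : (d : ℤ) - c < 2 ^ t) : Inj d c t C 0 := by
  intro n hn f hf hK
  rw [mul_zero, zero_sub] at hn
  have hlt : n < 2 ^ (C + t) := by
    have h1 : (2 : ℤ) ^ t ≤ 2 ^ (C + t) := pow_le_pow_right₀ (by norm_num) (Nat.le_add_left _ _)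
    have h2 : (n : ℤ) < 2 ^ (C + t) := by
      have h3 : (0 : ℤ) ≤ d := Nat.cast_nonneg _
      linarith
    exact_mod_cast h2
  refine hH.2.2 _ _ _ f hf hlt ?_
  by_contra hnot
  obtain ⟨lam, hl1, hl2⟩ := Submodule.exists_le_ker_of_notMem hnot
  let μ : PS (Fin d) →ₗ[ZMod 2] ZMod 2 := lam.comp (homogeneousComponent n)
  have hμ : Ad c 0 d μ := by
    refine ⟨fun g hg => ?_, fun r hr g hg => ?_⟩
    · apply hl2
      have h1 : homogeneousComponent n g ∈ hits (Fin d) := by
        induction hg using Submodule.span_induction with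
        | mem x hx =>
          obtain ⟨k, f, hk, rfl⟩ := hx
          rw [Pool.Agent.Lib_helper74.Hit.homogeneousComponent_Sq]
          split_ifs with hkn
          · exact Submodule.subset_span ⟨k, _, hk, rfl⟩
          · exact Submodule.zero_mem _
        | zero => rw [map_zero]; exact Submodule.zero_mem _
        | add x y _ _ hx hy => rw [map_add]; exact Submodule.add_mem _ hx hy
        | smul a x _ hx => rw [map_smul]; exact Submodule.smul_mem _ _ hx
      exact h1
    · change lam (homogeneousComponent n g) = 0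
      rw [homogeneousComponent_of_mem hg, if_neg, map_zero]
      rintro rfl
      apply hr
      rw [hn]
      simp
  have h1 := hK 0 d (g0 d) μ hμ
  rw [hN.2.2.2.2.2.2.2.2.2.2, Submodule.mem_bot] at h1
  change ex (Fin 0) t (ct μ (sb (g0 d).toLinearMap f)) = 0 at h1
  rw [sb_g0, pj_inr hC, smul_eq_C_mul, mul_one] at h1
  have h2 : μ f = 0 := C_injective _ _ (h1.trans (map_zero (MvPolynomial.C)).symm)
  apply hl1
  change lam (homogeneousComponent n f) = 0 at h2
  rwa [homogeneousComponent_of_mem hf, if_pos rfl] at h2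

theorem sur0 (hS : P_SBB) (hC : P_CTB) (hP : P_PJB) (d : ℕ) (c : ℤ) (t C : ℕ) : Sur d c t C 0 := by
  intro n k m n' r g hn hn' hr u hu ν hν
  rw [mul_zero, zero_sub] at hn hn'
  have hk : k = 0 := by omega
  subst hk
  have hrn : r = n := by
    have : (r : ℤ) = n := by rw [hr, hn]; simp
    exact_mod_cast this
  subst hrn
  obtain ⟨a, rfl⟩ := const0 u
  refine ⟨a • sb g.symm.toLinearMap (rename Sum.inr ν), ?_, ?_, ?_⟩
  · refine Submodule.smul_mem _ _ (hS.2.2.2.1 _ _ _ _ _ ?_)
    exact IsHomogeneous.rename_isHomogeneous hν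
  · intro μ _
    have h1 : pj t g μ (a • sb g.symm.toLinearMap (rename Sum.inr ν)) =
        μ ν • a • (1 : PS (Fin 0)) := by
      rw [map_smul]
      change a • ex (Fin 0) t (ct μ (sb g.toLinearMap (sb g.symm.toLinearMap
        (rename Sum.inr ν)))) = _
      have h2 : g.toLinearMap.comp g.symm.toLinearMap = LinearMap.id := by
        ext x i
        simp
      rw [hS.2.1, h2, hS.2.2.1, pj_inr hC, smul_comm]
    rw [h1, sub_self]
    exact Submodule.zero_mem _
  · intro k' m' g' μ' hμ' hne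
    have h1 : pj t g' μ' (a • sb g.symm.toLinearMap (rename Sum.inr ν)) = 0 := by
      refine hP.2.2.2.2 _ c _ _ _ r _ _ hμ' _ ?_ ?_
      · refine Submodule.smul_mem _ _ (hS.2.2.2.1 _ _ _ _ _ ?_)
        exact IsHomogeneous.rename_isHomogeneous hν
      · intro n'' r' hr' he
        have hk' : k' ≠ 0 := by
          rintro rfl
          apply hne
          ext w
          constructor
          · intro _ i
            exact i.elim0
          · intro _ i
            exact i.elim0
        have h2 : r' = k' + r := by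
          have : (r' : ℤ) = k' + r := by rw [hr', hn]; ring
          exact_mod_cast this
        have h3 : 0 < 2 ^ t * (n'' + k') := Nat.mul_pos (by positivity) (by omega)
        omega
    rw [h1]
    exact Submodule.zero_mem _

theorem hg_zero {n : ℕ} (hn : n ≠ 0) {f : PS (Fin 0)} (hf : f ∈ Hg (Fin 0) n) : f = 0 := by
  obtain ⟨a, rfl⟩ := const0 f
  have h1 : (a • (1 : PS (Fin 0))) ∈ homogeneousSubmodule (Fin 0) (ZMod 2) 0 :=
    Submodule.smul_mem _ _ (isHomogeneous_one _ _)
  have h2 := homogeneousComponent_of_mem (m := n) h1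
  rw [if_neg hn] at h2
  have h3 := homogeneousComponent_of_mem (m := n) hf
  rw [if_pos rfl] at h3
  rw [← h3, h2]

end QZR

open QZR MvPolynomial in
/-- QZR -/
theorem t_QZR : Stmt_QZR := by
  intro hN hS hH _ hC hL hP
  have key : ∀ (d : ℕ) (c : ℤ) (t C : ℕ) (q : ℤ), (d : ℤ) - c < 2 ^ t → q ≤ 0 →
      Inj d c t C q ∧ Sur d c t C q := by
    intro d c t C q hd hq
    rcases hq.lt_or_eq with h | rfl
    · refine ⟨?_, ?_⟩
      · intro n hn
        have := pow_big C t q c d hd h
        omega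
      · intro n k m n' r g hn hn'
        have := pow_neg C q h
        omega
    · exact ⟨inj0 hN hH hC d c t C hd, sur0 hS hC hP d c t C⟩
  refine ⟨key, ?_⟩
  intro c t hc
  refine ⟨c.toNat, fun C hC0 q => ?_⟩
  rcases le_or_gt q 0 with h | h
  · exact key 0 c t C q (by simpa using hc) h
  · have hbig : c < 2 ^ C := by
      have h1 : c ≤ c.toNat := Int.self_le_toNat c
      have h2 : c.toNat < 2 ^ c.toNat := Nat.lt_two_pow_self
      have h3 : 2 ^ c.toNat ≤ 2 ^ C := Nat.pow_le_pow_right (by norm_num) hC0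
      have h4 : ((2 ^ C : ℕ) : ℤ) = 2 ^ C := by push_cast; rfl
      rw [← h4]
      omega
    refine ⟨?_, ?_⟩
    · intro n hn f hf _
      have hn0 : n ≠ 0 := by
        rintro rfl
        have h1 : (2 : ℤ) ^ C ≤ 2 ^ (C + t) := pow_le_pow_right₀ (by norm_num) (Nat.le_add_right _ _)
        have h2 : (2 : ℤ) ^ (C + t) * 1 ≤ 2 ^ (C + t) * q :=
          mul_le_mul_of_nonneg_left (by omega) (by positivity)
        have h3 : ((0 : ℕ) : ℤ) = 0 := rfl
        rw [h3] at hn
        linarith
      rw [hg_zero hn0 hf]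
      exact Submodule.zero_mem _
    · intro n k m n' r g hn hn' hr u hu ν hν
      obtain ⟨hkm, -⟩ := hL.2.2.1 _ _ _ g
      have hk : k = 0 := by omega
      subst hk
      have hn0 : n' ≠ 0 := by
        rintro rfl
        have h1 : (0 : ℤ) < 2 ^ C * q := mul_pos (by positivity) h
        simp only [Nat.cast_zero, sub_zero] at hn'
        omega
      rw [hg_zero hn0 hu]
      refine ⟨0, Submodule.zero_mem _, fun μ _ => ?_, fun k' m' g' μ' _ _ => ?_⟩
      · rw [map_zero, smul_zero, sub_zero]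
        exact Submodule.zero_mem _
      · rw [map_zero]
        exact Submodule.zero_mem _

end HGP
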