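import Pool.Agent.HGP.Stmts

/-!
# RES: the values of `Sv` and `SL`
-/

namespace HGP

open MvPolynomial

namespace RES

theorem kl_lf {σ τ : Type} [Fintype σ] [Fintype τ] (u : WS (σ ⊕ τ)) :
    kl σ τ (lf u) = lf (u ∘ Sum.inl) := by
  rw [lf, map_sum, Fintype.sum_sum_type, lf]
  have h1 : ∀ j : τ, kl σ τ (C (u (Sum.inr j)) * X (Sum.inr j)) = 0 := by
    intro j
    rw [map_mul, kl, aeval_X]
    simp
  rw [Finset.sum_eq_zero (s := (Finset.univ : Finset τ)) fun j _ => h1 j, add_zero]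
  refine Finset.sum_congr rfl fun i _ => ?_
  have h2 : kl σ τ (C (u (Sum.inl i))) = C (u (Sum.inl i)) := (kl σ τ).commutes _
  rw [map_mul, h2, kl, aeval_X]
  rfl

theorem lf_zero {σ : Type} [Fintype σ] : lf (0 : WS σ) = 0 := by
  rw [lf]
  refine Finset.sum_eq_zero fun i _ => ?_
  rw [Pi.zero_apply, map_zero, zero_mul]

theorem lf_mem {σ : Type} [Fintype σ] (w : WS σ) : (lf w).IsHomogeneous 1 := by
  rw [lf]
  exact IsHomogeneous.sum _ _ _ fun i _ => isHomogeneous_C_mul_X _ _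

theorem Sv_eq {d : ℕ} (v : WS (Fin d) →ₗ[ZMod 2] ZMod 2) :
    Sv v = ∏ w, if v w = 1 then lf w else 1 := by
  rw [Sv, Finset.prod_filter]

theorem SL_eq (d : ℕ) : SL d = ∏ w : WS (Fin (d + 1)), if w 0 = 1 then lf w else 1 := Sv_eq _

theorem ee_apply {d k m : ℕ} (g : WS (Fin d) ≃ₗ[ZMod 2] WS (Fin k ⊕ Fin m))
    (w : WS (Fin (d + 1))) : ee g w (Sum.inl 0) = w 0 := rfl

theorem card_filter (d : ℕ) :
    (Finset.univ.filter fun u : WS (Fin (d + 1)) => u 0 = 1).card = 2 ^ d := by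
  rw [Finset.card_filter, ← Equiv.sum_comp (Fin.consEquiv fun _ => ZMod 2),
    Fintype.sum_prod_type]
  have h1 : ∀ (c : ZMod 2) (a : Fin d → ZMod 2),
      (if (Fin.consEquiv fun _ => ZMod 2) (c, a) 0 = 1 then 1 else 0) =
        (if c = 1 then 1 else 0 : ℕ) := by
    intro c a
    rfl
  simp only [h1]
  rw [Finset.sum_comm]
  simp

end RES

theorem t_RES : Stmt_RES := by
  intro hS hL
  obtain ⟨h1, _⟩ := hS
  obtain ⟨_, h2, _⟩ := hL
  refine ⟨?_, ?_, ?_, ?_⟩
  · intro d k m g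
    rw [RES.SL_eq, RES.SL_eq, map_prod, map_prod]
    have e1 : ∏ w : WS (Fin (d + 1)),
        kl (Fin (k + 1)) (Fin m) (sb (ee g).toLinearMap (if w 0 = 1 then lf w else 1)) =
          ∏ u : WS (Fin (k + 1) ⊕ Fin m), if u (Sum.inl 0) = 1 then lf (u ∘ Sum.inl) else 1 := by
      refine Fintype.prod_equiv (ee g).toEquiv _ _ fun w => ?_
      show _ = if ee g w (Sum.inl 0) = 1 then lf (ee g w ∘ Sum.inl) else 1
      rw [RES.ee_apply]
      split_ifs
      · rw [h1, RES.kl_lf]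
        rfl
      · rw [map_one, map_one]
    have e2 : ∏ u : WS (Fin (k + 1) ⊕ Fin m),
        (if u (Sum.inl 0) = 1 then lf (u ∘ Sum.inl) else 1) =
          ∏ p : WS (Fin (k + 1)) × WS (Fin m), if p.1 0 = 1 then lf p.1 else 1 :=
      Fintype.prod_equiv (Equiv.sumArrowEquivProdArrow (Fin (k + 1)) (Fin m) (ZMod 2)) _ _
        fun u => rfl
    rw [e1, e2, Fintype.prod_prod_type, ← Finset.prod_pow]
    refine Finset.prod_congr rfl fun a _ => ?_
    show ∏ b : WS (Fin m), (if a 0 = 1 then lf a else 1) = _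
    rw [Finset.prod_const, Finset.card_univ]
    congr 1
    simp
  · intro d k m g w hw hw0
    rw [SL, Sv, map_prod, map_prod]
    refine Finset.prod_eq_zero (i := w) ?_ ?_
    · simp only [Finset.mem_filter, Finset.mem_univ, true_and, LinearMap.proj_apply]
      have h3 : ∀ x : ZMod 2, x ≠ 0 → x = 1 := by decide
      exact h3 _ hw0
    · rw [h1, RES.kl_lf]
      have h4 : (g.toLinearMap w) ∘ (Sum.inl : Fin k → Fin k ⊕ Fin m) = 0 := by
        funext i
        exact hw i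
      rw [h4, RES.lf_zero]
  · intro d v A hA
    rw [RES.Sv_eq, RES.SL_eq, map_prod]
    refine Fintype.prod_equiv A.toEquiv _ _ fun w => ?_
    show _ = if A w 0 = 1 then lf (A w) else 1
    rw [hA]
    split_ifs
    · exact h1 _ _ _ _
    · rw [map_one]
  · intro d v hv
    obtain ⟨A, hA⟩ := h2 d v hv
    have h3 : (Sv v).IsHomogeneous
        (∑ w ∈ Finset.univ.filter (fun w => v w = 1), 1) := by
      rw [Sv]
      exact IsHomogeneous.prod _ _ _ fun w _ => RES.lf_mem w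
    have h4 : ∑ w ∈ Finset.univ.filter (fun w => v w = 1), 1 = 2 ^ d := by
      rw [← Finset.card_eq_sum_ones, ← RES.card_filter d]
      refine Finset.card_equiv A.toEquiv fun w => ?_
      simp only [Finset.mem_filter, Finset.mem_univ, true_and]
      show v w = 1 ↔ A w 0 = 1
      rw [hA]
    rw [h4] at h3
    exact h3

end HGP
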