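import Pool.Agent.HGP.Stmts

/-!
# SBB: basic facts on the substitutions
-/

namespace HGP.SBB

open MvPolynomial
open Pool.Agent.Lib_helper74.Hit (hits Sq totalSq totalSq_X)

variable {σ τ ρ : Type}

theorem lf_add [Fintype σ] (a b : WS σ) : lf (a + b) = lf a + lf b := by
  simp [lf, add_mul, Finset.sum_add_distrib]

theorem lf_zero [Fintype σ] : lf (0 : WS σ) = 0 := by
  simp [lf]

theorem lf_smul [Fintype σ] (c : ZMod 2) (a : WS σ) : lf (c • a) = C c * lf a := by
  simp [lf, Finset.mul_sum, mul_assoc]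

theorem lf_sum [Fintype σ] {ι : Type*} (s : Finset ι) (f : ι → WS σ) :
    lf (∑ i ∈ s, f i) = ∑ i ∈ s, lf (f i) := by
  classical
  induction s using Finset.induction_on with
  | empty => simp [lf_zero]
  | insert a s ha ih => rw [Finset.sum_insert ha, Finset.sum_insert ha, lf_add, ih]

theorem lf_single [Fintype σ] [DecidableEq σ] (i : σ) : lf (Pi.single i 1 : WS σ) = X i := by
  unfold lf
  rw [Finset.sum_eq_single i]
  · simp
  · intro j _ hj
    simp [Pi.single_eq_of_ne hj]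
  · simp

theorem lf_homog [Fintype σ] (a : WS σ) : (lf a).IsHomogeneous 1 := by
  apply IsHomogeneous.sum
  intro i _
  have := (isHomogeneous_C σ (a i)).mul (isHomogeneous_X (ZMod 2) i)
  simpa using this

theorem char2 : (2 : PS σ) = 0 := by
  have : (2 : PS σ) = C (2 : ZMod 2) := (map_ofNat C 2).symm
  rw [this]
  have h2 : (2 : ZMod 2) = 0 := by decide
  rw [h2, map_zero]

theorem sq_add (f g : PS σ) : (f + g) ^ 2 = f ^ 2 + g ^ 2 := by
  ring_nf
  rw [char2]
  ring

theorem C_sq (c : ZMod 2) : (C c : PS σ) ^ 2 = C c := by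
  rw [← map_pow]
  congr 1
  revert c
  decide

theorem totalSq_lf [Fintype σ] (a : WS σ) : totalSq σ (lf a) =
    Polynomial.C (lf a) + Polynomial.C (lf a ^ 2) * Polynomial.X := by
  have h1 : lf a ^ 2 = ∑ i, C (a i) * X i ^ 2 := by
    have : ∀ s : Finset σ, (∑ i ∈ s, (C (a i) * X i : PS σ)) ^ 2 =
        ∑ i ∈ s, (C (a i) * X i ^ 2 : PS σ) := by
      classical
      intro s
      induction s using Finset.induction_on with
      | empty => simp
      | insert b s hb ih =>
        rw [Finset.sum_insert hb, Finset.sum_insert hb, sq_add, ih, mul_pow, C_sq]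
    exact this Finset.univ
  rw [h1]
  unfold lf
  rw [map_sum, map_sum, map_sum, Finset.sum_mul, ← Finset.sum_add_distrib]
  apply Finset.sum_congr rfl
  intro i _
  rw [map_mul, totalSq_X]
  have : totalSq σ (C (a i)) = Polynomial.C (C (a i)) := by
    simp [totalSq]
  rw [this, map_mul, map_mul]
  ring

/-- The expansion of a vector. -/
theorem vec_eq [Fintype σ] [DecidableEq σ] (w : WS σ) :
    w = ∑ i, w i • (Pi.single i 1 : WS σ) := by
  funext j
  rw [Finset.sum_apply, Finset.sum_eq_single j]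
  · simp
  · intro i _ hij
    simp [Pi.single_eq_of_ne (Ne.symm hij)]
  · simp

theorem sb_X [DecidableEq σ] [Fintype τ] (A : WS σ →ₗ[ZMod 2] WS τ) (i : σ) :
    sb A (X i) = lf (A (Pi.single i 1)) := by
  simp [sb]

theorem sb_C [DecidableEq σ] [Fintype τ] (A : WS σ →ₗ[ZMod 2] WS τ) (c : ZMod 2) :
    sb A (C c) = C c := by
  simp [sb]

theorem sb_lf [Fintype σ] [DecidableEq σ] [Fintype τ] (A : WS σ →ₗ[ZMod 2] WS τ) (w : WS σ) :
    sb A (lf w) = lf (A w) := by
  have h : A w = ∑ i, w i • A (Pi.single i 1) := by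
    conv_lhs => rw [vec_eq w]
    rw [map_sum]
    simp only [map_smul]
  rw [h, lf_sum]
  conv_lhs => rw [lf, map_sum]
  apply Finset.sum_congr rfl
  intro i _
  rw [map_mul, sb_X, sb_C, lf_smul]

theorem sb_comp [DecidableEq σ] [Fintype τ] [DecidableEq τ] [Fintype ρ]
    (A : WS σ →ₗ[ZMod 2] WS τ) (B : WS τ →ₗ[ZMod 2] WS ρ) (f : PS σ) :
    sb B (sb A f) = sb (B.comp A) f := by
  have h : (sb B).comp (sb A) = sb (B.comp A) := by
    apply MvPolynomial.algHom_ext
    intro i
    rw [AlgHom.comp_apply, sb_X, sb_X, sb_lf, LinearMap.comp_apply]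
  rw [← h, AlgHom.comp_apply]

theorem sb_id [DecidableEq σ] [Fintype σ] (f : PS σ) :
    sb (LinearMap.id : WS σ →ₗ[ZMod 2] WS σ) f = f := by
  have h : sb (LinearMap.id : WS σ →ₗ[ZMod 2] WS σ) = AlgHom.id (ZMod 2) (PS σ) := by
    apply MvPolynomial.algHom_ext
    intro i
    rw [sb_X, LinearMap.id_apply, lf_single, AlgHom.id_apply]
  rw [h, AlgHom.id_apply]

theorem sb_homog [DecidableEq σ] [Fintype τ] (A : WS σ →ₗ[ZMod 2] WS τ) (n : ℕ) (f : PS σ)
    (hf : f ∈ Hg σ n) : sb A f ∈ Hg τ n := by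
  have h1 : f.IsHomogeneous n := hf
  have h2 := h1.aeval (fun i => lf (A (Pi.single i 1))) (n := 1) fun i => lf_homog _
  rw [one_mul] at h2
  exact h2

theorem totalSq_sb [DecidableEq σ] [Fintype τ] (A : WS σ →ₗ[ZMod 2] WS τ) (f : PS σ) :
    totalSq τ (sb A f) = Polynomial.mapAlgHom (sb A) (totalSq σ f) := by
  have h : (totalSq τ).comp (sb A) = (Polynomial.mapAlgHom (sb A)).comp (totalSq σ) := by
    apply MvPolynomial.algHom_ext
    intro i
    rw [AlgHom.comp_apply, AlgHom.comp_apply, sb_X, totalSq_lf, totalSq_X, map_add, map_mul]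
    simp [sb_X]
  rw [← AlgHom.comp_apply, h, AlgHom.comp_apply]

theorem sb_Sq [DecidableEq σ] [Fintype τ] (A : WS σ →ₗ[ZMod 2] WS τ) (k : ℕ) (f : PS σ) :
    sb A (Sq k f) = Sq k (sb A f) := by
  unfold Sq
  rw [totalSq_sb]
  simp

theorem sb_hits [DecidableEq σ] [Fintype τ] (A : WS σ →ₗ[ZMod 2] WS τ) (f : PS σ)
    (hf : f ∈ hits σ) : sb A f ∈ hits τ := by
  have h : hits σ ≤ (hits τ).comap (sb A).toLinearMap := by
    rw [hits, Submodule.span_le]
    rintro _ ⟨k, g, hk, rfl⟩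
    refine Submodule.subset_span ⟨k, sb A g, hk, ?_⟩
    rw [← sb_Sq]
    rfl
  exact h hf

end HGP.SBB

namespace HGP

theorem t_SBB : Stmt_SBB := by
  refine ⟨?_, ?_, ?_, ?_, ?_, ?_, ?_⟩
  · intro σ τ _ _ _ A w
    exact SBB.sb_lf A w
  · intro σ τ ρ _ _ _ _ A B f
    exact SBB.sb_comp A B f
  · intro σ _ _ f
    exact SBB.sb_id f
  · intro σ τ _ _ A n f hf
    exact SBB.sb_homog A n f hf
  · intro σ τ _ _ A f hf
    exact SBB.sb_hits A f hf
  · intro c k m μ D h
    refine ⟨fun f hf => ?_, fun r hr f hf => ?_⟩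
    · rw [LinearMap.comp_apply]
      exact h.1 _ (SBB.sb_hits D.toLinearMap f hf)
    · rw [LinearMap.comp_apply]
      exact h.2 r hr _ (SBB.sb_homog D.toLinearMap r f hf)
  · intro d k m t A g μ f
    unfold pj
    rw [LinearMap.comp_apply, LinearMap.comp_apply, LinearMap.comp_apply, LinearMap.comp_apply,
      AlgHom.toLinearMap_apply, AlgHom.toLinearMap_apply, SBB.sb_comp]
    rfl

end HGP
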