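import Pool.Agent.HGP.Stmts

/-!
# Transport of a lift
-/

namespace HGP

open MvPolynomial

namespace TRN

theorem ext_inl {k m : ℕ} (B : WS (Fin k) ≃ₗ[ZMod 2] WS (Fin k)) (i : Fin k) :
    (bl (m := m) B) (Pi.single (Sum.inl i) 1) = Sum.elim (B (Pi.single i 1)) 0 := by
  have h1 : ((Pi.single (Sum.inl i) 1 : WS (Fin k ⊕ Fin m)) ∘ Sum.inl) =
      (Pi.single i 1 : WS (Fin k)) := by
    funext j
    by_cases h : j = i
    · subst h
      simp
    · have h' : (Sum.inl j : Fin k ⊕ Fin m) ≠ Sum.inl i := fun e => h (Sum.inl_injective e)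
      simp [Pi.single_eq_of_ne h, Pi.single_eq_of_ne h']
  have h2 : ((Pi.single (Sum.inl i) 1 : WS (Fin k ⊕ Fin m)) ∘ Sum.inr) = 0 := by
    funext j
    simp
  change Sum.elim (B ((Pi.single (Sum.inl i) 1 : WS (Fin k ⊕ Fin m)) ∘ Sum.inl))
    ((Pi.single (Sum.inl i) 1 : WS (Fin k ⊕ Fin m)) ∘ Sum.inr) = _
  rw [h1, h2]

theorem ext_inr {k m : ℕ} (B : WS (Fin k) ≃ₗ[ZMod 2] WS (Fin k)) (i : Fin m) :
    (bl (m := m) B) (Pi.single (Sum.inr i) 1) = Pi.single (Sum.inr i) 1 := by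
  have h1 : ((Pi.single (Sum.inr i) 1 : WS (Fin k ⊕ Fin m)) ∘ Sum.inl) = 0 := by
    funext j
    simp
  change Sum.elim (B ((Pi.single (Sum.inr i) 1 : WS (Fin k ⊕ Fin m)) ∘ Sum.inl))
    ((Pi.single (Sum.inr i) 1 : WS (Fin k ⊕ Fin m)) ∘ Sum.inr) = _
  rw [h1, map_zero]
  funext x
  rcases x with j | j
  · simp
  · rfl

theorem sb_inl {k m : ℕ} (B : WS (Fin k) ≃ₗ[ZMod 2] WS (Fin k)) (a : PS (Fin k)) :
    sb (bl (m := m) B).toLinearMap (rename Sum.inl a) = rename Sum.inl (sb B.toLinearMap a) := by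
  have key : ((sb (bl (m := m) B).toLinearMap).comp (rename Sum.inl) :
      PS (Fin k) →ₐ[ZMod 2] PS (Fin k ⊕ Fin m)) = (rename Sum.inl).comp (sb B.toLinearMap) := by
    apply MvPolynomial.algHom_ext
    intro i
    simp only [AlgHom.comp_apply, rename_X, sb, aeval_X, LinearEquiv.coe_coe, ext_inl, lf,
      map_sum, map_mul, rename_C, Fintype.sum_sum_type, Sum.elim_inl, Sum.elim_inr, Pi.zero_apply,
      map_zero, zero_mul, Finset.sum_const_zero, add_zero]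
  exact DFunLike.congr_fun key a

theorem sb_inr {k m : ℕ} (B : WS (Fin k) ≃ₗ[ZMod 2] WS (Fin k)) (b : PS (Fin m)) :
    sb (bl (m := m) B).toLinearMap (rename Sum.inr b) = rename Sum.inr b := by
  have key : ((sb (bl (m := m) B).toLinearMap).comp (rename Sum.inr) :
      PS (Fin m) →ₐ[ZMod 2] PS (Fin k ⊕ Fin m)) = (rename Sum.inr) := by
    apply MvPolynomial.algHom_ext
    intro i
    simp only [AlgHom.comp_apply, rename_X, sb, aeval_X, LinearEquiv.coe_coe, ext_inr, lf]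
    rw [Finset.sum_eq_single (Sum.inr i)]
    · simp
    · intro j _ hj
      simp [Pi.single_eq_of_ne hj]
    · simp
  exact DFunLike.congr_fun key b

theorem ct_sb {k m : ℕ} (hC : P_CTB) (B : WS (Fin k) ≃ₗ[ZMod 2] WS (Fin k))
    (μ : PS (Fin m) →ₗ[ZMod 2] ZMod 2) (F : PS (Fin k ⊕ Fin m)) :
    ct μ (sb (bl (m := m) B).toLinearMap F) = sb B.toLinearMap (ct μ F) := by
  have hF := hC.2.1 (Fin k) (Fin m) F
  induction hF using Submodule.span_induction with
  | mem x hx =>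
    obtain ⟨a, b, rfl⟩ := hx
    rw [map_mul, sb_inl, sb_inr, hC.1, hC.1, map_smul]
  | zero => simp only [map_zero]
  | add x y _ _ hx hy => rw [map_add, map_add, map_add, map_add, hx, hy]
  | smul c x _ hx => rw [map_smul, map_smul, map_smul, map_smul, hx]

theorem pj_bl {d k m : ℕ} (hS : P_SBB) (hE : P_EXE) (hC : P_CTB) (t : ℕ)
    (g : WS (Fin d) ≃ₗ[ZMod 2] WS (Fin k ⊕ Fin m)) (B : WS (Fin k) ≃ₗ[ZMod 2] WS (Fin k))
    (μ : PS (Fin m) →ₗ[ZMod 2] ZMod 2) (f : PS (Fin d)) :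
    pj t (g.trans (bl B)) μ f = sb B.toLinearMap (pj t g μ f) := by
  change ex (Fin k) t (ct μ (sb ((bl B).toLinearMap.comp g.toLinearMap) f)) =
    sb B.toLinearMap (ex (Fin k) t (ct μ (sb g.toLinearMap f)))
  rw [← hS.2.1, ct_sb hC, hE]

theorem An_bl {d k m : ℕ} (g : WS (Fin d) ≃ₗ[ZMod 2] WS (Fin k ⊕ Fin m))
    (B : WS (Fin k) ≃ₗ[ZMod 2] WS (Fin k)) : An (g.trans (bl B)) = An g := by
  ext w
  change (∀ i, B ((g w) ∘ Sum.inl) i = 0) ↔ (∀ i, g w (Sum.inl i) = 0)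
  constructor
  · intro h i
    have h0 : B ((g w) ∘ Sum.inl) = 0 := by
      funext i
      exact h i
    have h1 : (g w) ∘ Sum.inl = 0 := by
      apply B.injective
      rw [h0, map_zero]
    exact congrFun h1 i
  · intro h i
    have h1 : (g w) ∘ Sum.inl = 0 := by
      funext i
      exact h i
    rw [h1, map_zero]
    rfl

theorem sb_symm {k : ℕ} (hS : P_SBB) (B : WS (Fin k) ≃ₗ[ZMod 2] WS (Fin k)) (x : PS (Fin k)) :
    sb B.symm.toLinearMap (sb B.toLinearMap x) = x := by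
  rw [hS.2.1]
  have h : (B.symm.toLinearMap.comp B.toLinearMap) = LinearMap.id := by
    ext1 w
    simp
  rw [h]
  exact hS.2.2.1 _ x

theorem An_trans {d k m k' m' : ℕ} (E : WS (Fin d) ≃ₗ[ZMod 2] WS (Fin d))
    (g : WS (Fin d) ≃ₗ[ZMod 2] WS (Fin k ⊕ Fin m))
    (g' : WS (Fin d) ≃ₗ[ZMod 2] WS (Fin k' ⊕ Fin m')) (h : An (E.trans g') = An (E.trans g)) :
    An g' = An g := by
  ext w
  have h1 : (E.symm w ∈ An (E.trans g')) ↔ (E.symm w ∈ An (E.trans g)) := by rw [h]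
  change (∀ i, g' (E (E.symm w)) (Sum.inl i) = 0) ↔ (∀ i, g (E (E.symm w)) (Sum.inl i) = 0) at h1
  rw [E.apply_symm_apply] at h1
  exact h1

end TRN

theorem t_TRN : Stmt_TRN := by
  intro hN hS hE hC
  refine ⟨?_, ?_, ?_, ?_⟩
  · intro d c t C n k m g B u ν f hL
    refine ⟨hL.1, ?_, ?_⟩
    · intro μ hμ
      have h1 := hN.2.2.1 _ _ B.symm.toLinearMap C _ (hL.2.1 μ hμ)
      rw [map_sub, TRN.pj_bl hS hE hC, TRN.sb_symm hS, map_smul] at h1
      exact h1
    · intro k' m' g' μ' hμ' hA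
      refine hL.2.2 k' m' g' μ' hμ' ?_
      rw [TRN.An_bl]
      exact hA
  · intro d c t C n k m g E u ν f hL
    refine ⟨hS.2.2.2.1 _ _ _ n f hL.1, ?_, ?_⟩
    · intro μ hμ
      rw [hS.2.2.2.2.2.2]
      exact hL.2.1 μ hμ
    · intro k' m' g' μ' hμ' hA
      rw [hS.2.2.2.2.2.2]
      exact hL.2.2 k' m' (E.trans g') μ' hμ' fun h => hA (TRN.An_trans E g g' h)
  · intro d c t C n k m g u u' z ν f f' hz hL hL'
    refine ⟨Submodule.add_mem _ hL.1 hL'.1, ?_, ?_⟩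
    · intro μ hμ
      have h : pj t g μ (f + f') - μ ν • (u + u' + z) =
          (pj t g μ f - μ ν • u) + (pj t g μ f' - μ ν • u') - μ ν • z := by
        rw [map_add, smul_add, smul_add]
        abel
      rw [h]
      exact Submodule.sub_mem _ (Submodule.add_mem _ (hL.2.1 μ hμ) (hL'.2.1 μ hμ))
        (Submodule.smul_mem _ _ hz)
    · intro k' m' g' μ' hμ' hA
      rw [map_add]
      exact Submodule.add_mem _ (hL.2.2 k' m' g' μ' hμ' hA) (hL'.2.2 k' m' g' μ' hμ' hA)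
  · intro d c t C n k m g ν
    refine ⟨Submodule.zero_mem _, ?_, ?_⟩
    · intro μ _
      rw [map_zero, smul_zero, sub_zero]
      exact Submodule.zero_mem _
    · intro k' m' g' μ' _ _
      rw [map_zero]
      exact Submodule.zero_mem _

end HGP
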