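import Pool.Agent.HGP.Stmts

/-!
# UNI: the projection depends only on the subspace, up to substitutions
-/

namespace HGP

open MvPolynomial

namespace UNI

variable {k m : ℕ}

/-- The block of the variables of the first kind. -/
def bA (h : WS (Fin k ⊕ Fin m) →ₗ[ZMod 2] WS (Fin k ⊕ Fin m)) : WS (Fin k) →ₗ[ZMod 2] WS (Fin k) where
  toFun y := (h (Sum.elim y 0)) ∘ Sum.inl
  map_add' a b := by
    have e : (Sum.elim (a + b) 0 : WS (Fin k ⊕ Fin m)) = Sum.elim a 0 + Sum.elim b 0 := by
      funext x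
      rcases x with i | j
      · rfl
      · simp
    rw [e, map_add]
    rfl
  map_smul' c a := by
    have e : (Sum.elim (c • a) 0 : WS (Fin k ⊕ Fin m)) = c • Sum.elim a 0 := by
      funext x
      rcases x with i | j
      · rfl
      · simp
    rw [e, map_smul]
    rfl

/-- The block of the variables of the second kind. -/
def bD (h : WS (Fin k ⊕ Fin m) →ₗ[ZMod 2] WS (Fin k ⊕ Fin m)) : WS (Fin m) →ₗ[ZMod 2] WS (Fin m) where
  toFun y := (h (Sum.elim (0 : WS (Fin k)) y)) ∘ Sum.inr
  map_add' a b := by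
    have e : (Sum.elim (0 : WS (Fin k)) (a + b) : WS (Fin k ⊕ Fin m)) = Sum.elim (0 : WS (Fin k)) a + Sum.elim (0 : WS (Fin k)) b := by
      funext x
      rcases x with i | j
      · simp
      · rfl
    rw [e, map_add]
    rfl
  map_smul' c a := by
    have e : (Sum.elim (0 : WS (Fin k)) (c • a) : WS (Fin k ⊕ Fin m)) = c • Sum.elim (0 : WS (Fin k)) a := by
      funext x
      rcases x with i | j
      · simp
      · rfl
    rw [e, map_smul]
    rfl

/-- The second kind is preserved. -/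
def Pr (h : WS (Fin k ⊕ Fin m) →ₗ[ZMod 2] WS (Fin k ⊕ Fin m)) : Prop :=
  ∀ z : WS (Fin m), h (Sum.elim (0 : WS (Fin k)) z) ∘ Sum.inl = 0

theorem elim_eta (u : WS (Fin k ⊕ Fin m)) : Sum.elim (u ∘ Sum.inl) (u ∘ Sum.inr) = u := by
  funext x
  rcases x with i | j <;> rfl

theorem bA_inv {h h' : WS (Fin k ⊕ Fin m) →ₗ[ZMod 2] WS (Fin k ⊕ Fin m)} (hp : Pr h)
    (hi : ∀ u, h (h' u) = u) (y : WS (Fin k)) : bA h (bA h' y) = y := by
  have e : (Sum.elim (bA h' y) 0 : WS (Fin k ⊕ Fin m)) =
      h' (Sum.elim y 0) - Sum.elim (0 : WS (Fin k)) ((h' (Sum.elim y 0)) ∘ Sum.inr) := by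
    funext x
    rcases x with i | j
    · simp [bA]
    · simp
  change (h (Sum.elim (bA h' y) 0)) ∘ Sum.inl = y
  rw [e, map_sub, hi]
  have h1 := hp ((h' (Sum.elim y 0)) ∘ Sum.inr)
  funext i
  have h2 := congrFun h1 i
  simp only [Function.comp_apply, Pi.zero_apply] at h2
  simp [h2]

theorem bD_inv {h h' : WS (Fin k ⊕ Fin m) →ₗ[ZMod 2] WS (Fin k ⊕ Fin m)} (hp' : Pr h')
    (hi : ∀ u, h (h' u) = u) (y : WS (Fin m)) : bD h (bD h' y) = y := by
  have e : (Sum.elim (0 : WS (Fin k)) (bD h' y) : WS (Fin k ⊕ Fin m)) = h' (Sum.elim (0 : WS (Fin k)) y) := by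
    have h1 := hp' y
    funext x
    rcases x with i | j
    · have h2 := congrFun h1 i
      simp only [Function.comp_apply, Pi.zero_apply] at h2
      simp [h2]
    · simp [bD]
  change (h (Sum.elim (0 : WS (Fin k)) (bD h' y))) ∘ Sum.inr = y
  rw [e, hi]
  funext i
  simp

theorem lf_sum_elim (u : WS (Fin k ⊕ Fin m)) :
    lf u = rename Sum.inl (lf (u ∘ Sum.inl)) + rename Sum.inr (lf (u ∘ Sum.inr)) := by
  simp [lf, Fintype.sum_sum_type]

theorem single_inl (i : Fin k) : (Pi.single (Sum.inl i) 1 : WS (Fin k ⊕ Fin m)) =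
    Sum.elim (Pi.single i 1) 0 := by
  funext x
  rcases x with j | j
  · by_cases hj : j = i
    · subst hj
      simp
    · rw [Sum.elim_inl, Pi.single_eq_of_ne hj, Pi.single_eq_of_ne]
      intro e
      exact hj (Sum.inl_injective e)
  · rw [Pi.single_eq_of_ne (by simp)]
    rfl

theorem single_inr (i : Fin m) : (Pi.single (Sum.inr i) 1 : WS (Fin k ⊕ Fin m)) =
    Sum.elim (0 : WS (Fin k)) (Pi.single i 1) := by
  funext x
  rcases x with j | j
  · rw [Pi.single_eq_of_ne (by simp)]
    rfl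
  · by_cases hj : j = i
    · subst hj
      simp
    · rw [Sum.elim_inr, Pi.single_eq_of_ne hj, Pi.single_eq_of_ne]
      intro e
      exact hj (Sum.inr_injective e)

theorem sb_X {σ τ : Type} [DecidableEq σ] [Fintype τ] (A : WS σ →ₗ[ZMod 2] WS τ) (i : σ) :
    sb A (X i) = lf (A (Pi.single i 1)) := by
  rw [sb, aeval_X]

theorem sb_inr {h : WS (Fin k ⊕ Fin m) →ₗ[ZMod 2] WS (Fin k ⊕ Fin m)} (hp : Pr h)
    (b : PS (Fin m)) : sb h (rename Sum.inr b) = rename Sum.inr (sb (bD h) b) := by
  have e : (sb h).comp (rename Sum.inr : PS (Fin m) →ₐ[ZMod 2] PS (Fin k ⊕ Fin m)) =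
      (rename Sum.inr : PS (Fin m) →ₐ[ZMod 2] PS (Fin k ⊕ Fin m)).comp (sb (bD h)) := by
    refine algHom_ext fun i => ?_
    rw [AlgHom.comp_apply, AlgHom.comp_apply, rename_X, sb_X, sb_X, single_inr, lf_sum_elim, hp]
    have z : (lf (0 : WS (Fin k)) : PS (Fin k)) = 0 := by simp [lf]
    rw [z, map_zero, zero_add]
    rfl
  exact congrArg (fun g => g b) e

theorem kl_inl (h : WS (Fin k ⊕ Fin m) →ₗ[ZMod 2] WS (Fin k ⊕ Fin m)) (r : PS (Fin k)) :
    kl (Fin k) (Fin m) (sb h (rename Sum.inl r)) = sb (bA h) r := by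
  have e : (kl (Fin k) (Fin m)).comp ((sb h).comp
      (rename Sum.inl : PS (Fin k) →ₐ[ZMod 2] PS (Fin k ⊕ Fin m))) = sb (bA h) := by
    refine algHom_ext fun i => ?_
    rw [AlgHom.comp_apply, AlgHom.comp_apply, rename_X, sb_X, sb_X, single_inl, lf_sum_elim,
      map_add]
    have e1 : ∀ a : PS (Fin k), kl (Fin k) (Fin m) (rename Sum.inl a) = a := by
      intro a
      rw [kl, aeval_rename]
      exact aeval_X_left_apply a
    have e2 : ∀ a : WS (Fin m), kl (Fin k) (Fin m) (rename Sum.inr (lf a)) = 0 := by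
      intro a
      simp [kl, aeval_rename, lf]
    rw [e1, e2, add_zero]
    rfl
  exact congrArg (fun g => g r) e

/-- The polynomials of degree smaller than `n` in the variables of the first kind. -/
noncomputable def VV (k m n : ℕ) : Submodule (ZMod 2) (PS (Fin k ⊕ Fin m)) :=
  Submodule.span (ZMod 2) {x | ∃ (a : PS (Fin k)) (b : PS (Fin m)) (n' : ℕ), a ∈ Hg (Fin k) n' ∧
    n' < n ∧ x = rename Sum.inl a * rename Sum.inr b}

theorem VV_mul {n n' : ℕ} {x y : PS (Fin k ⊕ Fin m)} (hx : x ∈ VV k m n)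
    (hy : y ∈ VV k m (n' + 1)) : x * y ∈ VV k m (n + n') := by
  unfold VV at hx hy
  induction hx using Submodule.span_induction with
  | mem x hx =>
    obtain ⟨a, b, p, ha, hp, rfl⟩ := hx
    induction hy using Submodule.span_induction with
    | mem y hy =>
      obtain ⟨a', b', p', ha', hp', rfl⟩ := hy
      refine Submodule.subset_span ⟨a * a', b * b', p + p', IsHomogeneous.mul ha ha', by omega, ?_⟩
      rw [map_mul, map_mul]
      ring
    | zero =>
      rw [mul_zero]
      exact Submodule.zero_mem _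
    | add u v _ _ hu hv =>
      rw [mul_add]
      exact Submodule.add_mem _ hu hv
    | smul c u _ hu =>
      rw [mul_smul_comm]
      exact Submodule.smul_mem _ _ hu
  | zero =>
    rw [zero_mul]
    exact Submodule.zero_mem _
  | add u v _ _ hu hv =>
    rw [add_mul]
    exact Submodule.add_mem _ hu hv
  | smul c u _ hu =>
    rw [smul_mul_assoc]
    exact Submodule.smul_mem _ _ hu

theorem VV_mono {n n' : ℕ} (h : n ≤ n') : VV k m n ≤ VV k m n' := by
  refine Submodule.span_mono ?_
  rintro x ⟨a, b, p, ha, hp, rfl⟩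
  exact ⟨a, b, p, ha, by omega, rfl⟩

theorem inl_mem {n : ℕ} {a : PS (Fin k)} (ha : a ∈ Hg (Fin k) n) :
    (rename Sum.inl a : PS (Fin k ⊕ Fin m)) ∈ VV k m (n + 1) := by
  refine Submodule.subset_span ⟨a, 1, n, ha, by omega, ?_⟩
  rw [map_one, mul_one]

/-- The difference of `sb h` and `sb A` on `p`. -/
def Cl (h : WS (Fin k ⊕ Fin m) →ₗ[ZMod 2] WS (Fin k ⊕ Fin m)) (n : ℕ) (p : PS (Fin k)) : Prop :=
  sb h (rename Sum.inl p) - rename Sum.inl (sb (bA h) p) ∈ VV k m n ∧ sb (bA h) p ∈ Hg (Fin k) n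

theorem Cl_mul {h : WS (Fin k ⊕ Fin m) →ₗ[ZMod 2] WS (Fin k ⊕ Fin m)} {n n' : ℕ}
    {p p' : PS (Fin k)} (h1 : Cl h n p) (h2 : Cl h n' p') : Cl h (n + n') (p * p') := by
  obtain ⟨h1, h1'⟩ := h1
  obtain ⟨h2, h2'⟩ := h2
  refine ⟨?_, ?_⟩
  · have e : sb h (rename Sum.inl (p * p')) - rename Sum.inl (sb (bA h) (p * p')) =
        (sb h (rename Sum.inl p) - rename Sum.inl (sb (bA h) p)) *
          ((sb h (rename Sum.inl p') - rename Sum.inl (sb (bA h) p')) +
            rename Sum.inl (sb (bA h) p')) +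
        (sb h (rename Sum.inl p') - rename Sum.inl (sb (bA h) p')) *
          rename Sum.inl (sb (bA h) p) := by
      simp only [map_mul]
      ring
    rw [e]
    refine Submodule.add_mem _ (VV_mul h1 (Submodule.add_mem _ (VV_mono (Nat.le_succ _) h2)
      (inl_mem h2'))) ?_
    rw [add_comm n n']
    exact VV_mul h2 (inl_mem h1')
  · rw [map_mul]
    exact IsHomogeneous.mul h1' h2'

theorem lf_mem {σ : Type} [Fintype σ] (w : WS σ) : lf w ∈ Hg σ 1 := by
  refine IsHomogeneous.sum _ _ _ fun i _ => ?_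
  have := (isHomogeneous_C σ (w i)).mul (isHomogeneous_X (ZMod 2) i)
  simpa using this

theorem Cl_X (h : WS (Fin k ⊕ Fin m) →ₗ[ZMod 2] WS (Fin k ⊕ Fin m)) (i : Fin k) :
    Cl h 1 (X i) := by
  refine ⟨?_, ?_⟩
  · rw [rename_X, sb_X, sb_X, single_inl, lf_sum_elim]
    have e : rename Sum.inl (lf ((h (Sum.elim (Pi.single i 1) 0)) ∘ Sum.inl)) +
        rename Sum.inr (lf ((h (Sum.elim (Pi.single i 1) 0)) ∘ Sum.inr)) -
        rename Sum.inl (lf (bA h (Pi.single i 1))) =
        (rename Sum.inl (1 : PS (Fin k)) *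
          rename Sum.inr (lf ((h (Sum.elim (Pi.single i 1) 0)) ∘ Sum.inr)) :
            PS (Fin k ⊕ Fin m)) := by
      have e1 : bA h (Pi.single i 1) = (h (Sum.elim (Pi.single i 1) 0)) ∘ Sum.inl := rfl
      rw [e1, map_one]
      ring
    rw [e]
    exact Submodule.subset_span ⟨1, _, 0, isHomogeneous_one _ _, by omega, rfl⟩
  · rw [sb_X]
    exact lf_mem _

theorem Cl_one (h : WS (Fin k ⊕ Fin m) →ₗ[ZMod 2] WS (Fin k ⊕ Fin m)) : Cl h 0 1 := by
  refine ⟨?_, ?_⟩
  · simp
  · rw [map_one]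
    exact isHomogeneous_one _ _

theorem Cl_monomial (h : WS (Fin k ⊕ Fin m) →ₗ[ZMod 2] WS (Fin k ⊕ Fin m)) (s : Fin k →₀ ℕ) :
    Cl h (∑ i, s i) (monomial s 1) := by
  induction s using Finsupp.induction_linear with
  | zero =>
    have := Cl_one h
    simpa using this
  | add s s' h1 h2 =>
    have := Cl_mul h1 h2
    rw [monomial_mul, one_mul] at this
    simpa [Finset.sum_add_distrib] using this
  | single i e =>
    have e1 : ∑ j, (Finsupp.single i e) j = e := by
      rw [Finset.sum_eq_single i]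
      · simp
      · intro j _ hj
        exact Finsupp.single_eq_of_ne hj
      · simp
    rw [e1]
    clear e1
    induction e with
    | zero =>
      have := Cl_one h
      simpa using this
    | succ e ih =>
      have := Cl_mul ih (Cl_X h i)
      rw [X, monomial_mul, one_mul, ← Finsupp.single_add] at this
      exact this

/-- The claim for the generators. -/
theorem main (c1 : P_SBB) (c2 : P_EXB) (c3 : P_EXE) (c4 : P_CTB) (t : ℕ)
    (h h' : WS (Fin k ⊕ Fin m) →ₗ[ZMod 2] WS (Fin k ⊕ Fin m)) (hp : Pr h)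
    (A : WS (Fin k) ≃ₗ[ZMod 2] WS (Fin k)) (hA : A.toLinearMap = bA h)
    (μ : PS (Fin m) →ₗ[ZMod 2] ZMod 2) (hμ : ∀ s, 2 ^ t ≤ s → ∀ b ∈ Hg (Fin m) s, μ b = 0)
    (F : PS (Fin k ⊕ Fin m)) :
    ex (Fin k) t (ct μ (sb h F)) =
      sb A.toLinearMap (ex (Fin k) t (ct (μ.comp (sb (bD h)).toLinearMap) F)) := by
  have hF := c4.2.1 (Fin k) (Fin m) F
  induction hF using Submodule.span_induction with
  | mem F hF =>
    obtain ⟨a, b, rfl⟩ := hF
    rw [c4.1]
    have hb : (μ.comp (sb (bD h)).toLinearMap) b = μ (sb (bD h) b) := rfl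
    rw [hb, map_mul, sb_inr hp]
    generalize sb (bD h) b = b'
    induction a using MvPolynomial.induction_on' with
    | monomial s c =>
      have hc : (monomial s c : PS (Fin k)) = c • monomial s 1 := by
        rw [smul_monomial, smul_eq_mul, mul_one]
      rw [hc]
      simp only [map_smul, smul_mul_assoc]
      rw [smul_comm (μ b') c]
      congr 1
      clear hc
      have hs : (monomial s (1 : ZMod 2) : PS (Fin k)) =
          monomial (s.mapRange (fun a => a / 2 ^ t) (Nat.zero_div _)) 1 ^ 2 ^ t *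
            monomial (s.mapRange (fun a => a % 2 ^ t) (Nat.zero_mod _)) 1 := by
        have hq : 2 ^ t • s.mapRange (fun a => a / 2 ^ t) (Nat.zero_div _) +
            s.mapRange (fun a => a % 2 ^ t) (Nat.zero_mod _) = s := by
          refine Finsupp.ext fun i => ?_
          rw [Finsupp.add_apply, Finsupp.smul_apply, Finsupp.mapRange_apply,
            Finsupp.mapRange_apply, smul_eq_mul]
          exact Nat.div_add_mod _ _
        rw [monomial_pow, monomial_mul, one_pow, one_mul, hq]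
      rw [hs]
      generalize hr : (monomial (s.mapRange (fun a => a / 2 ^ t) (Nat.zero_div _)) 1 :
        PS (Fin k)) = r
      generalize hρ : s.mapRange (fun a => a % 2 ^ t) (Nat.zero_mod _) = ρ
      have hρ' : ∑ i, ρ i + k ≤ 2 ^ t * k := by
        have h1 : ∀ i, ρ i + 1 ≤ 2 ^ t := by
          intro i
          rw [← hρ]
          exact Nat.mod_lt _ (by positivity)
        have h2 : ∑ i : Fin k, (ρ i + 1) ≤ ∑ i : Fin k, 2 ^ t :=
          Finset.sum_le_sum fun i _ => h1 i
        rw [Finset.sum_add_distrib] at h2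
        simp only [Finset.sum_const, Finset.card_univ, Fintype.card_fin, smul_eq_mul,
          mul_one] at h2
        rw [mul_comm (2 ^ t) k]
        exact h2
      have e0 : sb h (rename Sum.inl (r ^ 2 ^ t * monomial ρ 1)) * rename Sum.inr b' =
          sb h (rename Sum.inl r) ^ 2 ^ t *
            (sb h (rename Sum.inl (monomial ρ 1)) * rename Sum.inr b') := by
        simp only [map_mul, map_pow]
        ring
      rw [e0, c4.2.2.1 (Fin k) (Fin m) μ t _ _ hμ,
        kl_inl, c2.1, c2.1, map_mul (sb A.toLinearMap), ← hA, ← c3]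
      have key : ex (Fin k) t (ct μ (sb h (rename Sum.inl (monomial ρ (1 : ZMod 2))) *
          rename Sum.inr b')) = μ b' • ex (Fin k) t (sb A.toLinearMap (monomial ρ 1)) := by
        have e4 : sb h (rename Sum.inl (monomial ρ (1 : ZMod 2))) * rename Sum.inr b' =
            rename Sum.inl (sb (bA h) (monomial ρ 1)) * rename Sum.inr b' +
            (sb h (rename Sum.inl (monomial ρ (1 : ZMod 2))) -
              rename Sum.inl (sb (bA h) (monomial ρ 1))) * rename Sum.inr b' := by ring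
        rw [e4, map_add, map_add, c4.1, map_smul, hA]
        have e5 : ∀ E ∈ VV k m (∑ i, ρ i),
            ex (Fin k) t (ct μ (E * rename Sum.inr b')) = 0 := by
          intro E hE
          unfold VV at hE
          induction hE using Submodule.span_induction with
          | mem E hE =>
            obtain ⟨a, b, n', ha, hn, rfl⟩ := hE
            rw [mul_assoc, ← map_mul, c4.1, map_smul]
            rw [c2.2.2.2.2.1 (Fin k) t n' a ha, smul_zero]
            intro n'' e
            rw [Fintype.card_fin] at e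
            have : 2 ^ t * k ≤ 2 ^ t * (n'' + k) := Nat.mul_le_mul_left _ (by omega)
            omega
          | zero => rw [zero_mul, map_zero, map_zero]
          | add u v _ _ hu hv => rw [add_mul, map_add, map_add, hu, hv, add_zero]
          | smul c u _ hu => rw [smul_mul_assoc, map_smul, map_smul, hu, smul_zero]
        rw [e5 _ (Cl_monomial h ρ).1, add_zero]
      rw [key, mul_smul_comm]
    | add p q hp hq =>
      simp only [map_add, add_mul, smul_add, hp, hq]
  | zero => simp only [map_zero]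
  | add u v _ _ hu hv => simp only [map_add, hu, hv]
  | smul c u _ hu => simp only [map_smul, hu]

end UNI

theorem t_UNI : Stmt_UNI := by
  intro c1 c2 c3 c4 d t k m g g₀ hg
  let e := g₀.symm.trans g
  let h : WS (Fin k ⊕ Fin m) →ₗ[ZMod 2] WS (Fin k ⊕ Fin m) := e.toLinearMap
  let h' : WS (Fin k ⊕ Fin m) →ₗ[ZMod 2] WS (Fin k ⊕ Fin m) := e.symm.toLinearMap
  have hh' : ∀ u, h (h' u) = u := fun u => e.apply_symm_apply u
  have h'h : ∀ u, h' (h u) = u := fun u => e.symm_apply_apply u
  have hp : UNI.Pr h := by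
    intro z
    have h1 : g₀.symm (Sum.elim (0 : WS (Fin k)) z) ∈ An g₀ := by
      intro i
      rw [LinearEquiv.apply_symm_apply]
      rfl
    rw [← hg] at h1
    funext i
    exact h1 i
  have hp' : UNI.Pr h' := by
    intro z
    have h1 : g.symm (Sum.elim (0 : WS (Fin k)) z) ∈ An g := by
      intro i
      rw [LinearEquiv.apply_symm_apply]
      rfl
    rw [hg] at h1
    funext i
    exact h1 i
  let A : WS (Fin k) ≃ₗ[ZMod 2] WS (Fin k) := LinearEquiv.ofLinear (UNI.bA h) (UNI.bA h')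
    (LinearMap.ext fun y => UNI.bA_inv hp hh' y) (LinearMap.ext fun y => UNI.bA_inv hp' h'h y)
  let D : WS (Fin m) ≃ₗ[ZMod 2] WS (Fin m) := LinearEquiv.ofLinear (UNI.bD h) (UNI.bD h')
    (LinearMap.ext fun y => UNI.bD_inv hp' hh' y) (LinearMap.ext fun y => UNI.bD_inv hp h'h y)
  refine ⟨A, D, fun μ hμ f => ?_⟩
  have h1 : sb g.toLinearMap f = sb h (sb g₀.toLinearMap f) := by
    rw [c1.2.1 (Fin d) (Fin k ⊕ Fin m) (Fin k ⊕ Fin m) g₀.toLinearMap h f]
    congr 1
    congr 1
    refine LinearMap.ext fun w => ?_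
    change g w = g (g₀.symm (g₀ w))
    rw [LinearEquiv.symm_apply_apply]
  have h2 := UNI.main c1 c2 c3 c4 t h h' hp A rfl μ hμ (sb g₀.toLinearMap f)
  change ex (Fin k) t (ct μ (sb g.toLinearMap f)) = sb A.toLinearMap (ex (Fin k) t
    (ct (μ.comp (sb (UNI.bD h)).toLinearMap) (sb g₀.toLinearMap f)))
  rw [h1]
  exact h2

end HGP
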