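import Pool.Agent.HGP.Stmts
import Pool.Agent.HB.Main

/-!
# Vanishing, from the earlier work (module HGP_VNI)
-/

namespace HGP

open Pool.Agent.Lib_helper74.Hit (qd hits)

namespace VNI

theorem van : HB.P_VAN :=
  HB.t_VAN HB.t_LV0 (HB.t_DRP HB.t_CNG) (HB.t_PEL HB.t_PST) HB.t_COD
    (HB.t_VSP HB.t_COD HB.t_SPN HB.t_CHI HB.t_ARI) HB.t_ARI

theorem qd_le (d n : ℕ) : qd (Fin d) n ≤ HB.q ([] : List (HB.W d)) ⊥ n :=
  HB.rk_anti (HB.MAN.Un_le d n)

end VNI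

theorem t_VNI : Stmt_VNI := by
  intro d n hq
  have h1 : HB.q ([] : List (HB.W d)) ⊥ n ≠ 0 := by
    intro h0
    have := VNI.qd_le d n
    rw [h0] at this
    exact hq (Nat.le_zero.1 this)
  obtain ⟨r, h2, h3, h4⟩ := VNI.van d ⊥ [] n (fun a ha => by simp at ha) h1
  have h5 : HB.cod (⊥ : Submodule (ZMod 2) (HB.W d)) = d := (HB.t_COD d ⊥).2.1
  rw [h5] at h2 h3 h4
  simp only [List.length_nil, zero_add, mul_one, add_zero] at h2 h3 h4
  refine ⟨(d : ℤ) - r, n + d - r, ?_, ?_, h4⟩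
  · have h6 : (r : ℤ) ≤ 2 ^ (d + 1) := by exact_mod_cast h2
    rw [abs_le]
    constructor
    · have : (0 : ℤ) ≤ d := Int.natCast_nonneg d
      linarith
    · have h7 : (0 : ℤ) ≤ (r : ℤ) := Int.natCast_nonneg r
      have h8 : (0 : ℤ) ≤ 2 ^ (d + 1) := by positivity
      linarith
  · rw [Nat.cast_sub h3]
    push_cast
    ring

end HGP
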