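import Pool.Agent.HGP.Asm
import Pool.Agent.HGP.OPB
import Pool.Agent.HGP.SBB
import Pool.Agent.HGP.NNB
import Pool.Agent.HGP.CMC
import Pool.Agent.HGP.CCA
import Pool.Agent.HGP.CCB
import Pool.Agent.HGP.CO1
import Pool.Agent.HGP.CO2
import Pool.Agent.HGP.GEN
import Pool.Agent.HGP.HTS
import Pool.Agent.HGP.NRM
import Pool.Agent.HGP.EXB
import Pool.Agent.HGP.EXE
import Pool.Agent.HGP.EXO
import Pool.Agent.HGP.CTB
import Pool.Agent.HGP.LIN
import Pool.Agent.HGP.PJB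
import Pool.Agent.HGP.PJE
import Pool.Agent.HGP.UNI
import Pool.Agent.HGP.FKS
import Pool.Agent.HGP.LO1
import Pool.Agent.HGP.CFX
import Pool.Agent.HGP.LO2
import Pool.Agent.HGP.NLS
import Pool.Agent.HGP.RES
import Pool.Agent.HGP.KR1
import Pool.Agent.HGP.KR2
import Pool.Agent.HGP.TRN
import Pool.Agent.HGP.CK1
import Pool.Agent.HGP.CK2
import Pool.Agent.HGP.CK3
import Pool.Agent.HGP.QZR
import Pool.Agent.HGP.DUB
import Pool.Agent.HGP.LFG
import Pool.Agent.HGP.DET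
import Pool.Agent.HGP.FST
import Pool.Agent.HGP.CNT
import Pool.Agent.HGP.GSP
import Pool.Agent.HGP.GAP
import Pool.Agent.HGP.VNI
import Pool.Agent.HGP.AUT
import Pool.Agent.HGP.FIN

/-!
# Gap splitting for the hit problem: the result
-/

namespace HGP

theorem main : P_GSP ∧ P_AUT ∧ P_FIN :=
  asm t_OPB t_SBB t_NNB t_CMC t_CCA t_CCB t_CO1 t_CO2 t_GEN t_HTS t_NRM t_EXB t_EXE t_EXO t_CTB
    t_LIN t_PJB t_PJE t_UNI t_FKS t_LO1 t_CFX t_LO2 t_NUL t_RES t_KR1 t_KR2 t_TRN t_CK1 t_CK2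
    t_CK3 t_QZR t_DUB t_LFG t_DET t_FST t_CNT t_GSP t_GAP t_VNI t_AUT t_FIN

end HGP
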