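import Pool.Agent.HGP.Stmts

/-!
# Basic facts on the projections (module HGP_PJB)
-/

namespace HGP

open MvPolynomial
open Pool.Agent.Lib_helper74.Hit (hits qd up cf Sq)

namespace PJB

theorem pj_def (t : ℕ) {d k m : ℕ} (g : WS (Fin d) ≃ₗ[ZMod 2] WS (Fin k ⊕ Fin m))
    (μ : PS (Fin m) →ₗ[ZMod 2] ZMod 2) (f : PS (Fin d)) :
    pj t g μ f = ex (Fin k) t (ct μ (sb g.toLinearMap f)) := rfl

/-- The quotient of an exponent. -/
noncomputable def qt (t : ℕ) (α : ℕ →₀ ℕ) : ℕ →₀ ℕ :=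
  α.mapRange (fun a => a / 2 ^ t) (Nat.zero_div _)

theorem qt_eq {t : ℕ} {α : ℕ →₀ ℕ} (h : ∀ j, 2 ^ t ∣ α j) : 2 ^ t • qt t α = α := by
  ext j
  rw [Finsupp.smul_apply, qt, Finsupp.mapRange_apply, smul_eq_mul]
  exact Nat.mul_div_cancel' (h j)

end PJB

open PJB in
theorem t_PJB : Stmt_PJB := by
  intro hOPB _ hSBB hLIN hEXB hEXO hCTB
  obtain ⟨-, -, -, -, -, -, hO7, -, hO9, -, -, -⟩ := hOPB
  obtain ⟨-, -, -, hS4, -, -, -⟩ := hSBB
  obtain ⟨-, -, hL3, -, -⟩ := hLIN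
  obtain ⟨hE1, -, -, hE4, hE5, -, -, -⟩ := hEXB
  obtain ⟨hX1, hX2⟩ := hEXO
  obtain ⟨-, -, hC3, hC4, hC5⟩ := hCTB
  have hMp : ∀ (d t k m : ℕ) (g : WS (Fin d) ≃ₗ[ZMod 2] WS (Fin k ⊕ Fin m))
      (μ : PS (Fin m) →ₗ[ZMod 2] ZMod 2) (c : ℤ), Ad c k m μ → ∀ (M : ℕ) (β : ℕ →₀ ℕ)
      (f : PS (Fin d)), pj t g μ (Mp M (2 ^ t • β) f) = Mp M β (pj t g μ f) := by
    intro d t k m g μ c hμ M β f
    rw [pj_def, hO9, hC5 _ _ _ _ _ _ hμ.1, hX2, ← pj_def]
  refine ⟨?_, ?_, ?_, ?_, ?_⟩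
  · intro d c t C k m g μ hμ hdc r f
    have hk : k + m = d := (hL3 d k m g).1
    have hvan : ∀ s, 2 ^ (C + t) ≤ s → ∀ b ∈ Hg (Fin m) s, μ b = 0 := by
      intro s hs b hb
      refine hμ.2 s ?_ b hb
      intro h
      have h1 : (2 : ℕ) ^ t ≤ 2 ^ (C + t) := Nat.pow_le_pow_right (by norm_num) (by omega)
      have h2 : ((2 ^ t : ℕ) : ℤ) ≤ (s : ℤ) := by exact_mod_cast h1.trans hs
      push_cast at h2
      have h3 : ((k : ℕ) : ℤ) ≤ d := by exact_mod_cast (by omega : k ≤ d)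
      omega
    rw [pj_def, pj_def, map_mul, map_pow, hC3 _ _ _ _ _ _ hvan, pow_add, pow_mul, hE1]
  · intro d c t C k m g μ hμ f hf
    have hle : NN (Fin d) (C + t) ≤ (NN (Fin k) C).comap (pj t g μ) := by
      unfold NN
      rw [Submodule.span_le]
      rintro _ ⟨M, α, f', hα, hlt, rfl⟩
      show pj t g μ (Mp M α f') ∈ NN (Fin k) C
      by_cases hdiv : ∀ j, 2 ^ t ∣ α j
      · rw [← qt_eq hdiv, hMp d t k m g μ c hμ]
        refine Submodule.subset_span ⟨M, qt t α, pj t g μ f', ?_, ?_, rfl⟩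
        · intro h0
          apply hα
          rw [← qt_eq hdiv, h0, smul_zero]
        · intro j
          rw [qt, Finsupp.mapRange_apply]
          have h1 := hlt j
          rw [pow_add] at h1
          exact Nat.div_lt_of_lt_mul (by rw [mul_comm]; exact h1)
      · rw [pj_def, hO9, hC5 _ _ _ _ _ _ hμ.1, hX1 _ _ _ _ _ (not_forall.1 hdiv)]
        exact Submodule.zero_mem _
    exact hle hf
  · intro d c t k m j κ g μ hμ f
    rw [← hO7 _ (j + 1) j (2 ^ t * κ) f (Nat.lt_succ_self j),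
      ← hO7 _ (j + 1) j κ _ (Nat.lt_succ_self j)]
    have h1 : (Finsupp.single j (2 ^ t * κ) : ℕ →₀ ℕ) = 2 ^ t • Finsupp.single j κ := by
      rw [Finsupp.smul_single, smul_eq_mul]
    rw [h1, hMp d t k m g μ c hμ]
  · intro d c t k m n n' r g μ hμ f hf hr hn
    have h1 : sb g.toLinearMap f ∈ Hg (Fin k ⊕ Fin m) n := hS4 _ _ _ _ _ hf
    have h2 : ∀ s, s ≠ r → ∀ b ∈ Hg (Fin m) s, μ b = 0 := by
      intro s hs b hb
      refine hμ.2 s ?_ b hb
      rw [← hr]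
      exact_mod_cast hs
    have h3 : n' + k ≤ 2 ^ t * (n' + k) := Nat.le_mul_of_pos_left _ (by positivity)
    have h4 : (n - r) + r = n := by omega
    have h5 := (hC4 _ _ μ r n _ h2 h1).1 (n - r) h4
    rw [pj_def]
    refine hE4 (Fin k) t (n - r) n' _ h5 ?_
    rw [Fintype.card_fin]
    omega
  · intro d c t k m n g μ hμ f hf hn
    have h1 : sb g.toLinearMap f ∈ Hg (Fin k ⊕ Fin m) n := hS4 _ _ _ _ _ hf
    rw [pj_def]
    rcases lt_or_ge ((k : ℤ) - c) 0 with hk | hk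
    · have h2 : ∀ s, s ≠ n + 1 → ∀ b ∈ Hg (Fin m) s, μ b = 0 := by
        intro s _ b hb
        refine hμ.2 s ?_ b hb
        omega
      rw [(hC4 _ _ μ (n + 1) n _ h2 h1).2 (Nat.lt_succ_self n), map_zero]
    · obtain ⟨r, hr⟩ := Int.eq_ofNat_of_zero_le hk
      have h2 : ∀ s, s ≠ r → ∀ b ∈ Hg (Fin m) s, μ b = 0 := by
        intro s hs b hb
        refine hμ.2 s ?_ b hb
        rw [hr]
        exact_mod_cast hs
      rcases lt_or_ge n r with h3 | h3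
      · rw [(hC4 _ _ μ r n _ h2 h1).2 h3, map_zero]
      · have h4 : (n - r) + r = n := by omega
        have h5 := (hC4 _ _ μ r n _ h2 h1).1 (n - r) h4
        refine hE5 (Fin k) t (n - r) _ h5 ?_
        intro n' h6
        rw [Fintype.card_fin] at h6
        exact hn n' r hr.symm (by omega)

end HGP
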