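import Pool.Agent.HGP.Stmts

/-!
# Gap splitting for the hit problem: the structure theorem
-/

namespace HGP

open Pool.Agent.Lib_helper74.Hit (qd)

/-- The formula, and the degrees which it covers. -/
def P_STR : Prop :=
  ∀ d : ℕ, ∃ T : ℤ → ℕ,
    (∀ (c : ℤ) (t C : ℕ), T c ≤ t → T c ≤ C → ∀ q : ℤ, qz d (2 ^ t * q - c) = RH d c C q) ∧
    ∃ K : ℕ, ∀ n : ℕ, qd (Fin d) n ≠ 0 →
      ∃ (c q : ℤ) (t : ℕ), |c| ≤ K ∧ T c < t ∧ t ≤ K ∧ (n : ℤ) = 2 ^ t * q - c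

theorem t_STR (hG : P_GSP) (hA : P_GAP) (hV : P_VNI) : P_STR := by
  intro d
  choose T hT using hG d
  refine ⟨T, fun c t C ht hC q => hT c t C ht hC q, ?_⟩
  obtain ⟨K, hK⟩ := hA d (d + 2 ^ (d + 1)) T
  refine ⟨K, ?_⟩
  intro n hn
  obtain ⟨r, N, hr, hrN, hal⟩ := hV d n hn
  obtain ⟨c, t, hc, hTt, htK, q, hq⟩ := hK n ⟨r, N, by
    push_cast
    exact hr, hrN, hal⟩
  exact ⟨c, q, t, hc, hTt, htK, by linarith⟩

end HGP
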