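import Pool.Agent.HGP.Base
import Pool.Agent.HB.FKP
import Pool.Agent.HB.VAN

/-!
# Gap splitting for the hit problem: the statements of the modules

`P_X` is the statement of the module `X`; `Stmt_X` is `P_X` with the modules on which it depends as
hypotheses. The paper proofs are in `PAPER.md`.
-/

namespace HGP

open MvPolynomial
open Pool.Agent.Lib_helper74.Hit (hits qd up cf Sq)

/-! ### 1. operations -/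

/-- OPB: basic facts on the operations. -/
def P_OPB : Prop :=
  (∀ (σ : Type) (m : ℕ) (f : PS σ), Mp m 0 f = f) ∧
  (∀ (σ : Type) (m : ℕ) (α : ℕ →₀ ℕ) (f g : PS σ), Mp m α (f * g) =
    ∑ p ∈ Finset.HasAntidiagonal.antidiagonal α, Mp m p.1 f * Mp m p.2 g) ∧
  (∀ (σ : Type) (m : ℕ) (α : ℕ →₀ ℕ) (n : ℕ) (f : PS σ), f ∈ Hg σ n →
    Mp m α f ∈ Hg σ (n + wt α)) ∧
  (∀ (σ : Type) (m : ℕ) (α : ℕ →₀ ℕ) (f : PS σ), ¬ (∀ j, α j ≠ 0 → j < m) → Mp m α f = 0) ∧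
  (∀ (σ : Type) (m m' : ℕ) (α : ℕ →₀ ℕ) (f : PS σ), (∀ j, α j ≠ 0 → j < m) →
    (∀ j, α j ≠ 0 → j < m') → Mp m α f = Mp m' α f) ∧
  (∀ (σ : Type) (m : ℕ) (α : ℕ →₀ ℕ) (t : ℕ) (r f : PS σ), (∀ j, α j < 2 ^ t) →
    Mp m α (r ^ 2 ^ t * f) = r ^ 2 ^ t * Mp m α f) ∧
  (∀ (σ : Type) (m j κ : ℕ) (f : PS σ), j < m → Mp m (Finsupp.single j κ) f = Os j κ f) ∧
  (∀ (σ : Type) (κ : ℕ) (f : PS σ), Os 0 κ f = Sq κ f) ∧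
  (∀ (σ τ : Type) [DecidableEq σ] [Fintype τ] (A : WS σ →ₗ[ZMod 2] WS τ) (m : ℕ) (α : ℕ →₀ ℕ)
    (f : PS σ), sb A (Mp m α f) = Mp m α (sb A f)) ∧
  (∀ (σ τ : Type) (θ : σ → τ) (m : ℕ) (α : ℕ →₀ ℕ) (f : PS σ),
    Mp m α (rename θ f) = rename θ (Mp m α f)) ∧
  (∀ (σ : Type) (m : ℕ) (α : ℕ →₀ ℕ) (f : PS σ), (∃ j, ¬ 2 ∣ α j) → Mp m α (f ^ 2) = 0) ∧
  (∀ (σ : Type) (m : ℕ) (α : ℕ →₀ ℕ) (f : PS σ), Mp m (2 • α) (f ^ 2) = Mp m α f ^ 2)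

/-- OPB -/
def Stmt_OPB : Prop := P_OPB

/-- SBB: basic facts on the substitutions. -/
def P_SBB : Prop :=
  (∀ (σ τ : Type) [Fintype σ] [DecidableEq σ] [Fintype τ] (A : WS σ →ₗ[ZMod 2] WS τ) (w : WS σ),
    sb A (lf w) = lf (A w)) ∧
  (∀ (σ τ ρ : Type) [DecidableEq σ] [Fintype τ] [DecidableEq τ] [Fintype ρ]
    (A : WS σ →ₗ[ZMod 2] WS τ) (B : WS τ →ₗ[ZMod 2] WS ρ) (f : PS σ),
    sb B (sb A f) = sb (B.comp A) f) ∧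
  (∀ (σ : Type) [DecidableEq σ] [Fintype σ] (f : PS σ), sb (LinearMap.id : WS σ →ₗ[ZMod 2] WS σ) f
    = f) ∧
  (∀ (σ τ : Type) [DecidableEq σ] [Fintype τ] (A : WS σ →ₗ[ZMod 2] WS τ) (n : ℕ) (f : PS σ),
    f ∈ Hg σ n → sb A f ∈ Hg τ n) ∧
  (∀ (σ τ : Type) [DecidableEq σ] [Fintype τ] (A : WS σ →ₗ[ZMod 2] WS τ) (f : PS σ),
    f ∈ hits σ → sb A f ∈ hits τ) ∧
  (∀ (c : ℤ) (k m : ℕ) (μ : PS (Fin m) →ₗ[ZMod 2] ZMod 2)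
    (D : WS (Fin m) ≃ₗ[ZMod 2] WS (Fin m)), Ad c k m μ →
      Ad c k m (μ.comp (sb D.toLinearMap).toLinearMap)) ∧
  (∀ (d k m t : ℕ) (A : WS (Fin d) ≃ₗ[ZMod 2] WS (Fin d))
    (g : WS (Fin d) ≃ₗ[ZMod 2] WS (Fin k ⊕ Fin m)) (μ : PS (Fin m) →ₗ[ZMod 2] ZMod 2)
    (f : PS (Fin d)), pj t g μ (sb A.toLinearMap f) = pj t (A.trans g) μ f)

/-- SBB -/
def Stmt_SBB : Prop := P_SBB

/-- NNB: basic facts on `NN`. -/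
def P_NNB : Prop :=
  (∀ (σ : Type) (t : ℕ) (r f : PS σ), f ∈ NN σ t → r ^ 2 ^ t * f ∈ NN σ t) ∧
  (∀ (σ : Type) (s t : ℕ), s ≤ t → NN σ s ≤ NN σ t) ∧
  (∀ (σ τ : Type) [DecidableEq σ] [Fintype τ] (A : WS σ →ₗ[ZMod 2] WS τ) (t : ℕ) (f : PS σ),
    f ∈ NN σ t → sb A f ∈ NN τ t) ∧
  (∀ (σ τ : Type) (θ : σ → τ) (t : ℕ) (f : PS σ), f ∈ NN σ t → rename θ f ∈ NN τ t) ∧
  (∀ (σ : Type) (t n : ℕ) (f : PS σ), f ∈ Hg σ n → f ∈ NN σ t → f ∈ NG σ t n) ∧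
  (∀ (σ : Type) (t n : ℕ), NG σ t n ≤ NN σ t ∧ NG σ t n ≤ Hg σ n) ∧
  (∀ (σ : Type) (t n : ℕ) (f : PS σ), f ∈ NN σ t → homogeneousComponent n f ∈ NN σ t) ∧
  (∀ (σ : Type) (t j κ : ℕ) (f : PS σ), 1 ≤ κ → κ < 2 ^ t → Os j κ f ∈ NN σ t) ∧
  (∀ (σ : Type) (j κ n : ℕ) (f : PS σ), f ∈ Hg σ n → Os j κ f ∈ Hg σ (n + κ * (2 ^ (j + 1) - 1))) ∧
  (∀ (σ : Type) (J : ℕ → ℕ → Prop) (n : ℕ), OG σ J n ≤ Hg σ n) ∧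
  (∀ t : ℕ, NN (Fin 0) t = ⊥)

/-- NNB -/
def Stmt_NNB : Prop := P_OPB → P_NNB

/-! ### 2. composition -/

/-- The parameters of the composite of the operation at the place `j` (exponent of `T`) after the
total operation with `m` parameters. -/
noncomputable def zz (j m i : ℕ) : MvPolynomial ℕ (Polynomial (ZMod 2)) :=
  (if i < m then X i else 0) + (if i = j then C Polynomial.X else 0) +
    (if j + 1 ≤ i ∧ i - (j + 1) < m then C (Polynomial.X ^ 2 ^ (i - j)) * X (i - (j + 1)) else 0)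

/-- The structure constants. -/
noncomputable def cc (j m κ : ℕ) (γ ρ : ℕ →₀ ℕ) : ZMod 2 :=
  (coeff γ (ρ.prod fun i a => zz j m i ^ a)).coeff κ

/-- CMC: the composite of two operations. -/
def P_CMC : Prop :=
  ∀ (σ : Type) (j m κ : ℕ) (γ : ℕ →₀ ℕ) (f : PS σ), Os j κ (Mp m γ f) =
    ∑ ρ ∈ (ph σ (m + j + 1) f).support, cc j m κ γ ρ • Mp (m + j + 1) ρ f

/-- CMC -/
def Stmt_CMC : Prop := P_OPB → P_CMC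

/-- CCA: degrees and sizes of the exponents in a composite. -/
def P_CCA : Prop :=
  ∀ (j m κ : ℕ) (γ ρ : ℕ →₀ ℕ), cc j m κ γ ρ ≠ 0 → wt ρ = wt γ + κ * (2 ^ (j + 1) - 1) ∧
    ∀ t, κ < 2 ^ t → (∀ i, γ i < 2 ^ t) → ∀ i, ρ i < 2 ^ t

/-- CCA -/
def Stmt_CCA : Prop := P_CCA

/-- CCB: some structure constants. -/
def P_CCB : Prop :=
  (∀ (j m κ e : ℕ) (γ ρ : ℕ →₀ ℕ), cc j m (2 ^ e * κ) (2 ^ e • γ) (2 ^ e • ρ) = cc j m κ γ ρ) ∧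
  (∀ (j m : ℕ) (γ ρ : ℕ →₀ ℕ), (∀ i, γ i ≠ 0 → i < m) → cc j m 1 γ ρ =
    if ρ = γ + Finsupp.single j 1 then (ρ j : ZMod 2) else 0) ∧
  (∀ (j : ℕ) (ρ : ℕ →₀ ℕ), cc j 1 2 (Finsupp.single 0 1) ρ =
    if ρ = Finsupp.single (j + 1) 1 ∨ ρ = Finsupp.single j 2 + Finsupp.single 0 1 then 1 else 0)

/-- CCB -/
def Stmt_CCB : Prop := P_CCB

/-- CO1: an operation as a composite. -/
def P_CO1 : Prop :=
  ∀ (σ : Type) (t e m j : ℕ) (δ : ℕ →₀ ℕ) (f : PS σ), ¬ 2 ∣ δ j → (∀ i, δ i ≠ 0 → i < m) →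
    (∀ i, (2 ^ e • δ) i < 2 ^ t) →
    Os j (2 ^ e) (Mp m (2 ^ e • δ - Finsupp.single j (2 ^ e)) f) - Mp m (2 ^ e • δ) f ∈
      ND t e (wt (2 ^ e • δ)) f

/-- CO1 -/
def Stmt_CO1 : Prop := P_OPB → P_CMC → P_CCA → P_CCB → P_CO1

/-- CO2: the operation of an exponent with one entry as a composite. -/
def P_CO2 : Prop :=
  ∀ (σ : Type) (t e j : ℕ) (f : PS σ), e + 2 ≤ t →
    Os j (2 ^ (e + 1)) (Os 0 (2 ^ e) f) - Os (j + 1) (2 ^ e) f -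
      Mp (j + 2) (2 ^ e • (Finsupp.single j 2 + Finsupp.single 0 1)) f ∈
        ND t e (2 ^ e * (2 ^ (j + 2) - 1)) f

/-- CO2 -/
def Stmt_CO2 : Prop := P_OPB → P_CMC → P_CCA → P_CCB → P_CO2

/-- GEN: generators. -/
def P_GEN : Prop :=
  ∀ (σ : Type) (t n : ℕ) (f : PS σ), 1 ≤ t → f ∈ Hg σ n → f ∈ NN σ t → f ∈ OG σ (JG t) n

/-- GEN -/
def Stmt_GEN : Prop := P_OPB → P_NNB → P_CO1 → P_CO2 → P_GEN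

/-- HTS: the hits. -/
def P_HTS : Prop :=
  (∀ (σ : Type) (m : ℕ) (α : ℕ →₀ ℕ) (f : PS σ), α ≠ 0 → Mp m α f ∈ hits σ) ∧
  (∀ (σ : Type) (t n : ℕ) (f : PS σ), f ∈ Hg σ n → f ∈ hits σ →
    f ∈ NN σ t ⊔ OG σ (JS t) n) ∧
  (∀ (σ : Type) (t n : ℕ) (f : PS σ), f ∈ Hg σ n → n < 2 ^ t → f ∈ hits σ → f ∈ NN σ t)

/-- HTS -/
def Stmt_HTS : Prop := P_OPB → P_NNB → P_GEN → P_HTS

/-- NRM: the operations preserve `NN`. -/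
def P_NRM : Prop :=
  ∀ (σ : Type) (t j κ : ℕ) (f : PS σ), f ∈ NN σ t → Os j κ f ∈ NN σ t

/-- NRM -/
def Stmt_NRM : Prop := P_OPB → P_NNB → P_GEN → P_NRM

/-! ### 3. the extraction, the contraction, the projection -/

/-- EXB: basic facts on the extraction. -/
def P_EXB : Prop :=
  (∀ (σ : Type) [Fintype σ] (t : ℕ) (r f : PS σ), ex σ t (r ^ 2 ^ t * f) = r * ex σ t f) ∧
  (∀ (σ : Type) [Fintype σ] (f : PS σ), ex σ 0 f = f) ∧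
  (∀ (σ : Type) [Fintype σ] (t : ℕ) (f : PS σ), ex σ (t + 1) f = ex σ 1 (ex σ t f)) ∧
  (∀ (σ : Type) [Fintype σ] (t n n' : ℕ) (f : PS σ), f ∈ Hg σ n →
    n + Fintype.card σ = 2 ^ t * (n' + Fintype.card σ) → ex σ t f ∈ Hg σ n') ∧
  (∀ (σ : Type) [Fintype σ] (t n : ℕ) (f : PS σ), f ∈ Hg σ n →
    (∀ n', n + Fintype.card σ ≠ 2 ^ t * (n' + Fintype.card σ)) → ex σ t f = 0) ∧
  (∀ (σ : Type) [Fintype σ] (f : PS σ), ∃ G : Finset σ → PS σ,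
    f = ∑ S, (∏ i ∈ S, X i) * G S ^ 2) ∧
  (∀ (σ : Type) [Fintype σ] (g : PS σ), ex σ 1 ((∏ i, X i) * g ^ 2) = g) ∧
  (∀ (σ : Type) [Fintype σ] (S : Finset σ) (g : PS σ), S ≠ Finset.univ →
    ex σ 1 ((∏ i ∈ S, X i) * g ^ 2) = 0)

/-- EXB -/
def Stmt_EXB : Prop := P_EXB

/-- EXE: the extraction commutes with the invertible substitutions. -/
def P_EXE : Prop :=
  ∀ (k t : ℕ) (A : WS (Fin k) ≃ₗ[ZMod 2] WS (Fin k)) (f : PS (Fin k)),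
    ex (Fin k) t (sb A.toLinearMap f) = sb A.toLinearMap (ex (Fin k) t f)

/-- EXE -/
def Stmt_EXE : Prop := P_SBB → P_EXB → P_EXE

/-- EXO: the extraction of the value of an operation. -/
def P_EXO : Prop :=
  (∀ (σ : Type) [Fintype σ] (t m : ℕ) (α : ℕ →₀ ℕ) (f : PS σ), (∃ j, ¬ 2 ^ t ∣ α j) →
    ex σ t (Mp m α f) = 0) ∧
  (∀ (σ : Type) [Fintype σ] (t m : ℕ) (α : ℕ →₀ ℕ) (f : PS σ),
    ex σ t (Mp m (2 ^ t • α) f) = Mp m α (ex σ t f))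

/-- EXO -/
def Stmt_EXO : Prop := P_OPB → P_EXB → P_EXO

/-- CTB: the contraction. -/
def P_CTB : Prop :=
  (∀ (σ τ : Type) (μ : PS τ →ₗ[ZMod 2] ZMod 2) (a : PS σ) (b : PS τ),
    ct μ (rename Sum.inl a * rename Sum.inr b) = μ b • a) ∧
  (∀ (σ τ : Type) (F : PS (σ ⊕ τ)), F ∈ Submodule.span (ZMod 2)
    {x : PS (σ ⊕ τ) | ∃ (a : PS σ) (b : PS τ), x = rename Sum.inl a * rename Sum.inr b}) ∧
  (∀ (σ τ : Type) (μ : PS τ →ₗ[ZMod 2] ZMod 2) (t : ℕ) (r f : PS (σ ⊕ τ)),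
    (∀ s, 2 ^ t ≤ s → ∀ b ∈ Hg τ s, μ b = 0) →
    ct μ (r ^ 2 ^ t * f) = kl σ τ r ^ 2 ^ t * ct μ f) ∧
  (∀ (σ τ : Type) (μ : PS τ →ₗ[ZMod 2] ZMod 2) (r n : ℕ) (f : PS (σ ⊕ τ)),
    (∀ s, s ≠ r → ∀ b ∈ Hg τ s, μ b = 0) → f ∈ Hg (σ ⊕ τ) n →
      (∀ n', n' + r = n → ct μ f ∈ Hg σ n') ∧ (n < r → ct μ f = 0)) ∧
  (∀ (σ τ : Type) (μ : PS τ →ₗ[ZMod 2] ZMod 2) (m : ℕ) (α : ℕ →₀ ℕ) (f : PS (σ ⊕ τ)),
    (∀ b ∈ hits τ, μ b = 0) → ct μ (Mp m α f) = Mp m α (ct μ f))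

/-- CTB -/
def Stmt_CTB : Prop := P_OPB → P_HTS → P_CTB

/-- LIN: linear algebra. -/
def P_LIN : Prop :=
  (∀ (d : ℕ) (Λ : Submodule (ZMod 2) (WS (Fin d))), ∃ (k : ℕ)
    (g : WS (Fin d) ≃ₗ[ZMod 2] WS (Fin k ⊕ Fin (Module.finrank (ZMod 2) Λ))), An g = Λ) ∧
  (∀ (d : ℕ) (v : WS (Fin (d + 1)) →ₗ[ZMod 2] ZMod 2), v ≠ 0 →
    ∃ A : WS (Fin (d + 1)) ≃ₗ[ZMod 2] WS (Fin (d + 1)), ∀ w, A w 0 = v w) ∧
  (∀ (d k m : ℕ) (g : WS (Fin d) ≃ₗ[ZMod 2] WS (Fin k ⊕ Fin m)), k + m = d ∧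
    Module.finrank (ZMod 2) (An g) = m) ∧
  (∀ (d k m : ℕ) (g : WS (Fin (d + 1)) ≃ₗ[ZMod 2] WS (Fin (k + 1) ⊕ Fin m)),
    (∀ w ∈ An g, w 0 = 0) →
      ∃ g₁ : WS (Fin d) ≃ₗ[ZMod 2] WS (Fin k ⊕ Fin m), An (ee g₁) = An g) ∧
  (∀ (d k m k' m' : ℕ) (g : WS (Fin d) ≃ₗ[ZMod 2] WS (Fin k ⊕ Fin m))
    (g' : WS (Fin d) ≃ₗ[ZMod 2] WS (Fin k' ⊕ Fin m')), An (ee g) = An (ee g') → An g = An g')

/-- LIN -/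
def Stmt_LIN : Prop := P_LIN

/-- PJB: basic facts on the projections. -/
def P_PJB : Prop :=
  (∀ (d : ℕ) (c : ℤ) (t C k m : ℕ) (g : WS (Fin d) ≃ₗ[ZMod 2] WS (Fin k ⊕ Fin m))
    (μ : PS (Fin m) →ₗ[ZMod 2] ZMod 2), Ad c k m μ → (d : ℤ) - c < 2 ^ t → ∀ r f : PS (Fin d),
      pj t g μ (r ^ 2 ^ (C + t) * f) =
        kl (Fin k) (Fin m) (sb g.toLinearMap r) ^ 2 ^ C * pj t g μ f) ∧
  (∀ (d : ℕ) (c : ℤ) (t C k m : ℕ) (g : WS (Fin d) ≃ₗ[ZMod 2] WS (Fin k ⊕ Fin m))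
    (μ : PS (Fin m) →ₗ[ZMod 2] ZMod 2), Ad c k m μ → ∀ f ∈ NN (Fin d) (C + t),
      pj t g μ f ∈ NN (Fin k) C) ∧
  (∀ (d : ℕ) (c : ℤ) (t k m j κ : ℕ) (g : WS (Fin d) ≃ₗ[ZMod 2] WS (Fin k ⊕ Fin m))
    (μ : PS (Fin m) →ₗ[ZMod 2] ZMod 2), Ad c k m μ → ∀ f : PS (Fin d),
      pj t g μ (Os j (2 ^ t * κ) f) = Os j κ (pj t g μ f)) ∧
  (∀ (d : ℕ) (c : ℤ) (t k m n n' r : ℕ) (g : WS (Fin d) ≃ₗ[ZMod 2] WS (Fin k ⊕ Fin m))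
    (μ : PS (Fin m) →ₗ[ZMod 2] ZMod 2), Ad c k m μ → ∀ f ∈ Hg (Fin d) n, (r : ℤ) = k - c →
      n + k = 2 ^ t * (n' + k) + r → pj t g μ f ∈ Hg (Fin k) n') ∧
  (∀ (d : ℕ) (c : ℤ) (t k m n : ℕ) (g : WS (Fin d) ≃ₗ[ZMod 2] WS (Fin k ⊕ Fin m))
    (μ : PS (Fin m) →ₗ[ZMod 2] ZMod 2), Ad c k m μ → ∀ f ∈ Hg (Fin d) n,
      (∀ n' r : ℕ, (r : ℤ) = k - c → n + k ≠ 2 ^ t * (n' + k) + r) → pj t g μ f = 0)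

/-- PJB -/
def Stmt_PJB : Prop := P_OPB → P_NNB → P_SBB → P_LIN → P_EXB → P_EXO → P_CTB → P_PJB

/-- PJE: one more variable. -/
def P_PJE : Prop :=
  ∀ (d t k m M : ℕ) (g : WS (Fin d) ≃ₗ[ZMod 2] WS (Fin k ⊕ Fin m))
    (μ : PS (Fin m) →ₗ[ZMod 2] ZMod 2) (f : PS (Fin d)),
    pj t (ee g) μ (up d f * X 0 ^ M) =
      if M % 2 ^ t = 2 ^ t - 1 then up k (pj t g μ f) * X 0 ^ (M / 2 ^ t) else 0

/-- PJE -/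
def Stmt_PJE : Prop := P_EXB → P_CTB → P_PJE

/-- UNI: the projection depends only on the subspace, up to substitutions. -/
def P_UNI : Prop :=
  ∀ (d t k m : ℕ) (g g₀ : WS (Fin d) ≃ₗ[ZMod 2] WS (Fin k ⊕ Fin m)), An g = An g₀ →
    ∃ (A : WS (Fin k) ≃ₗ[ZMod 2] WS (Fin k)) (D : WS (Fin m) ≃ₗ[ZMod 2] WS (Fin m)),
      ∀ μ : PS (Fin m) →ₗ[ZMod 2] ZMod 2, (∀ s, 2 ^ t ≤ s → ∀ b ∈ Hg (Fin m) s, μ b = 0) →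
        ∀ f : PS (Fin d), pj t g μ f =
          sb A.toLinearMap (pj t g₀ (μ.comp (sb D.toLinearMap).toLinearMap) f)

/-- UNI -/
def Stmt_UNI : Prop := P_SBB → P_EXB → P_EXE → P_CTB → P_UNI

/-! ### 4. localization -/

/-- FKS: the product `SL d` is the value at `X 0` of an additive polynomial which vanishes at the
other variables. -/
def P_FKS : Prop :=
  ∀ d : ℕ, ∃ c : ℕ → PS (Fin (d + 1)),
    (∀ i : Fin d, ∑ n ∈ Finset.range (d + 1), c n * X i.succ ^ 2 ^ n = 0) ∧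
      ∑ n ∈ Finset.range (d + 1), c n * X 0 ^ 2 ^ n = SL d

/-- FKS -/
def Stmt_FKS : Prop := P_FKS

/-- LO1: multiples of `SL`, one monomial. -/
def P_LO1 : Prop :=
  ∀ (d t r M : ℕ) (g : PS (Fin d)), r < t → M.testBit r = false →
    SL d ^ (2 ^ t * 2 ^ r) * (up d g * X 0 ^ M) ∈ NN (Fin (d + 1)) t

/-- LO1 -/
def Stmt_LO1 : Prop := P_OPB → P_NNB → P_FKS → P_LO1

/-- CFX: the coefficients of the powers `2 ^ t * j - 1` of the variable `0`. -/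
def P_CFX : Prop :=
  (∀ (d t m : ℕ) (α : ℕ →₀ ℕ) (M M' : ℕ) (g : PS (Fin d)), α ≠ 0 → (∀ j, α j < 2 ^ t) →
    M' % 2 ^ t = 2 ^ t - 1 → cf M' (Mp m α (X 0 ^ M : PS (Fin (d + 1))) * up d g) = 0) ∧
  (∀ (d t M : ℕ) (F : PS (Fin (d + 1))), M % 2 ^ t = 2 ^ t - 1 → F ∈ NN (Fin (d + 1)) t →
    cf M F ∈ NN (Fin d) t)

/-- CFX -/
def Stmt_CFX : Prop := P_OPB → P_EXO → P_CFX

/-- LO2: multiples of `SL`. -/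
def P_LO2 : Prop :=
  ∀ (d t : ℕ) (F : PS (Fin (d + 1))), 1 ≤ t →
    (∀ M, M % 2 ^ t = 2 ^ t - 1 → cf M F ∈ NN (Fin d) t) →
      SL d ^ (2 ^ t * 2 ^ t) * F ∈ NN (Fin (d + 1)) t

/-- LO2 -/
def Stmt_LO2 : Prop := P_OPB → P_NNB → P_LO1 → P_CFX → P_LO2

/-- NUL: the ideal of the powers of the `Sv v`. -/
def P_NUL : Prop :=
  ∀ d N : ℕ, ∃ B : ℕ, ∀ b, B ≤ b → ∀ r ∈ Hg (Fin d) b,
    r ∈ Ideal.span {s : PS (Fin d) | ∃ v : WS (Fin d) →ₗ[ZMod 2] ZMod 2, v ≠ 0 ∧ s = Sv v ^ N}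

/-- NUL -/
def Stmt_NUL : Prop := P_NUL

/-- RES: the values of `Sv` and `SL`. -/
def P_RES : Prop :=
  (∀ (d k m : ℕ) (g : WS (Fin d) ≃ₗ[ZMod 2] WS (Fin k ⊕ Fin m)),
    kl (Fin (k + 1)) (Fin m) (sb (ee g).toLinearMap (SL d)) = SL k ^ 2 ^ m) ∧
  (∀ (d k m : ℕ) (g : WS (Fin (d + 1)) ≃ₗ[ZMod 2] WS (Fin k ⊕ Fin m)) (w : WS (Fin (d + 1))),
    w ∈ An g → w 0 ≠ 0 → kl (Fin k) (Fin m) (sb g.toLinearMap (SL d)) = 0) ∧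
  (∀ (d : ℕ) (v : WS (Fin (d + 1)) →ₗ[ZMod 2] ZMod 2)
    (A : WS (Fin (d + 1)) ≃ₗ[ZMod 2] WS (Fin (d + 1))), (∀ w, A w 0 = v w) →
      sb A.toLinearMap (Sv v) = SL d) ∧
  (∀ (d : ℕ) (v : WS (Fin (d + 1)) →ₗ[ZMod 2] ZMod 2), v ≠ 0 → Sv v ∈ Hg (Fin (d + 1)) (2 ^ d))

/-- RES -/
def Stmt_RES : Prop := P_SBB → P_LIN → P_RES

/-! ### 5. the induction -/

/-- The multiples by a power of `Sv v` of an element of the kernel are zero. -/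
def Tor (d : ℕ) (c : ℤ) (t C : ℕ) : Prop :=
  ∀ (q : ℤ) (n : ℕ) (f : PS (Fin d)), (n : ℤ) = 2 ^ (C + t) * q - c → f ∈ Hg (Fin d) n →
    KK c t C f → ∀ v : WS (Fin d) →ₗ[ZMod 2] ZMod 2, v ≠ 0 →
      Sv v ^ (2 ^ (C + t) * 2 ^ (C + t)) * f ∈ NN (Fin d) (C + t)

/-- KR1: the kernel is torsion. -/
def P_KR1 : Prop :=
  ∀ (d : ℕ) (c : ℤ) (t C : ℕ), 1 ≤ C → ((d + 1 : ℕ) : ℤ) - c < 2 ^ t →
    (∀ q, Inj d (c - 1) t C q) → Tor (d + 1) c t C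

/-- KR1 -/
def Stmt_KR1 : Prop := P_NNB → P_SBB → P_LIN → P_PJE → P_CFX → P_LO2 → P_RES → P_KR1

/-- KR2: injectivity in large degrees. -/
def P_KR2 : Prop :=
  ∀ (d : ℕ) (c : ℤ) (t C : ℕ), (d : ℤ) - c < 2 ^ t → Tor d c t C →
    ∃ B : ℤ, ∀ q, B < q → Inj d c t C q

/-- KR2 -/
def Stmt_KR2 : Prop := P_NNB → P_NUL → P_KR2

/-- The multiples by a power of `Sv v` can be lifted. -/
def Cok (d : ℕ) (c : ℤ) (t C : ℕ) : Prop :=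
  ∀ (q : ℤ) (n k m n' r : ℕ) (g : WS (Fin (d + 1)) ≃ₗ[ZMod 2] WS (Fin k ⊕ Fin m))
    (v : WS (Fin k) →ₗ[ZMod 2] ZMod 2), v ≠ 0 →
    (n : ℤ) = 2 ^ (C + t) * (q + 2 ^ (d + C)) - c → (n' : ℤ) = 2 ^ C * q - k → (r : ℤ) = k - c →
    ∀ u ∈ Hg (Fin k) n', ∀ ν ∈ Hg (Fin m) r,
      ∃ f, Lft c t C n g (Sv v ^ 2 ^ (m + 2 * C) * u) ν f

/-- TRN: transport of a lift. -/
def P_TRN : Prop :=
  (∀ (d : ℕ) (c : ℤ) (t C n k m : ℕ) (g : WS (Fin d) ≃ₗ[ZMod 2] WS (Fin k ⊕ Fin m))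
    (B : WS (Fin k) ≃ₗ[ZMod 2] WS (Fin k)) (u : PS (Fin k)) (ν : PS (Fin m)) (f : PS (Fin d)),
      Lft c t C n (g.trans (bl B)) u ν f → Lft c t C n g (sb B.symm.toLinearMap u) ν f) ∧
  (∀ (d : ℕ) (c : ℤ) (t C n k m : ℕ) (g : WS (Fin d) ≃ₗ[ZMod 2] WS (Fin k ⊕ Fin m))
    (E : WS (Fin d) ≃ₗ[ZMod 2] WS (Fin d)) (u : PS (Fin k)) (ν : PS (Fin m)) (f : PS (Fin d)),
      Lft c t C n (E.trans g) u ν f → Lft c t C n g u ν (sb E.toLinearMap f)) ∧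
  (∀ (d : ℕ) (c : ℤ) (t C n k m : ℕ) (g : WS (Fin d) ≃ₗ[ZMod 2] WS (Fin k ⊕ Fin m))
    (u u' z : PS (Fin k)) (ν : PS (Fin m)) (f f' : PS (Fin d)), z ∈ NN (Fin k) C →
      Lft c t C n g u ν f → Lft c t C n g u' ν f' → Lft c t C n g (u + u' + z) ν (f + f')) ∧
  (∀ (d : ℕ) (c : ℤ) (t C n k m : ℕ) (g : WS (Fin d) ≃ₗ[ZMod 2] WS (Fin k ⊕ Fin m))
    (ν : PS (Fin m)), Lft c t C n g (0 : PS (Fin k)) ν (0 : PS (Fin d)))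

/-- TRN -/
def Stmt_TRN : Prop := P_NNB → P_SBB → P_EXE → P_CTB → P_TRN

/-- CK1: lifts of the multiples by a power of `SL`, for an adapted equivalence. -/
def P_CK1 : Prop :=
  ∀ (d : ℕ) (c : ℤ) (t C : ℕ), 1 ≤ C → ((d + 1 : ℕ) : ℤ) - c < 2 ^ t →
    (∀ q, Sur d (c - 1) t C q) →
    ∀ (q : ℤ) (n k m n' r : ℕ) (g : WS (Fin d) ≃ₗ[ZMod 2] WS (Fin k ⊕ Fin m)),
      (n : ℤ) = 2 ^ (C + t) * (q + 2 ^ (d + C)) - c → (n' : ℤ) = 2 ^ C * q - (k + 1 : ℕ) →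
      (r : ℤ) = (k + 1 : ℕ) - c → ∀ u ∈ Hg (Fin (k + 1)) n', ∀ ν ∈ Hg (Fin m) r,
        ∃ f, Lft c t C n (ee g) (SL k ^ 2 ^ (m + 2 * C) * u) ν f

/-- CK1 -/
def Stmt_CK1 : Prop :=
  P_OPB → P_NNB → P_SBB → P_LIN → P_PJB → P_PJE → P_UNI → P_LO1 → P_LO2 → P_RES → P_TRN → P_CK1

/-- CK2: lifts of the multiples by a power of `Sv v`. -/
def P_CK2 : Prop :=
  ∀ (d : ℕ) (c : ℤ) (t C : ℕ), 1 ≤ C → ((d + 1 : ℕ) : ℤ) - c < 2 ^ t →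
    (∀ q, Sur d (c - 1) t C q) → Cok d c t C

/-- CK2 -/
def Stmt_CK2 : Prop := P_SBB → P_LIN → P_RES → P_TRN → P_CK1 → P_CK2

/-- CK3: surjectivity in large degrees. -/
def P_CK3 : Prop :=
  ∀ (d : ℕ) (c : ℤ) (t C : ℕ), Cok d c t C → ∃ B : ℤ, ∀ q, B < q → Sur (d + 1) c t C q

/-- CK3 -/
def Stmt_CK3 : Prop := P_LIN → P_RES → P_TRN → P_NUL → P_CK3

/-- QZR: the degrees with `q ≤ 0` and the case without variables. -/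
def P_QZR : Prop :=
  (∀ (d : ℕ) (c : ℤ) (t C : ℕ) (q : ℤ), (d : ℤ) - c < 2 ^ t → q ≤ 0 →
    Inj d c t C q ∧ Sur d c t C q) ∧
  (∀ (c : ℤ) (t : ℕ), -c < 2 ^ t → ∃ C₀ : ℕ, ∀ C, C₀ ≤ C → ∀ q,
    Inj 0 c t C q ∧ Sur 0 c t C q)

/-- QZR -/
def Stmt_QZR : Prop := P_NNB → P_SBB → P_HTS → P_EXB → P_CTB → P_LIN → P_PJB → P_QZR

/-- DUB: dual bases. -/
def P_DUB : Prop :=
  ∀ m r : ℕ, ∃ (ν : Fin (qd (Fin m) r) → PS (Fin m))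
    (μ : Fin (qd (Fin m) r) → (PS (Fin m) →ₗ[ZMod 2] ZMod 2)),
    (∀ i, ν i ∈ Hg (Fin m) r) ∧
    (∀ i, (∀ f ∈ hits (Fin m), μ i f = 0) ∧ ∀ s, s ≠ r → ∀ f ∈ Hg (Fin m) s, μ i f = 0) ∧
    (∀ i j, μ i (ν j) = if i = j then 1 else 0) ∧
    ∀ μ' : PS (Fin m) →ₗ[ZMod 2] ZMod 2, (∀ f ∈ hits (Fin m), μ' f = 0) →
      (∀ s, s ≠ r → ∀ f ∈ Hg (Fin m) s, μ' f = 0) → μ' = ∑ i, μ' (ν i) • μ i

/-- DUB -/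
def Stmt_DUB : Prop := P_DUB

/-- The values of the operations `Os j (2 ^ t * κ)` with `J j κ`. -/
noncomputable def OH (σ : Type) (J : ℕ → ℕ → Prop) (t : ℕ) : Submodule (ZMod 2) (PS σ) :=
  Submodule.span (ZMod 2) {g | ∃ (j κ : ℕ) (f : PS σ), J j κ ∧ g = Os j (2 ^ t * κ) f}

/-- Surjectivity in the degrees which are needed for the operations of `J`. -/
def Shf (d : ℕ) (c : ℤ) (t C : ℕ) (q : ℤ) (J : ℕ → ℕ → Prop) : Prop :=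
  ∀ j κ : ℕ, J j κ → ∃ s : ℤ, (κ : ℤ) * (2 ^ (j + 1) - 1) = 2 ^ C * s ∧ Sur d c t C (q - s)

/-- LFG: lifts of values of operations. -/
def P_LFG : Prop :=
  ∀ (d : ℕ) (c : ℤ) (t C : ℕ) (q : ℤ) (J : ℕ → ℕ → Prop), Shf d c t C q J →
    ∀ (n k m n' r : ℕ) (g : WS (Fin d) ≃ₗ[ZMod 2] WS (Fin k ⊕ Fin m)),
      (n : ℤ) = 2 ^ (C + t) * q - c → (n' : ℤ) = 2 ^ C * q - k → (r : ℤ) = k - c →
      ∀ x ∈ OG (Fin k) J n', ∀ ν ∈ Hg (Fin m) r, ∃ f ∈ OH (Fin d) J t, Lft c t C n g x ν f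

/-- LFG -/
def Stmt_LFG : Prop := P_NNB → P_NRM → P_PJB → P_TRN → P_LFG

/-- DET: an element all of whose projections are values of operations of `J`. -/
def P_DET : Prop :=
  ∀ (d : ℕ) (c : ℤ) (t C : ℕ) (q : ℤ) (J : ℕ → ℕ → Prop), (d : ℤ) - c < 2 ^ t →
    Inj d c t C q → Shf d c t C q J →
    ∀ (n : ℕ) (f : PS (Fin d)), (n : ℤ) = 2 ^ (C + t) * q - c → f ∈ Hg (Fin d) n →
      (∀ (k m n' : ℕ) (g : WS (Fin d) ≃ₗ[ZMod 2] WS (Fin k ⊕ Fin m))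
        (μ : PS (Fin m) →ₗ[ZMod 2] ZMod 2), Ad c k m μ → (n' : ℤ) = 2 ^ C * q - k →
          pj t g μ f ∈ NN (Fin k) C ⊔ OG (Fin k) J n') →
      f ∈ NN (Fin d) (C + t) ⊔ OH (Fin d) J t

/-- DET -/
def Stmt_DET : Prop := P_NNB → P_SBB → P_LIN → P_PJB → P_UNI → P_DUB → P_LFG → P_DET

/-- FST: from one level to all larger ones. -/
def P_FST : Prop :=
  ∀ (d : ℕ) (c : ℤ) (t C : ℕ) (B : ℤ), (d : ℤ) - c < 2 ^ t →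
    (∀ q, B < q → Inj d c t C q ∧ Sur d c t C q) →
      ∃ C₀ : ℕ, ∀ C', C₀ ≤ C' → ∀ q, Inj d c t C' q ∧ Sur d c t C' q

/-- FST -/
def Stmt_FST : Prop := P_OPB → P_NNB → P_GEN → P_PJB → P_QZR → P_DET → P_FST

/-- MAI: injectivity and surjectivity for all large `C`. -/
def P_MAI : Prop :=
  ∀ (d : ℕ) (c : ℤ) (t : ℕ), (d : ℤ) - c < 2 ^ t →
    ∃ C₀ : ℕ, ∀ C, C₀ ≤ C → ∀ q, Inj d c t C q ∧ Sur d c t C q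

/-- MAI -/
def Stmt_MAI : Prop := P_KR1 → P_KR2 → P_CK2 → P_CK3 → P_QZR → P_FST → P_MAI

/-! ### 6. dimensions -/

/-- The right side of the formula. -/
noncomputable def RH (d : ℕ) (c : ℤ) (C : ℕ) (q : ℤ) : ℕ :=
  ∑ m ∈ Finset.range (d + 1), nsub d m *
    (qz (d - m) (2 ^ C * q - ((d - m : ℕ) : ℤ)) * qz m (((d - m : ℕ) : ℤ) - c))

/-- CNT: the count. -/
def P_CNT : Prop :=
  ∀ (d : ℕ) (c : ℤ) (t C : ℕ), (d : ℤ) - c < 2 ^ t →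
    (∀ q, Inj d c t C q ∧ Sur d c t C q) → ∀ (q : ℤ) (n : ℕ), (n : ℤ) = 2 ^ (C + t) * q - c →
      qd (Fin d) n = RH d c C q

/-- CNT -/
def Stmt_CNT : Prop :=
  P_OPB → P_NNB → P_SBB → P_HTS → P_LIN → P_PJB → P_UNI → P_DUB → P_DET → P_CNT

/-- GSP: the formula. -/
def P_GSP : Prop :=
  ∀ (d : ℕ) (c : ℤ), ∃ T : ℕ, ∀ t C : ℕ, T ≤ t → T ≤ C → ∀ q : ℤ, qz d (2 ^ t * q - c) = RH d c C q

/-- GSP -/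
def Stmt_GSP : Prop := P_MAI → P_CNT → P_GSP

/-- GAP: arithmetic of the gaps. -/
def P_GAP : Prop :=
  ∀ (D R : ℕ) (T : ℤ → ℕ), ∃ K : ℕ, ∀ x : ℤ,
    (∃ (r : ℤ) (N : ℕ), |r| ≤ R ∧ x + r = N ∧ HB.al N ≤ D) →
      ∃ (c : ℤ) (t : ℕ), |c| ≤ K ∧ T c < t ∧ t ≤ K ∧ (2 ^ t : ℤ) ∣ x + c

/-- GAP -/
def Stmt_GAP : Prop := P_GAP

/-- VNI: vanishing, from the earlier work. -/
def P_VNI : Prop :=
  ∀ d n : ℕ, qd (Fin d) n ≠ 0 → ∃ (r : ℤ) (N : ℕ), |r| ≤ d + 2 ^ (d + 1) ∧ (n : ℤ) + r = N ∧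
    HB.al N ≤ d

/-- VNI -/
def Stmt_VNI : Prop := P_VNI

/-- AUT: the dimensions form an automatic sequence. -/
def P_AUT : Prop :=
  ∀ d : ℕ, {g : ℕ → ℕ | ∃ e j : ℕ, j < 2 ^ e ∧ g = fun n => qd (Fin d) (2 ^ e * n + j)}.Finite

/-- AUT -/
def Stmt_AUT : Prop := P_GSP → P_GAP → P_VNI → P_AUT

/-- FIN: all but finitely many degrees reduce to smaller degrees or to fewer variables. -/
def P_FIN : Prop :=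
  ∀ d : ℕ, ∃ N : ℕ, ∀ n, N ≤ n → qd (Fin d) n = 0 ∨
    (∃ m, m < n ∧ n = 2 * m + d ∧ qd (Fin d) n = qd (Fin d) m) ∨
    ∃ (c q : ℤ) (t C : ℕ), c ≠ d ∧ |c| ≤ N ∧ t ≤ N ∧ C ≤ N ∧ 1 ≤ q ∧ (n : ℤ) = 2 ^ t * q - c ∧
      qd (Fin d) n = ∑ m ∈ Finset.Icc 1 d, nsub d m *
        (qz (d - m) (2 ^ C * q - ((d - m : ℕ) : ℤ)) * qz m (((d - m : ℕ) : ℤ) - c))

/-- FIN -/
def Stmt_FIN : Prop := P_GSP → P_GAP → P_VNI → P_FIN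

end HGP
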